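import Mathlib.Geometry.Manifold.Instances.Sphere
import Mathlib.Geometry.Manifold.Diffeomorph

/-!
# MP_48319b_gt : the definitions used in the handed in statement

2-knots, transverse immersions of the 2-sphere in 3-space, projections, triviality.
-/

open Metric Set Topology
open scoped Manifold ContDiff

namespace Pool.Agent.Work.MP_48319b_gt.Statement

abbrev E2 := EuclideanSpace ℝ (Fin 2)
abbrev E3 := EuclideanSpace ℝ (Fin 3)
abbrev E4 := EuclideanSpace ℝ (Fin 4)

/-- The unit sphere of `ℝ³`, with the smooth structure of Mathlib. -/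
abbrev S2 := sphere (0 : E3) 1

/-- The projection `ℝ⁴ → ℝ³` forgetting the last coordinate. -/
noncomputable def proj (x : E4) : E3 := !₂[x 0, x 1, x 2]

/-- smooth maps from the sphere to `ℝ³` -/
def Smooth3 (P : S2 → E3) : Prop := ContMDiff (𝓡 2) 𝓘(ℝ, E3) ∞ P

/-- smooth maps from the sphere to `ℝ⁴` -/
def Smooth4 (f : S2 → E4) : Prop := ContMDiff (𝓡 2) 𝓘(ℝ, E4) ∞ f

/-- the differential at `p` (the tangent space of the sphere at `p` is `E2` in Mathlib) -/
noncomputable def diff3 (P : S2 → E3) (p : S2) : E2 →L[ℝ] E3 := mfderiv (𝓡 2) 𝓘(ℝ, E3) P p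

/-- the differential at `p` -/
noncomputable def diff4 (f : S2 → E4) (p : S2) : E2 →L[ℝ] E4 := mfderiv (𝓡 2) 𝓘(ℝ, E4) f p

/-- the differential at `p` is injective -/
def Imm3 (P : S2 → E3) (p : S2) : Prop := Function.Injective (diff3 P p)

/-- the differential at `p` is injective -/
def Imm4 (f : S2 → E4) (p : S2) : Prop := Function.Injective (diff4 f p)

/-- A 2-knot: a smooth embedding of the (compact) 2-sphere in `ℝ⁴`, that is an injective
smooth immersion. -/
structure IsTwoKnot (f : S2 → E4) : Prop where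
  smooth : Smooth4 f
  injective : Function.Injective f
  immersion : ∀ p, Imm4 f p

/-- The tangent plane of `P` at `p`: the image of the differential, a linear subspace of `ℝ³`. -/
def tangentPlane (P : S2 → E3) (p : S2) : Set E3 := range (diff3 P p)

/-- two linear subspaces span `ℝ³` -/
def Spans (A B : Set E3) : Prop := ∀ x : E3, ∃ a ∈ A, ∃ b ∈ B, a + b = x

/-- three linear subspaces meet only in `0` -/
def MeetOnlyInZero (A B C : Set E3) : Prop := ∀ x : E3, x ∈ A → x ∈ B → x ∈ C → x = 0

/-- A transverse immersion of the 2-sphere in `ℝ³`: a smooth immersion in general position. -/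
structure IsTransverseImmersion (P : S2 → E3) : Prop where
  smooth : Smooth3 P
  immersion : ∀ p, Imm3 P p
  double : ∀ p q, p ≠ q → P p = P q → Spans (tangentPlane P p) (tangentPlane P q)
  triple : ∀ p q r, p ≠ q → q ≠ r → p ≠ r → P p = P q → P q = P r →
    MeetOnlyInZero (tangentPlane P p) (tangentPlane P q) (tangentPlane P r)
  quadruple : ∀ p q r s, p ≠ q → p ≠ r → p ≠ s → q ≠ r → q ≠ s → r ≠ s →
    P p = P q → P q = P r → P r = P s → False

/-- diffeomorphisms of the sphere -/
abbrev DiffS2 := Diffeomorph (𝓡 2) (𝓡 2) S2 S2 ∞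

/-- `P` is the projection of the 2-knot `f`, up to a reparametrisation of the sphere. -/
def IsProjection (P : S2 → E3) (f : S2 → E4) : Prop := ∃ φ : DiffS2, ∀ p, proj (f p) = P (φ p)

/-- The standard round 2-sphere in `ℝ³ × {0} ⊂ ℝ⁴`. -/
def roundSphere : Set E4 := {x | x 3 = 0 ∧ ‖x‖ = 1}

/-- smooth one parameter families of maps of `ℝ⁴` -/
def SmoothFamily (Φ : ℝ → E4 → E4) : Prop := ContDiff ℝ ∞ (fun z : ℝ × E4 => Φ z.1 z.2)

/-- Smooth triviality: a smooth ambient isotopy `Φ` of `ℝ⁴` (with smooth inverse family `Ψ`)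
from the identity carries the image of `f` onto the round sphere. -/
def IsTrivial (f : S2 → E4) : Prop :=
  ∃ Φ Ψ : ℝ → E4 → E4, SmoothFamily Φ ∧ SmoothFamily Ψ ∧ (∀ t x, Ψ t (Φ t x) = x) ∧
    (∀ t x, Φ t (Ψ t x) = x) ∧ (∀ x, Φ 0 x = x) ∧ Φ 1 '' range f = roundSphere

/-- Topological triviality: some homeomorphism of `ℝ⁴` carries the image of `f` onto the round
sphere (any orientation behaviour, no isotopy). -/
def IsTopTrivial (f : S2 → E4) : Prop := ∃ Φ : E4 ≃ₜ E4, Φ '' range f = roundSphere

end Pool.Agent.Work.MP_48319b_gt.Statement
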