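import Pool.Agent.Work.MP_48319b_gt.Defs

/-!
# MP_48319b_gt : statements of the general (soft) items

Every item is a `Prop`; the item is finished when a file `Pool/Agent/Work/MP_48319b_gt/<Name>.lean`
contains `theorem <name> : <Name>`.
-/

open Metric Set Topology
open scoped Manifold ContDiff

namespace Pool.Agent.Work.MP_48319b_gt

/-! ### R : the round sphere -/

/-- [48319b R] the fundamental group of the complement of the round sphere is abelian -/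
def RoundAbelian : Prop :=
  ∀ (x0 : (roundSphereᶜ : Set E4)) (a b : FundamentalGroup (roundSphereᶜ : Set E4) x0),
    a * b = b * a

/-! ### C : the covering -/

/-- [48319b C] the covering defined by a coloured surface; two top sheets with non commuting
colours give two non commuting loops. -/
def CovThm : Prop :=
  ∀ (S G : Type) [TopologicalSpace S] [CompactSpace S] [T2Space S] [Group G]
    (P : S → E3) (h : S → ℝ) (b : S → E3 → Prop) (c : S → G),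
    Continuous P → Continuous h → Function.Injective (fun p => (P p, h p)) →
    Sides P b → ColourRule P h b c →
    (∃ p1 p2, (∀ q, P q = P p1 → h q ≤ h p1) ∧ (∀ q, P q = P p2 → h q ≤ h p2) ∧
      c p1 * c p2 ≠ c p2 * c p1) →
    NonAb (Compl P h)

/-! ### F : fibrewise homeomorphism -/

/-- [48319b F] two lifts with the same order on every fibre -/
def FibThm : Prop :=
  ∀ (S : Type) [TopologicalSpace S] [CompactSpace S] [T2Space S] (P : S → E3) (h0 h1 : S → ℝ),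
    Continuous P → Continuous h0 → Continuous h1 → (∀ p, ∃ O ∈ 𝓝 p, InjOn P O) →
    (∀ p q, p ≠ q → P p = P q → h0 p ≠ h0 q) →
    (∀ p q, P p = P q → (h0 p < h0 q ↔ h1 p < h1 q)) →
    ∃ Θ : (E3 × ℝ) ≃ₜ (E3 × ℝ), ∀ p, Θ (P p, h0 p) = (P p, h1 p)

/-! ### L : Lipschitz isotopies -/

/-- linear interpolation -/
def kk (k0 k1 : E2 → E3 × ℝ) (s : ℝ) (p : E2) : E3 × ℝ := (1 - s) • k0 p + s • k1 p

/-- [48319b L1] a linear path of uniformly bi-Lipschitz embeddings is realised by an ambient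
homeomorphism supported in any open set containing the moving part -/
def LipThm : Prop :=
  ∀ (k0 k1 : E2 → E3 × ℝ) (m R : ℝ) (U : Set (E3 × ℝ)), 0 < m →
    (∃ L, LipschitzWith L k0) → (∃ L, LipschitzWith L k1) → IsOpen U →
    (∀ p, R ≤ ‖p‖ → k0 p = k1 p) →
    (∀ s ∈ Icc (0 : ℝ) 1, ∀ p, ‖p‖ ≤ R → kk k0 k1 s p ∈ U) →
    (∀ s ∈ Icc (0 : ℝ) 1, ∀ p q, m * ‖p - q‖ ≤ ‖kk k0 k1 s p - kk k0 k1 s q‖) →
    ∃ Φ : (E3 × ℝ) ≃ₜ (E3 × ℝ), (∀ p, Φ (k0 p) = k1 p) ∧ ∀ z, z ∉ U → Φ z = z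

/-- uniform monotone charts, common to `f` and `f0` -/
def UnifMono (f f0 : E2 → E3) (m r C : ℝ) : Prop :=
  0 < m ∧ 0 < r ∧ ∀ x, ∃ Q : E3 →L[ℝ] E2, ‖Q‖ ≤ C ∧ MonoAt f x Q m r ∧ MonoAt f0 x Q m r

/-- [48319b L2] pointwise monotone charts give uniform ones -/
def UnifMonoThm : Prop :=
  ∀ f f0 : E2 → E3, (∀ x, 2 / 5 ≤ ‖x‖ → f x = emb x) → (∀ x, 2 / 5 ≤ ‖x‖ → f0 x = emb x) →
    (∀ x, ∃ Q m r, 0 < m ∧ 0 < r ∧ MonoAt f x Q m r ∧ MonoAt f0 x Q m r) →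
    ∃ m r C, UnifMono f f0 m r C

/-- [48319b L3] the hypothesis of `LipThm` for the smoothed knot and the piecewise linear one -/
def BiLipThm : Prop :=
  ∀ (f f0 : E2 → E3) (g : E2 → ℝ) (F : ℝ → E2 → E3) (H : ℝ → E2 → ℝ) (m r C : ℝ),
    (∃ K, LipschitzWith K f) → (∃ K, LipschitzWith K f0) → (∃ K, LipschitzWith K g) →
    (∀ x, 2 / 5 ≤ ‖x‖ → f x = emb x) → (∀ x, 2 / 5 ≤ ‖x‖ → f0 x = emb x) →
    (∀ x, 2 / 5 ≤ ‖x‖ → g x = 0) →
    (∀ x, ‖x‖ ≤ 2 / 5 → ‖f x‖ ≤ 2 / 5) → (∀ x, ‖x‖ ≤ 2 / 5 → ‖f0 x‖ ≤ 2 / 5) →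
    UnifMono f f0 m r C → Approx f F → ApproxH g H →
    (∀ s ∈ Icc (0 : ℝ) 1, Function.Injective fun p => ((1 - s) • f p + s • f0 p, g p)) →
    ∃ ε0 > 0, ∀ ε, 0 < ε → ε < ε0 → ∃ m' > 0, ∀ s ∈ Icc (0 : ℝ) 1, ∀ p q,
      m' * ‖p - q‖ ≤ ‖kk (fun x => (F ε x, H ε x)) (fun x => (f0 x, g x)) s p -
        kk (fun x => (F ε x, H ε x)) (fun x => (f0 x, g x)) s q‖

/-- [48319b L4] a homeomorphism of `ℝ³ × ℝ` which is the identity outside the unit cylinder,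
conjugated by the inversion -/
def CompactHomeo : Prop :=
  ∀ Φ : (E3 × ℝ) ≃ₜ (E3 × ℝ), (∀ z, 1 ≤ ‖z.1‖ → Φ z = z) →
    ∃ Ψ : (E3 × ℝ) ≃ₜ (E3 × ℝ), (∀ x s, x ≠ north →
      Ψ (inv x, s) = (inv (Φ (x, s)).1, (Φ (x, s)).2)) ∧ ∀ s, Ψ (north, s) = (north, s)

/-! ### M : mollification -/

/-- [48319b M1] -/
def MollThm : Prop := ∀ f : E2 → E3, (∃ K, LipschitzWith K f) → ∃ F, Approx f F

/-- [48319b M1] -/
def MollHThm : Prop := ∀ g : E2 → ℝ, (∃ K, LipschitzWith K g) → ∃ H, ApproxH g H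

/-- [48319b M2] -/
def ImmThm : Prop :=
  ∀ (F : E2 → E3) (x : E2) (Q : E3 →L[ℝ] E2) (m r : ℝ), ContDiff ℝ ∞ F → 0 < m → 0 < r →
    MonoAt F x Q m r → Function.Injective (fderiv ℝ F x)

/-- [48319b M3] the double set of the approximations is close to the double set of `f` -/
def DDNear : Prop :=
  ∀ (f : E2 → E3) (F : ℝ → E2 → E3), GenericPL f → Approx f F → ∀ U : Set (E2 × E2),
    IsOpen U → DD f ⊆ U → ∃ ε0 > 0, ∀ ε, 0 < ε → ε < ε0 → DD (F ε) ⊆ U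

/-- [48319b M4] local structure of the double set of the approximations -/
def LocalThm : Prop :=
  ∀ (f : E2 → E3) (F : ℝ → E2 → E3), GenericPL f → Approx f F → ∀ p q, (p, q) ∈ DD f →
    TransFlat f p q → ∀ W ∈ 𝓝 (p, q), ∃ N ⊆ W, IsOpen N ∧ (p, q) ∈ N ∧
      ∃ ε0 > 0, ∀ ε, 0 < ε → ε < ε0 → IsPreconnected (DD (F ε) ∩ N) ∧
        (DD (F ε) ∩ N).Nonempty ∧ ∀ z ∈ DD (F ε) ∩ N,
          LinearMap.range (fderiv ℝ (F ε) z.1 : E2 →ₗ[ℝ] E3) ⊔
            LinearMap.range (fderiv ℝ (F ε) z.2 : E2 →ₗ[ℝ] E3) = ⊤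

/-- [48319b M5] signs propagate along connected pieces of the double set -/
def PropagThm : Prop :=
  ∀ (f : E2 → E3) (F : ℝ → E2 → E3), GenericPL f → Approx f F → ∀ C : Set (E2 × E2),
    IsCompact C → IsPreconnected C → C ⊆ DD f →
    ∃ U : Set (E2 × E2), IsOpen U ∧ C ⊆ U ∧ ∃ ε0 > 0, ∀ ε, 0 < ε → ε < ε0 →
      ∀ h : E2 → ℝ, Continuous h → (∀ z ∈ DD (F ε), h z.1 ≠ h z.2) →
        (∀ z ∈ DD (F ε) ∩ U, h z.1 < h z.2) ∨ (∀ z ∈ DD (F ε) ∩ U, h z.2 < h z.1)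

/-- [48319b M6] the approximations are in general position -/
def GPThm : Prop :=
  ∀ (f : E2 → E3) (F : ℝ → E2 → E3), GenericPL f → Approx f F →
    ∃ ε0 > 0, ∀ ε, 0 < ε → ε < ε0 → LongGP (F ε)

/-- [48319b M7] the sign theorem: all lifts have the same order pattern up to mirror image -/
def SignThm : Prop :=
  ∀ (f : E2 → E3) (F : ℝ → E2 → E3) (g : E2 → ℝ) (H : ℝ → E2 → ℝ) (C1 C2 : Set (E2 × E2)),
    GenericPL f → Approx f F → Continuous g → ApproxH g H → SignData f g C1 C2 →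
    ∃ ε0 > 0, ∀ ε, 0 < ε → ε < ε0 → (∀ p q, (p, q) ∈ DD (F ε) → H ε p ≠ H ε q) ∧
      ∀ h : E2 → ℝ, Continuous h → (∀ p q, (p, q) ∈ DD (F ε) → h p ≠ h q) →
        (∀ p q, (p, q) ∈ DD (F ε) → (h p < h q ↔ H ε p < H ε q)) ∨
        (∀ p q, (p, q) ∈ DD (F ε) → (h p < h q ↔ H ε q < H ε p))

/-! ### S : the sphere -/

/-- [48319b S1] from long planes to spheres -/
def SphThm : Prop := ∀ F : E2 → E3, LongGP F → IsTransverseImmersion (sph F)

/-- [48319b S2] the knot over `sph F` with height `hsph H` -/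
def SphKnot : Prop :=
  ∀ (F : E2 → E3) (H : E2 → ℝ), LongGP F → ContDiff ℝ ∞ H → (∀ x, 1 / 2 ≤ ‖x‖ → H x = 0) →
    (∀ p q, (p, q) ∈ DD F → H p ≠ H q) →
    IsTwoKnot (fun p => !₂[sph F p 0, sph F p 1, sph F p 2, hsph H p])

/-- [48319b S3] transport of the colouring from the plane to the sphere -/
def TransportCov : Prop :=
  ∀ (G : Type) [Group G] (f0 : E2 → E3) (g : E2 → ℝ) (b0 : E2 → E3 → Prop) (c0 : E2 → G)
    (cinf : G), Continuous f0 → Continuous g → (∀ x, 2 / 5 ≤ ‖x‖ → f0 x = emb x) →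
    (∀ x, ‖x‖ ≤ 2 / 5 → ‖f0 x‖ ≤ 2 / 5) → (∀ x, 2 / 5 ≤ ‖x‖ → g x = 0) →
    Sides f0 b0 → ColourRule f0 g b0 c0 →
    (∀ x, 1 / 2 ≤ ‖x‖ → c0 x = cinf ∧ ∀ᶠ y in 𝓝 (emb x), (b0 x y ↔ y 2 < 0)) →
    ∃ (b : S2 → E3 → Prop) (c : S2 → G), Sides (sph f0) b ∧ ColourRule (sph f0) (hsph g) b c ∧
      ∀ p : S2, p.1 ≠ north → c p = c0 (st p)

/-! ### P : piecewise affine maps -/

/-- `f` is piecewise affine with pieces `C i` and linear parts `A i` -/
structure PA {ι : Type} {V : Type*} [NormedAddCommGroup V] [NormedSpace ℝ V]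
    (C : ι → Set E2) (f : E2 → V) (A : ι → E2 →L[ℝ] V) : Prop where
  closed : ∀ i, IsClosed (C i)
  cover : ∀ x, ∃ i, x ∈ C i
  aff : ∀ i, ∀ p ∈ C i, ∀ q ∈ C i, f p - f q = A i (p - q)

/-- [48319b P1] piecewise affine maps are Lipschitz -/
def PALip : Prop :=
  ∀ (ι : Type) [Finite ι] (V : Type) [NormedAddCommGroup V] [NormedSpace ℝ V]
    [FiniteDimensional ℝ V] (C : ι → Set E2) (f : E2 → V) (A : ι → E2 →L[ℝ] V), PA C f A →
    ∃ K, LipschitzWith K f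

/-- [48319b P1] positivity of the pieces at `x` gives a monotone chart at `x` -/
def PAMono : Prop :=
  ∀ (ι : Type) [Finite ι] (C : ι → Set E2) (f : E2 → E3) (A : ι → E2 →L[ℝ] E3) (x : E2)
    (Q : E3 →L[ℝ] E2), PA C f A →
    (∀ i, x ∈ C i → ∀ u : E2, u ≠ 0 → 0 < inner ℝ u (Q (A i u))) →
    ∃ m r, 0 < m ∧ 0 < r ∧ MonoAt f x Q m r

/-- determinant of three vectors -/
noncomputable def det3 (u v w : E3) : ℝ :=
  u 0 * (v 1 * w 2 - v 2 * w 1) - u 1 * (v 0 * w 2 - v 2 * w 0) + u 2 * (v 0 * w 1 - v 1 * w 0)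

/-- [48319b P2] side functions of an oriented piecewise affine surface with monotone charts:
near `f0 x` every point is uniquely `f0 q + t • n x` with `(q, t)` near `(x, 0)`, and it is on
the negative side iff `t < 0`. -/
def SidesPL : Prop :=
  ∀ (ι : Type) [Finite ι] (C : ι → Set E2) (f0 : E2 → E3) (A : ι → E2 →L[ℝ] E3)
    (Q : E2 → E3 →L[ℝ] E2) (n : E2 → E3), PA C f0 A → (∀ i, C i ⊆ closure (interior (C i))) →
    (∀ x i, x ∈ C i → ∀ u : E2, u ≠ 0 → 0 < inner ℝ u (Q x (A i u))) →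
    (∀ x, Q x (n x) = 0) →
    (∀ x i, x ∈ C i → 0 < det3 (A i !₂[1, 0]) (A i !₂[0, 1]) (n x)) →
    ∃ b0 : E2 → E3 → Prop, Sides f0 b0 ∧
      (∀ x, ∀ᶠ z in 𝓝 ((x, 0) : E2 × ℝ), (b0 x (f0 z.1 + z.2 • n x) ↔ z.2 < 0)) ∧
      ∀ x, 𝓝 (f0 x) ≤ Filter.map (fun z : E2 × ℝ => f0 z.1 + z.2 • n x) (𝓝 ((x, 0) : E2 × ℝ))

/-- [48319b P3] the side of a whole sector is determined by one ray -/
def SectorThm : Prop :=
  ∀ (f0 : E2 → E3) (b0 : E2 → E3 → Prop) (T : Set E2) (x u : E2) (β : Prop), Continuous f0 →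
    Sides f0 b0 → Convex ℝ T → f0 u = f0 x → u ≠ x →
    (∀ q ∈ interior T, ∀ p, f0 p = f0 q → p = q) →
    (∃ᶠ q in 𝓝[interior T] x, (b0 u (f0 q) ↔ β)) →
    ∀ᶠ q in 𝓝[interior T] x, (b0 u (f0 q) ↔ β)

open Classical in
/-- product of the colours of the sheets above, for the sector `i` at `x` -/
noncomputable def wside {G ι : Type} [Group G] (side : E2 → ι → E2 → Prop) (c : E2 → G)
    (x : E2) (i : ι) (l : List E2) : G := (l.map fun u => if side x i u then c u else 1).prod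

/-- [48319b P4] the colour rule from the sectors -/
def ColourPL : Prop :=
  ∀ (G ι : Type) [Group G] [Finite ι] (C : ι → Set E2) (f0 : E2 → E3) (g : E2 → ℝ)
    (b0 : E2 → E3 → Prop) (c0 : E2 → G) (col : ι → G) (side : E2 → ι → E2 → Prop),
    (∀ i, IsClosed (C i)) → (∀ x, ∃ i, x ∈ C i) → (∀ i, C i ⊆ closure (interior (C i))) →
    Continuous f0 → Continuous g → (∀ x, 2 / 5 ≤ ‖x‖ → f0 x = emb x) →
    Function.Injective (fun x => (f0 x, g x)) → Sides f0 b0 →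
    (∀ x i u, x ∈ C i → f0 u = f0 x → g x < g u →
      ∀ᶠ q in 𝓝[interior (C i)] x, (b0 u (f0 q) ↔ side x i u)) →
    (∀ x i l, x ∈ C i → IsStack f0 g (f0 x) (g x) l →
      col i = wside side c0 x i l * c0 x * (wside side c0 x i l)⁻¹) →
    ColourRule f0 g b0 c0

/-! ### A : the assembly -/

/-- [48319b A] everything together: the piecewise linear package gives the main statement. -/
def Assembly : Prop :=
  RoundAbelian → CovThm → FibThm → LipThm → UnifMonoThm → BiLipThm → CompactHomeo → MollThm →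
    MollHThm → GPThm → SignThm → SphThm → SphKnot → TransportCov →
    (∃ f f0 g C1 C2, PLPackage f f0 g C1 C2) → MainStatement

end Pool.Agent.Work.MP_48319b_gt
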