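import Pool.Agent.Work.MP_48319b_gt.Defs
import Pool.Agent.Work.MP_48319b_gt.Stmts

/-!
# MP_48319b_gt, item A : the assembly
-/

open Metric Set Topology
open scoped Manifold ContDiff

namespace Pool.Agent.Work.MP_48319b_gt
namespace ItemA

/-! ### Fundamental groups and homeomorphisms -/

/-- two loops do not commute -/
def NA (X : Type*) [TopologicalSpace X] : Prop :=
  ∃ (x0 : X) (a b : FundamentalGroup X x0), a * b ≠ b * a

theorem NA.congr {X Y : Type*} [TopologicalSpace X] [TopologicalSpace Y] (e : X ≃ₜ Y)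
    (h : NA X) : NA Y := by
  obtain ⟨x0, a, b, hab⟩ := h
  refine ⟨e x0, FundamentalGroup.map (e : C(X, Y)) x0 a,
    FundamentalGroup.map (e : C(X, Y)) x0 b, ?_⟩
  intro h
  rw [← map_mul, ← map_mul] at h
  have hcomp : CategoryTheory.Functor.comp (FundamentalGroupoid.map (e : C(X, Y)))
      (FundamentalGroupoid.map (e.symm : C(Y, X))) = CategoryTheory.Functor.id _ := by
    rw [← FundamentalGroupoid.map_comp, ← FundamentalGroupoid.map_id]
    congr 1
    ext x
    simp
  have hf : (FundamentalGroupoid.map (e : C(X, Y))).Faithful :=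
    CategoryTheory.Functor.Faithful.of_comp_eq hcomp
  exact hab (hf.map_injective h)

theorem nonAb_compl {S T : Type*} (P : S → E3) (h : S → ℝ) (P' : T → E3) (h' : T → ℝ)
    (Θ : (E3 × ℝ) ≃ₜ (E3 × ℝ)) (hΘ : Θ '' (range fun p => (P p, h p)) = range fun p => (P' p, h' p))
    (H : NonAb (Compl P h)) : NonAb (Compl P' h') := by
  refine NA.congr (Θ.subtype ?_) H
  intro z
  change z ∉ _ ↔ Θ z ∉ _
  rw [← hΘ, not_iff_not]
  exact (Θ.injective.mem_set_image).symm

/-! ### Coordinates -/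

theorem norm_sq3 (y : E3) : ‖y‖ ^ 2 = y 0 ^ 2 + y 1 ^ 2 + y 2 ^ 2 := by
  rw [EuclideanSpace.norm_sq_eq, Fin.sum_univ_three]
  simp [sq_abs]

theorem norm_sq2 (y : E2) : ‖y‖ ^ 2 = y 0 ^ 2 + y 1 ^ 2 := by
  rw [EuclideanSpace.norm_sq_eq, Fin.sum_univ_two]
  simp [sq_abs]

@[simp] theorem emb_0 (x : E2) : emb x 0 = x 0 := by simp [emb]
@[simp] theorem emb_1 (x : E2) : emb x 1 = x 1 := by simp [emb]
@[simp] theorem emb_2 (x : E2) : emb x 2 = 0 := by simp [emb]
@[simp] theorem north_0 : north 0 = 0 := by simp [north]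
@[simp] theorem north_1 : north 1 = 0 := by simp [north]
@[simp] theorem north_2 : north 2 = 1 := by simp [north]

theorem norm_emb (x : E2) : ‖emb x‖ = ‖x‖ := by
  have : ‖emb x‖ ^ 2 = ‖x‖ ^ 2 := by rw [norm_sq3, norm_sq2]; simp
  exact (sq_eq_sq₀ (norm_nonneg _) (norm_nonneg _)).1 this

theorem norm_north : ‖north‖ = 1 := by
  have : ‖north‖ ^ 2 = 1 ^ 2 := by rw [norm_sq3]; simp
  exact (sq_eq_sq₀ (norm_nonneg _) zero_le_one).1 this

theorem emb_ne_north (x : E2) : emb x ≠ north := by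
  intro h
  have := congrArg (fun y : E3 => y 2) h
  simp at this

theorem ext3 {a b : E3} (h0 : a 0 = b 0) (h1 : a 1 = b 1) (h2 : a 2 = b 2) : a = b := by
  ext i; fin_cases i <;> assumption

theorem ext2 {a b : E2} (h0 : a 0 = b 0) (h1 : a 1 = b 1) : a = b := by
  ext i; fin_cases i <;> assumption

theorem inv_apply (y : E3) (i : Fin 3) :
    inv y i = north i + 2 / ‖y - north‖ ^ 2 * (y i - north i) := by
  simp [inv]

theorem inv_north : inv north = north := by simp [inv]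

theorem inv_sub_north (y : E3) : inv y - north = (2 / ‖y - north‖ ^ 2) • (y - north) := by
  simp [inv]

theorem inv_ne_north {y : E3} (hy : y ≠ north) : inv y ≠ north := by
  intro h
  have h1 := inv_sub_north y
  rw [h, sub_self] at h1
  have hn : ‖y - north‖ ≠ 0 := by rwa [norm_ne_zero_iff, sub_ne_zero]
  rcases smul_eq_zero.1 h1.symm with h2 | h2
  · exact (div_ne_zero two_ne_zero (pow_ne_zero 2 hn)) h2
  · exact hy (sub_eq_zero.1 h2)

theorem inv_inv {y : E3} (hy : y ≠ north) : inv (inv y) = y := by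
  have hn : ‖y - north‖ ≠ 0 := by rwa [norm_ne_zero_iff, sub_ne_zero]
  have h1 := inv_sub_north y
  have h2 : ‖inv y - north‖ = 2 / ‖y - north‖ := by
    rw [h1, norm_smul, Real.norm_eq_abs, abs_of_nonneg (by positivity)]
    field_simp
  have h3 : inv (inv y) = north + (2 / ‖inv y - north‖ ^ 2) • (inv y - north) := rfl
  rw [h3, h2, h1, smul_smul]
  have : 2 / (2 / ‖y - north‖) ^ 2 * (2 / ‖y - north‖ ^ 2) = 1 := by
    field_simp
  rw [this]; simp

theorem inv_injOn {y z : E3} (hy : y ≠ north) (hz : z ≠ north) (h : inv y = inv z) : y = z := by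
  rw [← inv_inv hy, ← inv_inv hz, h]

theorem norm_emb_sub (x : E2) : ‖emb x - north‖ ^ 2 = ‖x‖ ^ 2 + 1 := by
  rw [norm_sq3, norm_sq2]; simp

theorem norm_inv_emb (x : E2) : ‖inv (emb x)‖ = 1 := by
  have : ‖inv (emb x)‖ ^ 2 = 1 ^ 2 := by
    rw [norm_sq3, inv_apply, inv_apply, inv_apply, norm_emb_sub]
    simp only [emb_0, emb_1, emb_2, north_0, north_1, north_2]
    have hx := norm_sq2 x
    have hp : (0 : ℝ) < ‖x‖ ^ 2 + 1 := by positivity
    rw [hx] at hp ⊢
    field_simp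
    ring
  exact (sq_eq_sq₀ (norm_nonneg _) zero_le_one).1 this

/-- inverse of the stereographic projection -/
noncomputable def stI (x : E2) : S2 := ⟨inv (emb x), by simp [norm_inv_emb]⟩

theorem stI_coe (x : E2) : (stI x).1 = inv (emb x) := rfl

theorem stI_ne (x : E2) : (stI x).1 ≠ north := inv_ne_north (emb_ne_north x)

theorem st_stI (x : E2) : st (stI x) = x := by
  have hp : (0 : ℝ) < ‖x‖ ^ 2 + 1 := by positivity
  apply ext2 <;> simp only [st, stI_coe, inv_apply, norm_emb_sub] <;> simp <;> field_simp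

theorem coord2_ne (p : S2) (hp : p.1 ≠ north) : p.1 2 < 1 := by
  have h1 : ‖p.1‖ ^ 2 = 1 := by
    have := p.2
    simp only [mem_sphere_iff_norm, sub_zero] at this
    rw [this]; norm_num
  rw [norm_sq3] at h1
  by_contra hc
  rw [not_lt] at hc
  have h2 : p.1 2 = 1 := by nlinarith [sq_nonneg (p.1 0), sq_nonneg (p.1 1)]
  have h3 : p.1 0 = 0 := by nlinarith [sq_nonneg (p.1 0), sq_nonneg (p.1 1)]
  have h4 : p.1 1 = 0 := by nlinarith [sq_nonneg (p.1 0), sq_nonneg (p.1 1)]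
  exact hp (ext3 (by simp [h3]) (by simp [h4]) (by simp [h2]))

theorem norm_sq_S2 (p : S2) : p.1 0 ^ 2 + p.1 1 ^ 2 + p.1 2 ^ 2 = 1 := by
  rw [← norm_sq3]
  have := p.2
  simp only [mem_sphere_iff_norm, sub_zero] at this
  rw [this]; norm_num

theorem norm_st (p : S2) (hp : p.1 ≠ north) : ‖st p‖ ^ 2 + 1 = 2 / (1 - p.1 2) := by
  have h := coord2_ne p hp
  have h1 : 1 - p.1 2 ≠ 0 := by linarith
  have h2 := norm_sq_S2 p
  rw [norm_sq2]
  simp only [st]
  simp only [Matrix.cons_val_zero, Matrix.cons_val_one]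
  field_simp
  nlinarith

theorem stI_st (p : S2) (hp : p.1 ≠ north) : stI (st p) = p := by
  have h := coord2_ne p hp
  have h1 : 1 - p.1 2 ≠ 0 := by linarith
  apply Subtype.ext
  have hn := norm_st p hp
  apply ext3 <;> rw [stI_coe, inv_apply, norm_emb_sub, hn] <;> simp [st] <;> field_simp

theorem inv_emb_st (p : S2) (hp : p.1 ≠ north) : inv (emb (st p)) = p.1 := by
  have := congrArg Subtype.val (stI_st p hp)
  exact this

theorem continuous_emb : Continuous emb := by
  unfold emb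
  fun_prop

theorem continuousAt_inv {y : E3} (hy : y ≠ north) : ContinuousAt inv y := by
  have hn : ‖y - north‖ ^ 2 ≠ 0 := by
    apply pow_ne_zero; rwa [norm_ne_zero_iff, sub_ne_zero]
  unfold inv
  fun_prop (disch := assumption)

theorem continuous_stI : Continuous stI := by
  refine Continuous.subtype_mk ?_ _
  rw [continuous_iff_continuousAt]
  intro x
  have h : ContinuousAt (inv ∘ emb) x :=
    ContinuousAt.comp (continuousAt_inv (emb_ne_north x)) continuous_emb.continuousAt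
  exact h

theorem continuousAt_st (p : S2) (hp : p.1 ≠ north) : ContinuousAt st p := by
  have h := coord2_ne p hp
  have h1 : 1 - p.1 2 ≠ 0 := by linarith
  unfold st
  fun_prop (disch := assumption)

theorem sph_north (F : E2 → E3) (p : S2) (hp : p.1 = north) : sph F p = north := by
  simp [sph, hp]

theorem sph_ne (F : E2 → E3) (p : S2) (hp : p.1 ≠ north) : sph F p = inv (F (st p)) := by
  simp [sph, hp]

theorem hsph_north (H : E2 → ℝ) (p : S2) (hp : p.1 = north) : hsph H p = 0 := by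
  simp [hsph, hp]

theorem hsph_ne (H : E2 → ℝ) (p : S2) (hp : p.1 ≠ north) : hsph H p = H (st p) := by
  simp [hsph, hp]

theorem sph_stI (F : E2 → E3) (x : E2) : sph F (stI x) = inv (F x) := by
  rw [sph_ne _ _ (stI_ne x), st_stI]

theorem hsph_stI (H : E2 → ℝ) (x : E2) : hsph H (stI x) = H x := by
  rw [hsph_ne _ _ (stI_ne x), st_stI]

theorem norm_st_ge (p : S2) (hp : p.1 ≠ north) (h : 0 ≤ p.1 2) : 1 ≤ ‖st p‖ := by
  have h1 := norm_st p hp
  have h2 := coord2_ne p hp
  have h3 : 2 ≤ 2 / (1 - p.1 2) := by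
    rw [le_div_iff₀ (by linarith)]
    linarith
  have h4 : 1 ≤ ‖st p‖ ^ 2 := by linarith
  by_contra hc
  rw [not_le] at hc
  nlinarith [norm_nonneg (st p)]

theorem upper_mem_nhds (p : S2) (hp : p.1 = north) : ∀ᶠ q : S2 in 𝓝 p, 0 < q.1 2 := by
  have hc : Continuous fun q : S2 => q.1 2 := by fun_prop
  have h : (0 : ℝ) < p.1 2 := by rw [hp]; simp
  exact hc.continuousAt.eventually (lt_mem_nhds h)

theorem ne_mem_nhds (p : S2) (hp : p.1 ≠ north) : ∀ᶠ q : S2 in 𝓝 p, q.1 ≠ north :=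
  continuous_subtype_val.continuousAt.eventually_ne hp

theorem sph_upper (F : E2 → E3) (hfar : ∀ x, 1 / 2 ≤ ‖x‖ → F x = emb x) (p : S2)
    (h : 0 < p.1 2) : sph F p = p.1 := by
  by_cases hp : p.1 = north
  · rw [sph_north _ _ hp, hp]
  · rw [sph_ne _ _ hp, hfar _ (by linarith [norm_st_ge p hp h.le]), inv_emb_st p hp]

theorem hsph_upper (H : E2 → ℝ) (hfar : ∀ x, 1 / 2 ≤ ‖x‖ → H x = 0) (p : S2)
    (h : 0 < p.1 2) : hsph H p = 0 := by
  by_cases hp : p.1 = north
  · rw [hsph_north _ _ hp]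
  · rw [hsph_ne _ _ hp, hfar _ (by linarith [norm_st_ge p hp h.le])]

theorem continuous_sph (F : E2 → E3) (hF : Continuous F)
    (hfar : ∀ x, 1 / 2 ≤ ‖x‖ → F x = emb x) (hne : ∀ x, F x ≠ north) : Continuous (sph F) := by
  rw [continuous_iff_continuousAt]
  intro p
  by_cases hp : p.1 = north
  · have h : sph F =ᶠ[𝓝 p] fun q => q.1 := by
      filter_upwards [upper_mem_nhds p hp] with q hq
      exact sph_upper F hfar q hq
    exact continuous_subtype_val.continuousAt.congr h.symm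
  · have h : sph F =ᶠ[𝓝 p] fun q => inv (F (st q)) := by
      filter_upwards [ne_mem_nhds p hp] with q hq
      exact sph_ne F q hq
    refine ContinuousAt.congr ?_ h.symm
    have h1 : ContinuousAt (fun q => F (st q)) p :=
      ContinuousAt.comp hF.continuousAt (continuousAt_st p hp)
    exact ContinuousAt.comp (g := inv) (f := fun q => F (st q)) (continuousAt_inv (hne _)) h1

theorem continuous_hsph (H : E2 → ℝ) (hH : Continuous H)
    (hfar : ∀ x, 1 / 2 ≤ ‖x‖ → H x = 0) : Continuous (hsph H) := by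
  rw [continuous_iff_continuousAt]
  intro p
  by_cases hp : p.1 = north
  · have h : hsph H =ᶠ[𝓝 p] fun _ => 0 := by
      filter_upwards [upper_mem_nhds p hp] with q hq
      exact hsph_upper H hfar q hq
    exact continuousAt_const.congr h.symm
  · have h : hsph H =ᶠ[𝓝 p] fun q => H (st q) := by
      filter_upwards [ne_mem_nhds p hp] with q hq
      exact hsph_ne H q hq
    refine ContinuousAt.congr ?_ h.symm
    exact ContinuousAt.comp (g := H) hH.continuousAt (continuousAt_st p hp)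

theorem sph_eq_north (F : E2 → E3) (hne : ∀ x, F x ≠ north) (p : S2) :
    sph F p = north ↔ p.1 = north := by
  constructor
  · intro h
    by_contra hp
    rw [sph_ne _ _ hp] at h
    exact inv_ne_north (hne _) h
  · exact sph_north F p

/-- two distinct points of the sphere with the same image come from the double set -/
theorem sph_double (F : E2 → E3) (hne : ∀ x, F x ≠ north) (p q : S2) (hpq : p ≠ q)
    (h : sph F p = sph F q) :
    p.1 ≠ north ∧ q.1 ≠ north ∧ (st p, st q) ∈ DD F := by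
  have hp : p.1 ≠ north := by
    intro hp
    have hq := (sph_eq_north F hne q).1 (by rw [← h, sph_north F p hp])
    exact hpq (Subtype.ext (hp.trans hq.symm))
  have hq : q.1 ≠ north := by
    intro hq
    have hp' := (sph_eq_north F hne p).1 (by rw [h, sph_north F q hq])
    exact hp hp'
  refine ⟨hp, hq, ?_, ?_⟩
  · intro hst
    apply hpq
    rw [← stI_st p hp, ← stI_st q hq]
    exact congrArg stI hst
  · rw [sph_ne _ _ hp, sph_ne _ _ hq] at h
    exact inv_injOn (hne _) (hne _) h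

theorem sph_locInj (F : E2 → E3) (hfar : ∀ x, 1 / 2 ≤ ‖x‖ → F x = emb x)
    (hne : ∀ x, F x ≠ north) (hloc : ∀ x, ∃ r > 0, InjOn F (ball x r)) :
    ∀ p, ∃ O ∈ 𝓝 p, InjOn (sph F) O := by
  intro p
  by_cases hp : p.1 = north
  · refine ⟨{q : S2 | 0 < q.1 2}, upper_mem_nhds p hp, ?_⟩
    intro a ha b hb hab
    rw [sph_upper F hfar a ha, sph_upper F hfar b hb] at hab
    exact Subtype.ext hab
  · obtain ⟨r, hr, hinj⟩ := hloc (st p)
    refine ⟨{q : S2 | q.1 ≠ north ∧ st q ∈ ball (st p) r}, ?_, ?_⟩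
    · filter_upwards [ne_mem_nhds p hp,
        (continuousAt_st p hp).eventually (ball_mem_nhds _ hr)] with q hq hq'
      exact ⟨hq, hq'⟩
    · rintro a ⟨ha, ha'⟩ b ⟨hb, hb'⟩ hab
      rw [sph_ne _ _ ha, sph_ne _ _ hb] at hab
      have := hinj ha' hb' (inv_injOn (hne _) (hne _) hab)
      rw [← stI_st a ha, ← stI_st b hb, this]

/-! ### The homeomorphism `ℝ⁴ = ℝ³ × ℝ` -/

noncomputable def e4 : E4 ≃ₜ E3 × ℝ where
  toFun x := (proj x, x 3)
  invFun z := !₂[z.1 0, z.1 1, z.1 2, z.2]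
  left_inv x := by ext i; fin_cases i <;> simp [proj]
  right_inv z := by
    refine Prod.ext ?_ ?_
    · apply ext3 <;> simp [proj]
    · simp
  continuous_toFun := by unfold proj; fun_prop
  continuous_invFun := by fun_prop

/-! ### The explicit covering -/

theorem covering_nonab (hC : CovThm) (hT : TransportCov) {f0 : E2 → E3} {g : E2 → ℝ}
    (hf0 : Continuous f0) (hg : Continuous g) (far0 : ∀ x, 2 / 5 ≤ ‖x‖ → f0 x = emb x)
    (near0 : ∀ x, ‖x‖ ≤ 2 / 5 → ‖f0 x‖ ≤ 2 / 5) (farg : ∀ x, 2 / 5 ≤ ‖x‖ → g x = 0)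
    (hinj : Function.Injective fun p => (f0 p, g p)) (cov : HasCovering f0 g)
    (hne : ∀ x, f0 x ≠ north) : NonAb (Compl (sph f0) (hsph g)) := by
  obtain ⟨G, iG, b0, c0, cinf, hs, hcr, hinf, x1, x2, h1, h2, h12⟩ := cov
  obtain ⟨b, c, hb, hc, hcc⟩ := hT G f0 g b0 c0 cinf hf0 hg far0 near0 farg hs hcr hinf
  have top : ∀ x1, (∀ q, f0 q = f0 x1 → g q ≤ g x1) →
      ∀ q, sph f0 q = sph f0 (stI x1) → hsph g q ≤ hsph g (stI x1) := by
    intro x1 h1 q hq
    rw [sph_stI] at hq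
    have hqn : q.1 ≠ north := by
      intro h
      rw [sph_north _ _ h] at hq
      exact inv_ne_north (hne _) hq.symm
    rw [sph_ne _ _ hqn] at hq
    rw [hsph_stI, hsph_ne _ _ hqn]
    exact h1 _ (inv_injOn (hne _) (hne _) hq)
  refine hC S2 G (sph f0) (hsph g) b c
    (continuous_sph f0 hf0 (fun x hx => far0 x (by linarith)) hne)
    (continuous_hsph g hg (fun x hx => farg x (by linarith))) ?_ hb hc
    ⟨stI x1, stI x2, top x1 h1, top x2 h2, ?_⟩
  · intro p q hpq
    simp only [Prod.mk.injEq] at hpq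
    by_contra hne'
    obtain ⟨hp, hq, hd⟩ := sph_double f0 hne p q hne' hpq.1
    rw [hsph_ne _ _ hp, hsph_ne _ _ hq] at hpq
    exact hd.1 (hinj (Prod.ext hd.2 hpq.2))
  · rw [hcc _ (stI_ne x1), hcc _ (stI_ne x2), st_stI, st_stI]
    exact h12

/-! ### The transfer from the smooth to the piecewise linear knot -/

theorem transfer (hL : LipThm) (hI : CompactHomeo) {f0 F : E2 → E3} {g H : E2 → ℝ} {m' : ℝ}
    (hm : 0 < m') (hF : ∃ L, LipschitzWith L F) (hH : ∃ L, LipschitzWith L H)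
    (hf0 : ∃ L, LipschitzWith L f0) (hg : ∃ L, LipschitzWith L g)
    (hfarF : ∀ x, 1 / 2 ≤ ‖x‖ → F x = emb x) (hfarH : ∀ x, 1 / 2 ≤ ‖x‖ → H x = 0)
    (far0 : ∀ x, 1 / 2 ≤ ‖x‖ → f0 x = emb x) (farg : ∀ x, 1 / 2 ≤ ‖x‖ → g x = 0)
    (nearF : ∀ x, ‖x‖ ≤ 1 / 2 → ‖F x‖ < 1) (near0 : ∀ x, ‖x‖ ≤ 1 / 2 → ‖f0 x‖ < 1)
    (hneF : ∀ x, F x ≠ north)
    (hbi : ∀ s ∈ Icc (0 : ℝ) 1, ∀ p q,
      m' * ‖p - q‖ ≤ ‖kk (fun x => (F x, H x)) (fun x => (f0 x, g x)) s p -
        kk (fun x => (F x, H x)) (fun x => (f0 x, g x)) s q‖)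
    (hNA : NonAb (Compl (sph f0) (hsph g))) : NonAb (Compl (sph F) (hsph H)) := by
  obtain ⟨LF, hLF⟩ := hF
  obtain ⟨LH, hLH⟩ := hH
  obtain ⟨Lf, hLf⟩ := hf0
  obtain ⟨Lg, hLg⟩ := hg
  have hU : IsOpen {z : E3 × ℝ | ‖z.1‖ < 1} := by
    have : Continuous fun z : E3 × ℝ => ‖z.1‖ := by fun_prop
    exact isOpen_lt this continuous_const
  obtain ⟨Φ, hΦ, hΦ'⟩ := hL (fun x => (F x, H x)) (fun x => (f0 x, g x)) m' (1 / 2)
    {z | ‖z.1‖ < 1} hm ⟨_, hLF.prodMk hLH⟩ ⟨_, hLf.prodMk hLg⟩ hU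
    (fun p hp => by simp only [hfarF p hp, hfarH p hp, far0 p hp, farg p hp])
    (by
      intro s hs p hp
      change ‖((1 - s) • (F p, H p) + s • (f0 p, g p) : E3 × ℝ).1‖ < 1
      simp only [Prod.fst_add, Prod.smul_fst]
      have h1 := nearF p hp
      have h2 := near0 p hp
      have h3 : (1 - s) • F p + s • f0 p ∈ ball (0 : E3) 1 :=
        convex_ball (0 : E3) 1 (by simpa using h1) (by simpa using h2) (by linarith [hs.2]) hs.1
          (by ring)
      simpa using h3) hbi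
  obtain ⟨Ψ, hΨ, hΨn⟩ := hI Φ (fun z hz => hΦ' z (by simpa using hz))
  have key : ∀ p : S2, Ψ (sph F p, hsph H p) = (sph f0 p, hsph g p) := by
    intro p
    by_cases hp : p.1 = north
    · rw [sph_north _ _ hp, hsph_north _ _ hp, sph_north _ _ hp, hsph_north _ _ hp, hΨn]
    · rw [sph_ne _ _ hp, hsph_ne _ _ hp, sph_ne _ _ hp, hsph_ne _ _ hp, hΨ _ _ (hneF _)]
      have := hΦ (st p)
      rw [this]
  refine nonAb_compl _ _ _ _ Ψ.symm ?_ hNA
  rw [← range_comp]
  congr 1
  funext p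
  simp only [Function.comp]
  rw [← key p, Homeomorph.symm_apply_apply]

/-! ### All lifts -/

theorem lift_nonab (hF : FibThm) {F : E2 → E3} {H : E2 → ℝ} (hFc : Continuous F)
    (hHc : Continuous H) (hfarF : ∀ x, 1 / 2 ≤ ‖x‖ → F x = emb x)
    (hfarH : ∀ x, 1 / 2 ≤ ‖x‖ → H x = 0) (hneF : ∀ x, F x ≠ north)
    (hloc : ∀ x, ∃ r > 0, InjOn F (ball x r)) (hHne : ∀ p q, (p, q) ∈ DD F → H p ≠ H q)
    (h' : S2 → ℝ) (hc : Continuous h')
    (hord : ∀ p q, (p, q) ∈ DD F → (h' (stI p) < h' (stI q) ↔ H p < H q))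
    (hNA : NonAb (Compl (sph F) (hsph H))) : NonAb (Compl (sph F) h') := by
  obtain ⟨Θ, hΘ⟩ := hF S2 (sph F) (hsph H) h' (continuous_sph F hFc hfarF hneF)
    (continuous_hsph H hHc hfarH) hc (sph_locInj F hfarF hneF hloc)
    (by
      intro p q hpq h
      obtain ⟨hp, hq, hd⟩ := sph_double F hneF p q hpq h
      rw [hsph_ne _ _ hp, hsph_ne _ _ hq]
      exact hHne _ _ hd)
    (by
      intro p q h
      by_cases hpq : p = q
      · subst hpq; simp
      · obtain ⟨hp, hq, hd⟩ := sph_double F hneF p q hpq h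
        rw [hsph_ne _ _ hp, hsph_ne _ _ hq, ← hord _ _ hd, stI_st p hp, stI_st q hq])
  refine nonAb_compl _ _ _ _ Θ ?_ hNA
  rw [← range_comp]
  congr 1
  funext p
  exact hΘ p

/-- mirror image in the last coordinate -/
def mirror : (E3 × ℝ) ≃ₜ (E3 × ℝ) := (Homeomorph.refl E3).prodCongr (Homeomorph.neg ℝ)

theorem mirror_nonab {S : Type*} (P : S → E3) (h : S → ℝ)
    (hNA : NonAb (Compl P fun p => -h p)) : NonAb (Compl P h) := by
  refine nonAb_compl _ _ _ _ mirror ?_ hNA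
  rw [← range_comp]
  congr 1
  funext p
  simp [mirror]

/-- a surface whose complement is not abelian is not trivial -/
theorem not_topTrivial (hR : RoundAbelian) {P : S2 → E3} {k : S2 → E4}
    (φ : Diffeomorph (𝓡 2) (𝓡 2) S2 S2 ∞) (hφ : ∀ p, proj (k p) = P (φ p))
    (hNA : NonAb (Compl P fun p => k (φ.symm p) 3)) : ¬ IsTopTrivial k := by
  rintro ⟨Φ, hΦ⟩
  have h1 : ∀ p : S2, e4 (k p) = (P (φ p), k (φ.symm (φ p)) 3) := by
    intro p
    have : e4 (k p) = (proj (k p), k p 3) := rfl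
    rw [this, hφ p, Diffeomorph.symm_apply_apply]
  have hs : ∀ z : E3 × ℝ, z ∈ Compl P (fun p => k (φ.symm p) 3) ↔
      (e4.symm.trans Φ) z ∈ (roundSphereᶜ : Set E4) := by
    intro z
    have : z ∈ Compl P (fun p => k (φ.symm p) 3) ↔ z ∉ range fun p => (P p, k (φ.symm p) 3) :=
      Iff.rfl
    rw [this, mem_compl_iff, not_iff_not, ← hΦ]
    constructor
    · rintro ⟨p, rfl⟩
      refine ⟨k (φ.symm p), ⟨_, rfl⟩, ?_⟩
      have h2 := h1 (φ.symm p)
      rw [Diffeomorph.apply_symm_apply] at h2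
      simp only at h2 ⊢
      rw [← h2, Homeomorph.trans_apply, Homeomorph.symm_apply_apply]
    · rintro ⟨y, ⟨p, rfl⟩, hy⟩
      rw [Homeomorph.trans_apply] at hy
      have h3 := Φ.injective hy
      refine ⟨φ p, ?_⟩
      simp only
      rw [← h1 p, h3, Homeomorph.apply_symm_apply]
  obtain ⟨x0, a, b, hab⟩ := NA.congr ((e4.symm.trans Φ).subtype hs) hNA
  exact hab (hR x0 a b)

theorem topTrivial_of_trivial {k : S2 → E4} (h : IsTrivial k) : IsTopTrivial k := by
  obtain ⟨Φ, Ψ, hΦ, hΨ, h1, h2, -, h3⟩ := h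
  refine ⟨⟨⟨Φ 1, Ψ 1, h1 1, h2 1⟩, ?_, ?_⟩, h3⟩
  · exact hΦ.continuous.comp (by fun_prop : Continuous fun x : E4 => ((1 : ℝ), x))
  · exact hΨ.continuous.comp (by fun_prop : Continuous fun x : E4 => ((1 : ℝ), x))

theorem main (hR : RoundAbelian) (hC : CovThm) (hF : FibThm) (hL : LipThm) (hU : UnifMonoThm)
    (hB : BiLipThm) (hI : CompactHomeo) (hM : MollThm) (hMH : MollHThm) (hGP : GPThm)
    (hS : SignThm) (hSp : SphThm) (hSK : SphKnot) (hT : TransportCov)
    (hP : ∃ f f0 g C1 C2, PLPackage f f0 g C1 C2) : MainStatement := by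
  obtain ⟨f, f0, g, C1, C2, pk⟩ := hP
  obtain ⟨F', hA⟩ := hM f pk.gen.lip
  obtain ⟨H', hAH⟩ := hMH g pk.lipg
  obtain ⟨m, r, C, hum⟩ := hU f f0 pk.gen.far pk.far0 pk.bimono
  obtain ⟨ε1, hε1, hb⟩ := hB f f0 g F' H' m r C pk.gen.lip pk.lip0 pk.lipg pk.gen.far pk.far0
    pk.farg pk.gen.near pk.near0 hum hA hAH pk.inj
  obtain ⟨ε2, hε2, hgp⟩ := hGP f F' pk.gen hA
  have hgc : Continuous g := (pk.lipg).choose_spec.continuous
  have hf0c : Continuous f0 := (pk.lip0).choose_spec.continuous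
  obtain ⟨ε3, hε3, hsg⟩ := hS f F' g H' C1 C2 pk.gen hA hgc hAH pk.sign
  have hr : 0 < r := hum.2.1
  obtain ⟨ε, hε, e1, e2, e3, e4', e5⟩ : ∃ ε : ℝ, 0 < ε ∧ ε < ε1 ∧ ε < ε2 ∧ ε < ε3 ∧ ε < r / 2 ∧
      ε < 1 / 20 := by
    obtain ⟨ε, h0, h1⟩ := exists_between
      (show (0 : ℝ) < min ε1 (min ε2 (min ε3 (min (r / 2) (1 / 20)))) by positivity)
    simp only [lt_min_iff] at h1
    exact ⟨ε, h0, h1.1, h1.2.1, h1.2.2.1, h1.2.2.2.1, h1.2.2.2.2⟩
  obtain ⟨m', hm', hbi⟩ := hb ε hε e1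
  have hLG := hgp ε hε e2
  obtain ⟨hHne, hord⟩ := hsg ε hε e3
  have hFlip : ∃ L, LipschitzWith L (F' ε) := by
    obtain ⟨K, hK⟩ := hA.lip; exact ⟨K, hK ε hε⟩
  have hHlip : ∃ L, LipschitzWith L (H' ε) := by
    obtain ⟨K, hK⟩ := hAH.lip; exact ⟨K, hK ε hε⟩
  have hFsm := hA.smooth ε hε
  have hHsm := hAH.smooth ε hε
  set F := F' ε with hFdef
  set H := H' ε with hHdef
  have hfarH : ∀ x, 1 / 2 ≤ ‖x‖ → H x = 0 := by
    intro x hx
    have haff : AffAt g x (0 : E2 →L[ℝ] ℝ) (1 / 10) := by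
      intro p' hp'
      have h1 : ‖p' - x‖ < 1 / 10 := by simpa [dist_eq_norm] using hp'
      have h2 : 2 / 5 ≤ ‖p'‖ := by
        have := norm_sub_norm_le x p'
        rw [norm_sub_rev] at this
        linarith
      rw [pk.farg p' h2, pk.farg x (by linarith)]
      simp
    have := hAH.aff x 0 (1 / 10) haff ε hε (by linarith) x (mem_ball_self (by norm_num))
    rw [hHdef, this, pk.farg x (by linarith)]
  have hneF : ∀ x, F x ≠ north := by
    intro x h
    rcases le_total ‖x‖ (1 / 2) with hx | hx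
    · have := hLG.near x hx
      rw [h, norm_north] at this
      exact lt_irrefl _ this
    · rw [hLG.far x hx] at h
      exact emb_ne_north x h
  have near0' : ∀ x, ‖x‖ ≤ 1 / 2 → ‖f0 x‖ < 1 := by
    intro x hx
    rcases le_total ‖x‖ (2 / 5) with hx' | hx'
    · linarith [pk.near0 x hx']
    · rw [pk.far0 x hx', norm_emb]; linarith
  have hne0 : ∀ x, f0 x ≠ north := by
    intro x h
    rcases le_total ‖x‖ (1 / 2) with hx | hx
    · have := near0' x hx
      rw [h, norm_north] at this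
      exact lt_irrefl _ this
    · rw [pk.far0 x (by linarith)] at h
      exact emb_ne_north x h
  have hloc : ∀ x, ∃ r > 0, InjOn F (ball x r) := by
    intro x
    obtain ⟨Q, -, hQ, -⟩ := hum.2.2 x
    have hmono := hA.mono x Q m r hQ ε hε e4'
    refine ⟨r / 2, by positivity, ?_⟩
    intro p hp q hq hpq
    have h1 := hmono p hp q hq
    rw [← hFdef, hpq, sub_self, map_zero, inner_zero_right] at h1
    have h2 : ‖p - q‖ ^ 2 ≤ 0 := by
      by_contra hc
      rw [not_le] at hc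
      have := mul_pos hum.1 hc
      linarith
    have h3 : ‖p - q‖ = 0 := by
      have := sq_nonneg ‖p - q‖
      exact pow_eq_zero_iff (two_ne_zero) |>.1 (le_antisymm h2 this)
    exact sub_eq_zero.1 (norm_eq_zero.1 h3)
  have hinj0 : Function.Injective fun p => (f0 p, g p) := by
    have := pk.inj 1 ⟨zero_le_one, le_refl _⟩
    simpa using this
  have hNA0 : NonAb (Compl (sph f0) (hsph g)) :=
    covering_nonab hC hT hf0c hgc pk.far0 pk.near0 pk.farg hinj0 pk.cov hne0
  have hNA : NonAb (Compl (sph F) (hsph H)) :=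
    transfer hL hI hm' hFlip hHlip pk.lip0 pk.lipg hLG.far hfarH
      (fun x hx => pk.far0 x (by linarith)) (fun x hx => pk.farg x (by linarith)) hLG.near near0'
      hneF hbi hNA0
  refine ⟨sph F, hSp F hLG, ⟨_, hSK F H hLG hHsm hfarH hHne, Diffeomorph.refl _ _ _, ?_⟩, ?_⟩
  · intro p
    apply ext3 <;> simp [proj]
  · rintro k hk ⟨φ, hφ⟩
    have hnt : ¬ IsTopTrivial k := by
      refine not_topTrivial hR φ hφ ?_
      have hkc : Continuous k := hk.smooth.continuous
      have hc : Continuous fun p : S2 => k (φ.symm p) 3 := by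
        have h1 : Continuous fun p : S2 => k (φ.symm p) := hkc.comp φ.symm.continuous
        fun_prop
      have hne : ∀ p q, (p, q) ∈ DD F → k (φ.symm (stI p)) 3 ≠ k (φ.symm (stI q)) 3 := by
        rintro p q ⟨hpq, hFpq⟩ h
        have h1 : proj (k (φ.symm (stI p))) = proj (k (φ.symm (stI q))) := by
          rw [hφ, hφ, Diffeomorph.apply_symm_apply, Diffeomorph.apply_symm_apply, sph_stI,
            sph_stI]
          exact congrArg inv hFpq
        have h2 : e4 (k (φ.symm (stI p))) = e4 (k (φ.symm (stI q))) := Prod.ext h1 h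
        have h3 := φ.symm.injective (hk.injective (e4.injective h2))
        apply hpq
        have h4 := congrArg st h3
        rwa [st_stI, st_stI] at h4
      have hcI : Continuous fun x : E2 => k (φ.symm (stI x)) 3 := hc.comp continuous_stI
      rcases hord (fun x => k (φ.symm (stI x)) 3) hcI hne with h | h
      · exact lift_nonab hF hFsm.continuous hHsm.continuous hLG.far hfarH hneF hloc hHne _ hc
          (fun p q hpq => h p q hpq) hNA
      · refine mirror_nonab _ _ ?_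
        refine lift_nonab hF hFsm.continuous hHsm.continuous hLG.far hfarH hneF hloc hHne _
          hc.neg (fun p q hpq => ?_) hNA
        have hqp : (q, p) ∈ DD F := ⟨hpq.1.symm, hpq.2.symm⟩
        rw [neg_lt_neg_iff]
        exact h q p hqp
    exact ⟨hnt, fun ht => hnt (topTrivial_of_trivial ht)⟩

end ItemA

theorem assembly : Assembly := ItemA.main

end Pool.Agent.Work.MP_48319b_gt
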