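import Mathlib

/-!
# MP_48319b_gt : the definitions used in the final statement

2-knots, transverse immersions of the 2-sphere in 3-space, projections, triviality.
-/

open Metric Set Topology
open scoped Manifold ContDiff

namespace Pool.Agent.Work.MP_48319b_gt

abbrev E3 := EuclideanSpace ℝ (Fin 3)
abbrev E4 := EuclideanSpace ℝ (Fin 4)
/-- the standard smooth 2-sphere -/
abbrev S2 := sphere (0 : E3) 1

/-! ### The objects of the problem -/

/-- The projection `ℝ⁴ → ℝ³` forgetting the last coordinate. -/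
noncomputable def proj (x : E4) : E3 := !₂[x 0, x 1, x 2]

/-- A 2-knot: a smooth embedding of the (compact) 2-sphere in `ℝ⁴`, that is an injective
smooth immersion. -/
structure IsTwoKnot (f : S2 → E4) : Prop where
  smooth : ContMDiff (𝓡 2) 𝓘(ℝ, E4) ∞ f
  injective : Function.Injective f
  immersion : ∀ p, Function.Injective (mfderiv (𝓡 2) 𝓘(ℝ, E4) f p)

/-- The tangent plane of `P` at `p`, a linear subspace of `ℝ³`. -/
noncomputable def tangentPlane (P : S2 → E3) (p : S2) : Submodule ℝ E3 :=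
  LinearMap.range (mfderiv (𝓡 2) 𝓘(ℝ, E3) P p).toLinearMap

/-- A transverse immersion of the 2-sphere in `ℝ³`: a smooth immersion in general position. -/
structure IsTransverseImmersion (P : S2 → E3) : Prop where
  smooth : ContMDiff (𝓡 2) 𝓘(ℝ, E3) ∞ P
  immersion : ∀ p, Function.Injective (mfderiv (𝓡 2) 𝓘(ℝ, E3) P p)
  double : ∀ p q, p ≠ q → P p = P q → tangentPlane P p ⊔ tangentPlane P q = ⊤
  triple : ∀ p q r, p ≠ q → q ≠ r → p ≠ r → P p = P q → P q = P r →
    tangentPlane P p ⊓ tangentPlane P q ⊓ tangentPlane P r = ⊥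
  quadruple : ∀ p q r s, p ≠ q → p ≠ r → p ≠ s → q ≠ r → q ≠ s → r ≠ s →
    P p = P q → P q = P r → P r = P s → False

/-- `P` is the projection of the 2-knot `f`, up to a reparametrisation of the sphere. -/
def IsProjection (P : S2 → E3) (f : S2 → E4) : Prop :=
  ∃ φ : Diffeomorph (𝓡 2) (𝓡 2) S2 S2 ∞, ∀ p, proj (f p) = P (φ p)

/-- The standard round 2-sphere in `ℝ³ × {0} ⊂ ℝ⁴`. -/
def roundSphere : Set E4 := {x | x 3 = 0 ∧ ‖x‖ = 1}

/-- Smooth triviality: a smooth ambient isotopy `Φ` of `ℝ⁴` (with smooth inverse family `Ψ`)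
from the identity carries the image of `f` onto the round sphere. -/
def IsTrivial (f : S2 → E4) : Prop :=
  ∃ Φ Ψ : ℝ → E4 → E4, ContDiff ℝ ∞ (fun z : ℝ × E4 => Φ z.1 z.2) ∧
    ContDiff ℝ ∞ (fun z : ℝ × E4 => Ψ z.1 z.2) ∧ (∀ t x, Ψ t (Φ t x) = x) ∧
    (∀ t x, Φ t (Ψ t x) = x) ∧ (∀ x, Φ 0 x = x) ∧ Φ 1 '' range f = roundSphere

/-- Topological triviality: some homeomorphism of `ℝ⁴` carries the image of `f` onto the round
sphere (any orientation behaviour, no isotopy). -/
def IsTopTrivial (f : S2 → E4) : Prop :=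
  ∃ Φ : E4 ≃ₜ E4, Φ '' range f = roundSphere

/-- The final statement. -/
def MainStatement : Prop :=
  ∃ P : S2 → E3, IsTransverseImmersion P ∧ (∃ f, IsTwoKnot f ∧ IsProjection P f) ∧
    ∀ f, IsTwoKnot f → IsProjection P f → ¬ IsTopTrivial f ∧ ¬ IsTrivial f

end Pool.Agent.Work.MP_48319b_gt
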