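import Pool.Agent.Work.MP_48319b_gt.Defs

/-!
# MP_48319b_gt : basic facts on `inv`, `st`, `emb`
-/

open Metric Set Topology
open scoped Manifold ContDiff

namespace Pool.Agent.Work.MP_48319b_gt

namespace Inv

@[simp] theorem north_0 : north 0 = 0 := by simp [north]
@[simp] theorem north_1 : north 1 = 0 := by simp [north]
@[simp] theorem north_2 : north 2 = 1 := by simp [north]
@[simp] theorem emb_0 (x : E2) : emb x 0 = x 0 := by simp [emb]
@[simp] theorem emb_1 (x : E2) : emb x 1 = x 1 := by simp [emb]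
@[simp] theorem emb_2 (x : E2) : emb x 2 = 0 := by simp [emb]
@[simp] theorem st_0 (p : S2) : st p 0 = p.1 0 / (1 - p.1 2) := by simp [st]
@[simp] theorem st_1 (p : S2) : st p 1 = p.1 1 / (1 - p.1 2) := by simp [st]

theorem norm_sq3 (y : E3) : ‖y‖ ^ 2 = y 0 ^ 2 + y 1 ^ 2 + y 2 ^ 2 := by
  rw [EuclideanSpace.norm_sq_eq, Fin.sum_univ_three]
  simp only [Real.norm_eq_abs, sq_abs]

theorem norm_sq2 (y : E2) : ‖y‖ ^ 2 = y 0 ^ 2 + y 1 ^ 2 := by
  rw [EuclideanSpace.norm_sq_eq, Fin.sum_univ_two]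
  simp only [Real.norm_eq_abs, sq_abs]

theorem ext3 {x y : E3} (h0 : x 0 = y 0) (h1 : x 1 = y 1) (h2 : x 2 = y 2) : x = y := by
  ext i
  fin_cases i
  · exact h0
  · exact h1
  · exact h2

theorem ext2 {x y : E2} (h0 : x 0 = y 0) (h1 : x 1 = y 1) : x = y := by
  ext i
  fin_cases i
  · exact h0
  · exact h1

theorem norm_north : ‖north‖ = 1 := by
  have h : ‖north‖ ^ 2 = 1 := by rw [norm_sq3]; simp
  nlinarith [norm_nonneg north]

theorem norm_emb (x : E2) : ‖emb x‖ = ‖x‖ := by
  have h : ‖emb x‖ ^ 2 = ‖x‖ ^ 2 := by rw [norm_sq3, norm_sq2]; simp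
  exact (sq_eq_sq₀ (norm_nonneg _) (norm_nonneg _)).1 h

theorem emb_injective : Function.Injective emb := fun x y h =>
  ext2 (by simpa using congrArg (fun z : E3 => z 0) h) (by simpa using congrArg (fun z : E3 => z 1) h)

theorem emb_ne_north (x : E2) : emb x ≠ north := fun h => by
  have := congrArg (fun z : E3 => z 2) h
  simp at this

/-- `emb` as a continuous linear map -/
noncomputable def embL : E2 →L[ℝ] E3 :=
  LinearMap.toContinuousLinearMap
    { toFun := emb
      map_add' := fun x y => ext3 (by simp) (by simp) (by simp)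
      map_smul' := fun c x => ext3 (by simp) (by simp) (by simp) }

theorem embL_apply (x : E2) : embL x = emb x := rfl

theorem continuous_emb : Continuous emb := embL.continuous

theorem contDiff_emb {n : WithTop ℕ∞} : ContDiff ℝ n emb := embL.contDiff

/-! ### The inversion -/

theorem inv_sub (y : E3) : inv y - north = (2 / ‖y - north‖ ^ 2) • (y - north) := by
  simp [inv]

theorem inv_north : inv north = north := by simp [inv]

theorem norm_inv_sub (y : E3) : ‖inv y - north‖ = 2 / ‖y - north‖ := by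
  rw [inv_sub, norm_smul, Real.norm_eq_abs, abs_of_nonneg (by positivity)]
  rcases eq_or_ne (‖y - north‖) 0 with h | h
  · rw [h]; simp
  · field_simp

theorem inv_inv (y : E3) : inv (inv y) = y := by
  rcases eq_or_ne y north with h | h
  · rw [h, inv_north, inv_north]
  · have h0 : ‖y - north‖ ≠ 0 := norm_ne_zero_iff.2 (sub_ne_zero.2 h)
    have h1 : inv (inv y) - north = y - north := by
      rw [inv_sub (inv y), norm_inv_sub, inv_sub, smul_smul]
      have : 2 / (2 / ‖y - north‖) ^ 2 * (2 / ‖y - north‖ ^ 2) = 1 := by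
        field_simp
      rw [this, one_smul]
    exact sub_left_injective h1

theorem inv_eq_north_iff {y : E3} : inv y = north ↔ y = north := by
  constructor
  · intro h
    rw [← inv_inv y, h, inv_north]
  · rintro rfl
    exact inv_north

theorem inv_injective : Function.Injective inv := fun x y h => by
  rw [← inv_inv x, h, inv_inv]

theorem contDiffAt_inv {y : E3} (h : y ≠ north) {n : WithTop ℕ∞} : ContDiffAt ℝ n inv y := by
  have h0 : ‖y - north‖ ^ 2 ≠ 0 := pow_ne_zero _ (norm_ne_zero_iff.2 (sub_ne_zero.2 h))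
  have h1 : ContDiffAt ℝ n (fun y : E3 => ‖y - north‖ ^ 2) y :=
    ((contDiff_id.sub contDiff_const).norm_sq ℝ).contDiffAt
  exact contDiffAt_const.add ((contDiffAt_const.div h1 h0).smul
    (contDiffAt_id.sub contDiffAt_const))

theorem continuousAt_inv {y : E3} (h : y ≠ north) : ContinuousAt inv y :=
  (contDiffAt_inv h (n := 0)).continuousAt

theorem differentiableAt_inv {y : E3} (h : y ≠ north) : DifferentiableAt ℝ inv y :=
  (contDiffAt_inv h (n := 1)).differentiableAt (by norm_num)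

/-- the derivative of `inv` at `y`, composed with that at `inv y`, is the identity -/
theorem fderiv_inv_comp {y : E3} (h : y ≠ north) :
    (fderiv ℝ inv (inv y)).comp (fderiv ℝ inv y) = ContinuousLinearMap.id ℝ E3 := by
  have h1 : inv y ≠ north := fun h' => h (inv_eq_north_iff.1 h')
  have h2 : HasFDerivAt (fun z => inv (inv z)) ((fderiv ℝ inv (inv y)).comp (fderiv ℝ inv y)) y :=
    (differentiableAt_inv h1).hasFDerivAt.comp y (differentiableAt_inv h).hasFDerivAt
  have h3 : (fun z => inv (inv z)) = id := funext inv_inv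
  rw [h3] at h2
  exact h2.unique (hasFDerivAt_id y)

theorem fderiv_inv_injective {y : E3} (h : y ≠ north) : Function.Injective (fderiv ℝ inv y) := by
  intro u v huv
  have h1 := congrArg (fun L : E3 →L[ℝ] E3 => L u) (fderiv_inv_comp h)
  have h2 := congrArg (fun L : E3 →L[ℝ] E3 => L v) (fderiv_inv_comp h)
  simp only [ContinuousLinearMap.comp_apply, ContinuousLinearMap.id_apply] at h1 h2
  rw [← h1, huv, h2]

theorem fderiv_inv_surjective {y : E3} (h : y ≠ north) : Function.Surjective (fderiv ℝ inv y) := by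
  have h1 : inv y ≠ north := fun h' => h (inv_eq_north_iff.1 h')
  intro v
  refine ⟨fderiv ℝ inv (inv y) v, ?_⟩
  have h2 := congrArg (fun L : E3 →L[ℝ] E3 => L v) (fderiv_inv_comp h1)
  simpa [inv_inv] using h2

/-- points close to `north` go far away -/
theorem le_norm_inv {y : E3} (h : y ≠ north) {R : ℝ}
    (h1 : ‖y - north‖ * (R + 1) ≤ 2) : R ≤ ‖inv y‖ := by
  have h0 : 0 < ‖y - north‖ := norm_pos_iff.2 (sub_ne_zero.2 h)
  have h2 : R + 1 ≤ ‖inv y - north‖ := by
    rw [norm_inv_sub, le_div_iff₀ h0]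
    linarith
  have h3 : ‖inv y - north‖ ≤ ‖inv y‖ + ‖north‖ := norm_sub_le _ _
  rw [norm_north] at h3
  linarith

theorem eventually_le_norm_inv (R : ℝ) : ∀ᶠ y in 𝓝 north, y ≠ north → R ≤ ‖inv y‖ := by
  have h0 : 0 < 2 / (|R| + 1) := by positivity
  filter_upwards [ball_mem_nhds north h0] with y hy hn
  rw [mem_ball, dist_eq_norm, lt_div_iff₀ (by positivity)] at hy
  exact (le_abs_self R).trans (le_norm_inv hn hy.le)

/-! ### Stereographic projection -/

theorem sphere_eq (p : S2) : p.1 0 ^ 2 + p.1 1 ^ 2 + p.1 2 ^ 2 = 1 := by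
  have h : ‖p.1‖ = 1 := mem_sphere_zero_iff_norm.1 p.2
  rw [← norm_sq3, h, one_pow]

theorem eq_north_iff (p : S2) : p.1 = north ↔ p.1 2 = 1 := by
  constructor
  · intro h
    rw [h, north_2]
  · intro h
    have h1 := sphere_eq p
    rw [h] at h1
    have h2 : p.1 0 = 0 := by nlinarith [sq_nonneg (p.1 0), sq_nonneg (p.1 1)]
    have h3 : p.1 1 = 0 := by nlinarith [sq_nonneg (p.1 0), sq_nonneg (p.1 1)]
    exact ext3 (by rw [h2, north_0]) (by rw [h3, north_1]) (by rw [h, north_2])

theorem one_sub_pos {p : S2} (h : p.1 ≠ north) : 0 < 1 - p.1 2 := by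
  have h1 := sphere_eq p
  have h2 : p.1 2 ≠ 1 := fun h' => h ((eq_north_iff p).2 h')
  rcases lt_or_gt_of_ne h2 with h3 | h3
  · linarith
  · nlinarith [sq_nonneg (p.1 0), sq_nonneg (p.1 1)]

theorem norm_sq_emb_sub (x : E2) : ‖emb x - north‖ ^ 2 = ‖x‖ ^ 2 + 1 := by
  rw [norm_sq3, norm_sq2]
  simp

theorem inv_emb_0 (x : E2) : inv (emb x) 0 = 2 / (‖x‖ ^ 2 + 1) * x 0 := by
  simp [inv, norm_sq_emb_sub]

theorem inv_emb_1 (x : E2) : inv (emb x) 1 = 2 / (‖x‖ ^ 2 + 1) * x 1 := by
  simp [inv, norm_sq_emb_sub]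

theorem inv_emb_2 (x : E2) : inv (emb x) 2 = 1 - 2 / (‖x‖ ^ 2 + 1) := by
  simp [inv, norm_sq_emb_sub]
  ring

theorem inv_emb_mem (x : E2) : inv (emb x) ∈ sphere (0 : E3) 1 := by
  rw [mem_sphere_zero_iff_norm]
  have h : ‖inv (emb x)‖ ^ 2 = 1 := by
    rw [norm_sq3, inv_emb_0, inv_emb_1, inv_emb_2]
    have h1 : (‖x‖ ^ 2 + 1 : ℝ) ≠ 0 := by positivity
    have h2 := norm_sq2 x
    field_simp
    rw [h2]
    ring
  nlinarith [norm_nonneg (inv (emb x))]

/-- the inverse of the stereographic projection -/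
noncomputable def ist (x : E2) : S2 := ⟨inv (emb x), inv_emb_mem x⟩

theorem ist_coe (x : E2) : (ist x).1 = inv (emb x) := rfl

theorem ist_ne_north (x : E2) : (ist x).1 ≠ north := fun h =>
  emb_ne_north x (inv_eq_north_iff.1 h)

theorem st_ist (x : E2) : st (ist x) = x := by
  have h1 : (‖x‖ ^ 2 + 1 : ℝ) ≠ 0 := by positivity
  refine ext2 ?_ ?_
  · rw [st_0, ist_coe, inv_emb_0, inv_emb_2]
    field_simp
    ring
  · rw [st_1, ist_coe, inv_emb_1, inv_emb_2]
    field_simp
    ring

theorem norm_sq_st {p : S2} (h : p.1 ≠ north) : ‖st p‖ ^ 2 + 1 = 2 / (1 - p.1 2) := by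
  have h1 := (one_sub_pos h).ne'
  have h2 := sphere_eq p
  rw [norm_sq2, st_0, st_1]
  field_simp
  nlinarith

theorem inv_emb_st {p : S2} (h : p.1 ≠ north) : inv (emb (st p)) = p.1 := by
  have h1 := (one_sub_pos h).ne'
  have h2 : 2 / (‖st p‖ ^ 2 + 1) = 1 - p.1 2 := by
    rw [norm_sq_st h]
    field_simp
  refine ext3 ?_ ?_ ?_
  · rw [inv_emb_0, h2, st_0]
    field_simp
  · rw [inv_emb_1, h2, st_1]
    field_simp
  · rw [inv_emb_2, h2]
    ring

theorem ist_st {p : S2} (h : p.1 ≠ north) : ist (st p) = p := Subtype.ext (inv_emb_st h)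

theorem continuous_ist : Continuous ist := by
  refine Continuous.subtype_mk (continuous_iff_continuousAt.2 fun x => ?_) _
  exact ContinuousAt.comp (g := inv) (f := emb) (continuousAt_inv (emb_ne_north x))
    continuous_emb.continuousAt

theorem continuousAt_st {p : S2} (h : p.1 ≠ north) : ContinuousAt st p := by
  have h1 := (one_sub_pos h).ne'
  have hc : ∀ i : Fin 3, ContinuousAt (fun q : S2 => q.1 i) p := fun i =>
    ((EuclideanSpace.proj i : E3 →L[ℝ] ℝ).continuous.comp continuous_subtype_val).continuousAt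
  have h0 : ContinuousAt (fun q : S2 => (![q.1 0 / (1 - q.1 2), q.1 1 / (1 - q.1 2)] : Fin 2 → ℝ))
      p := by
    refine continuousAt_pi.2 fun i => ?_
    fin_cases i
    · exact (hc 0).div (continuousAt_const.sub (hc 2)) h1
    · exact (hc 1).div (continuousAt_const.sub (hc 2)) h1
  exact (PiLp.continuous_toLp 2 (fun _ : Fin 2 => ℝ)).continuousAt.comp h0

/-- the north pole as a point of the sphere -/
noncomputable def northS : S2 := ⟨north, mem_sphere_zero_iff_norm.2 norm_north⟩

theorem northS_coe : northS.1 = north := rfl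

theorem eq_northS_iff {p : S2} : p.1 = north ↔ p = northS :=
  ⟨fun h => Subtype.ext h, fun h => by rw [h, northS_coe]⟩

/-- `‖st p‖` is large near the north pole -/
theorem eventually_le_norm_st (R : ℝ) : ∀ᶠ p in 𝓝 northS, p.1 ≠ north → R ≤ ‖st p‖ := by
  have h0 : ∀ᶠ p : S2 in 𝓝 northS, (p.1 ≠ north → R ≤ ‖inv p.1‖) :=
    (continuous_subtype_val.tendsto northS).eventually (eventually_le_norm_inv R)
  filter_upwards [h0] with p hp hn
  have h1 := hp hn
  rw [← inv_emb_st hn, inv_inv, norm_emb] at h1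
  exact h1

theorem one_le_norm_st {p : S2} (h : p.1 ≠ north) (h0 : 0 ≤ p.1 2) : 1 ≤ ‖st p‖ := by
  have h1 := one_sub_pos h
  have h2 : 2 ≤ 2 / (1 - p.1 2) := by
    rw [le_div_iff₀ h1]
    nlinarith
  have h3 := norm_sq_st h
  nlinarith [norm_nonneg (st p)]

end Inv

end Pool.Agent.Work.MP_48319b_gt
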