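import Pool.Agent.Work.MP_48319b_gt.PL

/-!
# MP_48319b_gt : statements of the items of the piecewise linear layer (real level)
-/

open Metric Set Topology

namespace Pool.Agent.Work.MP_48319b_gt

/-! ### X : triangulated polygons -/

/-- [48319b X1] the triangles cover the polygon -/
def CoverThm : Prop :=
  ∀ (F : List Tri) (bd : List (ℕ × ℕ)) (pos : ℕ → E2), PlaneCx F bd pos → ∀ x,
    (∀ e ∈ bd, 0 ≤ det2 (pos e.2 - pos e.1) (x - pos e.1)) → ∃ t ∈ F, ∃ w, IsWt pos t x w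

/-- [48319b X2] barycentric weights are unique -/
def UniqThm : Prop :=
  ∀ (F : List Tri) (bd : List (ℕ × ℕ)) (pos : ℕ → E2), PlaneCx F bd pos → ∀ t ∈ F, ∀ t' ∈ F,
    ∀ x w w', IsWt pos t x w → IsWt pos t' x w' → w = w'

/-- [48319b X3] the piecewise affine extension -/
def ExtThm : Prop :=
  ∀ (F : List Tri) (bd : List (ℕ × ℕ)) (pos : ℕ → E2), PlaneCx F bd pos →
    ∀ (V : Type) [NormedAddCommGroup V] [NormedSpace ℝ V] [FiniteDimensional ℝ V] (φ : ℕ → V)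
      (L : E2 →L[ℝ] V), BdStd bd pos φ L →
      (∀ t ∈ F, ∀ x w, IsWt pos t x w → ext F pos φ L x = comb φ t w) ∧
      (∀ x, x ∈ Piece F bd pos none → ext F pos φ L x = L x) ∧
      ∃ A, LinParts F pos φ L A ∧ PA (Piece F bd pos) (ext F pos φ L) A

/-- [48319b X4] the pieces -/
structure PieceFacts (F : List Tri) (bd : List (ℕ × ℕ)) (pos : ℕ → E2) : Prop where
  closed : ∀ i, IsClosed (Piece F bd pos i)
  cover : ∀ x, ∃ i, x ∈ Piece F bd pos i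
  reg : ∀ i, Piece F bd pos i ⊆ closure (interior (Piece F bd pos i))
  convex : ∀ t, Convex ℝ (Piece F bd pos (some t))
  int1 : ∀ (t : {t : Tri // t ∈ F}) x w, IsWt pos t.1 x w → (∀ v ∈ t.1.vs, 0 < w v) →
    x ∈ interior (Piece F bd pos (some t)) ∧ ∀ i, x ∈ Piece F bd pos i → i = some t
  int2 : ∀ (t : {t : Tri // t ∈ F}) x, x ∈ interior (Piece F bd pos (some t)) →
    ∃ w, IsWt pos t.1 x w ∧ ∀ v ∈ t.1.vs, 0 < w v
  carrier : ∀ t ∈ F, ∀ x w v, IsWt pos t x w → 0 < w v → ∀ i, x ∈ Piece F bd pos i → VIn bd v i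
  carrierO : ∀ t ∈ F, ∀ x w, IsWt pos t x w → x ∈ Piece F bd pos none →
    ∃ e ∈ bd, ∀ v, 0 < w v → v = e.1 ∨ v = e.2
  far : ∀ x, 2 / 5 ≤ ‖x‖ → ∀ i, x ∈ Piece F bd pos i → i = none
  vert : ∀ t ∈ F, ∀ v ∈ t.vs, IsWt pos t (pos v) (fun u => if u = v then 1 else 0)
  nondeg : ∀ t ∈ F, t.a ≠ t.b ∧ t.a ≠ t.c ∧ t.b ≠ t.c

/-- [48319b X4] -/
def PieceThm : Prop :=
  ∀ (F : List Tri) (bd : List (ℕ × ℕ)) (pos : ℕ → E2), PlaneCx F bd pos → PieceFacts F bd pos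

/-! ### Z : from `RData` to `PLPackage` -/

variable (F : List Tri) (pos : ℕ → E2) (Y : ℕ → E3) (g : ℕ → ℝ)

/-- the long plane -/
noncomputable abbrev fE : E2 → E3 := ext F pos Y emb

/-- the height function -/
noncomputable abbrev gE : E2 → ℝ := ext F pos g (fun _ => 0)

/-- [48319b Z1] monotone charts -/
def BiMonoThm : Prop :=
  ∀ F bd pos Y Y0 Q, PlaneCx F bd pos → BdStd bd pos Y emb → BdStd bd pos Y0 emb →
    MonoCert F bd pos Y Q → MonoCert F bd pos Y0 Q →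
    ∀ x, ∃ Q' m r, 0 < m ∧ 0 < r ∧ MonoAt (fE F pos Y) x Q' m r ∧ MonoAt (fE F pos Y0) x Q' m r

/-- [48319b Z2] two points over the same point, one of them outside the polygon, or in triangles
with a common vertex -/
def NoDoubleThm : Prop :=
  ∀ F bd pos Y Y0 Q, PlaneCx F bd pos → BdStd bd pos Y emb → BdStd bd pos Y0 emb →
    MonoCert F bd pos Y Q → MonoCert F bd pos Y0 Q → OutCert F bd pos Y → OutCert F bd pos Y0 →
    ∀ s ∈ Icc (0 : ℝ) 1, ∀ x y,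
      (1 - s) • fE F pos Y x + s • fE F pos Y0 x = (1 - s) • fE F pos Y y + s • fE F pos Y0 y →
      x ≠ y → (∃ t ∈ F, ∃ w, IsWt pos t x w) ∧ (∃ t ∈ F, ∃ w, IsWt pos t y w) ∧
        x ∉ Piece F bd pos none ∧ y ∉ Piece F bd pos none ∧
        ∀ t ∈ F, ∀ t' ∈ F, ∀ w w', IsWt pos t x w → IsWt pos t' y w' → ¬ Share t t'

/-- [48319b Z3] injectivity of the whole path in `ℝ⁴` -/
def PathInjThm : Prop :=
  ∀ F bd pos Y Y0 g Q, PlaneCx F bd pos → BdStd bd pos Y emb → BdStd bd pos Y0 emb →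
    BdStd bd pos g (fun _ => 0) →
    MonoCert F bd pos Y Q → MonoCert F bd pos Y0 Q → OutCert F bd pos Y → OutCert F bd pos Y0 →
    (∀ t ∈ F, ∀ t' ∈ F, Share t t' ∨ Sep4 Y Y0 g t t') →
    ∀ s ∈ Icc (0 : ℝ) 1, Function.Injective fun p =>
      ((1 - s) • fE F pos Y p + s • fE F pos Y0 p, gE F pos g p)

/-- [48319b Z4] the double points of the generic map -/
def DoubleThm : Prop :=
  ∀ F bd pos Y g Q X Tl, PlaneCx F bd pos → BdStd bd pos Y emb → MonoCert F bd pos Y Q →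
    OutCert F bd pos Y → GenCert F Y g X Tl →
    ∀ p q, p ≠ q → fE F pos Y p = fE F pos Y q →
      (∀ t ∈ F, ∀ t' ∈ F, ∀ w w', IsWt pos t p w → IsWt pos t' q w' →
        ((t, t') ∈ X ∨ (t', t) ∈ X) ∧ ((∀ v ∈ t.vs, 0 < w v) ∨ (∀ v ∈ t'.vs, 0 < w' v))) ∧
      (TransFlat (fE F pos Y) p q ∨ TransFlat (fE F pos Y) q p)

/-- [48319b Z5] the triple and quadruple points of the generic map -/
def TripleThm : Prop :=
  ∀ F bd pos Y g Q X Tl, PlaneCx F bd pos → BdStd bd pos Y emb → BdStd bd pos g (fun _ => 0) →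
    MonoCert F bd pos Y Q → OutCert F bd pos Y → GenCert F Y g X Tl →
    (∀ p q r, p ≠ q → q ≠ r → p ≠ r → fE F pos Y p = fE F pos Y q →
      fE F pos Y q = fE F pos Y r → TripleFlat (fE F pos Y) p q r) ∧
    (∀ p q r s, p ≠ q → p ≠ r → p ≠ s → q ≠ r → q ≠ s → r ≠ s → fE F pos Y p = fE F pos Y q →
      fE F pos Y q = fE F pos Y r → fE F pos Y r = fE F pos Y s → False)

/-- [48319b Z6] the sign data -/
def SignDataThm : Prop :=
  ∀ F bd pos Y g Q X X1 X2 Tl, PlaneCx F bd pos → BdStd bd pos Y emb →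
    BdStd bd pos g (fun _ => 0) → MonoCert F bd pos Y Q → OutCert F bd pos Y →
    GenCert F Y g X Tl → SignCert Y X X1 X2 →
    ∃ C1 C2, SignData (fE F pos Y) (gE F pos g) C1 C2

/-- weights of matched points -/
def Matched (Y0 : ℕ → E3) (t t' : Tri) (w w' : ℕ → ℝ) : Prop :=
  (∀ v ∈ t.vs, 0 < w v → ∃ v' ∈ t'.vs, Y0 v' = Y0 v ∧ w' v' = w v) ∧
    (∀ v' ∈ t'.vs, 0 < w' v' → ∃ v ∈ t.vs, Y0 v' = Y0 v ∧ w' v' = w v) ∧
    (∃ v ∈ t.vs, w v = 0) ∧ (∃ v' ∈ t'.vs, w' v' = 0) ∧ ¬ Share t t'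

/-- [48319b Z7] the double points of the simplicial map -/
def Double0Thm : Prop :=
  ∀ F bd pos Y0 g Q up twin, PlaneCx F bd pos → BdStd bd pos Y0 emb → MonoCert F bd pos Y0 Q →
    OutCert F bd pos Y0 → TwinCert F Y0 g up twin →
    ∀ x y, x ≠ y → fE F pos Y0 x = fE F pos Y0 y →
      x ∉ Piece F bd pos none ∧ y ∉ Piece F bd pos none ∧
      ∃ t ∈ F, ∃ t' ∈ F, ∃ w w', IsWt pos t x w ∧ IsWt pos t' y w' ∧ Matched Y0 t t' w w'

/-- everything about the sides of the simplicial map -/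
structure Sides0 (F : List Tri) (bd : List (ℕ × ℕ)) (pos : ℕ → E2) (Y0 N : ℕ → E3)
    (b0 : E2 → E3 → Prop) : Prop where
  sides : Sides (fE F pos Y0) b0
  vert : ∀ t ∈ F, ∀ u ∈ t.vs, ∀ᶠ z in 𝓝 ((pos u, 0) : E2 × ℝ),
    (b0 (pos u) (fE F pos Y0 z.1 + z.2 • N u) ↔ z.2 < 0)
  far : ∀ x : E2, 1 / 2 ≤ ‖x‖ → ∀ᶠ y in 𝓝 (emb x), (b0 x y ↔ y 2 < 0)

/-- [48319b Z8] side functions of the simplicial map -/
def Sides0Thm : Prop :=
  ∀ F bd pos Y0 N Q, PlaneCx F bd pos → BdStd bd pos Y0 emb → MonoCert F bd pos Y0 Q →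
    NormCert F bd Y0 Q N → ∃ b0, Sides0 F bd pos Y0 N b0

/-- [48319b Z9] the sides at the vertices and along the edges -/
def SideVE : Prop :=
  ∀ F bd pos Y0 N g Q up twin sg b0, PlaneCx F bd pos → BdStd bd pos Y0 emb →
    MonoCert F bd pos Y0 Q → OutCert F bd pos Y0 → TwinCert F Y0 g up twin →
    SideCert F Y0 N up sg → Sides0 F bd pos Y0 N b0 →
    (∀ (t : {t : Tri // t ∈ F}), ∀ v ∈ t.1.vs, ∀ u ∈ up v,
      ∀ᶠ q in 𝓝[interior (Piece F bd pos (some t))] (pos v),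
        (b0 (pos u) (fE F pos Y0 q) ↔ sg v t.1 u = true)) ∧
    (∀ (t : {t : Tri // t ∈ F}), ∀ a ∈ t.1.vs, ∀ b ∈ t.1.vs, a ≠ b → ∀ a' b',
      twin a b = some (a', b') → ∀ r : ℝ, 0 ≤ r → r < 1 →
      ∀ᶠ q in 𝓝[interior (Piece F bd pos (some t))] ((1 - r) • pos a + r • pos b),
        (b0 ((1 - r) • pos a' + r • pos b') (fE F pos Y0 q) ↔ sg a t.1 a' = true))

/-- [48319b Z10] the covering -/
def CoverDataThm : Prop :=
  ∀ F bd pos Y0 N g Q up twin sg, PlaneCx F bd pos → BdStd bd pos Y0 emb →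
    BdStd bd pos g (fun _ => 0) → MonoCert F bd pos Y0 Q → NormCert F bd Y0 Q N →
    OutCert F bd pos Y0 → TwinCert F Y0 g up twin → SideCert F Y0 N up sg →
    (Function.Injective fun p => (fE F pos Y0 p, gE F pos g p)) →
    (∃ (G : Type) (_ : Group G) (col : Tri → G) (cv : ℕ → G) (ce : ℕ → ℕ → G) (cinf : G),
      ColCert F bd up twin sg col cv ce cinf) →
    HasCovering (fE F pos Y0) (gE F pos g)

/-- [48319b Z11] real data give the piecewise linear package -/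
def PackageThm : Prop :=
  (∃ F bd pos Y Y0 N g Q X X1 X2 Tl up twin sg,
    RData F bd pos Y Y0 N g Q X X1 X2 Tl up twin sg) → ∃ f f0 g C1 C2, PLPackage f f0 g C1 C2

end Pool.Agent.Work.MP_48319b_gt
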