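import Pool.Agent.Work.MP_48319b_gt.Bd.B02

/-!
# MP_48319b_gt : Boolean checks for item D3 (monotone certificates and normals)
-/

namespace Pool.Agent.Work.MP_48319b_gt.Dat.ItemMono

/-- `0 < D` -/
def posI (D : ℤ) : Bool := match D with
  | Int.ofNat n => Nat.ble 1 n
  | Int.negSucc _ => false

theorem posI_pos {D : ℤ} (h : posI D = true) : 0 < D := by
  unfold posI at h
  split at h
  · rename_i n
    rw [Nat.ble_eq] at h
    have h2 : (Int.ofNat n : ℤ) = (n : ℤ) := rfl
    omega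
  · cases h

def dot2 (u v : P2) : ℤ := u.x * v.x + u.y * v.y
def dot3 (u v : P3) : ℤ := u.x * v.x + u.y * v.y + u.z * v.z
def sub2 (u v : P2) : P2 := ⟨u.x - v.x, u.y - v.y⟩
def sub3 (u v : P3) : P3 := ⟨u.x - v.x, u.y - v.y, u.z - v.z⟩
def app (q1 q2 y : P3) : P2 := ⟨dot3 q1 y, dot3 q2 y⟩

/-- positivity of the binary quadratic form -/
def qf (s11 s12 s22 : ℤ) : Bool := posI s11 && posI (4 * s11 * s22 - s12 * s12)

def posb (u1 u2 : P2) (y1 y2 q1 q2 : P3) : Bool :=
  qf (dot2 u1 (app q1 q2 y1)) (dot2 u1 (app q1 q2 y2) + dot2 u2 (app q1 q2 y1))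
    (dot2 u2 (app q1 q2 y2))

def det3I (u v w : P3) : ℤ :=
  u.x * (v.y * w.z - v.z * w.y) - u.y * (v.x * w.z - v.z * w.x) + u.z * (v.x * w.y - v.y * w.x)

/-- the three vertices of a triangle -/
def tri3 (a b c : ℕ) (u1 u2 : P2) (y1 y2 z1 z2 : P3) : Bool :=
  posb u1 u2 y1 y2 (q1I a) (q2I a) && posb u1 u2 y1 y2 (q1I b) (q2I b) &&
  posb u1 u2 y1 y2 (q1I c) (q2I c) &&
  posb u1 u2 z1 z2 (q1I a) (q2I a) && posb u1 u2 z1 z2 (q1I b) (q2I b) &&
  posb u1 u2 z1 z2 (q1I c) (q2I c) &&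
  posI (det3I z1 z2 (nI a)) && posI (det3I z1 z2 (nI b)) && posI (det3I z1 z2 (nI c))

def chkT (t : Tri) : Bool :=
  tri3 t.a t.b t.c (sub2 (dI t.b) (dI t.a)) (sub2 (dI t.c) (dI t.a))
    (sub3 (yI t.b) (yI t.a)) (sub3 (yI t.c) (yI t.a))
    (sub3 (y0I t.b) (y0I t.a)) (sub3 (y0I t.c) (y0I t.a))

def bdV (v : ℕ) : Bool :=
  qf (q1I v).x ((q1I v).y + (q2I v).x) (q2I v).y && posI (nI v).z

def kerV (v : ℕ) : Bool := decide (dot3 (q1I v) (nI v) = 0) && decide (dot3 (q2I v) (nI v) = 0)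

def chkB : Bool := bd.all fun e => bdV e.1 && bdV e.2

def chkK : Bool := (List.range 192).all kerV

theorem runB : chkB = true := by decide +kernel

theorem runK : chkK = true := by decide +kernel

theorem runT_0 : ((F.drop 0).take 92).all chkT = true := by decide +kernel

theorem runT_92 : ((F.drop 92).take 92).all chkT = true := by decide +kernel

theorem runT_184 : ((F.drop 184).take 92).all chkT = true := by decide +kernel

theorem runT_276 : ((F.drop 276).take 92).all chkT = true := by decide +kernel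

theorem runT_end : (F.drop 368).all chkT = true := by decide +kernel

theorem runT : F.all chkT = true :=
  all_step 0 92 92 rfl runT_0 <|
  all_step 92 92 184 rfl runT_92 <|
  all_step 184 92 276 rfl runT_184 <|
  all_step 276 92 368 rfl runT_276 <|
  runT_end

end Pool.Agent.Work.MP_48319b_gt.Dat.ItemMono
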