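import Pool.Agent.Work.MP_48319b_gt.Stmts2
import Pool.Agent.Work.MP_48319b_gt.Data

/-!
# MP_48319b_gt : statements of the items of the data layer
-/

open Metric Set Topology

namespace Pool.Agent.Work.MP_48319b_gt.Dat

/-- [48319b D1] -/
def StCx : Prop := PlaneCx F bd pos

/-- [48319b D2] -/
structure StStd : Prop where
  bdY : BdStd bd pos Y emb
  bdY0 : BdStd bd pos Y0 emb
  bdg : BdStd bd pos g (fun _ => 0)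
  smallY : ∀ t ∈ F, ∀ v ∈ t.vs, ‖Y v‖ ≤ 2 / 5
  smallY0 : ∀ t ∈ F, ∀ v ∈ t.vs, ‖Y0 v‖ ≤ 2 / 5
  out : OutCert F bd pos Y
  out0 : OutCert F bd pos Y0

/-- [48319b D3] -/
structure StMono : Prop where
  mono : MonoCert F bd pos Y Q
  mono0 : MonoCert F bd pos Y0 Q
  norm0 : NormCert F bd Y0 Q N

/-- [48319b D4] -/
def StSep4 : Prop := ∀ t ∈ F, ∀ t' ∈ F, Share t t' ∨ Sep4 Y Y0 g t t'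

/-- [48319b D5] -/
def StSep3 : Prop := ∀ t ∈ F, ∀ t' ∈ F, Share t t' ∨ Sep3 Y t t' ∨ (t, t') ∈ X ∨ (t', t) ∈ X

/-- [48319b D6] -/
def StSepW : Prop := ∀ t ∈ F, ∀ t' ∈ F, Share t t' ∨ WSep Y0 t t' ∨ WSep Y0 t' t

/-- [48319b D7] -/
structure StGenA : Prop where
  sub : ∀ p ∈ X, p.1 ∈ F ∧ p.2 ∈ F
  vp : ∀ p ∈ X, (∀ v ∈ p.2.vs,
      det3 (Y p.1.b - Y p.1.a) (Y p.1.c - Y p.1.a) (Y v - Y p.1.a) ≠ 0) ∧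
    (∀ v ∈ p.1.vs, det3 (Y p.2.b - Y p.2.a) (Y p.2.c - Y p.2.a) (Y v - Y p.2.a) ≠ 0)
  ee : ∀ p ∈ X, ∀ e ∈ p.1.es, ∀ e' ∈ p.2.es,
    det3 (Y e.2 - Y e.1) (Y e'.1 - Y e.1) (Y e'.2 - Y e.1) ≠ 0
  above : ∀ p ∈ X, ∃ (α : E3) (κ : ℝ), 0 < κ ∧ ∀ v ∈ p.1.vs, ∀ v' ∈ p.2.vs,
    inner ℝ α (Y v') + κ * g v' < inner ℝ α (Y v) + κ * g v

/-- [48319b D8] -/
structure StGenB : Prop where
  trip : ∀ p ∈ X, ∀ q ∈ X, p.2 = q.1 → (p.1, q.2) ∈ X → Sep33 Y p.1 p.2 q.2 ∨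
    ∃ l ∈ Tl, p.1 ∈ l ∧ p.2 ∈ l ∧ q.2 ∈ l
  tlen : ∀ l ∈ Tl, l.length = 3
  tdet : ∀ l ∈ Tl, ∀ t1 ∈ l, ∀ t2 ∈ l, ∀ t3 ∈ l, t1 ≠ t2 → t1 ≠ t3 → t2 ≠ t3 →
    det3 (nrm Y t1) (nrm Y t2) (nrm Y t3) ≠ 0
  tshare : ∀ l ∈ Tl, ∀ l' ∈ Tl, l ≠ l' → ∀ t1 ∈ l, ∀ t2 ∈ l, t1 ∈ l' → t2 ∈ l' → t1 = t2

/-- [48319b D9] -/
def StSign : Prop := SignCert Y X X1 X2

/-- [48319b D10] -/
structure StTwin : Prop where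
  up1 : ∀ t ∈ F, ∀ t' ∈ F, ∀ v ∈ t.vs, ∀ v' ∈ t'.vs, Y0 v = Y0 v' → v = v' ∨ v ∈ up v' ∨ v' ∈ up v
  up2 : ∀ v, ∀ u ∈ up v, Y0 u = Y0 v ∧ g v < g u ∧ ∃ t ∈ F, u ∈ t.vs
  up3 : ∀ v, (up v).Pairwise (fun p q => g q < g p)
  tw1 : ∀ t ∈ F, ∀ t' ∈ F, ∀ a ∈ t.vs, ∀ b ∈ t.vs, ∀ a' ∈ t'.vs, ∀ b' ∈ t'.vs, a ≠ b → a ≠ a' →
    Y0 a = Y0 a' → Y0 b = Y0 b' → twin a b = some (a', b') ∨ twin a' b' = some (a, b)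
  tw2 : ∀ a b a' b', twin a b = some (a', b') → a' ∈ up a ∧ b' ∈ up b ∧
    ∃ t ∈ F, a' ∈ t.vs ∧ b' ∈ t.vs
  tw3 : ∀ a b a' b', twin a b = some (a', b') → twin a' b' = none

/-- [48319b D11] -/
def StSide : Prop := SideCert F Y0 N up sg

/-- [48319b D12] -/
def StCol : Prop :=
  ∃ (G : Type) (_ : Group G) (col : Tri → G) (cv : ℕ → G) (ce : ℕ → ℕ → G) (cinf : G),
    ColCert F bd up twin sg col cv ce cinf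

end Pool.Agent.Work.MP_48319b_gt.Dat
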