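import Pool.Agent.Work.MP_48319b_gt.Stmts

/-!
# [48319b L3] bi-Lipschitz estimate for the path from the mollified to the piecewise linear knot
-/

open Metric Set Topology

namespace Pool.Agent.Work.MP_48319b_gt

namespace ItemL3

/-- `emb` as a linear map. -/
noncomputable def embL : E2 →L[ℝ] E3 :=
  LinearMap.toContinuousLinearMap
    { toFun := emb
      map_add' := by
        intro y z
        ext i
        fin_cases i <;> simp [emb]
      map_smul' := by
        intro c y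
        ext i
        fin_cases i <;> simp [emb] }

lemma embL_apply (x : E2) : embL x = emb x := rfl

lemma norm_emb (x : E2) : ‖emb x‖ = ‖x‖ := by
  rw [EuclideanSpace.norm_eq, EuclideanSpace.norm_eq, Fin.sum_univ_three, Fin.sum_univ_two]
  simp [emb]

lemma norm_emb_sub (x y : E2) : ‖emb x - emb y‖ = ‖x - y‖ := by
  rw [← embL_apply, ← embL_apply, ← map_sub, embL_apply, norm_emb]

lemma aff_far {f : E2 → E3} (hf : ∀ x, 2 / 5 ≤ ‖x‖ → f x = emb x) {p : E2} (hp : 1 / 2 ≤ ‖p‖) :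
    AffAt f p embL (1 / 10) := by
  intro p' hp'
  rw [mem_ball, dist_eq_norm] at hp'
  have h1 : ‖p‖ ≤ ‖p'‖ + ‖p' - p‖ := by
    have := norm_sub_le p' (p' - p)
    rwa [sub_sub_cancel] at this
  rw [hf p' (by linarith), hf p (by linarith), embL_apply, ← embL_apply, ← embL_apply,
    ← embL_apply, ← map_add, add_sub_cancel]

lemma F_far {f : E2 → E3} {F : ℝ → E2 → E3} (hF : Approx f F)
    (hf : ∀ x, 2 / 5 ≤ ‖x‖ → f x = emb x) {ε : ℝ} (hε : 0 < ε) (hε1 : ε < 1 / 20) {p : E2}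
    (hp : 1 / 2 ≤ ‖p‖) : F ε p = emb p := by
  rw [hF.aff p embL (1 / 10) (aff_far hf hp) ε hε (by linarith) p
    (mem_ball_self (by norm_num)), hf p (by linarith)]

lemma kk_fst (F0 f0 : E2 → E3) (H0 g : E2 → ℝ) (s : ℝ) (p : E2) :
    (kk (fun x => (F0 x, H0 x)) (fun x => (f0 x, g x)) s p).1 = (1 - s) • F0 p + s • f0 p := rfl

lemma kk_snd (F0 f0 : E2 → E3) (H0 g : E2 → ℝ) (s : ℝ) (p : E2) :
    (kk (fun x => (F0 x, H0 x)) (fun x => (f0 x, g x)) s p).2 = (1 - s) * H0 p + s * g p := rfl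

lemma le_kk (F0 f0 : E2 → E3) (H0 g : E2 → ℝ) (s : ℝ) (p q : E2) :
    ‖((1 - s) • F0 p + s • f0 p) - ((1 - s) • F0 q + s • f0 q)‖ ≤
      ‖kk (fun x => (F0 x, H0 x)) (fun x => (f0 x, g x)) s p -
        kk (fun x => (F0 x, H0 x)) (fun x => (f0 x, g x)) s q‖ := by
  have := norm_fst_le (kk (fun x => (F0 x, H0 x)) (fun x => (f0 x, g x)) s p -
        kk (fun x => (F0 x, H0 x)) (fun x => (f0 x, g x)) s q)
  rwa [Prod.fst_sub, kk_fst, kk_fst] at this

/-- Close points. -/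
lemma near_case {F0 f0 : E2 → E3} {x : E2} {Q : E3 →L[ℝ] E2} {m r C s : ℝ}
    (h1 : MonoAt F0 x Q m r) (h2 : MonoAt f0 x Q m r) (hQ : ‖Q‖ ≤ C) (hs : s ∈ Icc (0 : ℝ) 1)
    {p q : E2} (hp : p ∈ ball x r) (hq : q ∈ ball x r) :
    m / (C + 1) * ‖p - q‖ ≤
      ‖((1 - s) • F0 p + s • f0 p) - ((1 - s) • F0 q + s • f0 q)‖ := by
  have hC : 0 ≤ C := (norm_nonneg _).trans hQ
  obtain ⟨X, hX⟩ : ∃ X : E3, X = ((1 - s) • F0 p + s • f0 p) - ((1 - s) • F0 q + s • f0 q) :=
    ⟨_, rfl⟩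
  rw [← hX]
  have e1 : Q X = (1 - s) • Q (F0 p - F0 q) + s • Q (f0 p - f0 q) := by
    rw [hX, ← map_smul, ← map_smul, ← map_add]
    congr 1
    rw [smul_sub, smul_sub]
    abel
  have e2 : m * ‖p - q‖ ^ 2 ≤ inner ℝ (p - q) (Q X) := by
    rw [e1, inner_add_right, inner_smul_right, inner_smul_right]
    have a1 := h1 p hp q hq
    have a2 := h2 p hp q hq
    have hs0 := hs.1
    have hs1 : 0 ≤ 1 - s := by linarith [hs.2]
    nlinarith
  have e3 : inner ℝ (p - q) (Q X) ≤ ‖p - q‖ * (C * ‖X‖) := by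
    refine (real_inner_le_norm _ _).trans ?_
    refine mul_le_mul_of_nonneg_left ((Q.le_opNorm X).trans ?_) (norm_nonneg _)
    exact mul_le_mul_of_nonneg_right hQ (norm_nonneg _)
  rcases eq_or_lt_of_le (norm_nonneg (p - q)) with h0 | h0
  · rw [← h0, mul_zero]
    exact norm_nonneg _
  · have e4 : m * ‖p - q‖ ≤ C * ‖X‖ := by
      have : ‖p - q‖ * (m * ‖p - q‖) ≤ ‖p - q‖ * (C * ‖X‖) := by nlinarith
      exact le_of_mul_le_mul_left this h0
    rw [div_mul_eq_mul_div, div_le_iff₀ (by linarith)]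
    nlinarith [norm_nonneg X]

end ItemL3

open ItemL3 in
theorem biLipThm : BiLipThm := by
  intro f f0 g F H m r C hLf hLf0 hLg hff hf0f hgf hfn hf0n hU hF hH hinj
  obtain ⟨hm, hr, hQ⟩ := hU
  obtain ⟨K1, hK1⟩ := hF.close
  obtain ⟨K2, hK2⟩ := hH.close
  obtain ⟨Lf, hLf⟩ := hLf
  obtain ⟨Lf0, hLf0⟩ := hLf0
  obtain ⟨Lg, hLg⟩ := hLg
  have hC : 0 ≤ C := by
    obtain ⟨Q, hQC, -⟩ := hQ 0
    exact (norm_nonneg _).trans hQC
  obtain ⟨K, hK⟩ : ∃ K : ℝ, K = max (max K1 K2) 1 := ⟨_, rfl⟩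
  have hK0 : 1 ≤ K := by rw [hK]; exact le_max_right _ _
  have hK1' : K1 ≤ K := by rw [hK]; exact (le_max_left _ _).trans (le_max_left _ _)
  have hK2' : K2 ≤ K := by rw [hK]; exact (le_max_right _ _).trans (le_max_left _ _)
  -- the path for `ε = 0`
  obtain ⟨k, hk⟩ : ∃ k : ℝ → E2 → E3 × ℝ, k = kk (fun x => (f x, g x)) (fun x => (f0 x, g x)) :=
    ⟨_, rfl⟩
  have hkc : Continuous fun z : ℝ × E2 => k z.1 z.2 := by
    have a1 := hLf.continuous
    have a2 := hLf0.continuous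
    have a3 := hLg.continuous
    rw [hk]
    unfold kk
    fun_prop
  have hkinj : ∀ s ∈ Icc (0 : ℝ) 1, Function.Injective (k s) := by
    intro s hs p q hpq
    refine hinj s hs ?_
    have b1 := congrArg Prod.fst hpq
    have b2 := congrArg Prod.snd hpq
    rw [hk, kk_fst, kk_fst] at b1
    rw [hk, kk_snd, kk_snd] at b2
    refine Prod.ext b1 ?_
    show g p = g q
    linarith
  -- the compact part
  obtain ⟨c0, hc0, hc0'⟩ : ∃ c0 > 0, ∀ s ∈ Icc (0 : ℝ) 1, ∀ p q : E2, ‖p‖ ≤ 2 → ‖q‖ ≤ 2 →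
      r / 4 ≤ ‖p - q‖ → c0 ≤ ‖k s p - k s q‖ := by
    obtain ⟨A, hA⟩ : ∃ A : Set (ℝ × E2 × E2), A = (Icc (0 : ℝ) 1 ×ˢ closedBall (0 : E2) 2 ×ˢ
        closedBall (0 : E2) 2) ∩ {z | r / 4 ≤ ‖z.2.1 - z.2.2‖} := ⟨_, rfl⟩
    have hAc : IsCompact A := by
      rw [hA]
      refine (isCompact_Icc.prod ((isCompact_closedBall _ _).prod
        (isCompact_closedBall _ _))).inter_right ?_
      exact isClosed_le continuous_const (by fun_prop)
    obtain ⟨φ, hφd⟩ : ∃ φ : ℝ × E2 × E2 → ℝ, ∀ s p q, φ (s, p, q) = ‖k s p - k s q‖ :=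
      ⟨fun z => ‖k z.1 z.2.1 - k z.1 z.2.2‖, fun _ _ _ => rfl⟩
    have hφ : Continuous φ := by
      have c1 : Continuous fun z : ℝ × E2 × E2 => k z.1 z.2.1 :=
        hkc.comp (by fun_prop : Continuous fun z : ℝ × E2 × E2 => (z.1, z.2.1))
      have c2 : Continuous fun z : ℝ × E2 × E2 => k z.1 z.2.2 :=
        hkc.comp (by fun_prop : Continuous fun z : ℝ × E2 × E2 => (z.1, z.2.2))
      have c3 : φ = fun z : ℝ × E2 × E2 => ‖k z.1 z.2.1 - k z.1 z.2.2‖ := by
        funext ⟨s, p, q⟩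
        exact hφd s p q
      rw [c3]
      exact (c1.sub c2).norm
    have hmem : ∀ s ∈ Icc (0 : ℝ) 1, ∀ p q : E2, ‖p‖ ≤ 2 → ‖q‖ ≤ 2 →
        r / 4 ≤ ‖p - q‖ → (s, p, q) ∈ A := by
      intro s hs p q hp hq hpq
      rw [hA]
      exact ⟨⟨hs, by rwa [mem_closedBall_zero_iff], by rwa [mem_closedBall_zero_iff]⟩, hpq⟩
    rcases A.eq_empty_or_nonempty with hAe | hAne
    · refine ⟨1, one_pos, fun s hs p q hp hq hpq => ?_⟩
      have := hmem s hs p q hp hq hpq
      rw [hAe] at this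
      exact this.elim
    · obtain ⟨⟨s1, p1, q1⟩, hz1, hmin⟩ := hAc.exists_isMinOn hAne hφ.continuousOn
      rw [hA] at hz1
      refine ⟨‖k s1 p1 - k s1 q1‖, ?_, fun s hs p q hp hq hpq => ?_⟩
      · rw [gt_iff_lt, norm_pos_iff, sub_ne_zero]
        intro hcon
        have := hkinj s1 hz1.1.1 hcon
        have h5 : r / 4 ≤ ‖p1 - q1‖ := hz1.2
        rw [this, sub_self, norm_zero] at h5
        linarith
      · have h6 := isMinOn_iff.mp hmin _ (hmem s hs p q hp hq hpq)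
        rw [hφd, hφd] at h6
        exact h6
  refine ⟨min (min (r / 2) (1 / 20)) (min (c0 / (4 * K)) (1 / (2 * K))), by positivity,
    fun ε hε hεlt => ?_⟩
  have hε1 : ε < r / 2 := hεlt.trans_le ((min_le_left _ _).trans (min_le_left _ _))
  have hε2 : ε < 1 / 20 := hεlt.trans_le ((min_le_left _ _).trans (min_le_right _ _))
  have hε3 : ε < c0 / (4 * K) := hεlt.trans_le ((min_le_right _ _).trans (min_le_left _ _))
  have hε4 : ε < 1 / (2 * K) := hεlt.trans_le ((min_le_right _ _).trans (min_le_right _ _))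
  have hKε1 : K * ε ≤ c0 / 4 := by
    rw [lt_div_iff₀ (by positivity)] at hε3
    linarith
  have hKε2 : K * ε ≤ 1 / 2 := by
    rw [lt_div_iff₀ (by positivity)] at hε4
    linarith
  obtain ⟨kε, hkε⟩ : ∃ kε : ℝ → E2 → E3 × ℝ,
      kε = kk (fun x => (F ε x, H ε x)) (fun x => (f0 x, g x)) := ⟨_, rfl⟩
  rw [← hkε]
  have hclose : ∀ s ∈ Icc (0 : ℝ) 1, ∀ p, ‖kε s p - k s p‖ ≤ K * ε := by
    intro s hs p
    have hs0 := hs.1
    have hs1 : 0 ≤ 1 - s := by linarith [hs.2]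
    have hs1' : 1 - s ≤ 1 := by linarith
    have a1 := hK1 ε hε p
    have a2 := hK2 ε hε p
    rw [Prod.norm_def]
    refine max_le ?_ ?_
    · rw [Prod.fst_sub, hk, hkε, kk_fst, kk_fst, add_sub_add_right_eq_sub, ← smul_sub, norm_smul,
        Real.norm_eq_abs, abs_of_nonneg hs1]
      calc (1 - s) * ‖F ε p - f p‖ ≤ 1 * ‖F ε p - f p‖ :=
            mul_le_mul_of_nonneg_right hs1' (norm_nonneg _)
        _ ≤ K1 * ε := by rw [one_mul]; exact a1
        _ ≤ K * ε := mul_le_mul_of_nonneg_right hK1' hε.le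
    · rw [Prod.snd_sub, hk, hkε, kk_snd, kk_snd, add_sub_add_right_eq_sub, ← mul_sub, norm_mul,
        Real.norm_eq_abs (1 - s), abs_of_nonneg hs1]
      calc (1 - s) * ‖H ε p - g p‖ ≤ 1 * ‖H ε p - g p‖ :=
            mul_le_mul_of_nonneg_right hs1' (norm_nonneg _)
        _ ≤ K2 * ε := by rw [one_mul]; exact a2
        _ ≤ K * ε := mul_le_mul_of_nonneg_right hK2' hε.le
  -- the far case
  have hfar : ∀ s ∈ Icc (0 : ℝ) 1, ∀ p q : E2, 2 ≤ ‖p‖ → ‖q‖ ≤ 1 / 2 →
      2 / 5 * ‖p - q‖ ≤ ‖kε s p - kε s q‖ := by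
    intro s hs p q hp hq
    have hs0 := hs.1
    have hs1 : 0 ≤ 1 - s := by linarith [hs.2]
    have b1 : ‖f q‖ ≤ 1 / 2 := by
      rcases le_total ‖q‖ (2 / 5) with h | h
      · exact (hfn q h).trans (by norm_num)
      · rw [hff q h, norm_emb]
        exact hq
    have b2 : ‖f0 q‖ ≤ 1 / 2 := by
      rcases le_total ‖q‖ (2 / 5) with h | h
      · exact (hf0n q h).trans (by norm_num)
      · rw [hf0f q h, norm_emb]
        exact hq
    have b3 : ‖F ε q‖ ≤ 1 := by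
      have c1 := hK1 ε hε q
      have c2 : ‖F ε q‖ ≤ ‖f q‖ + ‖F ε q - f q‖ := by
        have := norm_add_le (f q) (F ε q - f q)
        rwa [add_sub_cancel] at this
      have c3 : K1 * ε ≤ K * ε := mul_le_mul_of_nonneg_right hK1' hε.le
      linarith
    have b4 : ‖(1 - s) • F ε q + s • f0 q‖ ≤ 1 := by
      refine (norm_add_le _ _).trans ?_
      rw [norm_smul, norm_smul, Real.norm_eq_abs, Real.norm_eq_abs, abs_of_nonneg hs1,
        abs_of_nonneg hs0]
      nlinarith [norm_nonneg (F ε q), norm_nonneg (f0 q)]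
    have b5 : (1 - s) • F ε p + s • f0 p = emb p := by
      rw [F_far hF hff hε hε2 (by linarith : 1 / 2 ≤ ‖p‖), hf0f p (by linarith), ← add_smul,
        sub_add_cancel, one_smul]
    have b6 := le_kk (F ε) f0 (H ε) g s p q
    rw [b5, ← hkε] at b6
    have b7 : ‖emb p‖ - ‖(1 - s) • F ε q + s • f0 q‖ ≤
        ‖emb p - ((1 - s) • F ε q + s • f0 q)‖ := norm_sub_norm_le _ _
    rw [norm_emb] at b7
    have b8 : ‖p - q‖ ≤ ‖p‖ + ‖q‖ := norm_sub_le _ _
    linarith
  refine ⟨min (min (m / (C + 1)) 1) (min (c0 / 8) (2 / 5)), by positivity, fun s hs p q => ?_⟩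
  have hd : 0 ≤ ‖p - q‖ := norm_nonneg _
  have hs0 := hs.1
  have hs1 : 0 ≤ 1 - s := by linarith [hs.2]
  by_cases hpq : ‖p - q‖ < r / 4
  · -- close points
    obtain ⟨Q, hQC, hQ1, hQ2⟩ := hQ p
    have c1 : MonoAt (F ε) p Q m (r / 2) := hF.mono p Q m r hQ1 ε hε hε1
    have c2 : MonoAt f0 p Q m (r / 2) := by
      intro x hx y hy
      refine hQ2 x ?_ y ?_
      · exact ball_subset_ball (by linarith) hx
      · exact ball_subset_ball (by linarith) hy
    have c3 := near_case c1 c2 hQC hs (mem_ball_self (by linarith))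
      (show q ∈ ball p (r / 2) by rw [mem_ball, dist_comm, dist_eq_norm]; linarith)
    have c4 := le_kk (F ε) f0 (H ε) g s p q
    rw [← hkε] at c4
    calc _ ≤ m / (C + 1) * ‖p - q‖ :=
          mul_le_mul_of_nonneg_right ((min_le_left _ _).trans (min_le_left _ _)) hd
      _ ≤ _ := c3.trans c4
  · have hpq' : r / 4 ≤ ‖p - q‖ := not_lt.mp hpq
    by_cases hbig : ‖p‖ ≤ 2 ∧ ‖q‖ ≤ 2
    · have c1 := hc0' s hs p q hbig.1 hbig.2 hpq'
      have c2 := hclose s hs p
      have c3 := hclose s hs q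
      have c4 : ‖k s p - k s q‖ ≤ ‖kε s p - kε s q‖ + ‖kε s p - k s p‖ + ‖kε s q - k s q‖ := by
        have e : k s p - k s q = (kε s p - kε s q) - (kε s p - k s p) + (kε s q - k s q) := by abel
        rw [e]
        exact (norm_add_le _ _).trans (add_le_add_left (norm_sub_le _ _) _)
      have c5 : ‖p - q‖ ≤ 4 := (norm_sub_le _ _).trans (by linarith [hbig.1, hbig.2])
      calc _ ≤ c0 / 8 * ‖p - q‖ :=
            mul_le_mul_of_nonneg_right ((min_le_right _ _).trans (min_le_left _ _)) hd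
        _ ≤ c0 / 8 * 4 := mul_le_mul_of_nonneg_left c5 (by positivity)
        _ ≤ _ := by linarith
    · by_cases hhalf : 1 / 2 ≤ ‖p‖ ∧ 1 / 2 ≤ ‖q‖
      · -- both far
        have b5 : ∀ x : E2, 1 / 2 ≤ ‖x‖ → (1 - s) • F ε x + s • f0 x = emb x := by
          intro x hx
          rw [F_far hF hff hε hε2 hx, hf0f x (by linarith), ← add_smul, sub_add_cancel, one_smul]
        have b6 := le_kk (F ε) f0 (H ε) g s p q
        rw [b5 p hhalf.1, b5 q hhalf.2, norm_emb_sub, ← hkε] at b6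
        calc _ ≤ 1 * ‖p - q‖ :=
              mul_le_mul_of_nonneg_right ((min_le_left _ _).trans (min_le_right _ _)) hd
          _ = ‖p - q‖ := one_mul _
          _ ≤ _ := b6
      · have c1 : 2 / 5 * ‖p - q‖ ≤ ‖kε s p - kε s q‖ := by
          rcases le_total ‖p‖ 2 with hp | hp
          · have hq : 2 ≤ ‖q‖ := by
              by_contra hcon
              exact hbig ⟨hp, (not_le.mp hcon).le⟩
            have hp2 : ‖p‖ ≤ 1 / 2 := by
              by_contra hcon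
              exact hhalf ⟨(not_le.mp hcon).le, by linarith⟩
            have := hfar s hs q p hq hp2
            rwa [norm_sub_rev q p, norm_sub_rev (kε s q)] at this
          · have hq2 : ‖q‖ ≤ 1 / 2 := by
              by_contra hcon
              exact hhalf ⟨by linarith, (not_le.mp hcon).le⟩
            exact hfar s hs p q hp hq2
        calc _ ≤ 2 / 5 * ‖p - q‖ :=
              mul_le_mul_of_nonneg_right ((min_le_right _ _).trans (min_le_right _ _)) hd
          _ ≤ _ := c1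

end Pool.Agent.Work.MP_48319b_gt
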