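import Pool.Agent.Work.MP_48319b_gt.Data

/-!
# MP_48319b_gt : the colours

Generated by a Python script of helper96.
-/

namespace Pool.Agent.Work.MP_48319b_gt.Dat

set_option maxRecDepth 100000

/-- triangles with their colours in `ZMod 3`; the colour `c` stands for the reflection
`x ↦ 2 c - x` of `ZMod 3` (a transposition in `Equiv.Perm (ZMod 3)` or `Equiv.Perm (Fin 3)`). In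
the order of `F`. -/
def colL : List (Tri × ℕ) := [
(⟨112, 117, 174⟩, 2), (⟨112, 174, 173⟩, 2), (⟨117, 176, 174⟩, 2), (⟨111, 112, 173⟩, 2),
  (⟨111, 173, 172⟩, 2), (⟨117, 119, 176⟩, 2), (⟨119, 171, 176⟩, 2), (⟨81, 90, 89⟩, 0),
  (⟨81, 91, 90⟩, 0), (⟨90, 91, 167⟩, 0), (⟨90, 167, 110⟩, 0), (⟨182, 181, 90⟩, 0),
  (⟨182, 90, 110⟩, 0), (⟨185, 89, 90⟩, 0), (⟨181, 187, 90⟩, 0), (⟨185, 90, 187⟩, 0),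
  (⟨5, 34, 35⟩, 1), (⟨5, 35, 38⟩, 1), (⟨82, 35, 34⟩, 1), (⟨114, 117, 112⟩, 0),
  (⟨114, 121, 117⟩, 0), (⟨125, 117, 140⟩, 1), (⟨125, 119, 117⟩, 1), (⟨148, 38, 35⟩, 2),
  (⟨148, 35, 155⟩, 2), (⟨121, 163, 117⟩, 0), (⟨164, 155, 35⟩, 2), (⟨117, 162, 140⟩, 0),
  (⟨117, 163, 162⟩, 0), (⟨186, 164, 35⟩, 2), (⟨82, 186, 35⟩, 1), (⟨111, 114, 112⟩, 0),
  (⟨5, 31, 34⟩, 1), (⟨82, 34, 31⟩, 1), (⟨159, 89, 185⟩, 0), (⟨159, 185, 109⟩, 0),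
  (⟨185, 187, 109⟩, 0), (⟨114, 120, 121⟩, 0), (⟨120, 161, 121⟩, 0), (⟨121, 161, 163⟩, 0),
  (⟨81, 89, 45⟩, 0), (⟨45, 89, 159⟩, 0), (⟨111, 113, 114⟩, 0), (⟨113, 120, 114⟩, 0),
  (⟨125, 93, 119⟩, 1), (⟨119, 93, 171⟩, 2), (⟨167, 88, 110⟩, 0), (⟨183, 182, 110⟩, 0),
  (⟨183, 110, 88⟩, 0), (⟨159, 163, 161⟩, 0), (⟨159, 162, 163⟩, 0), (⟨91, 88, 167⟩, 0),
  (⟨45, 159, 52⟩, 0), (⟨52, 159, 53⟩, 0), (⟨159, 109, 73⟩, 0), (⟨159, 73, 151⟩, 0),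
  (⟨159, 151, 135⟩, 0), (⟨159, 135, 140⟩, 0), (⟨159, 140, 162⟩, 0), (⟨159, 161, 53⟩, 0),
  (⟨181, 109, 187⟩, 0), (⟨82, 98, 186⟩, 1), (⟨98, 164, 186⟩, 2), (⟨120, 53, 161⟩, 0),
  (⟨66, 81, 80⟩, 0), (⟨66, 67, 81⟩, 0), (⟨80, 81, 43⟩, 0), (⟨81, 67, 68⟩, 0), (⟨81, 44, 43⟩, 0),
  (⟨81, 45, 44⟩, 0), (⟨81, 68, 87⟩, 0), (⟨81, 87, 88⟩, 0), (⟨81, 88, 91⟩, 0), (⟨5, 38, 37⟩, 1),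
  (⟨148, 37, 38⟩, 2), (⟨97, 164, 98⟩, 2), (⟨97, 153, 164⟩, 2), (⟨164, 153, 156⟩, 2),
  (⟨164, 156, 155⟩, 2), (⟨148, 155, 156⟩, 2), (⟨125, 140, 135⟩, 1), (⟨104, 181, 182⟩, 0),
  (⟨104, 182, 183⟩, 0), (⟨3, 5, 4⟩, 1), (⟨3, 9, 5⟩, 1), (⟨4, 5, 28⟩, 1), (⟨5, 9, 31⟩, 1),
  (⟨5, 32, 28⟩, 1), (⟨5, 33, 32⟩, 1), (⟨5, 36, 33⟩, 1), (⟨5, 37, 36⟩, 1), (⟨123, 135, 124⟩, 1),
  (⟨123, 125, 135⟩, 1), (⟨124, 135, 137⟩, 1), (⟨147, 135, 151⟩, 0), (⟨147, 137, 135⟩, 0),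
  (⟨17, 58, 59⟩, 1), (⟨17, 59, 60⟩, 1), (⟨58, 136, 59⟩, 1), (⟨148, 156, 157⟩, 2),
  (⟨60, 59, 165⟩, 0), (⟨153, 154, 156⟩, 2), (⟨165, 59, 166⟩, 0), (⟨166, 59, 150⟩, 0),
  (⟨156, 158, 168⟩, 2), (⟨156, 154, 158⟩, 2), (⟨156, 168, 157⟩, 2), (⟨59, 139, 138⟩, 1),
  (⟨59, 138, 152⟩, 0), (⟨59, 136, 139⟩, 1), (⟨59, 152, 150⟩, 0), (⟨148, 157, 158⟩, 2),
  (⟨158, 157, 168⟩, 2), (⟨124, 137, 138⟩, 1), (⟨124, 138, 139⟩, 1), (⟨147, 138, 137⟩, 0),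
  (⟨147, 152, 138⟩, 0), (⟨41, 148, 142⟩, 2), (⟨41, 101, 148⟩, 2), (⟨142, 148, 97⟩, 2),
  (⟨148, 101, 37⟩, 2), (⟨148, 153, 97⟩, 2), (⟨148, 154, 153⟩, 2), (⟨148, 158, 154⟩, 2),
  (⟨147, 150, 152⟩, 0), (⟨82, 97, 98⟩, 1), (⟨181, 73, 109⟩, 0), (⟨57, 165, 166⟩, 0),
  (⟨57, 166, 150⟩, 0), (⟨147, 151, 149⟩, 0), (⟨73, 149, 151⟩, 0), (⟨147, 57, 150⟩, 0),
  (⟨27, 82, 30⟩, 1), (⟨27, 47, 82⟩, 1), (⟨30, 82, 29⟩, 1), (⟨82, 47, 48⟩, 1), (⟨82, 49, 29⟩, 1),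
  (⟨82, 31, 49⟩, 1), (⟨82, 48, 92⟩, 1), (⟨82, 92, 93⟩, 1), (⟨82, 94, 95⟩, 1), (⟨82, 96, 94⟩, 1),
  (⟨82, 95, 97⟩, 1), (⟨82, 93, 96⟩, 1), (⟨77, 99, 147⟩, 0), (⟨77, 147, 78⟩, 0),
  (⟨99, 57, 147⟩, 0), (⟨147, 149, 78⟩, 0), (⟨78, 149, 73⟩, 0), (⟨57, 60, 165⟩, 0),
  (⟨19, 20, 61⟩, 2), (⟨19, 61, 21⟩, 0), (⟨20, 65, 61⟩, 2), (⟨21, 61, 69⟩, 0),
  (⟨102, 61, 103⟩, 2), (⟨103, 61, 65⟩, 2), (⟨102, 177, 61⟩, 0), (⟨177, 69, 61⟩, 0),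
  (⟨15, 31, 9⟩, 1), (⟨15, 46, 31⟩, 1), (⟨16, 49, 31⟩, 1), (⟨16, 31, 46⟩, 1), (⟨111, 50, 51⟩, 1),
  (⟨111, 115, 113⟩, 1), (⟨111, 116, 115⟩, 1), (⟨111, 51, 116⟩, 1), (⟨50, 111, 170⟩, 2),
  (⟨111, 172, 170⟩, 2), (⟨17, 60, 57⟩, 1), (⟨18, 20, 19⟩, 2), (⟨18, 22, 20⟩, 2),
  (⟨20, 22, 62⟩, 2), (⟨20, 62, 63⟩, 2), (⟨20, 63, 64⟩, 2), (⟨20, 64, 65⟩, 2), (⟨68, 145, 87⟩, 0),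
  (⟨87, 145, 88⟩, 0), (⟨48, 144, 92⟩, 2), (⟨92, 144, 93⟩, 2), (⟨25, 77, 78⟩, 0),
  (⟨25, 78, 73⟩, 0), (⟨130, 142, 97⟩, 1), (⟨130, 143, 142⟩, 1), (⟨41, 142, 143⟩, 1),
  (⟨130, 141, 143⟩, 1), (⟨41, 143, 141⟩, 1), (⟨124, 139, 136⟩, 1), (⟨42, 41, 141⟩, 1),
  (⟨42, 141, 132⟩, 1), (⟨130, 132, 141⟩, 1), (⟨113, 115, 120⟩, 1), (⟨103, 65, 64⟩, 2),
  (⟨25, 73, 72⟩, 0), (⟨104, 72, 73⟩, 0), (⟨104, 73, 181⟩, 0), (⟨17, 57, 56⟩, 1),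
  (⟨83, 56, 57⟩, 2), (⟨83, 57, 99⟩, 2), (⟨130, 97, 95⟩, 1), (⟨18, 24, 25⟩, 0), (⟨18, 25, 22⟩, 0),
  (⟨24, 70, 25⟩, 0), (⟨25, 62, 22⟩, 0), (⟨25, 72, 62⟩, 0), (⟨25, 74, 71⟩, 0), (⟨25, 71, 75⟩, 0),
  (⟨25, 76, 74⟩, 0), (⟨25, 75, 77⟩, 0), (⟨25, 70, 76⟩, 0), (⟨122, 130, 129⟩, 1),
  (⟨122, 127, 130⟩, 1), (⟨129, 130, 94⟩, 1), (⟨130, 127, 134⟩, 1), (⟨130, 134, 132⟩, 1),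
  (⟨130, 95, 94⟩, 1), (⟨39, 42, 132⟩, 1), (⟨39, 132, 134⟩, 1), (⟨125, 128, 94⟩, 1),
  (⟨125, 94, 96⟩, 1), (⟨129, 94, 131⟩, 1), (⟨131, 94, 128⟩, 1), (⟨7, 40, 41⟩, 1),
  (⟨7, 41, 42⟩, 1), (⟨26, 79, 77⟩, 2), (⟨26, 77, 75⟩, 2), (⟨83, 77, 79⟩, 2), (⟨83, 99, 77⟩, 2),
  (⟨40, 86, 41⟩, 0), (⟨86, 101, 41⟩, 0), (⟨86, 37, 101⟩, 0), (⟨125, 96, 93⟩, 1),
  (⟨58, 126, 136⟩, 1), (⟨124, 136, 126⟩, 1), (⟨122, 129, 131⟩, 1), (⟨7, 42, 39⟩, 1),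
  (⟨39, 126, 58⟩, 1), (⟨39, 134, 126⟩, 1), (⟨124, 126, 134⟩, 1), (⟨68, 108, 145⟩, 0),
  (⟨145, 108, 88⟩, 0), (⟨122, 131, 128⟩, 1), (⟨115, 116, 120⟩, 1), (⟨122, 128, 125⟩, 1),
  (⟨26, 75, 71⟩, 2), (⟨122, 123, 124⟩, 1), (⟨122, 124, 127⟩, 1), (⟨124, 134, 127⟩, 1),
  (⟨71, 74, 133⟩, 2), (⟨74, 76, 133⟩, 2), (⟨104, 183, 184⟩, 0), (⟨184, 183, 88⟩, 0),
  (⟨71, 133, 76⟩, 2), (⟨66, 80, 83⟩, 2), (⟨66, 83, 79⟩, 2), (⟨80, 43, 83⟩, 2), (⟨83, 43, 56⟩, 2),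
  (⟨7, 39, 11⟩, 1), (⟨17, 11, 39⟩, 1), (⟨17, 39, 58⟩, 1), (⟨24, 26, 71⟩, 2), (⟨24, 71, 70⟩, 0),
  (⟨122, 125, 123⟩, 1), (⟨71, 76, 70⟩, 0), (⟨3, 15, 9⟩, 1), (⟨18, 19, 21⟩, 0), (⟨15, 45, 46⟩, 1),
  (⟨16, 46, 45⟩, 1), (⟨116, 55, 120⟩, 1), (⟨116, 51, 55⟩, 1), (⟨3, 4, 7⟩, 1), (⟨3, 7, 11⟩, 1),
  (⟨4, 28, 7⟩, 1), (⟨7, 28, 40⟩, 1), (⟨26, 66, 79⟩, 2), (⟨28, 86, 40⟩, 0), (⟨28, 85, 86⟩, 0),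
  (⟨86, 85, 33⟩, 0), (⟨86, 33, 100⟩, 0), (⟨86, 100, 37⟩, 0), (⟨18, 26, 24⟩, 2), (⟨3, 11, 17⟩, 1),
  (⟨17, 56, 43⟩, 1), (⟨62, 72, 104⟩, 0), (⟨62, 103, 63⟩, 2), (⟨103, 105, 63⟩, 2),
  (⟨63, 105, 64⟩, 2), (⟨15, 43, 44⟩, 1), (⟨15, 44, 45⟩, 1), (⟨21, 67, 66⟩, 0), (⟨21, 68, 67⟩, 0),
  (⟨28, 32, 84⟩, 2), (⟨32, 33, 84⟩, 2), (⟨93, 118, 171⟩, 2), (⟨118, 175, 171⟩, 2),
  (⟨3, 17, 14⟩, 1), (⟨14, 17, 43⟩, 1), (⟨28, 84, 85⟩, 2), (⟨84, 33, 85⟩, 2), (⟨16, 45, 52⟩, 1),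
  (⟨16, 47, 27⟩, 1), (⟨16, 48, 47⟩, 1), (⟨120, 54, 53⟩, 1), (⟨120, 55, 54⟩, 1),
  (⟨103, 64, 106⟩, 2), (⟨64, 160, 106⟩, 2), (⟨64, 107, 160⟩, 2), (⟨64, 105, 107⟩, 2),
  (⟨2, 27, 30⟩, 1), (⟨2, 30, 29⟩, 1), (⟨103, 107, 105⟩, 2), (⟨3, 14, 15⟩, 1), (⟨14, 43, 15⟩, 1),
  (⟨21, 66, 23⟩, 0), (⟨26, 23, 66⟩, 2), (⟨1, 27, 2⟩, 1), (⟨1, 6, 27⟩, 1), (⟨6, 10, 27⟩, 1),
  (⟨16, 27, 10⟩, 1), (⟨0, 1, 2⟩, 1), (⟨0, 2, 8⟩, 1), (⟨2, 29, 8⟩, 1), (⟨0, 6, 1⟩, 1),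
  (⟨18, 23, 26⟩, 2), (⟨62, 102, 103⟩, 2), (⟨103, 106, 107⟩, 2), (⟨106, 160, 107⟩, 2),
  (⟨16, 52, 53⟩, 1), (⟨16, 53, 54⟩, 1), (⟨0, 10, 6⟩, 1), (⟨0, 8, 13⟩, 1), (⟨13, 8, 29⟩, 1),
  (⟨144, 118, 93⟩, 2), (⟨36, 37, 146⟩, 0), (⟨146, 37, 100⟩, 0), (⟨180, 88, 108⟩, 0),
  (⟨184, 88, 180⟩, 0), (⟨62, 104, 102⟩, 0), (⟨12, 13, 29⟩, 1), (⟨12, 29, 16⟩, 1),
  (⟨16, 29, 49⟩, 1), (⟨0, 13, 12⟩, 1), (⟨0, 12, 16⟩, 1), (⟨0, 16, 10⟩, 1), (⟨18, 21, 23⟩, 0),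
  (⟨102, 104, 177⟩, 0), (⟨104, 184, 180⟩, 0), (⟨104, 178, 177⟩, 0), (⟨104, 179, 178⟩, 0),
  (⟨104, 180, 179⟩, 0), (⟨21, 69, 68⟩, 0), (⟨48, 118, 144⟩, 2), (⟨180, 108, 179⟩, 0),
  (⟨16, 50, 48⟩, 1), (⟨16, 51, 50⟩, 1), (⟨16, 55, 51⟩, 1), (⟨16, 54, 55⟩, 1),
  (⟨179, 108, 68⟩, 0), (⟨33, 146, 100⟩, 0), (⟨33, 36, 146⟩, 0), (⟨179, 68, 178⟩, 0),
  (⟨178, 69, 177⟩, 0), (⟨178, 68, 69⟩, 0), (⟨48, 50, 169⟩, 2), (⟨118, 48, 175⟩, 2),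
  (⟨48, 169, 175⟩, 2), (⟨50, 170, 169⟩, 2)]

/-- colours of the vertices (all of them are reflections) -/
def tabCv : List (List ℕ) := [
[1, 1, 1, 1, 1, 1, 1, 1, 1, 1, 1, 1, 1, 1, 1, 1],
[1, 1, 2, 0, 2, 0, 0, 2, 2, 0, 2, 1, 0, 1, 1, 1],
[2, 0, 1, 2, 0, 0, 2, 1, 0, 0, 1, 1, 1, 1, 1, 1],
[1, 1, 1, 1, 1, 1, 1, 1, 1, 1, 1, 1, 1, 0, 0, 2],
[2, 2, 2, 0, 0, 0, 0, 2, 0, 0, 0, 2, 0, 2, 0, 2],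
[2, 0, 1, 2, 2, 0, 0, 0, 0, 0, 0, 0, 1, 1, 1, 1],
[1, 2, 2, 2, 0, 0, 0, 2, 0, 2, 2, 2, 0, 0, 0, 1],
[2, 1, 0, 1, 1, 1, 2, 1, 1, 0, 1, 1, 1, 1, 1, 1],
[1, 1, 1, 1, 1, 2, 1, 1, 1, 1, 1, 1, 1, 1, 2, 1],
[2, 0, 0, 0, 2, 0, 0, 0, 0, 2, 2, 2, 2, 2, 2, 0],
[2, 0, 0, 0, 2, 0, 0, 0, 2, 2, 2, 2, 2, 2, 2, 2],
[2, 0, 0, 0, 0, 0, 0, 0, 0, 0, 2, 0]]

/-- colours of the lower edges: `((a, b), c)` -/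
def ceL : List ((ℕ × ℕ) × ℕ) := [
  ((3, 4), 1), ((4, 3), 1), ((18, 22), 0), ((22, 18), 0), ((18, 19), 0), ((19, 18), 0),
  ((18, 23), 2), ((23, 18), 2), ((18, 24), 2), ((24, 18), 2), ((3, 14), 1), ((14, 3), 1),
  ((4, 28), 1), ((28, 4), 1), ((22, 62), 0), ((62, 22), 0), ((66, 80), 2), ((80, 66), 2),
  ((80, 43), 2), ((43, 80), 2), ((19, 61), 0), ((61, 19), 0), ((28, 32), 2), ((32, 28), 2),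
  ((32, 33), 2), ((33, 32), 2), ((111, 112), 2), ((112, 111), 2), ((112, 117), 2),
  ((117, 112), 2), ((33, 36), 0), ((36, 33), 0), ((36, 37), 0), ((37, 36), 0), ((35, 38), 2),
  ((38, 35), 2), ((38, 37), 2), ((37, 38), 2), ((23, 66), 2), ((66, 23), 2), ((24, 71), 2),
  ((71, 24), 2), ((28, 40), 0), ((40, 28), 0), ((40, 41), 0), ((41, 40), 0), ((39, 42), 1),
  ((42, 39), 1), ((42, 41), 1), ((41, 42), 1), ((14, 43), 1), ((43, 14), 1), ((43, 44), 1),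
  ((44, 43), 1), ((44, 45), 1), ((45, 44), 1), ((111, 116), 1), ((116, 111), 1), ((116, 120), 1),
  ((120, 116), 1), ((28, 85), 0), ((85, 28), 0), ((85, 33), 0), ((33, 85), 0), ((62, 102), 0),
  ((102, 62), 0), ((102, 61), 0), ((61, 102), 0), ((50, 48), 1), ((48, 50), 1), ((45, 52), 1),
  ((52, 45), 1), ((52, 53), 1), ((53, 52), 1), ((43, 56), 1), ((56, 43), 1), ((56, 57), 1),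
  ((57, 56), 1), ((39, 58), 1), ((58, 39), 1), ((58, 59), 1), ((59, 58), 1), ((57, 60), 1),
  ((60, 57), 1), ((60, 59), 1), ((59, 60), 1), ((111, 113), 1), ((113, 111), 1), ((113, 120), 1),
  ((120, 113), 1), ((111, 50), 1), ((50, 111), 1), ((71, 74), 0), ((74, 71), 0), ((71, 75), 2),
  ((75, 71), 2), ((74, 76), 0), ((76, 74), 0), ((75, 77), 2), ((77, 75), 2), ((41, 142), 2),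
  ((142, 41), 2), ((142, 97), 2), ((97, 142), 2), ((48, 92), 1), ((92, 48), 1), ((92, 93), 1),
  ((93, 92), 1), ((120, 121), 0), ((121, 120), 0), ((121, 117), 0), ((117, 121), 0),
  ((77, 99), 2), ((99, 77), 2), ((41, 101), 0), ((101, 41), 0), ((99, 57), 2), ((57, 99), 2),
  ((101, 37), 0), ((37, 101), 0), ((97, 98), 2), ((98, 97), 2), ((98, 186), 2), ((186, 98), 2),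
  ((33, 100), 0), ((100, 33), 0), ((100, 37), 0), ((37, 100), 0), ((117, 119), 1),
  ((119, 117), 1), ((119, 93), 1), ((93, 119), 1), ((71, 76), 0), ((76, 71), 0), ((135, 137), 1),
  ((137, 135), 1), ((137, 138), 1), ((138, 137), 1), ((117, 140), 1), ((140, 117), 1),
  ((140, 135), 1), ((135, 140), 1), ((166, 59), 0), ((59, 166), 0), ((59, 138), 1),
  ((138, 59), 1), ((120, 53), 1), ((53, 120), 1), ((57, 166), 0), ((166, 57), 0), ((186, 35), 2),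
  ((35, 186), 2)]

end Pool.Agent.Work.MP_48319b_gt.Dat
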