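import Pool.Agent.Work.MP_48319b_gt.Data

/-!
# MP_48319b_gt : the colours of the edges

Generated by a Python script of helper96.
-/

namespace Pool.Agent.Work.MP_48319b_gt.Dat

set_option maxRecDepth 100000

/-- colours of the open edges `(a, b)`, `a < b`: list of `(b, c)` for each `a`, two level table -/
def tabCe : List (List (List (ℕ × ℕ))) := [
[[(1, 1), (2, 1), (6, 1), (8, 1), (10, 1), (12, 1), (13, 1), (16, 1)],
  [(2, 1), (6, 1), (27, 1)],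
  [(8, 1), (27, 1), (29, 1), (30, 1)],
  [(4, 1), (5, 1), (7, 1), (9, 1), (11, 1), (14, 1), (15, 1), (17, 1)],
  [(5, 1), (7, 1), (28, 1)],
  [(9, 1), (28, 1), (31, 1), (32, 1), (33, 1), (34, 1), (35, 1), (36, 1), (37, 1), (38, 1)],
  [(10, 1), (27, 1)],
  [(11, 1), (28, 1), (39, 1), (40, 1), (41, 1), (42, 1)],
  [(13, 1), (29, 1)],
  [(15, 1), (31, 1)],
  [(16, 1), (27, 1)],
  [(17, 1), (39, 1)],
  [(13, 1), (16, 1), (29, 1)],
  [(29, 1)],
  [(15, 1), (17, 1), (43, 1)],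
  [(31, 1), (43, 1), (44, 1), (45, 1), (46, 1)]],
[[(27, 1), (29, 1), (31, 1), (45, 1), (46, 1), (47, 1), (48, 1), (49, 1), (50, 1), (51, 1), (52, 1), (53, 1), (54, 1), (55, 1)],
  [(39, 1), (43, 1), (56, 1), (57, 1), (58, 1), (59, 1), (60, 1)],
  [(19, 0), (20, 2), (21, 0), (22, 0), (23, 2), (24, 2), (25, 0), (26, 2)],
  [(20, 2), (21, 0), (61, 0)],
  [(22, 2), (61, 2), (62, 2), (63, 2), (64, 2), (65, 2)],
  [(23, 0), (61, 0), (66, 0), (67, 0), (68, 0), (69, 0)],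
  [(25, 0), (62, 0)],
  [(26, 2), (66, 2)],
  [(25, 0), (26, 2), (70, 0), (71, 2)],
  [(62, 0), (70, 0), (71, 0), (72, 0), (73, 0), (74, 0), (75, 0), (76, 0), (77, 0), (78, 0)],
  [(66, 2), (71, 2), (75, 2), (77, 2), (79, 2)],
  [(30, 1), (47, 1), (82, 1)],
  [(32, 2), (40, 0), (84, 2), (85, 0), (86, 0)],
  [(30, 1), (49, 1), (82, 1)],
  [(82, 1)],
  [(34, 1), (46, 1), (49, 1), (82, 1)]],
[[(33, 2), (84, 2)],
  [(36, 0), (84, 2), (85, 0), (86, 0), (100, 0), (146, 0)],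
  [(35, 1), (82, 1)],
  [(38, 2), (82, 1), (148, 2), (155, 2), (164, 2), (186, 2)],
  [(37, 0), (146, 0)],
  [(38, 2), (86, 0), (100, 0), (101, 0), (146, 0), (148, 2)],
  [(148, 2)],
  [(42, 1), (58, 1), (126, 1), (132, 1), (134, 1)],
  [(41, 0), (86, 0)],
  [(42, 1), (86, 0), (101, 0), (141, 1), (142, 2), (143, 1), (148, 2)],
  [(132, 1), (141, 1)],
  [(44, 1), (56, 1), (80, 2), (81, 0), (83, 2)],
  [(45, 1), (81, 0)],
  [(46, 1), (52, 1), (81, 0), (89, 0), (159, 0)],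
  [],
  [(48, 1), (82, 1)]],
[[(50, 1), (82, 1), (92, 1), (118, 2), (144, 2), (169, 2), (175, 2)],
  [(82, 1)],
  [(51, 1), (111, 1), (169, 2), (170, 2)],
  [(55, 1), (111, 1), (116, 1)],
  [(53, 1), (159, 0)],
  [(54, 1), (120, 1), (159, 0), (161, 0)],
  [(55, 1), (120, 1)],
  [(116, 1), (120, 1)],
  [(57, 1), (83, 2)],
  [(60, 1), (83, 2), (99, 2), (147, 0), (150, 0), (165, 0), (166, 0)],
  [(59, 1), (126, 1), (136, 1)],
  [(60, 1), (136, 1), (138, 1), (139, 1), (150, 0), (152, 0), (165, 0), (166, 0)],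
  [(165, 0)],
  [(65, 2), (69, 0), (102, 0), (103, 2), (177, 0)],
  [(63, 2), (72, 0), (102, 0), (103, 2), (104, 0)],
  [(64, 2), (103, 2), (105, 2)]],
[[(65, 2), (103, 2), (105, 2), (106, 2), (107, 2), (160, 2)],
  [(103, 2)],
  [(67, 0), (79, 2), (80, 2), (81, 0), (83, 2)],
  [(68, 0), (81, 0)],
  [(69, 0), (81, 0), (87, 0), (108, 0), (145, 0), (178, 0), (179, 0)],
  [(177, 0), (178, 0)],
  [(71, 0), (76, 0)],
  [(74, 0), (75, 2), (76, 0), (133, 2)],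
  [(73, 0), (104, 0)],
  [(78, 0), (104, 0), (109, 0), (149, 0), (151, 0), (159, 0), (181, 0)],
  [(76, 0), (133, 2)],
  [(77, 2)],
  [(133, 2)],
  [(78, 0), (79, 2), (83, 2), (99, 2), (147, 0)],
  [(147, 0), (149, 0)],
  [(83, 2)]],
[[(81, 0), (83, 2)],
  [(87, 0), (88, 0), (89, 0), (90, 0), (91, 0)],
  [(92, 1), (93, 1), (94, 1), (95, 1), (96, 1), (97, 1), (98, 1), (186, 1)],
  [(99, 2)],
  [(85, 2)],
  [(86, 0)],
  [(100, 0), (101, 0)],
  [(88, 0), (145, 0)],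
  [(91, 0), (108, 0), (110, 0), (145, 0), (167, 0), (180, 0), (183, 0), (184, 0)],
  [(90, 0), (159, 0), (185, 0)],
  [(91, 0), (110, 0), (167, 0), (181, 0), (182, 0), (185, 0), (187, 0)],
  [(167, 0)],
  [(93, 1), (144, 2)],
  [(96, 1), (118, 2), (119, 1), (125, 1), (144, 2), (171, 2)],
  [(95, 1), (96, 1), (125, 1), (128, 1), (129, 1), (130, 1), (131, 1)],
  [(97, 1), (130, 1)]],
[[(125, 1)],
  [(98, 2), (130, 1), (142, 2), (148, 2), (153, 2), (164, 2)],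
  [(164, 2), (186, 2)],
  [(147, 0)],
  [(146, 0)],
  [(148, 2)],
  [(103, 2), (104, 0), (177, 0)],
  [(105, 2), (106, 2), (107, 2)],
  [(177, 0), (178, 0), (179, 0), (180, 0), (181, 0), (182, 0), (183, 0), (184, 0)],
  [(107, 2)],
  [(107, 2), (160, 2)],
  [(160, 2)],
  [(145, 0), (179, 0), (180, 0)],
  [(159, 0), (181, 0), (185, 0), (187, 0)],
  [(167, 0), (182, 0), (183, 0)],
  [(112, 2), (113, 1), (114, 0), (115, 1), (116, 1), (170, 2), (172, 2), (173, 2)]],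
[[(114, 0), (117, 2), (173, 2), (174, 2)],
  [(114, 0), (115, 1), (120, 1)],
  [(117, 0), (120, 0), (121, 0)],
  [(116, 1), (120, 1)],
  [(120, 1)],
  [(119, 1), (121, 0), (125, 1), (140, 1), (162, 0), (163, 0), (174, 2), (176, 2)],
  [(144, 2), (171, 2), (175, 2)],
  [(125, 1), (171, 2), (176, 2)],
  [(121, 0), (161, 0)],
  [(161, 0), (163, 0)],
  [(123, 1), (124, 1), (125, 1), (127, 1), (128, 1), (129, 1), (130, 1), (131, 1)],
  [(124, 1), (125, 1), (135, 1)],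
  [(126, 1), (127, 1), (134, 1), (135, 1), (136, 1), (137, 1), (138, 1), (139, 1)],
  [(128, 1), (135, 1), (140, 1)],
  [(134, 1), (136, 1)],
  [(130, 1), (134, 1)]],
[[(131, 1)],
  [(130, 1), (131, 1)],
  [(132, 1), (134, 1), (141, 1), (142, 1), (143, 1)],
  [],
  [(134, 1), (141, 1)],
  [],
  [],
  [(137, 1), (140, 1), (147, 0), (151, 0), (159, 0)],
  [(139, 1)],
  [(138, 1), (147, 0)],
  [(139, 1), (147, 0), (152, 0)],
  [],
  [(159, 0), (162, 0)],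
  [(143, 1)],
  [(143, 1), (148, 2)],
  []],
[[],
  [],
  [],
  [(149, 0), (150, 0), (151, 0), (152, 0)],
  [(153, 2), (154, 2), (155, 2), (156, 2), (157, 2), (158, 2)],
  [(151, 0)],
  [(152, 0), (166, 0)],
  [(159, 0)],
  [],
  [(154, 2), (156, 2), (164, 2)],
  [(156, 2), (158, 2)],
  [(156, 2), (164, 2)],
  [(157, 2), (158, 2), (164, 2), (168, 2)],
  [(158, 2), (168, 2)],
  [(168, 2)],
  [(161, 0), (162, 0), (163, 0), (185, 0)]],
[[],
  [(163, 0)],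
  [(163, 0)],
  [],
  [(186, 2)],
  [(166, 0)],
  [],
  [],
  [],
  [(170, 2), (175, 2)],
  [(172, 2)],
  [(175, 2), (176, 2)],
  [(173, 2)],
  [(174, 2)],
  [(176, 2)],
  []],
[[],
  [(178, 0)],
  [(179, 0)],
  [(180, 0)],
  [(184, 0)],
  [(182, 0), (187, 0)],
  [(183, 0)],
  [(184, 0)],
  [],
  [(187, 0)],
  [],
  []]]

end Pool.Agent.Work.MP_48319b_gt.Dat
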