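import Pool.Agent.Work.MP_48319b_gt.Chk
import Pool.Agent.Work.MP_48319b_gt.CertC
import Pool.Agent.Work.MP_48319b_gt.CertCe

/-!
# MP_48319b_gt : Boolean check of the colours (item D12)
-/

namespace Pool.Agent.Work.MP_48319b_gt.Dat.CC

/-- colour of a triangle -/
def colN (t : Tri) : ℕ :=
  match colL.find? (fun q => triEq q.1 t) with
  | some q => q.2
  | none => 0

/-- colour of a vertex -/
def cvN (v : ℕ) : ℕ := lk tabCv 0 v

/-- colour of an edge, `a < b` -/
def ceN' (a b : ℕ) : ℕ :=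
  match (lk tabCe [] a).find? (fun q => Nat.beq q.1 b) with
  | some q => q.2
  | none => 0

/-- colour of an edge -/
def ceN (a b : ℕ) : ℕ := match Nat.ble a b with
  | true => ceN' a b
  | false => ceN' b a

/-- reflection -/
def rf (a b : ℕ) : ℕ := (2 * a + 2 * b) % 3

/-- conjugation of the colour `c` of `v` by the sheets above -/
def conjN (v : ℕ) (t : Tri) (l : List ℕ) (c : ℕ) : ℕ :=
  l.foldr (fun u acc => match sg v t u with
    | true => rf (cvN u) acc
    | false => acc) c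

def vchk (t : Tri) (c v : ℕ) : Bool := Nat.beq c (conjN v t (up v) (cvN v) % 3)

def e0chk (c a b : ℕ) : Bool := Nat.beq c (ceN a b) || (twin a b).isSome || (twin b a).isSome

def tchk (q : Tri × ℕ) : Bool :=
  vchk q.1 q.2 q.1.a && vchk q.1 q.2 q.1.b && vchk q.1 q.2 q.1.c &&
  e0chk q.2 q.1.a q.1.b && e0chk q.2 q.1.b q.1.c && e0chk q.2 q.1.a q.1.c

def e1chk (e : (ℕ × ℕ) × (ℕ × ℕ)) (q : Tri × ℕ) : Bool :=
  match isV q.1 e.1.1 && isV q.1 e.1.2 with
  | false => true
  | true => match sg e.1.1 q.1 e.2.1 with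
    | true => Nat.beq q.2 (rf (ceN e.2.1 e.2.2) (ceN e.1.1 e.1.2))
    | false => Nat.beq q.2 (ceN e.1.1 e.1.2)

def e1all : Bool := twL.all fun e => colL.all fun q => e1chk e q

def twchk : Bool := twL.all fun e => match twin e.1.2 e.1.1 with
  | some p => Nat.beq p.1 e.2.2 && Nat.beq p.2 e.2.1
  | none => false

def bdchk : Bool := bd.all fun e => Nat.beq (cvN e.1) 2 && Nat.beq (cvN e.2) 2 &&
  Nat.beq (ceN e.1 e.2) 2

end Pool.Agent.Work.MP_48319b_gt.Dat.CC
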