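import Pool.Agent.Work.MP_48319b_gt.Bd.B01

/-!
# MP_48319b_gt : item C, the covering of the complement of a coloured surface
-/

open Metric Set Topology Filter Bundle
open scoped unitInterval

namespace Pool.Agent.Work.MP_48319b_gt
namespace ItemC

section cover

variable {X G : Type} [TopologicalSpace X] [Group G] (g : X → X → G)

/-- the frame at `z` is good at `y` -/
def Good (z y : X) : Prop := ∀ᶠ y' in 𝓝 y, g z y' = g y y' * g z y

variable [TopologicalSpace G] [DiscreteTopology G]

/-- the bundle with fibre `G` and transition functions `(g j y)⁻¹ * g i y` -/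
def core (h2 : ∀ z, ∀ᶠ y in 𝓝 z, Good g z y) : FiberBundleCore X X G where
  baseSet z := interior {y | Good g z y}
  isOpen_baseSet _ := isOpen_interior
  indexAt z := z
  mem_baseSet_at z := mem_interior_iff_mem_nhds.mpr (h2 z)
  coordChange i j y v := (g j y)⁻¹ * g i y * v
  coordChange_self i y _ v := by simp
  continuousOn_coordChange i j := by
    rintro ⟨y, v⟩ ⟨⟨hi, hj⟩, -⟩
    apply ContinuousAt.continuousWithinAt
    have hi' : Good g i y := (interior_subset : interior {y | Good g i y} ⊆ _) hi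
    have hj' : Good g j y := (interior_subset : interior {y | Good g j y} ⊆ _) hj
    have e1 : ∀ᶠ p in 𝓝 ((y, v) : X × G), (g j p.1)⁻¹ * g i p.1 * p.2 =
        (g j y)⁻¹ * g i y * v := by
      have a1 : ∀ᶠ p in 𝓝 ((y, v) : X × G), g i p.1 = g y p.1 * g i y :=
        (continuous_fst.tendsto (y, v)).eventually hi'
      have a2 : ∀ᶠ p in 𝓝 ((y, v) : X × G), g j p.1 = g y p.1 * g j y :=
        (continuous_fst.tendsto (y, v)).eventually hj'
      have a3 : ∀ᶠ p in 𝓝 ((y, v) : X × G), p.2 = v := by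
        have : ∀ᶠ w in 𝓝 v, w = v := by
          rw [nhds_discrete]; exact eventually_pure.mpr rfl
        exact (continuous_snd.tendsto (y, v)).eventually this
      filter_upwards [a1, a2, a3] with p p1 p2 p3
      rw [p1, p2, p3]
      group
    exact (continuousAt_const (y := (g j y)⁻¹ * g i y * v)).congr
      (e1.mono fun p hp => hp.symm)
  coordChange_comp i j k y _ v := by simp [mul_assoc]

variable (h2 : ∀ z, ∀ᶠ y in 𝓝 z, Good g z y)

theorem cov : IsCoveringMap (π G (core g h2).Fiber) := FiberBundle.isCoveringMap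

/-- the point of the covering with coordinate `a` in the frame of `y` -/
def pt (y : X) (a : G) : (π G (core g h2).Fiber) ⁻¹' {y} :=
  ⟨(⟨y, a⟩ : (core g h2).TotalSpace), rfl⟩

theorem pt_injective (y : X) {a a' : G} (h : pt g h2 y a = pt g h2 y a') : a = a' := by
  have h' : (⟨y, a⟩ : (core g h2).TotalSpace) = ⟨y, a'⟩ := congrArg Subtype.val h
  have := (TotalSpace.mk.injEq _ _ _ _ ▸ h').2
  exact eq_of_heq this

theorem mono_of_lift (h1 : ∀ z, g z z = 1) {y0 y1 : X} (γ : Path y0 y1) (α : I → G)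
    (hα : ∀ t0, ∀ᶠ t in 𝓝 t0, α t = g (γ t0) (γ t) * α t0) :
    (cov g h2).monodromy (.mk γ) (pt g h2 y0 (α 0)) = pt g h2 y1 (α 1) := by
  let Γ : I → (core g h2).TotalSpace := fun t => ⟨γ t, α t⟩
  have hcont : Continuous Γ := by
    rw [continuous_iff_continuousAt]
    intro t0
    rw [FiberBundle.continuousAt_totalSpace]
    refine ⟨γ.continuous.continuousAt, ?_⟩
    have e1 : ∀ᶠ t in 𝓝 t0, ((trivializationAt G (core g h2).Fiber (Γ t0).proj) (Γ t)).2 =
        α t0 := by
      filter_upwards [hα t0] with t ht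
      change (g (γ t0) (γ t))⁻¹ * g (γ t) (γ t) * α t = α t0
      rw [h1, mul_one, ht]
      group
    exact (continuousAt_const (y := α t0)).congr (e1.mono fun p hp => hp.symm)
  have haux : ∀ (y y' : X) (a : G), y = y' →
      (⟨y, a⟩ : (core g h2).TotalSpace) = ⟨y', a⟩ := by
    rintro y _ a rfl; rfl
  have hlift : Γ = (cov g h2).liftPath γ (pt g h2 y0 (α 0)).1
      (γ.source.trans (pt g h2 y0 (α 0)).2.symm) := by
    rw [IsCoveringMap.eq_liftPath_iff]
    exact ⟨hcont, rfl, haux _ _ _ γ.source⟩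
  apply Subtype.ext
  change (cov g h2).liftPath γ (pt g h2 y0 (α 0)).1
      (γ.source.trans (pt g h2 y0 (α 0)).2.symm) 1 = _
  rw [← hlift]
  exact haux _ _ _ γ.target

/-- the path `γ` acts on the fibres by left multiplication by `k` -/
def Hol {y0 y1 : X} (γ : Path y0 y1) (k : G) : Prop :=
  ∀ a, (cov g h2).monodromy (.mk γ) (pt g h2 y0 a) = pt g h2 y1 (k * a)

theorem Hol.trans {y0 y1 y2 : X} {γ : Path y0 y1} {γ' : Path y1 y2} {k k' : G}
    (h : Hol g h2 γ k) (h' : Hol g h2 γ' k') : Hol g h2 (γ.trans γ') (k' * k) := by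
  intro a
  rw [Path.Homotopic.Quotient.mk_trans, IsCoveringMap.monodromy_trans_apply, h a, h' (k * a),
    mul_assoc]

theorem nonab_of_hol {x0 : X} {γ γ' : Path x0 x0} {k k' : G} (h : Hol g h2 γ k)
    (h' : Hol g h2 γ' k') (hk : k * k' ≠ k' * k) :
    ∃ a b : FundamentalGroup X x0, a * b ≠ b * a := by
  refine ⟨FundamentalGroup.fromPath (.mk γ), FundamentalGroup.fromPath (.mk γ'), fun hab => ?_⟩
  have e1 : (cov g h2).monodromyPerm x0 (FundamentalGroup.fromPath (.mk γ)) *
      (cov g h2).monodromyPerm x0 (FundamentalGroup.fromPath (.mk γ')) =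
      (cov g h2).monodromyPerm x0 (FundamentalGroup.fromPath (.mk γ')) *
      (cov g h2).monodromyPerm x0 (FundamentalGroup.fromPath (.mk γ)) := by
    rw [← map_mul, ← map_mul, hab]
  have e2 := congrArg (fun f => f (pt g h2 x0 1)) e1
  simp only [Equiv.Perm.mul_apply] at e2
  have f1 : ∀ a, (cov g h2).monodromyPerm x0 (FundamentalGroup.fromPath (.mk γ))
      (pt g h2 x0 a) = pt g h2 x0 (k * a) := fun a => h a
  have f2 : ∀ a, (cov g h2).monodromyPerm x0 (FundamentalGroup.fromPath (.mk γ'))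
      (pt g h2 x0 a) = pt g h2 x0 (k' * a) := fun a => h' a
  rw [f1, f2, f1, f2] at e2
  apply hk
  simpa using pt_injective g h2 x0 e2

end cover

section geometry

variable {S G : Type} [TopologicalSpace S] [Group G] {P : S → E3} {h : S → ℝ}
  {b : S → E3 → Prop} {c : S → G}

theorem wprod_self (hb : Sides P b) {y : E3} {s : ℝ} {l : List S} (hl : IsStack P h y s l) :
    wprod b c l y = 1 := by
  classical
  unfold wprod
  apply List.prod_eq_one
  intro a ha
  obtain ⟨p, hp, rfl⟩ := List.mem_map.mp ha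
  have := (hl.2 p).mp hp
  rw [if_neg]
  rw [← this.1]
  exact hb.self p

omit [TopologicalSpace S] in
theorem mem_Compl {z : E3 × ℝ} : z ∈ Compl P h ↔ ∀ q, P q = z.1 → h q ≠ z.2 := by
  unfold Compl
  rw [Set.mem_compl_iff, mem_range]
  constructor
  · intro H q h1 h2
    exact H ⟨q, Prod.ext h1 h2⟩
  · rintro H ⟨q, hq⟩
    exact H q (congrArg Prod.fst hq) (congrArg Prod.snd hq)

/-- straight path in the complement -/
noncomputable def seg (A B : E3 × ℝ)
    (H : ∀ t : I, (AffineMap.lineMap A B (t : ℝ) : E3 × ℝ) ∈ Compl P h)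
    (hA : A ∈ Compl P h) (hB : B ∈ Compl P h) :
    Path (⟨A, hA⟩ : Compl P h) ⟨B, hB⟩ where
  toFun t := ⟨AffineMap.lineMap A B (t : ℝ), H t⟩
  continuous_toFun := by
    apply Continuous.subtype_mk
    exact AffineMap.lineMap_continuous.comp continuous_subtype_val
  source' := by simp
  target' := by simp

end geometry

end ItemC

open ItemC in
theorem covThm : CovThm := by
  classical
  intro S G _ _ _ _ P h b c hPc hh hPh hb hcol htop
  obtain ⟨p1, p2, htop1, htop2, hne⟩ := htop
  have hP : IsProperMap P := hPc.isProperMap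
  let _ : TopologicalSpace G := ⊥
  have _ : DiscreteTopology G := ⟨rfl⟩
  -- stacks
  choose stk hstk using exists_stack hP hb.inj hPh
  -- the frames
  let g : Compl P h → Compl P h → G := fun z y => wprod b c (stk z.1.1 z.1.2) y.1.1
  have h1 : ∀ z, g z z = 1 := fun z => wprod_self hb (hstk z.1.1 z.1.2)
  have h2 : ∀ z, ∀ᶠ y in 𝓝 z, Good g z y := by
    intro z
    have main := main_lemma hP hh hPh hb (hstk z.1.1 z.1.2)
      (fun p _ l' hl' => hcol p l' hl') (𝓝 (z.1.1, z.1.2)) le_rfl
      (fun q0 e1 e2 => absurd e2 (mem_Compl.mp z.2 q0 e1))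
    have m2 : ∀ᶠ y in 𝓝 z, ∀ l1, IsStack P h y.1.1 y.1.2 l1 →
      ∀ᶠ y' in 𝓝 y.1.1, wprod b c (stk z.1.1 z.1.2) y' =
        wprod b c l1 y' * wprod b c (stk z.1.1 z.1.2) y.1.1 :=
      (continuous_subtype_val.tendsto z).eventually main
    filter_upwards [m2] with y hy
    have := hy _ (hstk y.1.1 y.1.2)
    exact ((continuous_fst.comp continuous_subtype_val).tendsto y).eventually this
  -- the height
  obtain ⟨M, hM⟩ : ∃ M, ∀ q, h q < M := by
    obtain ⟨B, hB⟩ := (isCompact_range hh).bddAbove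
    exact ⟨B + 1, fun q => lt_of_le_of_lt (hB (mem_range_self q)) (by linarith)⟩
  have hMc : ∀ y : E3, (y, M) ∈ Compl P h := fun y => mem_Compl.mpr (fun q _ => (hM q).ne)
  have hstkM : ∀ y : E3, stk y M = [] := fun y =>
    stack_unique (hstk y M) ⟨List.Pairwise.nil, fun p => by
      simp only [List.not_mem_nil, false_iff, not_and, not_lt]
      exact fun _ => (hM p).le⟩
  -- paths at height M
  have holM : ∀ (y y' : E3), ∃ γ : Path (⟨(y, M), hMc y⟩ : Compl P h) ⟨(y', M), hMc y'⟩,
      Hol g h2 γ 1 := by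
    intro y y'
    have hlm : ∀ t : ℝ, (AffineMap.lineMap (y, M) (y', M) t : E3 × ℝ) =
        (AffineMap.lineMap y y' t, M) := by
      intro t
      simp [AffineMap.lineMap_apply]
    refine ⟨seg (y, M) (y', M) (fun t => by rw [hlm]; exact hMc _) _ _, ?_⟩
    intro a
    have := mono_of_lift g h2 h1 (seg (P := P) (h := h) (y, M) (y', M)
      (fun t => by rw [hlm]; exact hMc _) (hMc y) (hMc y')) (fun _ => a) (by
        intro t0
        refine Eventually.of_forall (fun t => ?_)
        have : (seg (P := P) (h := h) (y, M) (y', M)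
          (fun t => by rw [hlm]; exact hMc _) (hMc y) (hMc y') t0).1 =
            (AffineMap.lineMap y y' (t0 : ℝ), M) := hlm _
        simp only [g]
        rw [this, hstkM, wprod_nil, one_mul])
    rw [one_mul]
    exact this
  -- vertical paths
  have holV : ∀ (y : E3) (s s' : ℝ) (hs : (y, s) ∈ Compl P h) (hs' : (y, s') ∈ Compl P h)
      (H : ∀ t ∈ Icc (0 : ℝ) 1, (y, AffineMap.lineMap s s' t) ∈ Compl P h),
      ∃ γ : Path (⟨(y, s), hs⟩ : Compl P h) ⟨(y, s'), hs'⟩, Hol g h2 γ 1 := by
    intro y s s' hs hs' H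
    have hlm : ∀ t : ℝ, (AffineMap.lineMap (y, s) (y, s') t : E3 × ℝ) =
        (y, AffineMap.lineMap s s' t) := by
      intro t
      simp [AffineMap.lineMap_apply]
    refine ⟨seg (y, s) (y, s') (fun t => by rw [hlm]; exact H _ t.2) _ _, ?_⟩
    intro a
    have := mono_of_lift g h2 h1 (seg (P := P) (h := h) (y, s) (y, s')
      (fun t => by rw [hlm]; exact H _ t.2) hs hs') (fun _ => a) (by
        intro t0
        refine Eventually.of_forall (fun t => ?_)
        have e0 : (seg (P := P) (h := h) (y, s) (y, s')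
          (fun t => by rw [hlm]; exact H _ t.2) hs hs' t0).1 =
            (y, AffineMap.lineMap s s' (t0 : ℝ)) := hlm _
        have e1 : (seg (P := P) (h := h) (y, s) (y, s')
          (fun t => by rw [hlm]; exact H _ t.2) hs hs' t).1 =
            (y, AffineMap.lineMap s s' (t : ℝ)) := hlm _
        simp only [g]
        rw [e0, e1, wprod_self hb (hstk _ _), one_mul])
    rw [one_mul]
    exact this
  -- the loop around a top sheet
  have loop : ∀ p, (∀ q, P q = P p → h q ≤ h p) →
      ∃ γ : Path (⟨(0, M), hMc 0⟩ : Compl P h) ⟨(0, M), hMc 0⟩, Hol g h2 γ (c p)⁻¹ := by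
    intro p hp
    -- the constant `δ`
    obtain ⟨δ, hδ, hδ1⟩ : ∃ δ > 0, ∀ q ∈ P ⁻¹' {P p}, q ≠ p → h q < h p - δ := by
      have hfin := fibre_finite hP hb.inj (P p)
      have e0 : ∀ᶠ δ in 𝓝[>] (0 : ℝ), 0 < δ := self_mem_nhdsWithin
      have e1 : ∀ᶠ δ in 𝓝[>] (0 : ℝ), ∀ q ∈ P ⁻¹' {P p}, (q ≠ p → h q < h p - δ) := by
        rw [hfin.eventually_all]
        intro q hq
        by_cases hqp : q = p
        · exact Eventually.of_forall (fun δ hh => absurd hqp hh)
        · have hlt : h q < h p := lt_of_le_of_ne (hp q hq)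
            (fun he => hqp (hPh (Prod.ext hq he)))
          have : ∀ᶠ δ in 𝓝 (0 : ℝ), h q < h p - δ := by
            have hcont : Continuous (fun δ : ℝ => h p - δ) := by fun_prop
            exact continuousAt_const.eventually_lt hcont.continuousAt (by simpa using hlt)
          filter_upwards [this.filter_mono nhdsWithin_le_nhds] with δ hδ _ using hδ
      obtain ⟨δ, h0, h1⟩ := (e0.and e1).exists
      exact ⟨δ, h0, h1⟩
    set s0 := h p - δ with hs0
    have hz0 : (P p, s0) ∈ Compl P h := by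
      rw [mem_Compl]
      intro q hq
      by_cases hqp : q = p
      · rw [hqp]; simp only [hs0]; linarith
      · exact (hδ1 q hq hqp).ne
    have hstk0 : stk (P p) s0 = [p] := by
      refine stack_unique (hstk _ _) ⟨List.pairwise_singleton _ _, fun q => ?_⟩
      rw [List.mem_singleton]
      constructor
      · rintro rfl
        exact ⟨rfl, by simp only [hs0]; linarith⟩
      · rintro ⟨q1, q2⟩
        by_contra hqp
        exact absurd (hδ1 q q1 hqp) (not_lt.mpr q2.le)
    -- property A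
    have hA : ∀ᶠ y in 𝓝 (P p), (y, s0) ∈ Compl P h := by
      have : ∀ᶠ y in 𝓝 (P p), ∀ q ∈ P ⁻¹' {y}, h q ≠ s0 := by
        apply hP.isClosedMap.eventually_nhds_fiber
        intro q hq
        exact hh.continuousAt.eventually_ne (mem_Compl.mp hz0 q hq)
      filter_upwards [this] with y hy
      exact mem_Compl.mpr hy
    -- property B
    have hB : ∀ O ∈ 𝓝 p, ∀ᶠ y in 𝓝 (P p), ∀ q ∈ P ⁻¹' {y}, (q ∈ O ∨ h q < s0) := by
      intro O hO
      apply hP.isClosedMap.eventually_nhds_fiber
      intro q hq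
      by_cases hqp : q = p
      · subst hqp
        filter_upwards [hO] with q' hq' using Or.inl hq'
      · filter_upwards [hh.continuousAt.eventually_lt continuousAt_const (hδ1 q hq hqp)]
          with q' hq' using Or.inr hq'
    -- property D
    have hD : ∀ᶠ y in 𝓝 (P p), ∀ hy : (y, s0) ∈ Compl P h,
        Good g ⟨(P p, s0), hz0⟩ ⟨(y, s0), hy⟩ := by
      have := h2 ⟨(P p, s0), hz0⟩
      rw [nhds_subtype_eq_comap, eventually_comap] at this
      have hc2 : Tendsto (fun y : E3 => (y, s0)) (𝓝 (P p)) (𝓝 (P p, s0)) := by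
        exact (Continuous.tendsto (by fun_prop) (P p))
      filter_upwards [hc2.eventually this] with y hy hy'
      exact hy _ rfl
    obtain ⟨r, hr, hball⟩ := Metric.eventually_nhds_iff_ball.mp (hA.and hD)
    -- the two points
    obtain ⟨O1, hO1, hneg⟩ := hb.neg p
    obtain ⟨O2, hO2, hpos⟩ := hb.pos p
    obtain ⟨y1, ⟨hy1, hby1⟩, hy1B, hy1r⟩ :=
      (hneg.and_eventually ((hB O1 hO1).and (Metric.ball_mem_nhds (P p) hr))).exists
    obtain ⟨y2, ⟨hy2, hby2⟩, hy2B, hy2r⟩ :=
      (hpos.and_eventually ((hB O2 hO2).and (Metric.ball_mem_nhds (P p) hr))).exists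
    have hA1 := (hball y1 hy1r).1
    have hA2 := (hball y2 hy2r).1
    have hsM : s0 < M := by
      have := hM p
      simp only [hs0]; linarith
    have hlow1 : ∀ s, s0 ≤ s → (y1, s) ∈ Compl P h := by
      intro s hs
      rw [mem_Compl]
      intro q hq
      rcases hy1B q hq with hq' | hq'
      · exact absurd ⟨q, hq', hq⟩ hy1
      · exact (lt_of_lt_of_le hq' hs).ne
    have hlow2 : ∀ s, s0 ≤ s → (y2, s) ∈ Compl P h := by
      intro s hs
      rw [mem_Compl]
      intro q hq
      rcases hy2B q hq with hq' | hq'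
      · exact absurd ⟨q, hq', hq⟩ hy2
      · exact (lt_of_lt_of_le hq' hs).ne
    obtain ⟨γ1, hγ1⟩ := holM 0 y1
    obtain ⟨γ2, hγ2⟩ := holV y1 M s0 (hMc y1) hA1 (by
      intro t ht
      apply hlow1
      have : (AffineMap.lineMap M s0 t : ℝ) = M + t * (s0 - M) := by
        simp [AffineMap.lineMap_apply]; ring
      rw [this]
      nlinarith [ht.1, ht.2])
    obtain ⟨γ4, hγ4⟩ := holV y2 s0 M hA2 (hMc y2) (by
      intro t ht
      apply hlow2
      have : (AffineMap.lineMap s0 M t : ℝ) = s0 + t * (M - s0) := by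
        simp [AffineMap.lineMap_apply]; ring
      rw [this]
      nlinarith [ht.1, ht.2])
    obtain ⟨γ5, hγ5⟩ := holM y2 0
    -- the horizontal path
    obtain ⟨γ3, hγ3⟩ : ∃ γ : Path (⟨(y1, s0), hA1⟩ : Compl P h) ⟨(y2, s0), hA2⟩,
        Hol g h2 γ (c p)⁻¹ := by
      have hlm : ∀ t : ℝ, (AffineMap.lineMap (y1, s0) (y2, s0) t : E3 × ℝ) =
          (AffineMap.lineMap y1 y2 t, s0) := by
        intro t
        simp [AffineMap.lineMap_apply]
      have hin : ∀ t : I, (AffineMap.lineMap y1 y2 (t : ℝ) : E3) ∈ ball (P p) r := fun t =>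
        (convex_ball (P p) r).lineMap_mem hy1r hy2r t.2
      have hseg : ∀ t : I, (AffineMap.lineMap (y1, s0) (y2, s0) (t : ℝ) : E3 × ℝ) ∈ Compl P h := by
        intro t
        rw [hlm]
        exact (hball _ (hin t)).1
      set γ := seg (P := P) (h := h) (y1, s0) (y2, s0) hseg hA1 hA2 with hγ
      refine ⟨γ, ?_⟩
      intro a
      set z0 : Compl P h := ⟨(P p, s0), hz0⟩ with hz0'
      have hγt : ∀ t : I, γ t = ⟨(AffineMap.lineMap y1 y2 (t : ℝ), s0), (hball _ (hin t)).1⟩ :=
        fun t => Subtype.ext (hlm t)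
      have hgood : ∀ t : I, Good g z0 (γ t) := by
        intro t
        rw [hγt]
        exact (hball _ (hin t)).2 _
      have k1 : g z0 ⟨(y1, s0), hA1⟩ = c p := by
        simp only [g, z0]
        rw [hstk0, wprod_singleton, if_pos hby1]
      have k2 : g z0 ⟨(y2, s0), hA2⟩ = 1 := by
        simp only [g, z0]
        rw [hstk0, wprod_singleton, if_neg hby2]
      have := mono_of_lift g h2 h1 γ (fun t => g z0 (γ t) * ((c p)⁻¹ * a)) (by
        intro t0
        have hg := hgood t0
        have := (γ.continuous.tendsto t0).eventually hg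
        filter_upwards [this] with t ht
        rw [ht, mul_assoc])
      have s1 : γ 0 = ⟨(y1, s0), hA1⟩ := γ.source
      have s2 : γ 1 = ⟨(y2, s0), hA2⟩ := γ.target
      simp only [s1, s2, k1, k2] at this
      rw [one_mul, mul_inv_cancel_left] at this
      exact this
    refine ⟨γ1.trans (γ2.trans (γ3.trans (γ4.trans γ5))), ?_⟩
    have := Hol.trans g h2 hγ1 (Hol.trans g h2 hγ2 (Hol.trans g h2 hγ3
      (Hol.trans g h2 hγ4 hγ5)))
    simpa using this
  obtain ⟨γ, hγ⟩ := loop p1 htop1
  obtain ⟨γ', hγ'⟩ := loop p2 htop2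
  refine ⟨⟨(0, M), hMc 0⟩, nonab_of_hol g h2 hγ hγ' ?_⟩
  intro he
  apply hne
  have := congrArg (fun x => x⁻¹) he
  simp only [mul_inv_rev, inv_inv] at this
  exact this.symm

end Pool.Agent.Work.MP_48319b_gt
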