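import Pool.Agent.Work.MP_48319b_gt.Bd.B02

/-!
# [48319b X1] triangulated polygon: the triangles cover it
-/

open Metric Set Topology

namespace Pool.Agent.Work.MP_48319b_gt

namespace ItemX1

/-- `(a, b, c)` is a triangle of `F` up to rotation -/
def R (F : List Tri) (a b c : ℕ) : Prop :=
  (⟨a, b, c⟩ : Tri) ∈ F ∨ (⟨b, c, a⟩ : Tri) ∈ F ∨ (⟨c, a, b⟩ : Tri) ∈ F

lemma R.rot {F : List Tri} {a b c : ℕ} (h : R F a b c) : R F b c a := by
  rcases h with h | h | h
  · exact Or.inr (Or.inr h)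
  · exact Or.inl h
  · exact Or.inr (Or.inl h)

/-- the union of the triangles -/
def U (F : List Tri) (pos : ℕ → E2) : Set E2 := {x | ∃ t ∈ F, ∃ w, IsWt pos t x w}

/-- oriented area form -/
noncomputable def dd (pos : ℕ → E2) (a b : ℕ) (x : E2) : ℝ := det2 (pos b - pos a) (x - pos a)

lemma dd_eq (pos : ℕ → E2) (a b : ℕ) (x : E2) :
    dd pos a b x = (pos b 0 - pos a 0) * (x 1 - pos a 1) - (pos b 1 - pos a 1) * (x 0 - pos a 0) :=
  ItemX2.det2_sub_sub _ _ _ _

lemma dd_cont (pos : ℕ → E2) (a b : ℕ) : Continuous (dd pos a b) := by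
  have : dd pos a b = fun x : E2 =>
      (pos b 0 - pos a 0) * (x 1 - pos a 1) - (pos b 1 - pos a 1) * (x 0 - pos a 0) := by
    funext x
    exact dd_eq pos a b x
  rw [this]
  fun_prop

lemma dd_rot (pos : ℕ → E2) (a b c : ℕ) : dd pos b c (pos a) = dd pos a b (pos c) := by
  rw [dd_eq, dd_eq]
  ring

lemma dd_swap (pos : ℕ → E2) (a b : ℕ) (x : E2) : dd pos b a x = - dd pos a b x := by
  rw [dd_eq, dd_eq]
  ring

lemma R.pos {F : List Tri} {bd : List (ℕ × ℕ)} {p : ℕ → E2} (hP : PlaneCx F bd p) {a b c : ℕ}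
    (h : R F a b c) : 0 < dd p a b (p c) := by
  rcases h with h | h | h
  · exact hP.orient _ h
  · have := hP.orient _ h
    rw [← dd_rot]
    exact this
  · have := hP.orient _ h
    rw [← dd_rot, ← dd_rot]
    exact this

/-- a point with non negative areas is in the triangle -/
lemma mem_tri {pos : ℕ → E2} {t : Tri} (hD : 0 < dd pos t.a t.b (pos t.c)) {x : E2}
    (h1 : 0 ≤ dd pos t.a t.b x) (h2 : 0 ≤ dd pos t.b t.c x) (h3 : 0 ≤ dd pos t.c t.a x) :
    ∃ w, IsWt pos t x w := by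
  have hn := ItemX2.nondeg hD
  set D := dd pos t.a t.b (pos t.c) with hDdef
  refine ⟨fun v => if v = t.a then dd pos t.b t.c x / D else
    if v = t.b then dd pos t.c t.a x / D else if v = t.c then dd pos t.a t.b x / D else 0, ⟨?_, ?_, ?_⟩, ?_⟩
  · intro v
    split_ifs
    · exact div_nonneg h2 hD.le
    · exact div_nonneg h3 hD.le
    · exact div_nonneg h1 hD.le
    · exact le_rfl
  · intro v hv
    simp only [Tri.vs, List.mem_cons, List.not_mem_nil, or_false, not_or] at hv
    rw [if_neg hv.1, if_neg hv.2.1, if_neg hv.2.2]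
  · rw [if_pos rfl, if_neg hn.1.symm, if_pos rfl, if_neg hn.2.1.symm, if_neg hn.2.2.symm,
      if_pos rfl, ← add_div, ← add_div, div_eq_one_iff_eq (ne_of_gt hD), hDdef]
    simp only [dd_eq]
    ring
  · rw [comb, if_pos rfl, if_neg hn.1.symm, if_pos rfl, if_neg hn.2.1.symm, if_neg hn.2.2.symm,
      if_pos rfl]
    have hD0 : D ≠ 0 := ne_of_gt hD
    ext i
    have e : dd pos t.b t.c x * pos t.a i + dd pos t.c t.a x * pos t.b i
        + dd pos t.a t.b x * pos t.c i = D * x i := by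
      rw [hDdef]
      simp only [dd_eq]
      fin_cases i <;> simp <;> ring
    simp only [PiLp.add_apply, PiLp.smul_apply, smul_eq_mul]
    field_simp
    linarith

lemma mem_U {F : List Tri} {bd : List (ℕ × ℕ)} {p : ℕ → E2} (hP : PlaneCx F bd p) {a b c : ℕ}
    (h : R F a b c) {x : E2}
    (h1 : 0 ≤ dd p a b x) (h2 : 0 ≤ dd p b c x) (h3 : 0 ≤ dd p c a x) : x ∈ U F p := by
  have hpos := h.pos hP
  rcases h with h | h | h
  · exact ⟨_, h, mem_tri hpos h1 h2 h3⟩
  · refine ⟨_, h, mem_tri ?_ h2 h3 h1⟩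
    show 0 < dd p b c (p a)
    rwa [dd_rot]
  · refine ⟨_, h, mem_tri ?_ h3 h1 h2⟩
    show 0 < dd p c a (p b)
    rwa [dd_rot, dd_rot]

/-- barycentric areas -/
lemma areas {pos : ℕ → E2} {a b c : ℕ} {x : E2} {wa wb wc : ℝ} (hs : wa + wb + wc = 1)
    (hx : x = wa • pos a + wb • pos b + wc • pos c) :
    dd pos a b x = wc * dd pos a b (pos c) ∧ dd pos b c x = wa * dd pos a b (pos c) ∧
      dd pos c a x = wb * dd pos a b (pos c) := by
  have e0 : x 0 = wa * pos a 0 + wb * pos b 0 + wc * pos c 0 := by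
    rw [hx]
    simp
  have e1 : x 1 = wa * pos a 1 + wb * pos b 1 + wc * pos c 1 := by
    rw [hx]
    simp
  have hw : wa = 1 - wb - wc := by linarith
  simp only [dd_eq, e0, e1, hw]
  refine ⟨by ring, by ring, by ring⟩

lemma edge_R {F : List Tri} {t : Tri} (ht : t ∈ F) {a b : ℕ} (h : (a, b) ∈ t.es) :
    ∃ c, R F a b c := by
  simp only [Tri.es, List.mem_cons, List.not_mem_nil, or_false, Prod.mk.injEq] at h
  rcases h with ⟨rfl, rfl⟩ | ⟨rfl, rfl⟩ | ⟨rfl, rfl⟩
  · exact ⟨t.c, Or.inl ht⟩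
  · exact ⟨t.a, Or.inr (Or.inr ht)⟩
  · exact ⟨t.b, Or.inr (Or.inl ht)⟩

lemma R_edge {F : List Tri} {bd : List (ℕ × ℕ)} {p : ℕ → E2} (hP : PlaneCx F bd p) {a b c : ℕ}
    (h : R F a b c) : (a, b) ∈ bd ∨ ∃ c', R F b a c' := by
  have : ∃ t ∈ F, (a, b) ∈ t.es := by
    rcases h with h | h | h
    · exact ⟨_, h, by simp [Tri.es]⟩
    · exact ⟨_, h, by simp [Tri.es]⟩
    · exact ⟨_, h, by simp [Tri.es]⟩
  obtain ⟨t, ht, he⟩ := this
  rcases hP.edge t ht _ he with h1 | ⟨t', ht', h1⟩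
  · exact Or.inl h1
  · obtain ⟨c', hc'⟩ := edge_R ht' h1
    exact Or.inr ⟨c', hc'⟩

/-- interior of the polygon -/
def I (bd : List (ℕ × ℕ)) (pos : ℕ → E2) : Set E2 := {x | ∀ e ∈ bd, 0 < dd pos e.1 e.2 x}

/-- a point of a triangle with at most one zero weight is not a boundary point of the union -/
lemma nhds_of_R {F : List Tri} {bd : List (ℕ × ℕ)} {p : ℕ → E2} (hP : PlaneCx F bd p) {a b c : ℕ}
    (h : R F a b c) {z : E2} {wa wb wc : ℝ} (hs : wa + wb + wc = 1)
    (hz : z = wa • p a + wb • p b + wc • p c) (ha : 0 < wa) (hb : 0 < wb) (hc : 0 ≤ wc)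
    (hI : z ∈ I bd p) : U F p ∈ 𝓝 z := by
  have hD := h.pos hP
  obtain ⟨e1, e2, e3⟩ := areas hs hz
  have p2 : 0 < dd p b c z := by rw [e2]; exact mul_pos ha hD
  have p3 : 0 < dd p c a z := by rw [e3]; exact mul_pos hb hD
  have n2 : ∀ᶠ y in 𝓝 z, 0 < dd p b c y := (dd_cont p b c).continuousAt.eventually (lt_mem_nhds p2)
  have n3 : ∀ᶠ y in 𝓝 z, 0 < dd p c a y := (dd_cont p c a).continuousAt.eventually (lt_mem_nhds p3)
  rcases eq_or_lt_of_le hc with hc0 | hc0
  · have d0 : dd p a b z = 0 := by rw [e1, ← hc0, zero_mul]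
    rcases R_edge hP h with hbd | ⟨c', hc'⟩
    · exact absurd (hI _ hbd) (by rw [d0]; exact lt_irrefl _)
    · have hD' := hc'.pos hP
      have hs' : wb + wa + wc = 1 := by linarith
      have hz' : z = wb • p b + wa • p a + wc • p c' := by
        rw [hz, ← hc0, zero_smul, zero_smul, add_zero, add_zero, add_comm]
      obtain ⟨_, f2, f3⟩ := areas hs' hz'
      have q2 : 0 < dd p a c' z := by rw [f2]; exact mul_pos hb hD'
      have q3 : 0 < dd p c' b z := by rw [f3]; exact mul_pos ha hD'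
      have m2 : ∀ᶠ y in 𝓝 z, 0 < dd p a c' y :=
        (dd_cont p a c').continuousAt.eventually (lt_mem_nhds q2)
      have m3 : ∀ᶠ y in 𝓝 z, 0 < dd p c' b y :=
        (dd_cont p c' b).continuousAt.eventually (lt_mem_nhds q3)
      filter_upwards [n2, n3, m2, m3] with y y2 y3 z2 z3
      rcases le_total 0 (dd p a b y) with hy | hy
      · exact mem_U hP h hy y2.le y3.le
      · refine mem_U hP hc' ?_ z2.le z3.le
        rw [dd_swap]
        linarith
  · have p1 : 0 < dd p a b z := by rw [e1]; exact mul_pos hc0 hD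
    have n1 : ∀ᶠ y in 𝓝 z, 0 < dd p a b y :=
      (dd_cont p a b).continuousAt.eventually (lt_mem_nhds p1)
    filter_upwards [n1, n2, n3] with y y1 y2 y3
    exact mem_U hP h y1.le y2.le y3.le

lemma nhds_of_mem {F : List Tri} {bd : List (ℕ × ℕ)} {p : ℕ → E2} (hP : PlaneCx F bd p) {z : E2}
    (hU : z ∈ U F p) (hI : z ∈ I bd p) (hv : ∀ t ∈ F, ∀ v ∈ t.vs, z ≠ p v) : U F p ∈ 𝓝 z := by
  obtain ⟨t, ht, w, hw⟩ := hU
  have hR : R F t.a t.b t.c := Or.inl ht
  have hsum := hw.1.sum
  have hz : z = w t.a • p t.a + w t.b • p t.b + w t.c • p t.c := hw.2.symm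
  have wa := hw.1.nonneg t.a
  have wb := hw.1.nonneg t.b
  have wc := hw.1.nonneg t.c
  have va := hv t ht t.a (by simp [Tri.vs])
  have vb := hv t ht t.b (by simp [Tri.vs])
  have vc := hv t ht t.c (by simp [Tri.vs])
  rcases eq_or_lt_of_le wa with ha | ha
  · rcases eq_or_lt_of_le wb with hb | hb
    · exfalso
      apply vc
      have : w t.c = 1 := by linarith
      rw [hz, ← ha, ← hb, this]
      simp
    · rcases eq_or_lt_of_le wc with hc | hc
      · exfalso
        apply vb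
        have : w t.b = 1 := by linarith
        rw [hz, ← ha, ← hc, this]
        simp
      · refine nhds_of_R hP hR.rot (wa := w t.b) (wb := w t.c) (wc := w t.a) (by linarith) ?_ hb hc
          wa hI
        rw [hz]
        abel
  · rcases eq_or_lt_of_le wb with hb | hb
    · rcases eq_or_lt_of_le wc with hc | hc
      · exfalso
        apply va
        have : w t.a = 1 := by linarith
        rw [hz, ← hb, ← hc, this]
        simp
      · refine nhds_of_R hP hR.rot.rot (wa := w t.c) (wb := w t.a) (wc := w t.b) (by linarith) ?_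
          hc ha wb hI
        rw [hz]
        abel
    · exact nhds_of_R hP hR hsum hz ha hb wc hI

lemma U_closed {F : List Tri} {bd : List (ℕ × ℕ)} {p : ℕ → E2} (hP : PlaneCx F bd p) :
    IsClosed (U F p) := by
  have h : U F p = ⋃ t ∈ F.toFinset, {x | 0 ≤ dd p t.a t.b x ∧ 0 ≤ dd p t.b t.c x ∧
      0 ≤ dd p t.c t.a x} := by
    ext x
    simp only [mem_iUnion, Set.mem_ofPred_eq, List.mem_toFinset, exists_prop]
    constructor
    · rintro ⟨t, ht, w, hw⟩
      refine ⟨t, ht, ?_⟩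
      obtain ⟨e1, e2, e3⟩ := areas (pos := p) hw.1.sum hw.2.symm
      have hD : 0 < dd p t.a t.b (p t.c) := hP.orient t ht
      rw [e1, e2, e3]
      exact ⟨mul_nonneg (hw.1.nonneg _) hD.le, mul_nonneg (hw.1.nonneg _) hD.le,
        mul_nonneg (hw.1.nonneg _) hD.le⟩
    · rintro ⟨t, ht, h1, h2, h3⟩
      exact ⟨t, ht, mem_tri (hP.orient t ht) h1 h2 h3⟩
  rw [h]
  apply Set.Finite.isClosed_biUnion (Finset.finite_toSet _)
  intro t _
  apply (isClosed_le continuous_const (dd_cont p t.a t.b)).inter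
  exact (isClosed_le continuous_const (dd_cont p t.b t.c)).inter
    (isClosed_le continuous_const (dd_cont p t.c t.a))

/-- choice of a point of an open set avoiding finitely many lines through `y` -/
lemma avoid (y : E2) (K : Finset ℕ) (p : ℕ → E2) (hK : ∀ k ∈ K, p k ≠ y) (V : Set E2)
    (hV : IsOpen V) (hne : V.Nonempty) : ∃ x ∈ V, ∀ k ∈ K, det2 (p k - y) (x - y) ≠ 0 := by
  induction K using Finset.induction_on generalizing V with
  | empty =>
    obtain ⟨x, hx⟩ := hne
    exact ⟨x, hx, by simp⟩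
  | insert k K hk ih =>
    have hc : Continuous fun x : E2 => det2 (p k - y) (x - y) := by
      have : (fun x : E2 => det2 (p k - y) (x - y)) = fun x : E2 =>
          (p k 0 - y 0) * (x 1 - y 1) - (p k 1 - y 1) * (x 0 - y 0) := by
        funext x
        exact ItemX2.det2_sub_sub _ _ _ _
      rw [this]
      fun_prop
    have hV' : IsOpen (V ∩ {x | det2 (p k - y) (x - y) ≠ 0}) :=
      hV.inter (isOpen_ne_fun hc continuous_const)
    have hne' : (V ∩ {x | det2 (p k - y) (x - y) ≠ 0}).Nonempty := by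
      by_contra hcon
      rw [Set.not_nonempty_iff_eq_empty] at hcon
      obtain ⟨x, hx⟩ := hne
      have hzero : ∀ z ∈ V, det2 (p k - y) (z - y) = 0 := by
        intro z hz
        by_contra h
        have : z ∈ V ∩ {x | det2 (p k - y) (x - y) ≠ 0} := ⟨hz, h⟩
        rw [hcon] at this
        exact this
      set g : ℝ → E2 := fun s => x + s • !₂[-(p k 1 - y 1), p k 0 - y 0] with hg
      have hgc : Continuous g := by
        rw [hg]
        fun_prop
      have h0 : g 0 ∈ V := by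
        rw [hg]
        simpa using hx
      have hev : ∀ᶠ s in 𝓝 (0 : ℝ), g s ∈ V := hgc.continuousAt.eventually (hV.mem_nhds h0)
      have hev2 : ∀ᶠ s in 𝓝[≠] (0 : ℝ), g s ∈ V := hev.filter_mono nhdsWithin_le_nhds
      obtain ⟨s, hs1, hs2⟩ := (hev2.and self_mem_nhdsWithin).exists
      have e1 := hzero _ hs1
      have e2 := hzero _ hx
      rw [ItemX2.det2_sub_sub] at e1 e2
      have g0 : g s 0 = x 0 - s * (p k 1 - y 1) := by
        rw [hg]
        simp
        ring
      have g1 : g s 1 = x 1 + s * (p k 0 - y 0) := by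
        rw [hg]
        simp
      rw [g0, g1] at e1
      have e3 : s * ((p k 0 - y 0) ^ 2 + (p k 1 - y 1) ^ 2) = 0 := by
        linear_combination e1 - e2
      rcases mul_eq_zero.mp e3 with h | h
      · exact hs2 h
      · have a1 : p k 0 - y 0 = 0 := by nlinarith [sq_nonneg (p k 0 - y 0), sq_nonneg (p k 1 - y 1)]
        have a2 : p k 1 - y 1 = 0 := by nlinarith [sq_nonneg (p k 0 - y 0), sq_nonneg (p k 1 - y 1)]
        apply hK k (Finset.mem_insert_self k K)
        ext i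
        fin_cases i
        · simpa using sub_eq_zero.mp a1
        · simpa using sub_eq_zero.mp a2
    obtain ⟨x, hx, hx2⟩ := ih (fun j hj => hK j (Finset.mem_insert_of_mem hj)) _ hV' hne'
    refine ⟨x, hx.1, ?_⟩
    intro j hj
    rcases Finset.mem_insert.mp hj with rfl | hj
    · exact hx.2
    · exact hx2 j hj

end ItemX1

theorem coverThm : CoverThm := by
  classical
  intro F bd pos hP x0 hx0
  show x0 ∈ ItemX1.U F pos
  obtain ⟨t0, ht0⟩ := List.exists_mem_of_ne_nil F hP.ne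
  have hn0 := ItemX2.nondeg (hP.orient t0 ht0)
  set y0 : E2 := (1 / 3 : ℝ) • pos t0.a + (1 / 3 : ℝ) • pos t0.b + (1 / 3 : ℝ) • pos t0.c with hy0
  have hy0I : y0 ∈ ItemX1.I bd pos := by
    intro e he
    have ha := hP.bdside e he t0 ht0 t0.a (by simp [Tri.vs])
    have hb := hP.bdside e he t0 ht0 t0.b (by simp [Tri.vs])
    have hc := hP.bdside e he t0 ht0 t0.c (by simp [Tri.vs])
    have e1 : ItemX1.dd pos e.1 e.2 y0 = (1 / 3) * (ItemX1.dd pos e.1 e.2 (pos t0.a)
        + ItemX1.dd pos e.1 e.2 (pos t0.b) + ItemX1.dd pos e.1 e.2 (pos t0.c)) := by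
      simp only [ItemX1.dd_eq, hy0, PiLp.add_apply, PiLp.smul_apply, smul_eq_mul]
      ring
    rw [e1]
    by_contra hcon
    have ha1 : 0 ≤ ItemX1.dd pos e.1 e.2 (pos t0.a) := ha.1
    have hb1 : 0 ≤ ItemX1.dd pos e.1 e.2 (pos t0.b) := hb.1
    have hc1 : 0 ≤ ItemX1.dd pos e.1 e.2 (pos t0.c) := hc.1
    have ha2 : ItemX1.dd pos e.1 e.2 (pos t0.a) = 0 := by linarith
    have hb2 : ItemX1.dd pos e.1 e.2 (pos t0.b) = 0 := by linarith
    have hc2 : ItemX1.dd pos e.1 e.2 (pos t0.c) = 0 := by linarith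
    rcases ha.2 ha2 with h1 | h1 <;> rcases hb.2 hb2 with h2 | h2 <;>
      rcases hc.2 hc2 with h3 | h3
    · exact hn0.1 (h1.trans h2.symm)
    · exact hn0.1 (h1.trans h2.symm)
    · exact hn0.2.1 (h1.trans h3.symm)
    · exact hn0.2.2 (h2.trans h3.symm)
    · exact hn0.2.2 (h2.trans h3.symm)
    · exact hn0.2.1 (h1.trans h3.symm)
    · exact hn0.1 (h1.trans h2.symm)
    · exact hn0.1 (h1.trans h2.symm)
  have hy0U : ItemX1.U F pos ∈ 𝓝 y0 := by
    have hR : ItemX1.R F t0.a t0.b t0.c := Or.inl ht0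
    exact ItemX1.nhds_of_R hP hR (by norm_num) hy0 (by norm_num) (by norm_num) (by norm_num) hy0I
  have hIU : ItemX1.I bd pos ⊆ ItemX1.U F pos := by
    by_contra hcon
    obtain ⟨x1, hx1I, hx1U⟩ := Set.not_subset.mp hcon
    have hIopen : IsOpen (ItemX1.I bd pos) := by
      have : ItemX1.I bd pos = ⋂ e ∈ bd.toFinset, {x | 0 < ItemX1.dd pos e.1 e.2 x} := by
        ext x
        simp [ItemX1.I]
      rw [this]
      apply isOpen_biInter_finset
      intro e _
      exact isOpen_lt continuous_const (ItemX1.dd_cont pos e.1 e.2)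
    have hVo : IsOpen (ItemX1.I bd pos ∩ (ItemX1.U F pos)ᶜ) :=
      hIopen.inter (ItemX1.U_closed hP).isOpen_compl
    set K : Finset ℕ := ((F.flatMap Tri.vs).toFinset).filter (fun k => pos k ≠ y0) with hK
    obtain ⟨x, hxV, hx⟩ := ItemX1.avoid y0 K pos (fun k hk => (Finset.mem_filter.mp hk).2) _ hVo
      ⟨x1, hx1I, hx1U⟩
    set g : ℝ → E2 := fun r => y0 + r • (x - y0) with hg
    have hgc : Continuous g := by
      rw [hg]
      fun_prop
    have hxne : x ≠ y0 := by
      rintro rfl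
      exact hxV.2 (mem_of_mem_nhds hy0U)
    have hgI : ∀ r ∈ Icc (0 : ℝ) 1, g r ∈ ItemX1.I bd pos := by
      intro r hr e he
      have e1 : ItemX1.dd pos e.1 e.2 (g r) = (1 - r) * ItemX1.dd pos e.1 e.2 y0
          + r * ItemX1.dd pos e.1 e.2 x := by
        simp only [ItemX1.dd_eq, hg, PiLp.add_apply, PiLp.smul_apply, PiLp.sub_apply, smul_eq_mul]
        ring
      rw [e1]
      have p1 := hy0I e he
      have p2 := hxV.1 e he
      rcases eq_or_lt_of_le hr.1 with h | h
      · rw [← h]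
        simpa using p1
      · exact add_pos_of_nonneg_of_pos (mul_nonneg (by linarith [hr.2]) p1.le) (mul_pos h p2)
    have hgv : ∀ r, 0 < r → ∀ t ∈ F, ∀ v ∈ t.vs, g r ≠ pos v := by
      intro r hr t ht v hv he
      by_cases hvy : pos v = y0
      · rw [hvy, hg] at he
        have h1 : r • (x - y0) = 0 := by
          have : y0 + r • (x - y0) = y0 + 0 := by rw [add_zero]; exact he
          exact add_left_cancel this
        rcases smul_eq_zero.mp h1 with h2 | h2
        · exact (ne_of_gt hr) h2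
        · exact hxne (sub_eq_zero.mp h2)
      · have hvK : v ∈ K := by
          rw [hK, Finset.mem_filter]
          refine ⟨?_, hvy⟩
          rw [List.mem_toFinset, List.mem_flatMap]
          exact ⟨t, ht, hv⟩
        apply hx v hvK
        rw [← he, hg]
        simp only [det2, PiLp.add_apply, PiLp.smul_apply, PiLp.sub_apply, smul_eq_mul]
        ring
    have hclosed : IsClosed ((g ⁻¹' ItemX1.U F pos) ∩ Icc 0 1) :=
      ((ItemX1.U_closed hP).preimage hgc).inter isClosed_Icc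
    have hsub : Icc (0 : ℝ) 1 ⊆ g ⁻¹' ItemX1.U F pos := by
      apply hclosed.Icc_subset_of_forall_exists_gt
      · show g 0 ∈ ItemX1.U F pos
        rw [hg]
        simpa using mem_of_mem_nhds hy0U
      · intro r hr y hy
        have hnb : ItemX1.U F pos ∈ 𝓝 (g r) := by
          rcases eq_or_lt_of_le hr.2.1 with h | h
          · rw [← h, hg]
            simpa using hy0U
          · exact ItemX1.nhds_of_mem hP hr.1 (hgI r ⟨hr.2.1, hr.2.2.le⟩) (hgv r h)
        have hev : ∀ᶠ s in 𝓝[>] r, g s ∈ ItemX1.U F pos :=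
          (hgc.continuousAt.eventually hnb).filter_mono nhdsWithin_le_nhds
        have hev2 : ∀ᶠ s in 𝓝[>] r, s ∈ Ioc r y := Ioc_mem_nhdsGT hy
        obtain ⟨s, hs1, hs2⟩ := (hev.and hev2).exists
        exact ⟨s, hs1, hs2⟩
    have h1 := hsub (right_mem_Icc.mpr zero_le_one)
    apply hxV.2
    have : g 1 = x := by
      rw [hg]
      simp
    rw [← this]
    exact h1
  -- pass to the closure
  set g : ℝ → E2 := fun r => x0 + r • (y0 - x0) with hg
  have hgc : Continuous g := by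
    rw [hg]
    fun_prop
  have hev : ∀ᶠ r in 𝓝[>] (0 : ℝ), g r ∈ ItemX1.U F pos := by
    have h1 : ∀ᶠ r in 𝓝[>] (0 : ℝ), r ∈ Ioc (0 : ℝ) 1 := Ioc_mem_nhdsGT one_pos
    filter_upwards [h1] with r hr
    apply hIU
    intro e he
    have e1 : ItemX1.dd pos e.1 e.2 (g r) = (1 - r) * ItemX1.dd pos e.1 e.2 x0
        + r * ItemX1.dd pos e.1 e.2 y0 := by
      simp only [ItemX1.dd_eq, hg, PiLp.add_apply, PiLp.smul_apply, PiLp.sub_apply, smul_eq_mul]
      ring
    rw [e1]
    have p1 : 0 ≤ ItemX1.dd pos e.1 e.2 x0 := hx0 e he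
    exact add_pos_of_nonneg_of_pos (mul_nonneg (by linarith [hr.2]) p1) (mul_pos hr.1 (hy0I e he))
  have hlim : Filter.Tendsto g (𝓝[>] (0 : ℝ)) (𝓝 x0) := by
    have h1 : Filter.Tendsto g (𝓝 (0 : ℝ)) (𝓝 (g 0)) := hgc.tendsto 0
    have h2 : g 0 = x0 := by
      rw [hg]
      simp
    rw [h2] at h1
    exact h1.mono_left nhdsWithin_le_nhds
  exact (ItemX1.U_closed hP).mem_of_tendsto hlim hev

end Pool.Agent.Work.MP_48319b_gt
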