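import Pool.Agent.Work.MP_48319b_gt.Stmts

/-!
# M2 and M3: immersions from monotone charts, closeness of the double sets
-/

open Metric Set Topology Filter
open scoped Manifold ContDiff

namespace Pool.Agent.Work.MP_48319b_gt

namespace ItemM3

/-! ### the standard embedding -/

theorem emb_norm (x : E2) : ‖emb x‖ = ‖x‖ := by
  rw [EuclideanSpace.norm_eq, EuclideanSpace.norm_eq, Fin.sum_univ_three, Fin.sum_univ_two]
  simp [emb]

/-- `emb` as a continuous linear map -/
noncomputable def embL : E2 →L[ℝ] E3 :=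
  LinearMap.toContinuousLinearMap
    { toFun := emb
      map_add' := by
        intro x y
        ext i
        fin_cases i <;> simp [emb]
      map_smul' := by
        intro c x
        ext i
        fin_cases i <;> simp [emb] }

theorem embL_apply (x : E2) : embL x = emb x := rfl

theorem emb_sub (x y : E2) : emb (x - y) = emb x - emb y := by
  rw [← embL_apply, map_sub]
  rfl

theorem emb_injective : Function.Injective emb := by
  intro x y h
  have h1 : ‖emb (x - y)‖ = 0 := by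
    rw [emb_sub, h, sub_self, norm_zero]
  rw [emb_norm, norm_eq_zero] at h1
  exact sub_eq_zero.mp h1

/-- the approximations are standard far away -/
theorem far {f : E2 → E3} {F : ℝ → E2 → E3} (hf : ∀ x, 2 / 5 ≤ ‖x‖ → f x = emb x)
    (hF : Approx f F) {ε : ℝ} (h0 : 0 < ε) (h1 : ε < 1 / 20) {x : E2} (hx : 1 / 2 ≤ ‖x‖) :
    F ε x = emb x := by
  have hA : AffAt f x embL (1 / 10) := by
    intro p' hp'
    rw [mem_ball, dist_eq_norm] at hp'
    have h2 : 2 / 5 ≤ ‖p'‖ := by
      have := norm_sub_norm_le x p'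
      rw [norm_sub_rev] at this
      linarith
    rw [hf p' h2, hf x (by linarith), embL_apply, emb_sub]
    abel
  have h3 := hF.aff x embL (1 / 10) hA ε h0 (by linarith) x (mem_ball_self (by norm_num))
  rw [h3, hf x (by linarith)]

/-- the double points of the approximations are bounded -/
theorem bdd {f : E2 → E3} {F : ℝ → E2 → E3} (hf : GenericPL f) (hF : Approx f F) :
    ∃ δ > 0, ∀ ε, 0 < ε → ε < δ → ∀ z ∈ DD (F ε), ‖z.1‖ ≤ 1 ∧ ‖z.2‖ ≤ 1 := by
  obtain ⟨K, hK⟩ := hF.close
  refine ⟨min (1 / 20) (1 / (2 * (|K| + 1))), by positivity, ?_⟩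
  intro ε h0 h1 z hz
  have h2 : ε < 1 / 20 := lt_of_lt_of_le h1 (min_le_left _ _)
  have h3 : ε < 1 / (2 * (|K| + 1)) := lt_of_lt_of_le h1 (min_le_right _ _)
  have hKe : K * ε ≤ 1 / 2 := by
    have h4 : (|K| + 1) * ε ≤ 1 / 2 := by
      rw [lt_div_iff₀ (by positivity)] at h3
      nlinarith
    have h5 : K ≤ |K| := le_abs_self K
    nlinarith
  have key : ∀ p q : E2, p ≠ q → F ε p = F ε q → ‖p‖ ≤ 1 := by
    intro p q hpq he
    by_contra hp
    push Not at hp
    have hFp : F ε p = emb p := far hf.far hF h0 h2 (by linarith)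
    by_cases hq : 1 / 2 ≤ ‖q‖
    · have hFq : F ε q = emb q := far hf.far hF h0 h2 hq
      rw [hFp, hFq] at he
      exact hpq (emb_injective he)
    · push Not at hq
      have h6 : ‖f q‖ ≤ 1 / 2 := by
        by_cases hq2 : ‖q‖ ≤ 2 / 5
        · have := hf.near q hq2
          linarith
        · rw [hf.far q (by linarith), emb_norm]
          exact hq.le
      have h7 : ‖F ε q‖ ≤ 1 := by
        have h8 := hK ε h0 q
        have h9 : ‖F ε q‖ ≤ ‖F ε q - f q‖ + ‖f q‖ := by
          have := norm_add_le (F ε q - f q) (f q)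
          rwa [sub_add_cancel] at this
        linarith
      rw [← he, hFp, emb_norm] at h7
      linarith
  exact ⟨key z.1 z.2 hz.1 hz.2, key z.2 z.1 hz.1.symm hz.2.symm⟩

end ItemM3

/-- M2. -/
theorem immThm : ImmThm := by
  intro F x Q m r hF hm hr hmono
  rw [injective_iff_map_eq_zero]
  intro u hu
  have hd : HasFDerivAt F (fderiv ℝ F x) x := (hF.differentiable (by simp) x).hasFDerivAt
  have hl : HasDerivAt (fun t : ℝ => x + t • u) u 0 := by
    simpa using ((hasDerivAt_id (0 : ℝ)).smul_const u).const_add x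
  have hd' : HasFDerivAt F (fderiv ℝ F x) (x + (0 : ℝ) • u) := by
    rw [zero_smul, add_zero]
    exact hd
  have h1 : HasDerivAt (fun t : ℝ => F (x + t • u)) (fderiv ℝ F x u) 0 :=
    hd'.comp_hasDerivAt (0 : ℝ) hl
  have h2 := hasDerivAt_iff_tendsto_slope_zero.mp h1
  have h3 : Tendsto (fun t : ℝ => inner ℝ u (Q (t⁻¹ • (F (x + (0 + t) • u) - F (x + (0 : ℝ) • u)))))
      (𝓝[≠] 0) (𝓝 (inner ℝ u (Q (fderiv ℝ F x u)))) := by
    have hc : Continuous fun y : E3 => inner ℝ u (Q y) :=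
      Continuous.inner continuous_const Q.continuous
    exact (hc.tendsto _).comp h2
  have h4 : ∀ᶠ t : ℝ in 𝓝[≠] 0,
      m * ‖u‖ ^ 2 ≤ inner ℝ u (Q (t⁻¹ • (F (x + (0 + t) • u) - F (x + (0 : ℝ) • u)))) := by
    have h5 : ∀ᶠ t : ℝ in 𝓝 0, x + t • u ∈ ball x r := by
      have hc : Continuous fun t : ℝ => x + t • u := by fun_prop
      have := hc.tendsto (0 : ℝ)
      rw [zero_smul, add_zero] at this
      exact this (ball_mem_nhds x hr)
    filter_upwards [eventually_nhdsWithin_of_eventually_nhds h5, self_mem_nhdsWithin] with t ht ht0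
    have ht0' : t ≠ 0 := ht0
    have h6 := hmono _ ht x (mem_ball_self hr)
    rw [add_sub_cancel_left, norm_smul, mul_pow, Real.norm_eq_abs, sq_abs, inner_smul_left] at h6
    rw [zero_add, zero_smul, add_zero, map_smul, inner_smul_right]
    have h7 : (0 : ℝ) < t ^ 2 := by positivity
    have h8 : m * ‖u‖ ^ 2 * t ^ 2 ≤ t⁻¹ * inner ℝ u (Q (F (x + t • u) - F x)) * t ^ 2 := by
      have e1 : t⁻¹ * inner ℝ u (Q (F (x + t • u) - F x)) * t ^ 2 =
          t * inner ℝ u (Q (F (x + t • u) - F x)) := by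
        field_simp
      rw [e1]
      simp only [conj_trivial] at h6
      linarith
    exact le_of_mul_le_mul_right h8 h7
  have h5 := ge_of_tendsto h3 h4
  rw [hu, map_zero, inner_zero_right] at h5
  have h6 : ‖u‖ ^ 2 ≤ 0 := by
    by_contra hcon
    push Not at hcon
    nlinarith [mul_pos hm hcon]
  have h7 : ‖u‖ = 0 := by
    have := sq_nonneg ‖u‖
    exact pow_eq_zero_iff (two_ne_zero) |>.mp (le_antisymm h6 this)
  exact norm_eq_zero.mp h7

open ItemM3 in
/-- M3. -/
theorem ddNear : DDNear := by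
  intro f F hf hF U hU hDU
  by_contra hcon
  push Not at hcon
  obtain ⟨δ, hδ, hb⟩ := bdd hf hF
  have hseq : ∀ n : ℕ, ∃ ε, 0 < ε ∧ ε < min δ (1 / ((n : ℝ) + 1)) ∧ ∃ z, z ∈ DD (F ε) ∧ z ∉ U := by
    intro n
    obtain ⟨ε, h0, h1, h2⟩ := hcon (min δ (1 / ((n : ℝ) + 1))) (by positivity)
    obtain ⟨z, hz, hzU⟩ := Set.not_subset.mp h2
    exact ⟨ε, h0, h1, z, hz, hzU⟩
  choose ε hε0 hε1 z hz hzU using hseq
  have hεt : Tendsto ε atTop (𝓝 0) := by
    refine squeeze_zero (fun n => (hε0 n).le)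
      (fun n => (lt_of_lt_of_le (hε1 n) (min_le_right _ _)).le) ?_
    exact tendsto_one_div_add_atTop_nhds_zero_nat
  have hcpt : IsCompact (closedBall (0 : E2) 1 ×ˢ closedBall (0 : E2) 1) :=
    (isCompact_closedBall _ _).prod (isCompact_closedBall _ _)
  have hmem : ∀ n, z n ∈ closedBall (0 : E2) 1 ×ˢ closedBall (0 : E2) 1 := by
    intro n
    have := hb (ε n) (hε0 n) (lt_of_lt_of_le (hε1 n) (min_le_left _ _)) (z n) (hz n)
    rw [mem_prod, mem_closedBall_zero_iff, mem_closedBall_zero_iff]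
    exact this
  obtain ⟨w, -, φ, hφ, hw⟩ := hcpt.tendsto_subseq hmem
  have hwU : w ∉ U := by
    have : w ∈ Uᶜ := hU.isClosed_compl.mem_of_tendsto hw
      (Filter.Eventually.of_forall fun n => hzU (φ n))
    exact this
  have hεφ : Tendsto (fun n => ε (φ n)) atTop (𝓝 0) := hεt.comp hφ.tendsto_atTop
  obtain ⟨L, hL⟩ := hf.lip
  obtain ⟨K, hK⟩ := hF.close
  have hw1 : Tendsto (fun n => (z (φ n)).1) atTop (𝓝 w.1) := (continuous_fst.tendsto w).comp hw
  have hw2 : Tendsto (fun n => (z (φ n)).2) atTop (𝓝 w.2) := (continuous_snd.tendsto w).comp hw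
  have hfeq : f w.1 = f w.2 := by
    have h1 : Tendsto (fun n => f (z (φ n)).1 - f (z (φ n)).2) atTop (𝓝 (f w.1 - f w.2)) :=
      ((hL.continuous.tendsto _).comp hw1).sub ((hL.continuous.tendsto _).comp hw2)
    have h2 : Tendsto (fun n => f (z (φ n)).1 - f (z (φ n)).2) atTop (𝓝 0) := by
      apply squeeze_zero_norm (a := fun n => 2 * (K * ε (φ n)))
      · intro n
        have e : f (z (φ n)).1 - f (z (φ n)).2 =
            -(F (ε (φ n)) (z (φ n)).1 - f (z (φ n)).1) +
              (F (ε (φ n)) (z (φ n)).2 - f (z (φ n)).2) := by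
          rw [(hz (φ n)).2]
          abel
        rw [e]
        refine (norm_add_le _ _).trans ?_
        rw [norm_neg]
        have h3 := hK (ε (φ n)) (hε0 _) (z (φ n)).1
        have h4 := hK (ε (φ n)) (hε0 _) (z (φ n)).2
        linarith
      · have := (hεφ.const_mul K).const_mul 2
        simpa using this
    exact sub_eq_zero.mp (tendsto_nhds_unique h1 h2)
  by_cases hne : w.1 = w.2
  · obtain ⟨Q, m, r, hm, hr, hmono⟩ := hf.mono w.1
    have e1 : ∀ᶠ n in atTop, ε (φ n) < r / 2 := hεφ.eventually (gt_mem_nhds (by positivity))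
    have e2 : ∀ᶠ n in atTop, (z (φ n)).1 ∈ ball w.1 (r / 2) :=
      hw1 (ball_mem_nhds _ (by positivity))
    have e3 : ∀ᶠ n in atTop, (z (φ n)).2 ∈ ball w.1 (r / 2) := by
      rw [hne]
      exact hw2 (ball_mem_nhds _ (by positivity))
    obtain ⟨n, h1, h2, h3⟩ := (e1.and (e2.and e3)).exists
    have h4 := hF.mono w.1 Q m r hmono (ε (φ n)) (hε0 _) h1 _ h2 _ h3
    rw [(hz (φ n)).2, sub_self, map_zero, inner_zero_right] at h4
    have h5 : 0 < ‖(z (φ n)).1 - (z (φ n)).2‖ := norm_pos_iff.mpr (sub_ne_zero.mpr (hz (φ n)).1)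
    have h6 : 0 < m * ‖(z (φ n)).1 - (z (φ n)).2‖ ^ 2 := by positivity
    linarith
  · exact hwU (hDU ⟨hne, hfeq⟩)

end Pool.Agent.Work.MP_48319b_gt
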