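import Pool.Agent.Work.MP_48319b_gt.CoverThm

/-!
# [48319b X3] the piecewise affine extension
-/

open Metric Set Topology

namespace Pool.Agent.Work.MP_48319b_gt

namespace ItemX3

/-- the oriented area of a combination -/
lemma dd_comb {pos : ℕ → E2} {t : Tri} {x : E2} {w : ℕ → ℝ} (h : IsWt pos t x w) (a b : ℕ) :
    det2 (pos b - pos a) (x - pos a) = w t.a * det2 (pos b - pos a) (pos t.a - pos a)
      + w t.b * det2 (pos b - pos a) (pos t.b - pos a)
      + w t.c * det2 (pos b - pos a) (pos t.c - pos a) := by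
  have e0 : x 0 = w t.a * pos t.a 0 + w t.b * pos t.b 0 + w t.c * pos t.c 0 := by
    rw [← h.2, ItemX2.comb_apply]
  have e1 : x 1 = w t.a * pos t.a 1 + w t.b * pos t.b 1 + w t.c * pos t.c 1 := by
    rw [← h.2, ItemX2.comb_apply]
  have hw : w t.a = 1 - w t.b - w t.c := by linarith [h.1.sum]
  simp only [ItemX2.det2_sub_sub, e0, e1, hw]
  ring

/-- a point of a triangle which is outside is a combination of the ends of a boundary edge -/
lemma outside {F : List Tri} {bd : List (ℕ × ℕ)} {pos : ℕ → E2} (hP : PlaneCx F bd pos) {t : Tri}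
    (ht : t ∈ F) {x : E2} {w : ℕ → ℝ} (h : IsWt pos t x w) {e : ℕ × ℕ} (he : e ∈ bd)
    (hx : det2 (pos e.2 - pos e.1) (x - pos e.1) ≤ 0) :
    ∀ v, 0 < w v → v = e.1 ∨ v = e.2 := by
  intro v hv
  have hvt : v ∈ t.vs := by
    by_contra hcon
    rw [h.1.supp v hcon] at hv
    exact lt_irrefl _ hv
  have ha := hP.bdside e he t ht t.a (by simp [Tri.vs])
  have hb := hP.bdside e he t ht t.b (by simp [Tri.vs])
  have hc := hP.bdside e he t ht t.c (by simp [Tri.vs])
  rw [dd_comb h] at hx
  have pa := mul_nonneg (h.1.nonneg t.a) ha.1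
  have pb := mul_nonneg (h.1.nonneg t.b) hb.1
  have pc := mul_nonneg (h.1.nonneg t.c) hc.1
  have key : ∀ y, y ∈ t.vs → w y * det2 (pos e.2 - pos e.1) (pos y - pos e.1) = 0 := by
    intro y hy
    simp only [Tri.vs, List.mem_cons, List.not_mem_nil, or_false] at hy
    rcases hy with rfl | rfl | rfl <;> linarith
  rcases mul_eq_zero.mp (key v hvt) with h3 | h3
  · exact absurd h3 (ne_of_gt hv)
  · exact (hP.bdside e he t ht v hvt).2 h3

/-- the linear part on a triangle -/
noncomputable def lin {V : Type*} [NormedAddCommGroup V] [NormedSpace ℝ V] (B C : E2) (b c : V) :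
    E2 →L[ℝ] V :=
  LinearMap.toContinuousLinearMap
    { toFun := fun u => (det2 u C / det2 B C) • b + (det2 B u / det2 B C) • c
      map_add' := by
        intro u v
        have h1 : det2 (u + v) C = det2 u C + det2 v C := by simp only [det2, PiLp.add_apply]; ring
        have h2 : det2 B (u + v) = det2 B u + det2 B v := by simp only [det2, PiLp.add_apply]; ring
        rw [h1, h2, add_div, add_div, add_smul, add_smul]
        abel
      map_smul' := by
        intro r u
        have h1 : det2 (r • u) C = r * det2 u C := by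
          simp only [det2, PiLp.smul_apply, smul_eq_mul]; ring
        have h2 : det2 B (r • u) = r * det2 B u := by
          simp only [det2, PiLp.smul_apply, smul_eq_mul]; ring
        rw [h1, h2, RingHom.id_apply, smul_add, smul_smul, smul_smul, mul_div_assoc, mul_div_assoc] }

lemma lin_apply {V : Type*} [NormedAddCommGroup V] [NormedSpace ℝ V] (B C : E2) (b c : V) (u : E2) :
    lin B C b c u = (det2 u C / det2 B C) • b + (det2 B u / det2 B C) • c := rfl

end ItemX3

theorem extThm (h1 : CoverThm) (h2 : UniqThm) : ExtThm := by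
  intro F bd pos hP V _ _ _ φ L hL
  have hext : ∀ t ∈ F, ∀ x w, IsWt pos t x w → ext F pos φ L x = comb φ t w := by
    intro t ht x w hw
    have hex : ∃ p : Tri × (ℕ → ℝ), p.1 ∈ F ∧ IsWt pos p.1 x p.2 := ⟨(t, w), ht, hw⟩
    rw [ext, dif_pos hex]
    obtain ⟨k1, k2⟩ := hex.choose_spec
    have e := h2 F bd pos hP _ k1 t ht x _ _ k2 hw
    rw [e]
    rw [e] at k2
    exact ItemX2.comb_transfer φ (ItemX2.nondeg (hP.orient _ k1)) (ItemX2.nondeg (hP.orient t ht))
      k2.1.supp hw.1.supp
  have hout : ∀ x, x ∈ Piece F bd pos none → ext F pos φ L x = L x := by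
    intro x hx
    by_cases hex : ∃ p : Tri × (ℕ → ℝ), p.1 ∈ F ∧ IsWt pos p.1 x p.2
    · obtain ⟨⟨t, w⟩, ht, hw⟩ := hex
      obtain ⟨e, he, hx⟩ := hx
      have hsupp := ItemX3.outside hP ht hw he hx
      rw [hext t ht x w hw]
      have hφ : ∀ v, w v • φ v = w v • L (pos v) := by
        intro v
        rcases eq_or_lt_of_le (hw.1.nonneg v) with h | h
        · have h' : w v = 0 := h.symm
          rw [h', zero_smul, zero_smul]
        · rcases hsupp v h with rfl | rfl
          · rw [(hL e he).1]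
          · rw [(hL e he).2]
      rw [comb, hφ, hφ, hφ]
      conv_rhs => rw [← hw.2, comb, map_add, map_add, map_smul, map_smul, map_smul]
    · rw [ext, dif_neg hex]
  refine ⟨hext, hout, fun i => match i with
    | none => L
    | some t => ItemX3.lin (pos t.1.b - pos t.1.a) (pos t.1.c - pos t.1.a) (φ t.1.b - φ t.1.a)
        (φ t.1.c - φ t.1.a), ⟨rfl, ?_⟩, ?_, ?_, ?_⟩
  · intro t
    have hD := hP.orient t.1 t.2
    have hself : ∀ u : E2, det2 u u = 0 := by
      intro u
      simp only [det2]
      ring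
    refine ⟨?_, ?_⟩
    · show ItemX3.lin _ _ _ _ _ = _
      rw [ItemX3.lin_apply, div_self (ne_of_gt hD), hself, zero_div, one_smul, zero_smul, add_zero]
    · show ItemX3.lin _ _ _ _ _ = _
      rw [ItemX3.lin_apply, div_self (ne_of_gt hD), hself, zero_div, one_smul, zero_smul, zero_add]
  · intro i
    match i with
    | none =>
      have h : Piece F bd pos none = ⋃ e ∈ bd.toFinset, {x | ItemX1.dd pos e.1 e.2 x ≤ 0} := by
        ext x
        simp only [mem_iUnion, Set.mem_ofPred_eq, List.mem_toFinset, exists_prop]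
        rfl
      rw [h]
      apply Set.Finite.isClosed_biUnion (Finset.finite_toSet _)
      intro e _
      exact isClosed_le (ItemX1.dd_cont pos e.1 e.2) continuous_const
    | some t =>
      have h : Piece F bd pos (some t) = {x | 0 ≤ ItemX1.dd pos t.1.a t.1.b x ∧
          0 ≤ ItemX1.dd pos t.1.b t.1.c x ∧ 0 ≤ ItemX1.dd pos t.1.c t.1.a x} := by
        ext x
        simp only [Set.mem_ofPred_eq]
        constructor
        · rintro ⟨w, hw⟩
          obtain ⟨e1, e2, e3⟩ := ItemX1.areas (pos := pos) hw.1.sum hw.2.symm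
          have hD : 0 < ItemX1.dd pos t.1.a t.1.b (pos t.1.c) := hP.orient t.1 t.2
          rw [e1, e2, e3]
          exact ⟨mul_nonneg (hw.1.nonneg _) hD.le, mul_nonneg (hw.1.nonneg _) hD.le,
            mul_nonneg (hw.1.nonneg _) hD.le⟩
        · rintro ⟨k1, k2, k3⟩
          exact ItemX1.mem_tri (hP.orient t.1 t.2) k1 k2 k3
      rw [h]
      apply (isClosed_le continuous_const (ItemX1.dd_cont pos t.1.a t.1.b)).inter
      exact (isClosed_le continuous_const (ItemX1.dd_cont pos t.1.b t.1.c)).inter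
        (isClosed_le continuous_const (ItemX1.dd_cont pos t.1.c t.1.a))
  · intro x
    by_cases hx : ∀ e ∈ bd, 0 ≤ det2 (pos e.2 - pos e.1) (x - pos e.1)
    · obtain ⟨t, ht, w, hw⟩ := h1 F bd pos hP x hx
      exact ⟨some ⟨t, ht⟩, w, hw⟩
    · push Not at hx
      obtain ⟨e, he, hlt⟩ := hx
      exact ⟨none, e, he, hlt.le⟩
  · intro i
    match i with
    | none =>
      intro p hp q hq
      rw [hout p hp, hout q hq]
      show L p - L q = L (p - q)
      rw [map_sub]
    | some t =>
      rintro p ⟨w, hw⟩ q ⟨w', hw'⟩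
      rw [hext t.1 t.2 p w hw, hext t.1 t.2 q w' hw']
      show _ = ItemX3.lin _ _ _ _ _
      rw [ItemX3.lin_apply]
      have hD := hP.orient t.1 t.2
      set D := det2 (pos t.1.b - pos t.1.a) (pos t.1.c - pos t.1.a) with hDdef
      have e0 : p 0 - q 0 = (w t.1.a - w' t.1.a) * pos t.1.a 0 + (w t.1.b - w' t.1.b) * pos t.1.b 0
          + (w t.1.c - w' t.1.c) * pos t.1.c 0 := by
        rw [← hw.2, ← hw'.2, ItemX2.comb_apply, ItemX2.comb_apply]
        ring
      have e1 : p 1 - q 1 = (w t.1.a - w' t.1.a) * pos t.1.a 1 + (w t.1.b - w' t.1.b) * pos t.1.b 1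
          + (w t.1.c - w' t.1.c) * pos t.1.c 1 := by
        rw [← hw.2, ← hw'.2, ItemX2.comb_apply, ItemX2.comb_apply]
        ring
      have ha : w t.1.a - w' t.1.a = -(w t.1.b - w' t.1.b) - (w t.1.c - w' t.1.c) := by
        linarith [hw.1.sum, hw'.1.sum]
      have d1 : det2 (p - q) (pos t.1.c - pos t.1.a) = (w t.1.b - w' t.1.b) * D := by
        rw [hDdef, ItemX2.det2_sub_sub, ItemX2.det2_sub_sub, e0, e1, ha]
        ring
      have d2 : det2 (pos t.1.b - pos t.1.a) (p - q) = (w t.1.c - w' t.1.c) * D := by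
        rw [hDdef, ItemX2.det2_sub_sub, ItemX2.det2_sub_sub, e0, e1, ha]
        ring
      rw [d1, d2, mul_div_assoc, mul_div_assoc, div_self (ne_of_gt hD), mul_one, mul_one]
      have ea : w t.1.a = 1 - w t.1.b - w t.1.c := by linarith [hw.1.sum]
      have ea' : w' t.1.a = 1 - w' t.1.b - w' t.1.c := by linarith [hw'.1.sum]
      rw [comb, comb, ea, ea']
      module

end Pool.Agent.Work.MP_48319b_gt
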