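import Pool.Agent.Work.MP_48319b_gt.Stmts

/-!
# MP_48319b_gt, item F (helper88): two lifts with the same order on every fibre

`Θ (y, s) = (y, θ (y, s))`, where `θ (y, s)` is the infimum over `p` of
`h1 p + σ (s - h0 p) + W (y, p)`, `σ r = max (a r) (M r)`, and `W` is a continuous modulus
vanishing for `y = P p`.
-/

open Metric Set Topology Filter

namespace Pool.Agent.Work.MP_48319b_gt

namespace ItemF

/-- a map over `E3` which increases at least linearly in the last coordinate is a
homeomorphism -/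
lemma fibHomeo (θ : E3 × ℝ → ℝ) (hθ : Continuous θ) (a : ℝ) (ha : 0 < a)
    (hmono : ∀ y s s', s ≤ s' → θ (y, s) + a * (s' - s) ≤ θ (y, s')) :
    ∃ Θ : (E3 × ℝ) ≃ₜ (E3 × ℝ), ∀ z, Θ z = (z.1, θ z) := by
  have habs : ∀ y s s', a * |s - s'| ≤ |θ (y, s) - θ (y, s')| := by
    intro y s s'
    rcases le_total s s' with h | h
    · have := hmono y s s' h
      rw [abs_of_nonpos (by linarith)]
      have h2 : θ (y, s') - θ (y, s) ≤ |θ (y, s) - θ (y, s')| := by
        rw [abs_sub_comm]; exact le_abs_self _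
      linarith
    · have := hmono y s' s h
      rw [abs_of_nonneg (by linarith)]
      have h2 : θ (y, s) - θ (y, s') ≤ |θ (y, s) - θ (y, s')| := le_abs_self _
      linarith
  have hsurj : ∀ y, Function.Surjective fun s => θ (y, s) := by
    intro y
    refine Continuous.surjective (hθ.comp (by fun_prop)) ?_ ?_
    · have h1 : Tendsto (fun s : ℝ => θ (y, 0) + a * s) atTop atTop :=
        tendsto_atTop_add_const_left _ _ (tendsto_id.const_mul_atTop ha)
      refine tendsto_atTop_mono' _ ?_ h1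
      filter_upwards [eventually_ge_atTop (0 : ℝ)] with s hs
      have := hmono y 0 s hs
      simpa using this
    · have h1 : Tendsto (fun s : ℝ => θ (y, 0) + a * s) atBot atBot :=
        tendsto_atBot_add_const_left _ _ (tendsto_id.const_mul_atBot ha)
      refine tendsto_atBot_mono' _ ?_ h1
      filter_upwards [eventually_le_atBot (0 : ℝ)] with s hs
      have := hmono y s 0 hs
      linarith
  choose g hg using fun z : E3 × ℝ => hsurj z.1 z.2
  have hginj : ∀ y s s', θ (y, s) = θ (y, s') → s = s' := by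
    intro y s s' h
    have := habs y s s'
    rw [h, sub_self, abs_zero] at this
    have h2 : |s - s'| ≤ 0 := by
      by_contra hc
      push Not at hc
      have := mul_pos ha hc
      linarith
    have h3 := abs_nonpos_iff.1 h2
    linarith
  have hgc : Continuous g := by
    rw [continuous_iff_continuousAt]
    intro z0
    have hlim : Tendsto (fun z : E3 × ℝ => |z.2 - θ (z.1, g z0)| / a) (𝓝 z0) (𝓝 0) := by
      have hc : Continuous fun z : E3 × ℝ => |z.2 - θ (z.1, g z0)| / a := by
        have : Continuous fun z : E3 × ℝ => θ (z.1, g z0) := hθ.comp (by fun_prop)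
        fun_prop
      have := hc.tendsto z0
      have h0 : |z0.2 - θ (z0.1, g z0)| / a = 0 := by
        have h' : θ (z0.1, g z0) = z0.2 := hg z0
        rw [h', sub_self, abs_zero, zero_div]
      rwa [h0] at this
    rw [ContinuousAt, tendsto_iff_dist_tendsto_zero]
    refine squeeze_zero (fun _ => dist_nonneg) (fun z => ?_) hlim
    rw [Real.dist_eq, le_div_iff₀ ha]
    have h1 := habs z.1 (g z) (g z0)
    have h2 : θ (z.1, g z) = z.2 := hg z
    rw [h2] at h1
    linarith
  refine ⟨⟨⟨fun z => (z.1, θ z), fun z => (z.1, g z), ?_, ?_⟩, ?_, ?_⟩, fun z => rfl⟩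
  · rintro ⟨y, s⟩
    have : g (y, θ (y, s)) = s := hginj y _ _ (hg (y, θ (y, s)))
    simp [this]
  · rintro ⟨y, t⟩
    have : θ (y, g (y, t)) = t := hg (y, t)
    simp [this]
  · exact continuous_fst.prodMk hθ
  · exact continuous_fst.prodMk hgc

variable {S : Type} [TopologicalSpace S] [CompactSpace S] [T2Space S]

/-- pairs of different points in the same fibre -/
def TT (P : S → E3) : Set (S × S) := {z | P z.1 = P z.2 ∧ z.1 ≠ z.2}

lemma isCompact_TT {P : S → E3} (hP : Continuous P) (hloc : ∀ p, ∃ O ∈ 𝓝 p, InjOn P O) :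
    IsCompact (TT P) := by
  apply IsClosed.isCompact
  rw [← isOpen_compl_iff, isOpen_iff_mem_nhds]
  rintro ⟨p, q⟩ hpq
  by_cases h : P p = P q
  · have hpq' : p = q := by
      by_contra hne
      exact hpq ⟨h, hne⟩
    subst hpq'
    obtain ⟨O, hO, hinj⟩ := hloc p
    have : O ×ˢ O ∈ 𝓝 (p, p) := prod_mem_nhds hO hO
    filter_upwards [this] with z hz hzT
    exact hzT.2 (hinj hz.1 hz.2 hzT.1)
  · have ho : IsOpen {z : S × S | P z.1 ≠ P z.2} :=
      isOpen_ne_fun (hP.comp continuous_fst) (hP.comp continuous_snd)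
    have : {z : S × S | P z.1 ≠ P z.2} ∈ 𝓝 (p, q) := ho.mem_nhds h
    filter_upwards [this] with z hz hzT
    exact hz hzT.1

/-- differences of one height are bounded by differences of the other one -/
lemma ratio_bound {P : S → E3} (hP : Continuous P) (hloc : ∀ p, ∃ O ∈ 𝓝 p, InjOn P O)
    {k0 k1 : S → ℝ} (hk0 : Continuous k0) (hk1 : Continuous k1)
    (hne : ∀ p q, p ≠ q → P p = P q → k0 p ≠ k0 q) :
    ∃ M : ℝ, 1 ≤ M ∧ ∀ p q, p ≠ q → P p = P q → |k1 q - k1 p| ≤ M * |k0 q - k0 p| := by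
  have hc : ContinuousOn (fun z : S × S => |k1 z.2 - k1 z.1| / |k0 z.2 - k0 z.1|) (TT P) := by
    apply ContinuousOn.div
    · fun_prop
    · fun_prop
    · rintro ⟨p, q⟩ hz
      have := hne p q hz.2 hz.1
      simpa [abs_eq_zero, sub_eq_zero] using fun h => this h.symm
  obtain ⟨M, hM⟩ := (isCompact_TT hP hloc).bddAbove_image hc
  refine ⟨max M 1, le_max_right _ _, fun p q hpq hP' => ?_⟩
  have h1 : |k1 q - k1 p| / |k0 q - k0 p| ≤ M := hM ⟨(p, q), ⟨hP', hpq⟩, rfl⟩
  have h2 : 0 < |k0 q - k0 p| := by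
    rw [abs_pos, sub_ne_zero]
    exact fun h => hne p q hpq hP' h.symm
  rw [div_le_iff₀ h2] at h1
  exact h1.trans (mul_le_mul_of_nonneg_right (le_max_left _ _) h2.le)

/-- the convex increasing function with slopes `a` and `M` -/
noncomputable def sg (a M r : ℝ) : ℝ := max (a * r) (M * r)

lemma sg_mono {a M : ℝ} (h : a ≤ M) {r r' : ℝ} (hr : r ≤ r') :
    sg a M r + a * (r' - r) ≤ sg a M r' := by
  unfold sg
  rcases le_total (a * r) (M * r) with h1 | h1
  · rw [max_eq_right h1]
    refine le_trans ?_ (le_max_right _ _)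
    nlinarith
  · rw [max_eq_left h1]
    refine le_trans (le_of_eq ?_) (le_max_left _ _)
    ring

lemma sg_zero (a M : ℝ) : sg a M 0 = 0 := by simp [sg]

/-- a continuous modulus -/
lemma modulus {P : S → E3} (hP : Continuous P) (Φ : S × S → ℝ) (hΦ : Continuous Φ)
    (h0 : ∀ p q, P p = P q → Φ (p, q) ≤ 0) :
    ∃ W : E3 × S → ℝ, Continuous W ∧ (∀ p, W (P p, p) = 0) ∧
      ∀ p q, Φ (p, q) ≤ W (P q, p) := by
  obtain ⟨B0, hB0⟩ := (isCompact_univ (X := S × S)).bddAbove_image hΦ.continuousOn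
  set B : ℝ := max B0 1 with hB
  have hBpos : 0 < B := lt_of_lt_of_le one_pos (le_max_right _ _)
  have hΦB : ∀ z, Φ z ≤ B := fun z => (hB0 ⟨z, mem_univ _, rfl⟩).trans (le_max_left _ _)
  have hδ : ∀ n : ℕ, ∃ δ : ℝ, 0 < δ ∧ ∀ p q, B * (1 / 2) ^ (n + 1) ≤ Φ (p, q) →
      δ ≤ dist (P q) (P p) := by
    intro n
    have hK : IsCompact {z : S × S | B * (1 / 2) ^ (n + 1) ≤ Φ z} :=
      (isClosed_le continuous_const hΦ).isCompact
    obtain ⟨δ, hδ, hd⟩ := hK.exists_forall_le' (f := fun z : S × S => dist (P z.2) (P z.1))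
      (a := 0) (by fun_prop) (by
        rintro ⟨p, q⟩ hz
        rw [dist_pos]
        intro he
        have h1 := h0 p q he.symm
        have h2 : (0 : ℝ) < B * (1 / 2) ^ (n + 1) := by positivity
        have h3 : B * (1 / 2) ^ (n + 1) ≤ Φ (p, q) := hz
        linarith)
    exact ⟨δ, hδ, fun p q h => hd (p, q) h⟩
  choose δ hδpos hδ using hδ
  let T : ℕ → E3 × S → ℝ := fun n z => B * (1 / 2) ^ n * min 1 (dist z.1 (P z.2) / δ n)
  have hT0 : ∀ n z, 0 ≤ T n z := by
    intro n z
    have : 0 ≤ min 1 (dist z.1 (P z.2) / δ n) :=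
      le_min zero_le_one (div_nonneg dist_nonneg (hδpos n).le)
    positivity
  have hT1 : ∀ n z, T n z ≤ B * (1 / 2) ^ n := by
    intro n z
    have : min 1 (dist z.1 (P z.2) / δ n) ≤ 1 := min_le_left _ _
    have h2 : (0 : ℝ) ≤ B * (1 / 2) ^ n := by positivity
    calc T n z ≤ B * (1 / 2) ^ n * 1 := mul_le_mul_of_nonneg_left this h2
      _ = _ := mul_one _
  have hsum : Summable fun n : ℕ => B * (1 / 2 : ℝ) ^ n :=
    (summable_geometric_of_lt_one (by norm_num) (by norm_num)).mul_left B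
  have hTs : ∀ z, Summable fun n => T n z := fun z =>
    Summable.of_nonneg_of_le (fun n => hT0 n z) (fun n => hT1 n z) hsum
  refine ⟨fun z => ∑' n, T n z, ?_, ?_, ?_⟩
  · refine continuous_tsum (fun n => ?_) hsum (fun n z => ?_)
    · have : δ n ≠ 0 := (hδpos n).ne'
      show Continuous fun z : E3 × S => B * (1 / 2) ^ n * min 1 (dist z.1 (P z.2) / δ n)
      fun_prop
    · rw [Real.norm_eq_abs, abs_of_nonneg (hT0 n z)]
      exact hT1 n z
  · intro p
    have : ∀ n, T n (P p, p) = 0 := by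
      intro n
      simp [T]
    simp [this]
  · intro p q
    rcases le_or_gt (Φ (p, q)) 0 with h | h
    · exact h.trans (tsum_nonneg fun n => hT0 n _)
    · have hx0 : 0 < Φ (p, q) / B := div_pos h hBpos
      have hx1 : Φ (p, q) / B ≤ 1 := (div_le_one hBpos).2 (hΦB _)
      obtain ⟨n, hn1, hn2⟩ := exists_nat_pow_near_of_lt_one hx0 hx1
        (y := 1 / 2) (by norm_num) (by norm_num)
      rw [lt_div_iff₀ hBpos] at hn1
      rw [div_le_iff₀ hBpos] at hn2
      have hd := hδ n p q (by linarith)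
      have hT : T n (P q, p) = B * (1 / 2) ^ n := by
        show B * (1 / 2) ^ n * min 1 (dist (P q) (P p) / δ n) = _
        rw [min_eq_left ((one_le_div (hδpos n)).2 hd), mul_one]
      calc Φ (p, q) ≤ B * (1 / 2) ^ n := by linarith
        _ = T n (P q, p) := hT.symm
        _ ≤ ∑' n, T n (P q, p) := (hTs _).le_tsum n (fun m _ => hT0 m _)

end ItemF

open ItemF in
/-- [48319b F] two lifts with the same order on every fibre are related by a fibrewise
homeomorphism -/
theorem fibThm : FibThm := by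
  intro S _ _ _ P h0 h1 hP hh0 hh1 hloc hne hord
  have hne1 : ∀ p q, p ≠ q → P p = P q → h1 p ≠ h1 q := by
    intro p q hpq hP' he
    rcases lt_or_gt_of_ne (hne p q hpq hP') with h | h
    · have := (hord p q hP').1 h
      exact absurd he this.ne
    · have := (hord q p hP'.symm).1 h
      exact absurd he this.ne'
  obtain ⟨M, hM1, hM⟩ := ratio_bound hP hloc hh0 hh1 hne
  obtain ⟨M', hM'1, hM'⟩ := ratio_bound hP hloc hh1 hh0 hne1
  set a : ℝ := 1 / M' with ha
  have hM'pos : 0 < M' := by linarith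
  have hapos : 0 < a := by positivity
  have ha1 : a ≤ 1 := by
    rw [ha, div_le_one hM'pos]
    exact hM'1
  have haM : a ≤ M := ha1.trans hM1
  rcases isEmpty_or_nonempty S with hS | hS
  · exact ⟨Homeomorph.refl _, fun p => (hS.false p).elim⟩
  let Φ : S × S → ℝ := fun z => h1 z.2 - h1 z.1 - sg a M (h0 z.2 - h0 z.1)
  have hsgc : Continuous (sg a M) := by
    unfold sg
    fun_prop
  have hΦc : Continuous Φ := by
    show Continuous fun z : S × S => h1 z.2 - h1 z.1 - sg a M (h0 z.2 - h0 z.1)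
    fun_prop
  obtain ⟨W, hWc, hW0, hW⟩ := modulus hP Φ hΦc (by
    intro p q hP'
    show h1 q - h1 p - sg a M (h0 q - h0 p) ≤ 0
    by_cases hpq : p = q
    · subst hpq
      simp [sg]
    rcases lt_or_gt_of_ne (hne p q hpq hP') with h | h
    · have h2 := (hord p q hP').1 h
      have h3 := hM p q hpq hP'
      rw [abs_of_pos (by linarith), abs_of_pos (by linarith)] at h3
      have h4 : M * (h0 q - h0 p) ≤ sg a M (h0 q - h0 p) := le_max_right _ _
      linarith
    · have h2 := (hord q p hP'.symm).1 h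
      have h3 := hM' p q hpq hP'
      rw [abs_of_neg (by linarith), abs_of_neg (by linarith)] at h3
      have h4 : a * (h0 q - h0 p) ≤ sg a M (h0 q - h0 p) := le_max_left _ _
      have h5 : a * (-(h0 q - h0 p)) ≤ -(h1 q - h1 p) := by
        rw [ha, div_mul_eq_mul_div, one_mul, div_le_iff₀ hM'pos]
        linarith
      linarith)
  let f : E3 × ℝ → S → ℝ := fun z p => h1 p + sg a M (z.2 - h0 p) + W (z.1, p)
  have hfc : Continuous (Function.uncurry f) := by
    show Continuous fun x : (E3 × ℝ) × S => h1 x.2 + sg a M (x.1.2 - h0 x.2) + W (x.1.1, x.2)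
    have h1' : Continuous fun x : (E3 × ℝ) × S => W (x.1.1, x.2) := hWc.comp (by fun_prop)
    fun_prop
  have hfc' : ∀ z, Continuous (f z) := fun z => by
    have : Continuous fun p => (Function.uncurry f) (z, p) := hfc.comp (by fun_prop)
    exact this
  let θ : E3 × ℝ → ℝ := fun z => sInf (f z '' univ)
  have hθc : Continuous θ := isCompact_univ.continuous_sInf hfc
  have hθle : ∀ z p, θ z ≤ f z p := fun z p =>
    csInf_le (isCompact_univ.bddBelow_image (hfc' z).continuousOn) ⟨p, mem_univ _, rfl⟩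
  have hθex : ∀ z, ∃ p, θ z = f z p := by
    intro z
    obtain ⟨p, -, hp⟩ := isCompact_univ.exists_sInf_image_eq (univ_nonempty) (hfc' z).continuousOn
    exact ⟨p, hp⟩
  have hmono : ∀ y s s', s ≤ s' → θ (y, s) + a * (s' - s) ≤ θ (y, s') := by
    intro y s s' hs
    obtain ⟨p, hp⟩ := hθex (y, s')
    rw [hp]
    have h1' := hθle (y, s) p
    have h2 : sg a M (s - h0 p) + a * ((s' - h0 p) - (s - h0 p)) ≤ sg a M (s' - h0 p) :=
      sg_mono haM (by linarith)
    show θ (y, s) + a * (s' - s) ≤ h1 p + sg a M (s' - h0 p) + W (y, p)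
    have h3 : θ (y, s) ≤ h1 p + sg a M (s - h0 p) + W (y, p) := h1'
    have h4 : a * ((s' - h0 p) - (s - h0 p)) = a * (s' - s) := by ring
    linarith
  obtain ⟨Θ, hΘ⟩ := fibHomeo θ hθc a hapos hmono
  refine ⟨Θ, fun q => ?_⟩
  rw [hΘ]
  refine Prod.ext rfl ?_
  show θ (P q, h0 q) = h1 q
  apply le_antisymm
  · have := hθle (P q, h0 q) q
    have h2 : f (P q, h0 q) q = h1 q := by
      show h1 q + sg a M (h0 q - h0 q) + W (P q, q) = h1 q
      rw [sub_self, sg_zero, hW0]
      ring
    rwa [h2] at this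
  · obtain ⟨p, hp⟩ := hθex (P q, h0 q)
    rw [hp]
    show h1 q ≤ h1 p + sg a M (h0 q - h0 p) + W (P q, p)
    have : h1 q - h1 p - sg a M (h0 q - h0 p) ≤ W (P q, p) := hW p q
    linarith

end Pool.Agent.Work.MP_48319b_gt
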