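import Pool.Agent.Work.MP_48319b_gt.Stmts2

/-!
# MP_48319b_gt : the pieces (item X4)
-/

open Metric Set Topology

namespace Pool.Agent.Work.MP_48319b_gt
namespace PieceAux

variable {pos : ℕ → E2} {t : Tri} {x : E2} {w : ℕ → ℝ}

/-- twice the area of the triangle -/
noncomputable def dD (pos : ℕ → E2) (t : Tri) : ℝ := det2 (pos t.b - pos t.a) (pos t.c - pos t.a)
noncomputable def dA (pos : ℕ → E2) (t : Tri) (x : E2) : ℝ := det2 (pos t.c - pos t.b) (x - pos t.b)
noncomputable def dB (pos : ℕ → E2) (t : Tri) (x : E2) : ℝ := det2 (pos t.a - pos t.c) (x - pos t.c)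
noncomputable def dC (pos : ℕ → E2) (t : Tri) (x : E2) : ℝ := det2 (pos t.b - pos t.a) (x - pos t.a)

theorem sumD (pos : ℕ → E2) (t : Tri) (x : E2) : dA pos t x + dB pos t x + dC pos t x = dD pos t := by
  simp only [dA, dB, dC, dD, det2, PiLp.sub_apply]
  ring

theorem rep (pos : ℕ → E2) (t : Tri) (x : E2) :
    dA pos t x • pos t.a + dB pos t x • pos t.b + dC pos t x • pos t.c = dD pos t • x := by
  ext i
  fin_cases i <;>
    simp only [dA, dB, dC, dD, det2, PiLp.sub_apply, PiLp.add_apply, PiLp.smul_apply,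
      smul_eq_mul, Fin.zero_eta, Fin.mk_one, Fin.isValue] <;> ring

theorem det_comb (hw : w t.a + w t.b + w t.c = 1) (P Q : E2) :
    det2 Q (comb pos t w - P) = w t.a * det2 Q (pos t.a - P) +
      w t.b * det2 Q (pos t.b - P) + w t.c * det2 Q (pos t.c - P) := by
  have hc : w t.c = 1 - w t.a - w t.b := by linarith
  simp only [comb, det2, PiLp.sub_apply, PiLp.add_apply, PiLp.smul_apply, smul_eq_mul]
  rw [hc]
  ring

theorem dA_wt (h : IsWt pos t x w) : dA pos t x = dD pos t * w t.a := by
  obtain ⟨h1, h2⟩ := h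
  rw [dA, ← h2, det_comb h1.sum]
  simp only [dD, det2, PiLp.sub_apply]
  ring

theorem dB_wt (h : IsWt pos t x w) : dB pos t x = dD pos t * w t.b := by
  obtain ⟨h1, h2⟩ := h
  rw [dB, ← h2, det_comb h1.sum]
  simp only [dD, det2, PiLp.sub_apply]
  ring

theorem dC_wt (h : IsWt pos t x w) : dC pos t x = dD pos t * w t.c := by
  obtain ⟨h1, h2⟩ := h
  rw [dC, ← h2, det_comb h1.sum]
  simp only [dD, det2, PiLp.sub_apply]
  ring

theorem nondeg (h : 0 < dD pos t) : t.a ≠ t.b ∧ t.a ≠ t.c ∧ t.b ≠ t.c := by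
  refine ⟨?_, ?_, ?_⟩
  · intro he
    rw [dD, he, det2] at h
    simp at h
  · intro he
    rw [dD, ← he, det2] at h
    simp at h
  · intro he
    rw [dD, he, det2] at h
    have : (pos t.c - pos t.a) 0 * (pos t.c - pos t.a) 1 -
      (pos t.c - pos t.a) 1 * (pos t.c - pos t.a) 0 = 0 := by ring
    linarith

/-- the barycentric coordinates -/
noncomputable def wt (pos : ℕ → E2) (t : Tri) (x : E2) (v : ℕ) : ℝ :=
  if v = t.a then dA pos t x / dD pos t else if v = t.b then dB pos t x / dD pos t
  else if v = t.c then dC pos t x / dD pos t else 0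

theorem wt_a : wt pos t x t.a = dA pos t x / dD pos t := by simp [wt]

theorem wt_b (h : 0 < dD pos t) : wt pos t x t.b = dB pos t x / dD pos t := by
  have := (nondeg h).1
  simp [wt, this.symm]

theorem wt_c (h : 0 < dD pos t) : wt pos t x t.c = dC pos t x / dD pos t := by
  have h1 := (nondeg h).2.1
  have h2 := (nondeg h).2.2
  simp [wt, h1.symm, h2.symm]

theorem isWt_wt (h : 0 < dD pos t) (ha : 0 ≤ dA pos t x) (hb : 0 ≤ dB pos t x)
    (hc : 0 ≤ dC pos t x) : IsWt pos t x (wt pos t x) := by
  refine ⟨⟨?_, ?_, ?_⟩, ?_⟩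
  · intro v
    unfold wt
    split_ifs
    · positivity
    · positivity
    · positivity
    · exact le_rfl
  · intro v hv
    simp only [Tri.vs, List.mem_cons, List.not_mem_nil, or_false, not_or] at hv
    simp [wt, hv.1, hv.2.1, hv.2.2]
  · rw [wt_a, wt_b h, wt_c h, ← add_div, ← add_div, sumD, div_self h.ne']
  · rw [comb, wt_a, wt_b h, wt_c h]
    have h1 := rep pos t x
    have h2 : (dD pos t)⁻¹ • (dA pos t x • pos t.a + dB pos t x • pos t.b +
        dC pos t x • pos t.c) = x := by
      rw [h1, smul_smul, inv_mul_cancel₀ h.ne', one_smul]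
    rw [smul_add, smul_add, smul_smul, smul_smul, smul_smul] at h2
    rw [div_eq_inv_mul, div_eq_inv_mul, div_eq_inv_mul]
    exact h2

theorem mem_iff (h : 0 < dD pos t) : (∃ w, IsWt pos t x w) ↔
    0 ≤ dA pos t x ∧ 0 ≤ dB pos t x ∧ 0 ≤ dC pos t x := by
  constructor
  · rintro ⟨w, hw⟩
    rw [dA_wt hw, dB_wt hw, dC_wt hw]
    exact ⟨mul_nonneg h.le (hw.1.nonneg _), mul_nonneg h.le (hw.1.nonneg _),
      mul_nonneg h.le (hw.1.nonneg _)⟩
  · rintro ⟨h1, h2, h3⟩
    exact ⟨_, isWt_wt h h1 h2 h3⟩

theorem cont_det2 (Q P : E2) : Continuous fun x : E2 => det2 Q (x - P) := by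
  unfold det2
  fun_prop

theorem cont_dA : Continuous (dA pos t) := cont_det2 _ _
theorem cont_dB : Continuous (dB pos t) := cont_det2 _ _
theorem cont_dC : Continuous (dC pos t) := cont_det2 _ _

theorem dA_move (s : ℝ) : dA pos t (x + s • (pos t.b - pos t.a)) = dA pos t x - s * dD pos t := by
  simp only [dA, dD, det2, PiLp.sub_apply, PiLp.add_apply, PiLp.smul_apply, smul_eq_mul]
  ring

theorem dB_move (s : ℝ) : dB pos t (x + s • (pos t.c - pos t.b)) = dB pos t x - s * dD pos t := by
  simp only [dB, dD, det2, PiLp.sub_apply, PiLp.add_apply, PiLp.smul_apply, smul_eq_mul]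
  ring

theorem dC_move (s : ℝ) : dC pos t (x + s • (pos t.a - pos t.c)) = dC pos t x - s * dD pos t := by
  simp only [dC, dD, det2, PiLp.sub_apply, PiLp.add_apply, PiLp.smul_apply, smul_eq_mul]
  ring

/-- moving a little from an interior point -/
theorem exists_move {K : Set E2} (hx : x ∈ interior K) (d : E2) :
    ∃ s : ℝ, 0 < s ∧ x + s • d ∈ K := by
  have h1 : Filter.Tendsto (fun s : ℝ => x + s • d) (𝓝[>] 0) (𝓝 x) := by
    have h2 : Continuous fun s : ℝ => x + s • d := by fun_prop
    have h3 := h2.tendsto 0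
    simp only [zero_smul, add_zero] at h3
    exact h3.mono_left nhdsWithin_le_nhds
  have h4 := h1 (mem_interior_iff_mem_nhds.1 hx)
  have h5 : ∀ᶠ s : ℝ in 𝓝[>] 0, 0 < s := self_mem_nhdsWithin
  obtain ⟨s, hs1, hs2⟩ := (h5.and h4).exists
  exact ⟨s, hs1, hs2⟩

theorem norm_comb_lt (hw : IsW t w) {r : ℝ} (hr : ∀ v ∈ t.vs, ‖pos v‖ < r) :
    ‖comb pos t w‖ < r := by
  have ha := hr t.a (by simp [Tri.vs])
  have hb := hr t.b (by simp [Tri.vs])
  have hc := hr t.c (by simp [Tri.vs])
  have h0 := hw.nonneg t.a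
  have h1 := hw.nonneg t.b
  have h2 := hw.nonneg t.c
  have hs := hw.sum
  have h3 : ‖comb pos t w‖ ≤ w t.a * ‖pos t.a‖ + w t.b * ‖pos t.b‖ + w t.c * ‖pos t.c‖ := by
    unfold comb
    refine (norm_add₃_le).trans ?_
    rw [norm_smul, norm_smul, norm_smul, Real.norm_eq_abs, Real.norm_eq_abs, Real.norm_eq_abs,
      abs_of_nonneg h0, abs_of_nonneg h1, abs_of_nonneg h2]
  refine lt_of_le_of_lt h3 ?_
  by_contra hcon
  push Not at hcon
  have e1 : 0 ≤ w t.a * (r - ‖pos t.a‖) := mul_nonneg h0 (by linarith)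
  have e2 : 0 ≤ w t.b * (r - ‖pos t.b‖) := mul_nonneg h1 (by linarith)
  have e3 : 0 ≤ w t.c * (r - ‖pos t.c‖) := mul_nonneg h2 (by linarith)
  have e4 : w t.a * (r - ‖pos t.a‖) + w t.b * (r - ‖pos t.b‖) + w t.c * (r - ‖pos t.c‖) ≤ 0 := by
    have : w t.a * r + w t.b * r + w t.c * r = r := by rw [← add_mul, ← add_mul, hs, one_mul]
    nlinarith
  have z1 : w t.a * (r - ‖pos t.a‖) = 0 := by linarith
  have z2 : w t.b * (r - ‖pos t.b‖) = 0 := by linarith
  have z3 : w t.c * (r - ‖pos t.c‖) = 0 := by linarith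
  have y1 : w t.a = 0 := by
    rcases mul_eq_zero.1 z1 with h | h
    · exact h
    · linarith
  have y2 : w t.b = 0 := by
    rcases mul_eq_zero.1 z2 with h | h
    · exact h
    · linarith
  have y3 : w t.c = 0 := by
    rcases mul_eq_zero.1 z3 with h | h
    · exact h
    · linarith
  linarith

variable {F : List Tri} {bd : List (ℕ × ℕ)}

/-- positive weights at a point of the closed exterior -/
theorem out_eq (hcx : PlaneCx F bd pos) (ht : t ∈ F) (hw : IsWt pos t x w) {e : ℕ × ℕ}
    (he : e ∈ bd) (hd : det2 (pos e.2 - pos e.1) (x - pos e.1) ≤ 0) :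
    ∀ v, 0 < w v → v = e.1 ∨ v = e.2 := by
  have h1 := hcx.bdside e he t ht
  have ha := h1 t.a (by simp [Tri.vs])
  have hb := h1 t.b (by simp [Tri.vs])
  have hc := h1 t.c (by simp [Tri.vs])
  rw [← hw.2, det_comb hw.1.sum] at hd
  have na := mul_nonneg (hw.1.nonneg t.a) ha.1
  have nb := mul_nonneg (hw.1.nonneg t.b) hb.1
  have nc := mul_nonneg (hw.1.nonneg t.c) hc.1
  intro v hv
  have hvs : v ∈ t.vs := by
    by_contra hcon
    exact hv.ne' (hw.1.supp v hcon)
  simp only [Tri.vs, List.mem_cons, List.not_mem_nil, or_false] at hvs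
  rcases hvs with rfl | rfl | rfl
  · refine ha.2 ?_
    have : w t.a * det2 (pos e.2 - pos e.1) (pos t.a - pos e.1) = 0 := by linarith
    rcases mul_eq_zero.1 this with h | h
    · exact absurd h hv.ne'
    · exact h
  · refine hb.2 ?_
    have : w t.b * det2 (pos e.2 - pos e.1) (pos t.b - pos e.1) = 0 := by linarith
    rcases mul_eq_zero.1 this with h | h
    · exact absurd h hv.ne'
    · exact h
  · refine hc.2 ?_
    have : w t.c * det2 (pos e.2 - pos e.1) (pos t.c - pos e.1) = 0 := by linarith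
    rcases mul_eq_zero.1 this with h | h
    · exact absurd h hv.ne'
    · exact h

theorem edge_ne (hcx : PlaneCx F bd pos) {e : ℕ × ℕ} (he : e ∈ bd) :
    ∃ z : E2, 0 < det2 (pos e.2 - pos e.1) (z - pos e.1) := by
  obtain ⟨t, ht, hes⟩ := hcx.bdmem e he
  have hD := hcx.orient t ht
  simp only [Tri.es, List.mem_cons, List.not_mem_nil, or_false] at hes
  rcases hes with rfl | rfl | rfl
  · exact ⟨pos t.c, hD⟩
  · refine ⟨pos t.a, ?_⟩
    have : det2 (pos t.c - pos t.b) (pos t.a - pos t.b) =
        det2 (pos t.b - pos t.a) (pos t.c - pos t.a) := by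
      simp only [det2, PiLp.sub_apply]; ring
    simpa only [this] using hD
  · refine ⟨pos t.b, ?_⟩
    have : det2 (pos t.a - pos t.c) (pos t.b - pos t.c) =
        det2 (pos t.b - pos t.a) (pos t.c - pos t.a) := by
      simp only [det2, PiLp.sub_apply]; ring
    simpa only [this] using hD

end PieceAux

open PieceAux

/-- `uniq`: no triangle is listed twice with rotated vertices (this is needed: with
`F = [⟨0, 1, 2⟩, ⟨1, 2, 0⟩]` the uniqueness of the piece at an interior point fails). -/
theorem pieceFacts (h1 : CoverThm) (h2 : UniqThm) (F : List Tri) (bd : List (ℕ × ℕ))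
    (pos : ℕ → E2) (hcx : PlaneCx F bd pos)
    (huniq : ∀ t ∈ F, ∀ t' ∈ F, (∀ v ∈ t.vs, v ∈ t'.vs) → t = t') : PieceFacts F bd pos := by
  have hD : ∀ t ∈ F, 0 < dD pos t := fun t ht => hcx.orient t ht
  have hpt : ∀ t : {t : Tri // t ∈ F}, Piece F bd pos (some t) =
      {x | 0 ≤ dA pos t.1 x ∧ 0 ≤ dB pos t.1 x ∧ 0 ≤ dC pos t.1 x} := by
    intro t
    ext x
    exact mem_iff (hD t.1 t.2)
  have hopen : ∀ t : {t : Tri // t ∈ F},
      {x | 0 < dA pos t.1 x ∧ 0 < dB pos t.1 x ∧ 0 < dC pos t.1 x} ⊆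
        interior (Piece F bd pos (some t)) := by
    intro t
    refine interior_maximal ?_ ?_
    · rw [hpt t]
      rintro x ⟨ha, hb, hc⟩
      exact ⟨ha.le, hb.le, hc.le⟩
    · exact (isOpen_lt continuous_const cont_dA).inter
        ((isOpen_lt continuous_const cont_dB).inter (isOpen_lt continuous_const cont_dC))
  have hconv : ∀ t, Convex ℝ (Piece F bd pos (some t)) := by
    intro t x hx y hy a b ha hb hab
    rw [hpt t] at hx hy ⊢
    have e : ∀ (Q P : E2), det2 Q (a • x + b • y - P) =
        a * det2 Q (x - P) + b * det2 Q (y - P) := by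
      intro Q P
      have hb' : b = 1 - a := by linarith
      subst hb'
      simp only [det2, PiLp.sub_apply, PiLp.add_apply, PiLp.smul_apply, smul_eq_mul]
      ring
    refine ⟨?_, ?_, ?_⟩
    · rw [dA, e]
      exact add_nonneg (mul_nonneg ha hx.1) (mul_nonneg hb hy.1)
    · rw [dB, e]
      exact add_nonneg (mul_nonneg ha hx.2.1) (mul_nonneg hb hy.2.1)
    · rw [dC, e]
      exact add_nonneg (mul_nonneg ha hx.2.2) (mul_nonneg hb hy.2.2)
  refine ⟨?_, ?_, ?_, hconv, ?_, ?_, ?_, ?_, ?_, ?_, fun t ht => nondeg (hD t ht)⟩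
  · -- closed
    intro i
    match i with
    | none =>
      have : Piece F bd pos none = ⋃ e ∈ {e | e ∈ bd},
          {x | det2 (pos e.2 - pos e.1) (x - pos e.1) ≤ 0} := by
        ext x
        simp [Piece]
      rw [this]
      refine Set.Finite.isClosed_biUnion (List.finite_toSet bd) ?_
      intro e _
      exact isClosed_le (cont_det2 _ _) continuous_const
    | some t =>
      rw [hpt t]
      exact (isClosed_le continuous_const cont_dA).inter
        ((isClosed_le continuous_const cont_dB).inter (isClosed_le continuous_const cont_dC))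
  · -- cover
    intro x
    by_cases h : ∃ e ∈ bd, det2 (pos e.2 - pos e.1) (x - pos e.1) ≤ 0
    · exact ⟨none, h⟩
    · push Not at h
      obtain ⟨t, ht, w, hw⟩ := h1 F bd pos hcx x fun e he => (h e he).le
      exact ⟨some ⟨t, ht⟩, w, hw⟩
  · -- reg
    intro i
    match i with
    | none =>
      rintro x ⟨e, he, hx⟩
      obtain ⟨z, hz⟩ := edge_ne hcx he
      -- the points `x + s (pos e.1 - z)`, `s > 0`, are interior
      have hseq : Filter.Tendsto (fun s : ℝ => x + s • (pos e.1 - z)) (𝓝[>] 0) (𝓝 x) := by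
        have h2 : Continuous fun s : ℝ => x + s • (pos e.1 - z) := by fun_prop
        have h3 := h2.tendsto 0
        simp only [zero_smul, add_zero] at h3
        exact h3.mono_left nhdsWithin_le_nhds
      refine mem_closure_of_tendsto hseq ?_
      have h5 : ∀ᶠ s : ℝ in 𝓝[>] 0, 0 < s := self_mem_nhdsWithin
      filter_upwards [h5] with s hs
      have hsub : {y | det2 (pos e.2 - pos e.1) (y - pos e.1) < 0} ⊆
          interior (Piece F bd pos none) := by
        refine interior_maximal ?_ (isOpen_lt (cont_det2 _ _) continuous_const)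
        intro y hy
        exact ⟨e, he, le_of_lt hy⟩
      refine hsub ?_
      show det2 (pos e.2 - pos e.1) (x + s • (pos e.1 - z) - pos e.1) < 0
      have : det2 (pos e.2 - pos e.1) (x + s • (pos e.1 - z) - pos e.1) =
          det2 (pos e.2 - pos e.1) (x - pos e.1) - s * det2 (pos e.2 - pos e.1) (z - pos e.1) := by
        simp only [det2, PiLp.sub_apply, PiLp.add_apply, PiLp.smul_apply, smul_eq_mul]
        ring
      rw [this]
      have := mul_pos hs hz
      linarith
    | some t =>
      have hDt := hD t.1 t.2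
      -- the centroid
      have hne : (interior (Piece F bd pos (some t))).Nonempty := by
        refine ⟨(1 / 3 : ℝ) • pos t.1.a + (1 / 3 : ℝ) • pos t.1.b + (1 / 3 : ℝ) • pos t.1.c,
          hopen t ?_⟩
        refine ⟨?_, ?_, ?_⟩
        · have : dA pos t.1 ((1 / 3 : ℝ) • pos t.1.a + (1 / 3 : ℝ) • pos t.1.b +
              (1 / 3 : ℝ) • pos t.1.c) = dD pos t.1 / 3 := by
            simp only [dA, dD, det2, PiLp.sub_apply, PiLp.add_apply, PiLp.smul_apply, smul_eq_mul]
            ring
          rw [this]; positivity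
        · have : dB pos t.1 ((1 / 3 : ℝ) • pos t.1.a + (1 / 3 : ℝ) • pos t.1.b +
              (1 / 3 : ℝ) • pos t.1.c) = dD pos t.1 / 3 := by
            simp only [dB, dD, det2, PiLp.sub_apply, PiLp.add_apply, PiLp.smul_apply, smul_eq_mul]
            ring
          rw [this]; positivity
        · have : dC pos t.1 ((1 / 3 : ℝ) • pos t.1.a + (1 / 3 : ℝ) • pos t.1.b +
              (1 / 3 : ℝ) • pos t.1.c) = dD pos t.1 / 3 := by
            simp only [dC, dD, det2, PiLp.sub_apply, PiLp.add_apply, PiLp.smul_apply, smul_eq_mul]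
            ring
          rw [this]; positivity
      rw [(hconv t).closure_interior_eq_closure_of_nonempty_interior hne]
      exact subset_closure
  · -- int1
    intro t x w hw hpos
    have hDt := hD t.1 t.2
    have hwa := hpos t.1.a (by simp [Tri.vs])
    have hwb := hpos t.1.b (by simp [Tri.vs])
    have hwc := hpos t.1.c (by simp [Tri.vs])
    refine ⟨hopen t ⟨?_, ?_, ?_⟩, ?_⟩
    · rw [dA_wt hw]; positivity
    · rw [dB_wt hw]; positivity
    · rw [dC_wt hw]; positivity
    · intro i hi
      match i, hi with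
      | none, hi =>
        exfalso
        obtain ⟨e, he, hx⟩ := hi
        have h3 := out_eq hcx t.2 hw he hx
        obtain ⟨n1, n2, n3⟩ := nondeg hDt
        rcases h3 _ hwa with e1 | e1 <;> rcases h3 _ hwb with e2 | e2 <;>
          rcases h3 _ hwc with e3 | e3
        · exact n1 (e1.trans e2.symm)
        · exact n1 (e1.trans e2.symm)
        · exact n2 (e1.trans e3.symm)
        · exact n3 (e2.trans e3.symm)
        · exact n3 (e2.trans e3.symm)
        · exact n2 (e1.trans e3.symm)
        · exact n1 (e1.trans e2.symm)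
        · exact n1 (e1.trans e2.symm)
      | some t', hi =>
        obtain ⟨w', hw'⟩ := hi
        have hww := h2 F bd pos hcx t.1 t.2 t'.1 t'.2 x w w' hw hw'
        subst hww
        have h4 : t.1 = t'.1 := by
          refine huniq t.1 t.2 t'.1 t'.2 ?_
          intro v hv
          by_contra hcon
          exact (hpos v hv).ne' (hw'.1.supp v hcon)
        rw [Subtype.ext h4]
  · -- int2
    intro t x hx
    have hDt := hD t.1 t.2
    have hx0 : x ∈ Piece F bd pos (some t) := interior_subset hx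
    rw [hpt t] at hx0
    obtain ⟨ha, hb, hc⟩ := hx0
    have ha' : 0 < dA pos t.1 x := by
      obtain ⟨s, hs, hm⟩ := exists_move hx (pos t.1.b - pos t.1.a)
      rw [hpt t] at hm
      have := hm.1
      rw [dA_move] at this
      have := mul_pos hs hDt
      linarith
    have hb' : 0 < dB pos t.1 x := by
      obtain ⟨s, hs, hm⟩ := exists_move hx (pos t.1.c - pos t.1.b)
      rw [hpt t] at hm
      have := hm.2.1
      rw [dB_move] at this
      have := mul_pos hs hDt
      linarith
    have hc' : 0 < dC pos t.1 x := by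
      obtain ⟨s, hs, hm⟩ := exists_move hx (pos t.1.a - pos t.1.c)
      rw [hpt t] at hm
      have := hm.2.2
      rw [dC_move] at this
      have := mul_pos hs hDt
      linarith
    refine ⟨wt pos t.1 x, isWt_wt hDt ha hb hc, ?_⟩
    intro v hv
    simp only [Tri.vs, List.mem_cons, List.not_mem_nil, or_false] at hv
    rcases hv with rfl | rfl | rfl
    · rw [wt_a]; positivity
    · rw [wt_b hDt]; positivity
    · rw [wt_c hDt]; positivity
  · -- carrier
    intro t ht x w v hw hv i hi
    match i, hi with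
    | none, hi =>
      obtain ⟨e, he, hx⟩ := hi
      exact ⟨e, he, out_eq hcx ht hw he hx v hv⟩
    | some t', hi =>
      obtain ⟨w', hw'⟩ := hi
      have hww := h2 F bd pos hcx t ht t'.1 t'.2 x w w' hw hw'
      subst hww
      show v ∈ t'.1.vs
      by_contra hcon
      exact hv.ne' (hw'.1.supp v hcon)
  · -- carrierO
    intro t ht x w hw hx
    obtain ⟨e, he, hx⟩ := hx
    exact ⟨e, he, out_eq hcx ht hw he hx⟩
  · -- far
    intro x hx i hi
    match i, hi with
    | none, _ => rfl
    | some t', hi =>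
      exfalso
      obtain ⟨w', hw'⟩ := hi
      have h3 := norm_comb_lt hw'.1 (pos := pos) (r := 2 / 5) (hcx.small t'.1 t'.2)
      rw [hw'.2] at h3
      linarith
  · -- vert
    intro t ht v hv
    obtain ⟨n1, n2, n3⟩ := nondeg (hD t ht)
    refine ⟨⟨?_, ?_, ?_⟩, ?_⟩
    · intro u
      split_ifs <;> norm_num
    · intro u hu
      rw [if_neg]
      rintro rfl
      exact hu hv
    · simp only [Tri.vs, List.mem_cons, List.not_mem_nil, or_false] at hv
      rcases hv with rfl | rfl | rfl
      · simp [n1.symm, n2.symm]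
      · simp [n1, n3.symm]
      · simp [n2, n3]
    · simp only [Tri.vs, List.mem_cons, List.not_mem_nil, or_false] at hv
      rcases hv with rfl | rfl | rfl
      · simp [comb, n1.symm, n2.symm]
      · simp [comb, n1, n3.symm]
      · simp [comb, n2, n3]

/-- [48319b X4] -/
theorem pieceThm (h1 : CoverThm) (h2 : UniqThm) : PieceThm :=
  fun F bd pos h => pieceFacts h1 h2 F bd pos h h.uniq

end Pool.Agent.Work.MP_48319b_gt
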