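import Pool.Agent.Work.MP_48319b_gt.Chk

/-!
# MP_48319b_gt : the records agree with the tables
-/

namespace Pool.Agent.Work.MP_48319b_gt.Dat.LS

set_option maxRecDepth 100000

/-- `lo ≤ v + 4000000 ≤ hi` -/
def inb (lo hi : ℕ) (v : ℤ) : Bool :=
  leb (Int.ofNat lo) (v + 4000000) && leb (v + 4000000) (Int.ofNat hi)

/-- the point is in the box of the record -/
def boxp (r : Rec) (p : P3) : Bool :=
  inb r.x0 r.x1 p.x && inb r.y0 r.y1 p.y && inb r.z0 r.z1 p.z

/-- the inlined data of a record are correct -/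
def recOK (r : Rec) : Bool :=
  ((p3Eq r.a (yI r.t.a) && p3Eq r.b (yI r.t.b) && p3Eq r.c (yI r.t.c)) &&
  (p3Eq r.a' (y0I r.t.a) && p3Eq r.b' (y0I r.t.b) && p3Eq r.c' (y0I r.t.c))) &&
  ((eqb r.ga (gI r.t.a) && eqb r.gb (gI r.t.b) && eqb r.gc (gI r.t.c)) &&
  ((boxp r r.a && boxp r r.b && boxp r r.c) && (boxp r r.a' && boxp r r.b' && boxp r r.c')))

/-- sorted by `x0` -/
def sortedB : List Rec → Bool
  | [] => true
  | [_] => true
  | r :: s :: l => Nat.ble r.x0 s.x0 && sortedB (s :: l)

/-- the triangles of the records, in order -/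
def sameT : List Rec → List Tri → Bool
  | [], [] => true
  | r :: rs, t :: ts => triEq r.t t && sameT rs ts
  | _, _ => false

theorem recs_ok : recs.all recOK = true := by decide +kernel

theorem recs_sorted : sortedB recs = true := by decide +kernel

theorem recs_F : sameT recs F = true := by decide +kernel

end Pool.Agent.Work.MP_48319b_gt.Dat.LS
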