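import Pool.Agent.Work.MP_48319b_gt.Stmts

/-!
# MP_48319b_gt, item R: the complement of the round sphere
-/

open Metric Set Topology CategoryTheory unitInterval

namespace Pool.Agent.Work.MP_48319b_gt

namespace ItemR

section general

variable {V : Type} [NormedAddCommGroup V] [NormedSpace ℝ V] {X : Set V}

/-- objects of the fundamental groupoid -/
abbrev ob (a : X) : FundamentalGroupoid X := ⟨a⟩

/-- class of a path -/
def cl {a b : X} (γ : Path a b) : ob a ⟶ ob b := Path.Homotopic.Quotient.mk γ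

/-- the class `w` is represented by a path inside `T` -/
def In (T : Set V) {a b : X} (w : ob a ⟶ ob b) : Prop :=
  ∃ γ : Path a b, (∀ t, (γ t : V) ∈ T) ∧ w = cl γ

omit [NormedSpace ℝ V] in
theorem In.comp {T : Set V} {a b c : X} {w : ob a ⟶ ob b} {w' : ob b ⟶ ob c} (h : In T w)
    (h' : In T w') : In T (w ≫ w') := by
  obtain ⟨γ, hγ, rfl⟩ := h
  obtain ⟨γ', hγ', rfl⟩ := h'
  refine ⟨γ.trans γ', ?_, rfl⟩
  intro t
  have ht : (γ.trans γ') t ∈ range (γ.trans γ') := mem_range_self t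
  rw [Path.trans_range] at ht
  rcases ht with ⟨s, hs⟩ | ⟨s, hs⟩
  · rw [← hs]
    exact hγ s
  · rw [← hs]
    exact hγ' s

omit [NormedSpace ℝ V] in
theorem In.mono {T T' : Set V} (hT : T ⊆ T') {a b : X} {w : ob a ⟶ ob b} (h : In T w) :
    In T' w := by
  obtain ⟨γ, hγ, e⟩ := h
  exact ⟨γ, fun t => hT (hγ t), e⟩

/-- inclusion of a subset -/
def inc {T : Set V} (hTX : T ⊆ X) : C(T, X) :=
  ⟨fun x => ⟨x.1, hTX x.2⟩, by fun_prop⟩

theorem In.uniq {T : Set V} {x0 : V} (hT : StarConvex ℝ x0 T) (hTX : T ⊆ X) {a b : X}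
    {w w' : ob a ⟶ ob b} (h : In T w) (h' : In T w') : w = w' := by
  obtain ⟨γ, hγ, rfl⟩ := h
  obtain ⟨γ', hγ', rfl⟩ := h'
  have hne : T.Nonempty := ⟨_, hγ 0⟩
  have : ContractibleSpace T := hT.contractibleSpace hne
  have ha : (a : V) ∈ T := by
    have := hγ 0
    rwa [γ.source] at this
  have hb : (b : V) ∈ T := by
    have := hγ 1
    rwa [γ.target] at this
  let g : Path (⟨a.1, ha⟩ : T) ⟨b.1, hb⟩ :=
    { toFun := fun t => ⟨γ t, hγ t⟩
      continuous_toFun := by fun_prop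
      source' := by simp
      target' := by simp }
  let g' : Path (⟨a.1, ha⟩ : T) ⟨b.1, hb⟩ :=
    { toFun := fun t => ⟨γ' t, hγ' t⟩
      continuous_toFun := by fun_prop
      source' := by simp
      target' := by simp }
  have h1 : g.Homotopic g' := SimplyConnectedSpace.paths_homotopic g g'
  have h2 := h1.map (inc hTX)
  exact Quotient.sound h2

theorem In.ex {T : Set V} {x0 : V} (hT : StarConvex ℝ x0 T) (hTX : T ⊆ X) (a b : X)
    (ha : (a : V) ∈ T) (hb : (b : V) ∈ T) : ∃ w : ob a ⟶ ob b, In T w := by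
  have : ContractibleSpace T := hT.contractibleSpace ⟨_, ha⟩
  let g : Path (⟨a.1, ha⟩ : T) ⟨b.1, hb⟩ := PathConnectedSpace.somePath _ _
  refine ⟨cl (g.map (inc hTX).continuous), g.map (inc hTX).continuous, ?_, rfl⟩
  intro t
  exact (g t).2

omit [NormedSpace ℝ V] in
theorem gen (P : ∀ a b : X, (ob a ⟶ ob b) → Prop) (hid : ∀ a, P a a (𝟙 (ob a)))
    (hcomp : ∀ (a b c : X) (w : ob a ⟶ ob b) (w' : ob b ⟶ ob c), P a b w → P b c w' →
      P a c (w ≫ w'))
    {ι : Type} (U : ι → Set V) (hU : ∀ i, IsOpen (U i)) (hX : X ⊆ ⋃ i, U i)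
    (hs : ∀ (i : ι) (a b : X) (w : ob a ⟶ ob b), In (U i) w → P a b w) :
    ∀ (a b : X) (w : ob a ⟶ ob b), P a b w := by
  intro a b w
  obtain ⟨γ, rfl⟩ := Path.Homotopic.Quotient.mk_surjective w
  obtain ⟨t, h0, hm, ⟨n, hn⟩, ht⟩ := exists_monotone_Icc_subset_open_cover_unitInterval
    (c := fun i => (fun s : I => (γ s : V)) ⁻¹' U i)
    (fun i => (hU i).preimage (by fun_prop)) (by
      intro s _
      obtain ⟨i, hi⟩ := mem_iUnion.1 (hX (γ s).2)
      exact mem_iUnion.2 ⟨i, hi⟩)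
  have key : ∀ k, P _ _ (cl (γ.subpath (t 0) (t k))) := by
    intro k
    induction k with
    | zero =>
      rw [Path.subpath_self]
      exact hid _
    | succ k ih =>
      have e : cl (γ.subpath (t 0) (t (k + 1))) =
          cl (γ.subpath (t 0) (t k)) ≫ cl (γ.subpath (t k) (t (k + 1))) :=
        (Quotient.sound ⟨Path.Homotopy.subpathTransSubpath γ _ _ _⟩ :
          Path.Homotopic.Quotient.mk ((γ.subpath (t 0) (t k)).trans (γ.subpath (t k) (t (k + 1))))
            = Path.Homotopic.Quotient.mk (γ.subpath (t 0) (t (k + 1)))).symm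
      rw [e]
      obtain ⟨i, hi⟩ := ht k
      refine hcomp _ _ _ _ _ ih (hs i _ _ _ ⟨_, ?_, rfl⟩)
      intro s
      have hs' : (γ.subpath (t k) (t (k + 1))) s ∈ range (γ.subpath (t k) (t (k + 1))) :=
        mem_range_self s
      rw [Path.range_subpath_of_le γ _ _ (hm (Nat.le_succ k))] at hs'
      obtain ⟨r, hr, e'⟩ := hs'
      rw [← e']
      exact hi hr
  have h1 := key n
  rw [h0, hn n le_rfl, Path.subpath_zero_one] at h1
  have hcast : ∀ (a' b' : X) (ha : a' = a) (hb : b' = b), P a' b' (cl (γ.cast ha hb)) →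
      P a b (cl γ) := by
    rintro a' b' rfl rfl h
    simpa using h
  exact hcast _ _ _ _ h1

end general

/-! ### The complement of the round sphere -/

/-- the complement of the round sphere -/
abbrev Y : Set E4 := roundSphereᶜ

/-- the point with projection `c` and height `t` -/
noncomputable def pt (c : E3) (t : ℝ) : E4 := !₂[c 0, c 1, c 2, t]

@[simp] theorem proj_pt (c : E3) (t : ℝ) : proj (pt c t) = c := by
  ext i
  fin_cases i <;> rfl

@[simp] theorem pt_three (c : E3) (t : ℝ) : (pt c t) 3 = t := rfl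

theorem pt_proj (x : E4) : pt (proj x) (x 3) = x := by
  ext i
  fin_cases i <;> rfl

theorem norm_sq_proj (x : E4) : ‖x‖ ^ 2 = ‖proj x‖ ^ 2 + (x 3) ^ 2 := by
  rw [EuclideanSpace.norm_sq_eq, EuclideanSpace.norm_sq_eq, Fin.sum_univ_four,
    Fin.sum_univ_three]
  simp [proj]

theorem norm_proj {x : E4} (h : x 3 = 0) : ‖x‖ = ‖proj x‖ := by
  have h1 := norm_sq_proj x
  rw [h, zero_pow two_ne_zero, add_zero] at h1
  exact (sq_eq_sq₀ (norm_nonneg _) (norm_nonneg _)).1 h1

theorem mem_Y {x : E4} : x ∈ Y ↔ ¬ (x 3 = 0 ∧ ‖proj x‖ = 1) := by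
  show ¬ (x 3 = 0 ∧ ‖x‖ = 1) ↔ _
  constructor
  · rintro h ⟨h1, h2⟩
    exact h ⟨h1, (norm_proj h1).trans h2⟩
  · rintro h ⟨h1, h2⟩
    exact h ⟨h1, (norm_proj h1).symm.trans h2⟩

theorem proj_comb (a b : ℝ) (x y : E4) : proj (a • x + b • y) = a • proj x + b • proj y := by
  ext i
  fin_cases i <;> simp [proj]

theorem comb_three (a b : ℝ) (x y : E4) : (a • x + b • y) 3 = a * x 3 + b * y 3 := by
  simp

theorem continuous_proj : Continuous proj := by
  unfold proj
  fun_prop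

/-- the complement of the slit outside the sphere -/
def A : Set E4 := {x | x 3 ≠ 0 ∨ ‖proj x‖ < 1}

/-- the points with projection in `K` -/
def S (K : Set E3) : Set E4 := {x | proj x ∈ K}

/-- the points with projection in `K` and positive height -/
def SU (K : Set E3) : Set E4 := {x | proj x ∈ K ∧ 0 < x 3}

/-- the points with projection in `K` and negative height -/
def SD (K : Set E3) : Set E4 := {x | proj x ∈ K ∧ x 3 < 0}

theorem A_sub : A ⊆ Y := by
  intro x hx
  rw [mem_Y]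
  rintro ⟨h1, h2⟩
  rcases hx with h | h
  · exact h h1
  · rw [h2] at h
    exact lt_irrefl _ h

theorem A_open : IsOpen A := by
  have h3 : Continuous fun x : E4 => x 3 := by fun_prop
  have h : A = {x : E4 | x 3 ≠ 0} ∪ {x : E4 | ‖proj x‖ < 1} := rfl
  rw [h]
  exact (isOpen_ne_fun h3 continuous_const).union
    (isOpen_lt continuous_proj.norm continuous_const)

theorem A_star : StarConvex ℝ (0 : E4) A := by
  intro x hx a b ha hb hab
  rw [smul_zero, zero_add]
  have hp : proj (b • x) = b • proj x := by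
    have := proj_comb b 0 x x
    simpa using this
  have hb1 : b ≤ 1 := by linarith
  rcases eq_or_lt_of_le hb with h0 | h0
  · right
    rw [hp, ← h0, zero_smul, norm_zero]
    exact one_pos
  · rcases hx with h | h
    · left
      show (b • x) 3 ≠ 0
      have : (b • x) 3 = b * x 3 := by simp
      rw [this]
      exact mul_ne_zero h0.ne' h
    · right
      rw [hp, norm_smul, Real.norm_of_nonneg hb]
      calc b * ‖proj x‖ ≤ 1 * ‖proj x‖ := mul_le_mul_of_nonneg_right hb1 (norm_nonneg _)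
        _ = ‖proj x‖ := one_mul _
        _ < 1 := h

theorem zero_mem_A : (0 : E4) ∈ A := by
  right
  have : proj (0 : E4) = 0 := by
    ext i
    fin_cases i <;> simp [proj]
  rw [this, norm_zero]
  exact one_pos

theorem S_sub {K : Set E3} (hK : ∀ y ∈ K, 1 < ‖y‖) : S K ⊆ Y := by
  intro x hx
  rw [mem_Y]
  rintro ⟨-, h2⟩
  have := hK _ hx
  rw [h2] at this
  exact lt_irrefl _ this

theorem S_conv {K : Set E3} (hK : Convex ℝ K) : Convex ℝ (S K) := by
  intro x hx y hy a b ha hb hab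
  show proj (a • x + b • y) ∈ K
  rw [proj_comb]
  exact hK hx hy ha hb hab

theorem SU_conv {K : Set E3} (hK : Convex ℝ K) : Convex ℝ (SU K) := by
  intro x hx y hy a b ha hb hab
  refine ⟨S_conv hK hx.1 hy.1 ha hb hab, ?_⟩
  rw [comb_three]
  rcases eq_or_lt_of_le ha with h0 | h0
  · have hb1 : b = 1 := by linarith
    rw [← h0, hb1, zero_mul, one_mul, zero_add]
    exact hy.2
  · exact add_pos_of_pos_of_nonneg (mul_pos h0 hx.2) (mul_nonneg hb hy.2.le)

theorem SD_conv {K : Set E3} (hK : Convex ℝ K) : Convex ℝ (SD K) := by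
  intro x hx y hy a b ha hb hab
  refine ⟨S_conv hK hx.1 hy.1 ha hb hab, ?_⟩
  rw [comb_three]
  have h1 : a * x 3 ≤ 0 := mul_nonpos_of_nonneg_of_nonpos ha hx.2.le
  have h2 : b * y 3 ≤ 0 := mul_nonpos_of_nonneg_of_nonpos hb hy.2.le
  rcases eq_or_lt_of_le ha with h0 | h0
  · have hb1 : b = 1 := by linarith
    rw [← h0, hb1, zero_mul, one_mul, zero_add]
    exact hy.2
  · have := mul_neg_of_pos_of_neg h0 hx.2
    linarith

theorem SU_sub_A (K : Set E3) : SU K ⊆ A := fun _ hx => Or.inl hx.2.ne'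

theorem SD_sub_A (K : Set E3) : SD K ⊆ A := fun _ hx => Or.inl hx.2.ne

theorem SU_sub_S (K : Set E3) : SU K ⊆ S K := fun _ hx => hx.1

theorem SD_sub_S (K : Set E3) : SD K ⊆ S K := fun _ hx => hx.1

/-- base point -/
noncomputable def o : Y := ⟨0, A_sub zero_mem_A⟩

/-- the point over `c` at height one -/
noncomputable def up (c : E3) : Y := ⟨pt c 1, A_sub (Or.inl (by simp))⟩

/-- the point over `c` at height minus one -/
noncomputable def dn (c : E3) : Y := ⟨pt c (-1), A_sub (Or.inl (by simp))⟩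

theorem up_A (c : E3) : (up c : E4) ∈ A := Or.inl (by simp [up])

theorem dn_A (c : E3) : (dn c : E4) ∈ A := Or.inl (by simp [dn])

/-- class inside `A` -/
noncomputable def al (a b : Y) (ha : (a : E4) ∈ A) (hb : (b : E4) ∈ A) : ob a ⟶ ob b :=
  (In.ex A_star A_sub a b ha hb).choose

theorem al_in (a b : Y) (ha : (a : E4) ∈ A) (hb : (b : E4) ∈ A) : In A (al a b ha hb) :=
  (In.ex A_star A_sub a b ha hb).choose_spec

theorem al_uniq {a b : Y} (ha : (a : E4) ∈ A) (hb : (b : E4) ∈ A) {w : ob a ⟶ ob b}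
    (h : In A w) : w = al a b ha hb :=
  In.uniq A_star A_sub h (al_in a b ha hb)

theorem al_comp (a b c : Y) (ha : (a : E4) ∈ A) (hb : (b : E4) ∈ A) (hc : (c : E4) ∈ A) :
    al a b ha hb ≫ al b c hb hc = al a c ha hc :=
  al_uniq ha hc ((al_in a b ha hb).comp (al_in b c hb hc))

theorem s_uniq {K : Set E3} (hK : Convex ℝ K) (hK1 : ∀ y ∈ K, 1 < ‖y‖) {a b : Y}
    {w w' : ob a ⟶ ob b} (h : In (S K) w) (h' : In (S K) w') : w = w' := by
  obtain ⟨γ, hγ, e⟩ := h
  exact In.uniq ((S_conv hK).starConvex (hγ 0)) (S_sub hK1) ⟨γ, hγ, e⟩ h'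

theorem sing1 {c : E3} (hc : 1 < ‖c‖) : ∀ y ∈ ({c} : Set E3), 1 < ‖y‖ := by
  intro y hy
  rw [mem_singleton_iff.1 hy]
  exact hc

/-- the vertical class from the top to the bottom -/
noncomputable def vt (c : E3) (hc : 1 < ‖c‖) : ob (up c) ⟶ ob (dn c) :=
  (In.ex ((S_conv (convex_singleton c)).starConvex (x := (up c : E4)) (by simp [S, up]))
    (S_sub (sing1 hc)) (up c) (dn c) (by simp [S, up]) (by simp [S, dn])).choose

theorem vt_in (c : E3) (hc : 1 < ‖c‖) : In (S {c}) (vt c hc) :=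
  (In.ex ((S_conv (convex_singleton c)).starConvex (x := (up c : E4)) (by simp [S, up]))
    (S_sub (sing1 hc)) (up c) (dn c) (by simp [S, up]) (by simp [S, dn])).choose_spec

theorem oA : ((o : Y) : E4) ∈ A := zero_mem_A

/-- the loop around the sphere over `c` -/
noncomputable def hh (c : E3) (hc : 1 < ‖c‖) : ob o ⟶ ob o :=
  al o (up c) oA (up_A c) ≫ vt c hc ≫ al (dn c) o (dn_A c) oA

theorem S_mono {K K' : Set E3} (h : K ⊆ K') : S K ⊆ S K' := fun _ hx => h hx

theorem hh_eq {K : Set E3} (hK : Convex ℝ K) (hK1 : ∀ y ∈ K, 1 < ‖y‖) {c c' : E3} (hc : c ∈ K)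
    (hc' : c' ∈ K) : hh c (hK1 c hc) = hh c' (hK1 c' hc') := by
  obtain ⟨w1, h1⟩ := In.ex (X := Y) ((SU_conv hK).starConvex (x := (up c : E4))
    ⟨by simpa [up] using hc, by simp [up]⟩) ((SU_sub_A K).trans A_sub) (up c) (up c')
    ⟨by simpa [up] using hc, by simp [up]⟩ ⟨by simpa [up] using hc', by simp [up]⟩
  obtain ⟨w2, h2⟩ := In.ex (X := Y) ((SD_conv hK).starConvex (x := (dn c : E4))
    ⟨by simpa [dn] using hc, by simp [dn]⟩) ((SD_sub_A K).trans A_sub) (dn c') (dn c)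
    ⟨by simpa [dn] using hc', by simp [dn]⟩ ⟨by simpa [dn] using hc, by simp [dn]⟩
  have e1 := al_uniq (up_A c) (up_A c') (h1.mono (SU_sub_A K))
  have e2 := al_uniq (dn_A c') (dn_A c) (h2.mono (SD_sub_A K))
  have e3 : vt c (hK1 c hc) = w1 ≫ vt c' (hK1 c' hc') ≫ w2 := by
    refine s_uniq hK hK1 ((vt_in c _).mono (S_mono (singleton_subset_iff.2 hc))) ?_
    exact (h1.mono (SU_sub_S K)).comp (((vt_in c' _).mono (S_mono
      (singleton_subset_iff.2 hc'))).comp (h2.mono (SD_sub_S K)))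
  unfold hh
  rw [e3, e1, e2, Category.assoc, Category.assoc, al_comp, ← Category.assoc, al_comp]

/-- a unit vector orthogonal to two vectors of three-space -/
theorem exists_orth (a b : E3) : ∃ w : E3, ‖w‖ = 1 ∧ inner ℝ a w = 0 ∧ inner ℝ b w = 0 := by
  set T : Submodule ℝ E3 := Submodule.span ℝ {a, b} with hT
  have h1 : Module.finrank ℝ T ≤ 2 := by
    have h := finrank_span_finset_le_card (R := ℝ) ({a, b} : Finset E3)
    have h2 : (({a, b} : Finset E3) : Set E3) = {a, b} := by simp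
    rw [Set.finrank, h2] at h
    exact h.trans Finset.card_le_two
  have h2 := T.finrank_add_finrank_orthogonal
  rw [finrank_euclideanSpace_fin] at h2
  have h3 : Tᗮ ≠ ⊥ := by
    intro h
    rw [h, finrank_bot] at h2
    omega
  obtain ⟨v, hv, hv0⟩ := Submodule.exists_mem_ne_zero_of_ne_bot h3
  have hn : ‖v‖ ≠ 0 := norm_ne_zero_iff.2 hv0
  refine ⟨‖v‖⁻¹ • v, ?_, ?_, ?_⟩
  · rw [norm_smul, norm_inv, norm_norm, inv_mul_cancel₀ hn]
  · rw [inner_smul_right, (Submodule.mem_orthogonal T v).1 hv a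
      (Submodule.subset_span (by simp)), mul_zero]
  · rw [inner_smul_right, (Submodule.mem_orthogonal T v).1 hv b
      (Submodule.subset_span (by simp)), mul_zero]

theorem norm_add_orth {x w : E3} (hw : ‖w‖ = 1) (hx : inner ℝ x w = 0) (r : ℝ) :
    ‖x + r • w‖ ^ 2 = ‖x‖ ^ 2 + r ^ 2 := by
  rw [norm_add_sq_real, inner_smul_right, hx, norm_smul, hw, Real.norm_eq_abs, mul_one, sq_abs]
  ring

theorem one_lt_of_sq {x : ℝ} (hx : 0 ≤ x) (h : 1 < x ^ 2) : 1 < x := by
  nlinarith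

theorem hh_step {c w : E3} (hc : 1 < ‖c‖) (hw : ‖w‖ = 1) (hcw : inner ℝ c w = 0)
    (h2 : 1 < ‖c + (2 : ℝ) • w‖) : hh c hc = hh (c + (2 : ℝ) • w) h2 := by
  refine hh_eq (K := segment ℝ c (c + (2 : ℝ) • w)) (convex_segment _ _) ?_
    (left_mem_segment ℝ _ _) (right_mem_segment ℝ _ _)
  rintro y ⟨a, b, ha, hb, hab, rfl⟩
  have e : a • c + b • (c + (2 : ℝ) • w) = c + (b * 2) • w := by
    have ha' : a = 1 - b := by linarith
    rw [ha']
    module
  rw [e]
  refine one_lt_of_sq (norm_nonneg _) ?_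
  rw [norm_add_orth hw hcw]
  nlinarith [sq_nonneg (b * 2)]

theorem hh_const {c c' : E3} (hc : 1 < ‖c‖) (hc' : 1 < ‖c'‖) : hh c hc = hh c' hc' := by
  obtain ⟨w, hw, h1, h2⟩ := exists_orth c c'
  have b1 : 1 < ‖c + (2 : ℝ) • w‖ := by
    refine one_lt_of_sq (norm_nonneg _) ?_
    rw [norm_add_orth hw h1]
    nlinarith [sq_nonneg ‖c‖]
  have b2 : 1 < ‖c' + (2 : ℝ) • w‖ := by
    refine one_lt_of_sq (norm_nonneg _) ?_
    rw [norm_add_orth hw h2]
    nlinarith [sq_nonneg ‖c'‖]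
  rw [hh_step hc hw h1 b1, hh_step hc' hw h2 b2]
  refine hh_eq (K := segment ℝ (c + (2 : ℝ) • w) (c' + (2 : ℝ) • w)) (convex_segment _ _) ?_
    (left_mem_segment ℝ _ _) (right_mem_segment ℝ _ _)
  rintro y ⟨a, b, ha, hb, hab, rfl⟩
  have e : a • (c + (2 : ℝ) • w) + b • (c' + (2 : ℝ) • w) = (a • c + b • c') + (2 : ℝ) • w := by
    have ha' : a = 1 - b := by linarith
    rw [ha']
    module
  rw [e]
  refine one_lt_of_sq (norm_nonneg _) ?_
  rw [norm_add_orth hw (by rw [inner_add_left, inner_smul_left, inner_smul_left, h1, h2]; simp)]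
  nlinarith [sq_nonneg ‖a • c + b • c'‖]

/-- a point of three-space outside the ball -/
noncomputable def c0 : E3 := !₂[2, 0, 0]

theorem c0_norm : 1 < ‖c0‖ := by
  refine one_lt_of_sq (norm_nonneg _) ?_
  rw [EuclideanSpace.norm_sq_eq, Fin.sum_univ_three]
  simp [c0]

/-- the basic loop as an element of the group of endomorphisms -/
noncomputable def gg : @End (FundamentalGroupoid Y) _ (ob o) := hh c0 c0_norm

/-- the powers of the basic loop -/
noncomputable def hz (n : ℤ) : ob o ⟶ ob o := gg ^ n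

theorem hz_comp (m n : ℤ) : hz m ≫ hz n = hz (m + n) := by
  have h : gg ^ n * gg ^ m = gg ^ (m + n) := by rw [← zpow_add, add_comm]
  exact h

theorem hz_zero : hz 0 = 𝟙 (ob o) := zpow_zero gg

theorem hz_one (c : E3) (hc : 1 < ‖c‖) : hh c hc = hz 1 := by
  rw [hh_const hc c0_norm]
  exact (zpow_one gg).symm

theorem out_of_not_A {a : Y} (ha : (a : E4) ∉ A) : 1 < ‖proj (a : E4)‖ := by
  have h := mem_Y.1 a.2
  have h1 : (a : E4) 3 = 0 := by
    by_contra h0
    exact ha (Or.inl h0)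
  have h2 : ¬ ‖proj (a : E4)‖ < 1 := fun h' => ha (Or.inr h')
  rcases lt_or_eq_of_le (not_lt.1 h2) with h3 | h3
  · exact h3
  · exact absurd ⟨h1, h3.symm⟩ h

/-- vertical class from the top to a point -/
noncomputable def vd (a : Y) (ha : 1 < ‖proj (a : E4)‖) : ob (up (proj (a : E4))) ⟶ ob a :=
  (In.ex ((S_conv (convex_singleton (proj (a : E4)))).starConvex (x := (a : E4))
    (by simp [S])) (S_sub (sing1 ha)) (up (proj (a : E4))) a (by simp [S, up])
    (by simp [S])).choose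

theorem vd_in (a : Y) (ha : 1 < ‖proj (a : E4)‖) : In (S {proj (a : E4)}) (vd a ha) :=
  (In.ex ((S_conv (convex_singleton (proj (a : E4)))).starConvex (x := (a : E4))
    (by simp [S])) (S_sub (sing1 ha)) (up (proj (a : E4))) a (by simp [S, up])
    (by simp [S])).choose_spec

/-- the class through the top -/
noncomputable def dd (a : Y) (ha : 1 < ‖proj (a : E4)‖) : ob o ⟶ ob a :=
  al o (up (proj (a : E4))) oA (up_A _) ≫ vd a ha

open Classical in
/-- the chosen class from the base point -/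
noncomputable def CC (a : Y) : ob o ⟶ ob a :=
  if h : (a : E4) ∈ A then al o a oA h else dd a (out_of_not_A h)

theorem CC_A {a : Y} (h : (a : E4) ∈ A) : CC a = al o a oA h := by
  unfold CC
  rw [dif_pos h]

theorem dd_eq (a : Y) (ha : 1 < ‖proj (a : E4)‖) : ∃ n : ℤ, dd a ha = hz n ≫ CC a := by
  have hK := sing1 ha
  have hKc := convex_singleton (𝕜 := ℝ) (proj (a : E4))
  rcases lt_trichotomy ((a : E4) 3) 0 with h | h | h
  · refine ⟨1, ?_⟩
    have hA : (a : E4) ∈ A := Or.inl h.ne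
    have m1 : (a : E4) ∈ SD {proj (a : E4)} := ⟨rfl, h⟩
    have m2 : ((dn (proj (a : E4)) : Y) : E4) ∈ SD {proj (a : E4)} :=
      ⟨by simp [dn], by simp [dn]⟩
    obtain ⟨w, hw⟩ := In.ex (X := Y) ((SD_conv hKc).starConvex m1) ((SD_sub_A _).trans A_sub)
      (dn (proj (a : E4))) a m2 m1
    have e1 := al_uniq (dn_A _) hA (hw.mono (SD_sub_A _))
    have e2 : vd a ha = vt (proj (a : E4)) ha ≫ w :=
      s_uniq hKc hK (vd_in a ha) ((vt_in _ ha).comp (hw.mono (SD_sub_S _)))
    rw [← hz_one (proj (a : E4)) ha, CC_A hA]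
    unfold dd hh
    rw [e2, e1, Category.assoc, Category.assoc, al_comp]
  · refine ⟨0, ?_⟩
    have hA : (a : E4) ∉ A := by
      rintro (h1 | h1)
      · exact h1 h
      · exact lt_asymm h1 ha
    rw [hz_zero, Category.id_comp]
    unfold CC
    rw [dif_neg hA]
  · refine ⟨0, ?_⟩
    have hA : (a : E4) ∈ A := Or.inl h.ne'
    have m1 : (a : E4) ∈ SU {proj (a : E4)} := ⟨rfl, h⟩
    have m2 : ((up (proj (a : E4)) : Y) : E4) ∈ SU {proj (a : E4)} :=
      ⟨by simp [up], by simp [up]⟩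
    obtain ⟨w, hw⟩ := In.ex (X := Y) ((SU_conv hKc).starConvex m1) ((SU_sub_A _).trans A_sub)
      (up (proj (a : E4))) a m2 m1
    have e1 := al_uniq (up_A _) hA (hw.mono (SU_sub_A _))
    have e2 : vd a ha = w := s_uniq hKc hK (vd_in a ha) (hw.mono (SU_sub_S _))
    rw [hz_zero, Category.id_comp, CC_A hA]
    unfold dd
    rw [e2, e1, al_comp]

/-- the property of all classes -/
def PP (a b : Y) (w : ob a ⟶ ob b) : Prop := ∃ n : ℤ, CC a ≫ w = hz n ≫ CC b

theorem PP_small {K : Set E3} (hK : Convex ℝ K) (hK1 : ∀ y ∈ K, 1 < ‖y‖) (a b : Y)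
    (w : ob a ⟶ ob b) (hw : In (S K) w) : PP a b w := by
  obtain ⟨γ, hγ, e⟩ := id hw
  have ha : proj (a : E4) ∈ K := by
    have := hγ 0
    rwa [γ.source] at this
  have hb : proj (b : E4) ∈ K := by
    have := hγ 1
    rwa [γ.target] at this
  have m1 : ((up (proj (a : E4)) : Y) : E4) ∈ SU K := ⟨by simpa [up] using ha, by simp [up]⟩
  have m2 : ((up (proj (b : E4)) : Y) : E4) ∈ SU K := ⟨by simpa [up] using hb, by simp [up]⟩
  obtain ⟨w1, h1⟩ := In.ex (X := Y) ((SU_conv hK).starConvex m1) ((SU_sub_A _).trans A_sub)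
    (up (proj (a : E4))) (up (proj (b : E4))) m1 m2
  have e1 := al_uniq (up_A _) (up_A _) (h1.mono (SU_sub_A _))
  have e2 : vd a (hK1 _ ha) ≫ w = w1 ≫ vd b (hK1 _ hb) :=
    s_uniq hK hK1 (((vd_in a _).mono (S_mono (singleton_subset_iff.2 ha))).comp hw)
      ((h1.mono (SU_sub_S _)).comp ((vd_in b _).mono (S_mono (singleton_subset_iff.2 hb))))
  have e3 : dd a (hK1 _ ha) ≫ w = dd b (hK1 _ hb) := by
    unfold dd
    rw [Category.assoc, e2, e1, ← Category.assoc, al_comp]
  obtain ⟨n, hn⟩ := dd_eq a (hK1 _ ha)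
  obtain ⟨m, hm⟩ := dd_eq b (hK1 _ hb)
  rw [hn, hm, Category.assoc] at e3
  refine ⟨-n + m, ?_⟩
  have e4 := congrArg (fun u => hz (-n) ≫ u) e3
  simp only [← Category.assoc, hz_comp] at e4
  rw [neg_add_cancel, hz_zero, Category.id_comp] at e4
  exact e4

theorem PP_A (a b : Y) (w : ob a ⟶ ob b) (hw : In A w) : PP a b w := by
  obtain ⟨γ, hγ, e⟩ := id hw
  have ha : (a : E4) ∈ A := by
    have := hγ 0
    rwa [γ.source] at this
  have hb : (b : E4) ∈ A := by
    have := hγ 1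
    rwa [γ.target] at this
  refine ⟨0, ?_⟩
  rw [hz_zero, Category.id_comp, CC_A ha, CC_A hb, al_uniq ha hb hw, al_comp]

/-- the cover -/
def UU : Option {c : E3 // 1 < ‖c‖} → Set E4
  | none => A
  | some c => S (ball c.1 (‖c.1‖ - 1))

theorem ball_out {c : E3} : ∀ y ∈ ball c (‖c‖ - 1), 1 < ‖y‖ := by
  intro y hy
  rw [mem_ball, dist_eq_norm] at hy
  have h := norm_sub_norm_le c y
  rw [norm_sub_rev] at h
  linarith

theorem PP_all (a b : Y) (w : ob a ⟶ ob b) : PP a b w := by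
  refine gen PP ?_ ?_ UU ?_ ?_ ?_ a b w
  · intro a
    exact ⟨0, by rw [hz_zero, Category.id_comp, Category.comp_id]⟩
  · rintro a b c w w' ⟨n, hn⟩ ⟨m, hm⟩
    refine ⟨n + m, ?_⟩
    rw [← Category.assoc, hn, Category.assoc, hm, ← Category.assoc, hz_comp]
  · rintro (_ | c)
    · exact A_open
    · exact isOpen_ball.preimage continuous_proj
  · intro x hx
    by_cases hA : x ∈ A
    · exact mem_iUnion.2 ⟨none, hA⟩
    · have h1 := out_of_not_A (a := ⟨x, hx⟩) hA
      refine mem_iUnion.2 ⟨some ⟨proj x, h1⟩, ?_⟩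
      show proj x ∈ ball (proj x) (‖proj x‖ - 1)
      exact mem_ball_self (sub_pos.2 h1)
  · rintro (_ | c) a b w hw
    · exact PP_A a b w hw
    · exact PP_small (convex_ball _ _) ball_out a b w hw

end ItemR

open ItemR in
/-- [48319b R] the fundamental group of the complement of the round sphere is abelian -/
theorem roundAbelian : RoundAbelian := by
  intro x0 a b
  obtain ⟨n, hn⟩ := PP_all x0 x0 a
  obtain ⟨m, hm⟩ := PP_all x0 x0 b
  have h1 : CC x0 ≫ ((b : ob x0 ⟶ ob x0) ≫ (a : ob x0 ⟶ ob x0)) =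
      CC x0 ≫ ((a : ob x0 ⟶ ob x0) ≫ (b : ob x0 ⟶ ob x0)) := by
    rw [← Category.assoc, hm, Category.assoc, hn, ← Category.assoc, hz_comp, ← Category.assoc,
      hn, Category.assoc, hm, ← Category.assoc, hz_comp, add_comm]
  have h2 := (cancel_epi (CC x0)).1 h1
  exact h2

end Pool.Agent.Work.MP_48319b_gt
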