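import Pool.Agent.Work.MP_48319b_gt.Stmts2
import Pool.Agent.Work.MP_48319b_gt.Bd.B01

/-!
# MP_48319b_gt, item Z9 : the sides at the vertices and along the edges
-/

open Metric Set Topology Filter

namespace Pool.Agent.Work.MP_48319b_gt

namespace ItemZ9

/-! ### combinations in one triangle -/

/-- the three vertices are different -/
def ND (t : Tri) : Prop := t.a ≠ t.b ∧ t.a ≠ t.c ∧ t.b ≠ t.c

theorem comb_eq_sum {V : Type*} [AddCommGroup V] [Module ℝ V] {t : Tri} (h : ND t) (φ : ℕ → V)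
    (w : ℕ → ℝ) : comb φ t w = ∑ v ∈ ({t.a, t.b, t.c} : Finset ℕ), w v • φ v := by
  obtain ⟨h1, h2, h3⟩ := h
  rw [Finset.sum_insert (by simp [h1, h2]), Finset.sum_insert (by simpa using h3),
    Finset.sum_singleton, comb, add_assoc]

theorem comb_congr_supp {V : Type*} [AddCommGroup V] [Module ℝ V] {t t' : Tri} (h : ND t)
    (h' : ND t') (φ : ℕ → V) {w : ℕ → ℝ} (hw : ∀ v, v ∉ t.vs → w v = 0)
    (hw' : ∀ v, v ∉ t'.vs → w v = 0) : comb φ t w = comb φ t' w := by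
  rw [comb_eq_sum h, comb_eq_sum h']
  have e1 : ∑ v ∈ ({t.a, t.b, t.c} : Finset ℕ), w v • φ v =
      ∑ v ∈ ({t.a, t.b, t.c} ∪ {t'.a, t'.b, t'.c} : Finset ℕ), w v • φ v := by
    refine Finset.sum_subset Finset.subset_union_left ?_
    intro v _ hv
    rw [hw v (by simpa [Tri.vs] using hv), zero_smul]
  have e2 : ∑ v ∈ ({t'.a, t'.b, t'.c} : Finset ℕ), w v • φ v =
      ∑ v ∈ ({t.a, t.b, t.c} ∪ {t'.a, t'.b, t'.c} : Finset ℕ), w v • φ v := by
    refine Finset.sum_subset Finset.subset_union_right ?_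
    intro v _ hv
    rw [hw' v (by simpa [Tri.vs] using hv), zero_smul]
  rw [e1, e2]

theorem uniq_same {pos : ℕ → E2} {t : Tri} {x : E2} {w w' : ℕ → ℝ}
    (ho : 0 < det2 (pos t.b - pos t.a) (pos t.c - pos t.a)) (h : IsWt pos t x w)
    (h' : IsWt pos t x w') : w = w' := by
  obtain ⟨⟨-, h1, h2⟩, h3⟩ := h
  obtain ⟨⟨-, h1', h2'⟩, h3'⟩ := h'
  have e : comb pos t w = comb pos t w' := h3.trans h3'.symm
  have e0 : (comb pos t w) 0 = (comb pos t w') 0 := by rw [e]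
  have e1 : (comb pos t w) 1 = (comb pos t w') 1 := by rw [e]
  simp only [comb, PiLp.add_apply, PiLp.smul_apply, smul_eq_mul] at e0 e1
  simp only [det2, PiLp.sub_apply] at ho
  set a0 := pos t.a 0
  set a1 := pos t.a 1
  set b0 := pos t.b 0
  set b1 := pos t.b 1
  set c0 := pos t.c 0
  set c1 := pos t.c 1
  have wa : w t.a = 1 - w t.b - w t.c := by linarith
  have wa' : w' t.a = 1 - w' t.b - w' t.c := by linarith
  rw [wa, wa'] at e0 e1
  have k0 : (w t.b - w' t.b) * (b0 - a0) + (w t.c - w' t.c) * (c0 - a0) = 0 := by linarith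
  have k1 : (w t.b - w' t.b) * (b1 - a1) + (w t.c - w' t.c) * (c1 - a1) = 0 := by linarith
  have kb : (w t.b - w' t.b) * ((b0 - a0) * (c1 - a1) - (b1 - a1) * (c0 - a0)) = 0 := by
    linear_combination (c1 - a1) * k0 - (c0 - a0) * k1
  have kc : (w t.c - w' t.c) * ((b0 - a0) * (c1 - a1) - (b1 - a1) * (c0 - a0)) = 0 := by
    linear_combination (b0 - a0) * k1 - (b1 - a1) * k0
  have hb : w t.b = w' t.b := by
    rcases mul_eq_zero.1 kb with h | h
    · linarith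
    · exact absurd h ho.ne'
  have hc : w t.c = w' t.c := by
    rcases mul_eq_zero.1 kc with h | h
    · linarith
    · exact absurd h ho.ne'
  funext v
  by_cases hv : v ∈ t.vs
  · simp only [Tri.vs, List.mem_cons, List.not_mem_nil, or_false] at hv
    rcases hv with rfl | rfl | rfl
    · rw [wa, wa', hb, hc]
    · exact hb
    · exact hc
  · rw [h1 v hv, h1' v hv]

/-- edge weights -/
def ew (a b : ℕ) (r : ℝ) : ℕ → ℝ := fun v => if v = a then 1 - r else if v = b then r else 0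

/-- vertex weights -/
def vw (a : ℕ) : ℕ → ℝ := fun v => if v = a then 1 else 0

theorem ew_isW {t : Tri} (hn : ND t) {a b : ℕ} (ha : a ∈ t.vs) (hb : b ∈ t.vs) (hab : a ≠ b)
    {r : ℝ} (h0 : 0 ≤ r) (h1 : r ≤ 1) : IsW t (ew a b r) := by
  obtain ⟨n1, n2, n3⟩ := hn
  refine ⟨?_, ?_, ?_⟩
  · intro v
    simp only [ew]
    split_ifs <;> linarith
  · intro v hv
    simp only [ew]
    rw [if_neg (by rintro rfl; exact hv ha), if_neg (by rintro rfl; exact hv hb)]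
  · simp only [Tri.vs, List.mem_cons, List.not_mem_nil, or_false] at ha hb
    rcases ha with rfl | rfl | rfl <;> rcases hb with rfl | rfl | rfl <;>
      first
      | exact absurd rfl hab
      | simp [ew, n1, n2, n3, n1.symm, n2.symm, n3.symm]

theorem comb_ew {V : Type*} [AddCommGroup V] [Module ℝ V] (φ : ℕ → V) {t : Tri} (hn : ND t)
    {a b : ℕ} (ha : a ∈ t.vs) (hb : b ∈ t.vs) (hab : a ≠ b) (r : ℝ) :
    comb φ t (ew a b r) = (1 - r) • φ a + r • φ b := by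
  obtain ⟨n1, n2, n3⟩ := hn
  simp only [Tri.vs, List.mem_cons, List.not_mem_nil, or_false] at ha hb
  rcases ha with rfl | rfl | rfl <;> rcases hb with rfl | rfl | rfl <;>
    first
    | exact absurd rfl hab
    | simp [comb, ew, n1, n2, n3, n1.symm, n2.symm, n3.symm, add_comm]

theorem ew_zero {a b : ℕ} : ew a b 0 = vw a := by
  funext v
  simp [ew, vw]

theorem ew_wt {pos : ℕ → E2} {t : Tri} (hn : ND t) {a b : ℕ} (ha : a ∈ t.vs) (hb : b ∈ t.vs)
    (hab : a ≠ b) {r : ℝ} (h0 : 0 ≤ r) (h1 : r ≤ 1) :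
    IsWt pos t ((1 - r) • pos a + r • pos b) (ew a b r) :=
  ⟨ew_isW hn ha hb hab h0 h1, comb_ew pos hn ha hb hab r⟩

/-- `t` starting at the vertex `v` -/
def Rot (t : Tri) (v b c : ℕ) : Prop := t = ⟨v, b, c⟩ ∨ t = ⟨c, v, b⟩ ∨ t = ⟨b, c, v⟩

theorem exists_rot {t : Tri} {v : ℕ} (hv : v ∈ t.vs) : ∃ b c, Rot t v b c := by
  obtain ⟨a, b, c⟩ := t
  simp only [Tri.vs, List.mem_cons, List.not_mem_nil, or_false] at hv
  rcases hv with rfl | rfl | rfl
  · exact ⟨b, c, Or.inl rfl⟩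
  · exact ⟨c, a, Or.inr (Or.inl rfl)⟩
  · exact ⟨a, b, Or.inr (Or.inr rfl)⟩

theorem Rot.mem {t : Tri} {v b c : ℕ} (h : Rot t v b c) : v ∈ t.vs := by
  rcases h with rfl | rfl | rfl <;> simp [Tri.vs]

theorem Rot.wt {t : Tri} {v b c : ℕ} (h : Rot t v b c) (hn : ND t) {s r : ℝ} (hs : 0 ≤ s)
    (hr : 0 ≤ r) (hsr : s + r ≤ 1) : ∃ w, IsW t w ∧
      (∀ (V : Type) [AddCommGroup V] [Module ℝ V] (φ : ℕ → V),
        comb φ t w = φ v + (s • (φ b - φ v) + r • (φ c - φ v))) ∧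
      (0 < s → 0 < r → s + r < 1 → ∀ u ∈ t.vs, 0 < w u) := by
  refine ⟨fun u => if u = v then 1 - s - r else if u = b then s else if u = c then r else 0,
    ⟨?_, ?_, ?_⟩, ?_, ?_⟩
  · intro u
    split_ifs <;> linarith
  · intro u hu
    rcases h with rfl | rfl | rfl <;>
    · simp only [Tri.vs, List.mem_cons, List.not_mem_nil, or_false, not_or] at hu
      simp [hu.1, hu.2.1, hu.2.2]
  · obtain ⟨n1, n2, n3⟩ := hn
    rcases h with rfl | rfl | rfl <;>
    · dsimp only at n1 n2 n3 ⊢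
      simp only [n1, n2, n3, n1.symm, n2.symm, n3.symm, if_true, if_false]
      ring
  · intro V _ _ φ
    obtain ⟨n1, n2, n3⟩ := hn
    rcases h with rfl | rfl | rfl <;>
    · dsimp only [comb] at n1 n2 n3 ⊢
      simp only [n1, n2, n3, n1.symm, n2.symm, n3.symm, if_true, if_false]
      module
  · intro h1 h2 h3 u hu
    dsimp only
    split_ifs with k1 k2 k3
    · linarith
    · exact h1
    · exact h2
    · exfalso
      rcases h with rfl | rfl | rfl <;>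
      · simp only [Tri.vs, List.mem_cons, List.not_mem_nil, or_false] at hu
        tauto


/-! ### the common data -/

/-- all the facts used for the simplicial map -/
structure Base (F : List Tri) (bd : List (ℕ × ℕ)) (pos : ℕ → E2) (Y0 : ℕ → E3) : Prop where
  nd : ∀ t ∈ F, ND t
  pf : PieceFacts F bd pos
  uniq : ∀ t ∈ F, ∀ t' ∈ F, ∀ x w w', IsWt pos t x w → IsWt pos t' x w' → w = w'
  val : ∀ t ∈ F, ∀ x w, IsWt pos t x w → fE F pos Y0 x = comb Y0 t w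
  cont : Continuous (fE F pos Y0)
  yinj : ∀ t ∈ F, ∀ a ∈ t.vs, ∀ b ∈ t.vs, Y0 a = Y0 b → a = b
  dbl : ∀ x y, x ≠ y → fE F pos Y0 x = fE F pos Y0 y →
      x ∉ Piece F bd pos none ∧ y ∉ Piece F bd pos none ∧
      ∃ t ∈ F, ∃ t' ∈ F, ∃ w w', IsWt pos t x w ∧ IsWt pos t' y w' ∧ Matched Y0 t t' w w'

theorem yinj {pos : ℕ → E2} {Y0 : ℕ → E3} {t : Tri} {Q : ℕ → E3 →L[ℝ] E2}
    (h : ∀ v ∈ t.vs, PosT pos Y0 t (Q v)) : ∀ a ∈ t.vs, ∀ b ∈ t.vs, Y0 a = Y0 b → a = b := by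
  have hP := h t.a (by simp [Tri.vs])
  have k1 : Y0 t.a ≠ Y0 t.b := by
    intro he
    have := hP 1 0 (Or.inl one_ne_zero)
    simp [he] at this
  have k2 : Y0 t.a ≠ Y0 t.c := by
    intro he
    have := hP 0 1 (Or.inr one_ne_zero)
    simp [he] at this
  have k3 : Y0 t.b ≠ Y0 t.c := by
    intro he
    have := hP 1 (-1) (Or.inl one_ne_zero)
    simp [he] at this
  intro a ha b hb hab
  simp only [Tri.vs, List.mem_cons, List.not_mem_nil, or_false] at ha hb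
  rcases ha with rfl | rfl | rfl <;> rcases hb with rfl | rfl | rfl <;>
    first
    | rfl
    | exact absurd hab k1
    | exact absurd hab.symm k1
    | exact absurd hab k2
    | exact absurd hab.symm k2
    | exact absurd hab k3
    | exact absurd hab.symm k3

instance finIdx (F : List Tri) : Finite (Idx F) := by
  have : Finite {t : Tri // t ∈ F} := (List.finite_toSet F).to_subtype
  infer_instance

theorem uniq_wt {F : List Tri} {bd : List (ℕ × ℕ)} {pos : ℕ → E2} (hcx : PlaneCx F bd pos)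
    (hpf : PieceFacts F bd pos) : ∀ t ∈ F, ∀ t' ∈ F, ∀ x w w', IsWt pos t x w →
      IsWt pos t' x w' → w = w' := by
  intro t ht t' ht' x w w' h h'
  have hs : ∀ v, v ∉ t'.vs → w v = 0 := by
    intro v hv
    by_contra hc
    have hpos : 0 < w v := lt_of_le_of_ne (h.1.nonneg v) (Ne.symm hc)
    exact hv (hpf.carrier t ht x w v h hpos (some ⟨t', ht'⟩) ⟨w', h'⟩)
  refine uniq_same (hcx.orient t' ht') ⟨⟨h.1.nonneg, hs, ?_⟩, ?_⟩ h'
  · have := comb_congr_supp (hpf.nondeg t ht) (hpf.nondeg t' ht') (fun _ => (1 : ℝ)) h.1.supp hs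
    simp only [comb, smul_eq_mul, mul_one] at this
    rw [← this]
    exact h.1.sum
  · rw [← comb_congr_supp (hpf.nondeg t ht) (hpf.nondeg t' ht') pos h.1.supp hs]
    exact h.2

theorem mkBase (h3 : ExtThm) (h4 : PieceThm) (hz7 : Double0Thm) {F : List Tri}
    {bd : List (ℕ × ℕ)} {pos : ℕ → E2} {Y0 : ℕ → E3} {g : ℕ → ℝ} {Q : ℕ → E3 →L[ℝ] E2}
    {up : ℕ → List ℕ} {twin : ℕ → ℕ → Option (ℕ × ℕ)} (hcx : PlaneCx F bd pos)
    (hbd : BdStd bd pos Y0 emb) (hm : MonoCert F bd pos Y0 Q) (ho : OutCert F bd pos Y0)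
    (htw : TwinCert F Y0 g up twin) : Base F bd pos Y0 := by
  obtain ⟨h1, -, A, -, hA⟩ := h3 F bd pos hcx E3 Y0 embL hbd
  have hpf := h4 F bd pos hcx
  exact
    { nd := hpf.nondeg
      pf := hpf
      uniq := uniq_wt hcx hpf
      val := h1
      cont := ItemP1.cont hA
      yinj := fun t ht => yinj (Q := Q) (hm.tri t ht)
      dbl := hz7 F bd pos Y0 g Q up twin hcx hbd hm ho htw }

section

variable {F : List Tri} {bd : List (ℕ × ℕ)} {pos : ℕ → E2} {Y0 : ℕ → E3}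

/-- interior points are simple -/
theorem Base.simple (B : Base F bd pos Y0) {t : Tri} (ht : t ∈ F) {q : E2} {w : ℕ → ℝ}
    (hw : IsWt pos t q w) (hpos : ∀ v ∈ t.vs, 0 < w v) :
    ∀ p, fE F pos Y0 p = fE F pos Y0 q → p = q := by
  intro p hp
  by_contra hne
  obtain ⟨-, -, t1, ht1, t2, ht2, w1, w2, hw1, hw2, -, -, -, ⟨v, hv, hv0⟩, -⟩ := B.dbl p q hne hp
  have e : w = w2 := B.uniq t ht t2 ht2 q w w2 hw hw2
  have hi := ((B.pf.int1 ⟨t, ht⟩ q w hw hpos).2 (some ⟨t2, ht2⟩) ⟨w2, hw2⟩)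
  have ht' : t2 = t := by simpa using hi
  subst ht'
  have := hpos v hv
  rw [e] at this
  exact absurd hv0 this.ne'

theorem Base.simple_int (B : Base F bd pos Y0) (t : {t : Tri // t ∈ F}) {q : E2}
    (hq : q ∈ interior (Piece F bd pos (some t))) :
    ∀ p, fE F pos Y0 p = fE F pos Y0 q → p = q := by
  obtain ⟨w, hw, hpos⟩ := B.pf.int2 t q hq
  exact B.simple t.2 hw hpos

theorem Base.simple_out (B : Base F bd pos Y0) {q : E2} (hq : q ∈ Piece F bd pos none) :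
    ∀ p, fE F pos Y0 p = fE F pos Y0 q → p = q := by
  intro p hp
  by_contra hne
  exact (B.dbl p q hne hp).2.1 hq

theorem Base.vwt (B : Base F bd pos Y0) {t : Tri} (ht : t ∈ F) {v : ℕ} (hv : v ∈ t.vs) :
    IsWt pos t (pos v) (vw v) := B.pf.vert t ht v hv

theorem Base.ewt (B : Base F bd pos Y0) {t : Tri} (ht : t ∈ F) {a b : ℕ} (ha : a ∈ t.vs)
    (hb : b ∈ t.vs) (hab : a ≠ b) {r : ℝ} (h0 : 0 ≤ r) (h1 : r ≤ 1) :
    IsWt pos t ((1 - r) • pos a + r • pos b) (ew a b r) := ew_wt (B.nd t ht) ha hb hab h0 h1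

theorem Base.val_edge (B : Base F bd pos Y0) {t : Tri} (ht : t ∈ F) {a b : ℕ} (ha : a ∈ t.vs)
    (hb : b ∈ t.vs) (hab : a ≠ b) {r : ℝ} (h0 : 0 ≤ r) (h1 : r ≤ 1) :
    fE F pos Y0 ((1 - r) • pos a + r • pos b) = (1 - r) • Y0 a + r • Y0 b := by
  rw [B.val t ht _ _ (B.ewt ht ha hb hab h0 h1), comb_ew Y0 (B.nd t ht) ha hb hab]

theorem exists_other {t : Tri} (hn : ND t) {v : ℕ} (hv : v ∈ t.vs) : ∃ b ∈ t.vs, v ≠ b := by
  simp only [Tri.vs, List.mem_cons, List.not_mem_nil, or_false] at hv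
  rcases hv with rfl | rfl | rfl
  · exact ⟨t.b, by simp [Tri.vs], hn.1⟩
  · exact ⟨t.a, by simp [Tri.vs], hn.1.symm⟩
  · exact ⟨t.a, by simp [Tri.vs], hn.2.1.symm⟩

theorem Base.val_vert (B : Base F bd pos Y0) {t : Tri} (ht : t ∈ F) {v : ℕ} (hv : v ∈ t.vs) :
    fE F pos Y0 (pos v) = Y0 v := by
  obtain ⟨b, hb, hvb⟩ := exists_other (B.nd t ht) hv
  have := B.val_edge ht hv hb hvb le_rfl zero_le_one
  simpa using this

theorem Base.pos_inj (B : Base F bd pos Y0) {t t' : Tri} (ht : t ∈ F) (ht' : t' ∈ F) {v v' : ℕ}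
    (hv : v ∈ t.vs) (hv' : v' ∈ t'.vs) (h : pos v = pos v') : v = v' := by
  have h1 := B.vwt ht hv
  rw [h] at h1
  have e := congrFun (B.uniq t ht t' ht' _ _ _ h1 (B.vwt ht' hv')) v
  simp only [vw, if_true] at e
  by_contra hc
  rw [if_neg hc] at e
  exact one_ne_zero e

/-- an edge and its twin -/
structure TwinEdge (F : List Tri) (Y0 : ℕ → E3) (g : ℕ → ℝ) (up : ℕ → List ℕ)
    (a b a' b' : ℕ) : Prop where
  ua : a' ∈ up a
  ub : b' ∈ up b
  ya : Y0 a' = Y0 a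
  yb : Y0 b' = Y0 b
  ga : g a < g a'
  gb : g b < g b'
  ne : a' ≠ b'
  tri : ∃ t ∈ F, a' ∈ t.vs ∧ b' ∈ t.vs

theorem Base.twinEdge (B : Base F bd pos Y0) {g : ℕ → ℝ} {up : ℕ → List ℕ}
    {twin : ℕ → ℕ → Option (ℕ × ℕ)} (htw : TwinCert F Y0 g up twin) {t : Tri} (ht : t ∈ F)
    {a b a' b' : ℕ} (ha : a ∈ t.vs) (hb : b ∈ t.vs) (hab : a ≠ b)
    (h : twin a b = some (a', b')) : TwinEdge F Y0 g up a b a' b' := by
  obtain ⟨h1, h2, t', ht', ha', hb'⟩ := htw.tw2 a b a' b' h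
  obtain ⟨k1, k2, -⟩ := htw.up2 a a' h1
  obtain ⟨l1, l2, -⟩ := htw.up2 b b' h2
  refine ⟨h1, h2, k1, l1, k2, l2, ?_, t', ht', ha', hb'⟩
  rintro rfl
  exact hab (B.yinj t ht a ha b hb (k1.symm.trans l1))

theorem Base.edge_ne (B : Base F bd pos Y0) {g : ℕ → ℝ} {up : ℕ → List ℕ} {t : Tri} (ht : t ∈ F)
    {a b a' b' : ℕ} (ha : a ∈ t.vs) (hb : b ∈ t.vs) (hab : a ≠ b)
    (h : TwinEdge F Y0 g up a b a' b') {r : ℝ} (h0 : 0 ≤ r) (h1 : r < 1) :
    (1 - r) • pos a' + r • pos b' ≠ (1 - r) • pos a + r • pos b := by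
  intro he
  obtain ⟨t', ht', ha', hb'⟩ := h.tri
  have w1 := B.ewt ht' ha' hb' h.ne h0 h1.le
  rw [he] at w1
  have e := B.uniq t' ht' t ht _ _ _ w1 (B.ewt ht ha hb hab h0 h1.le)
  have ea := congrFun e a
  have ea' := congrFun e a'
  have n1 : a ≠ a' := by
    rintro rfl
    exact lt_irrefl _ h.ga
  simp only [ew, if_true, if_neg n1, if_neg n1.symm] at ea ea'
  have q1 : a = b' := by
    by_contra hc
    rw [if_neg hc] at ea
    linarith
  have q2 : a' = b := by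
    by_contra hc
    rw [if_neg hc] at ea'
    linarith
  have g1 := h.ga
  have g2 := h.gb
  rw [← q1, ← q2] at g2
  exact lt_asymm g1 g2

theorem Base.edge_val (B : Base F bd pos Y0) {g : ℕ → ℝ} {up : ℕ → List ℕ} {t : Tri} (ht : t ∈ F)
    {a b a' b' : ℕ} (ha : a ∈ t.vs) (hb : b ∈ t.vs) (hab : a ≠ b)
    (h : TwinEdge F Y0 g up a b a' b') {r : ℝ} (h0 : 0 ≤ r) (h1 : r ≤ 1) :
    fE F pos Y0 ((1 - r) • pos a' + r • pos b') = fE F pos Y0 ((1 - r) • pos a + r • pos b) := by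
  obtain ⟨t', ht', ha', hb'⟩ := h.tri
  rw [B.val_edge ht ha hb hab h0 h1, B.val_edge ht' ha' hb' h.ne h0 h1, h.ya, h.yb]

end

/-! ### first part -/

variable {F : List Tri} {bd : List (ℕ × ℕ)} {pos : ℕ → E2} {Y0 N : ℕ → E3} {g : ℕ → ℝ}
  {up : ℕ → List ℕ} {twin : ℕ → ℕ → Option (ℕ × ℕ)} {sg : ℕ → Tri → ℕ → Bool}
  {b0 : E2 → E3 → Prop}

/-- the side is eventually constant in a sector -/
theorem Base.sector (B : Base F bd pos Y0) (hb : Sides (fE F pos Y0) b0)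
    (t : {t : Tri // t ∈ F}) {x u : E2} (hu : fE F pos Y0 u = fE F pos Y0 x) (hne : u ≠ x)
    {β : Prop} (hf : ∃ᶠ q in 𝓝[interior (Piece F bd pos (some t))] x,
      (b0 u (fE F pos Y0 q) ↔ β)) :
    ∀ᶠ q in 𝓝[interior (Piece F bd pos (some t))] x, (b0 u (fE F pos Y0 q) ↔ β) :=
  sectorThm _ _ _ _ _ _ B.cont hb (B.pf.convex t) hu hne (fun _ hq => B.simple_int t hq) hf

theorem part1 (B : Base F bd pos Y0) (htw : TwinCert F Y0 g up twin)
    (hsc : SideCert F Y0 N up sg) (hb : Sides0 F bd pos Y0 N b0) (t : {t : Tri // t ∈ F})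
    {v : ℕ} (hv : v ∈ t.1.vs) {u : ℕ} (hu : u ∈ up v) :
    ∀ᶠ q in 𝓝[interior (Piece F bd pos (some t))] (pos v),
        (b0 (pos u) (fE F pos Y0 q) ↔ sg v t.1 u = true) := by
  obtain ⟨y1, y2, t', ht', hut'⟩ := htw.up2 v u hu
  have hval : fE F pos Y0 (pos u) = fE F pos Y0 (pos v) := by
    rw [B.val_vert ht' hut', B.val_vert t.2 hv, y1]
  have hne : pos u ≠ pos v := by
    intro he
    have := B.pos_inj ht' t.2 hut' hv he
    rw [this] at y2
    exact lt_irrefl _ y2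
  refine B.sector hb.sides t hval hne ?_
  obtain ⟨b, c, hrot⟩ := exists_rot hv
  obtain ⟨k, hk, b', c', hrot', γ1, γ2, τ, D, hγ1, hγ2, hD, hτ, hsg, heq⟩ :=
    hsc t.1 t.2 v b c hrot u hu
  -- the two curves
  have hq : Tendsto (fun ρ : ℝ => pos v + (ρ • (pos b - pos v) + ρ • (pos c - pos v))) (𝓝[>] 0)
      (𝓝 (pos v)) := by
    have : Continuous fun ρ : ℝ => pos v + (ρ • (pos b - pos v) + ρ • (pos c - pos v)) := by
      fun_prop
    have h := this.tendsto 0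
    simp only [zero_smul, add_zero] at h
    exact h.mono_left nhdsWithin_le_nhds
  have hz : Tendsto (fun ρ : ℝ => ((pos u + ((ρ * γ1 / D) • (pos b' - pos u) +
      (ρ * γ2 / D) • (pos c' - pos u)), ρ * τ / D) : E2 × ℝ)) (𝓝[>] 0) (𝓝 (pos u, 0)) := by
    have : Continuous (fun ρ : ℝ => ((pos u + ((ρ * γ1 / D) • (pos b' - pos u) +
      (ρ * γ2 / D) • (pos c' - pos u)), ρ * τ / D) : E2 × ℝ)) := by
      fun_prop
    have h := this.tendsto 0
    simp only [zero_mul, zero_div, zero_smul, add_zero] at h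
    exact h.mono_left nhdsWithin_le_nhds
  have hsm : Tendsto (fun ρ : ℝ => ρ * (γ1 + γ2) / D) (𝓝[>] 0) (𝓝 0) := by
    have : Continuous (fun ρ : ℝ => ρ * (γ1 + γ2) / D) := by fun_prop
    have h := this.tendsto 0
    simp only [zero_mul, zero_div] at h
    exact h.mono_left nhdsWithin_le_nhds
  have hev : ∀ᶠ ρ : ℝ in 𝓝[>] 0, ρ < 1 / 2 :=
    nhdsWithin_le_nhds (eventually_lt_nhds (by norm_num))
  have hpos : ∀ᶠ ρ : ℝ in 𝓝[>] 0, 0 < ρ := self_mem_nhdsWithin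
  have hint : ∀ᶠ ρ : ℝ in 𝓝[>] 0, pos v + (ρ • (pos b - pos v) + ρ • (pos c - pos v)) ∈
      interior (Piece F bd pos (some t)) := by
    filter_upwards [hev, hpos] with ρ h1 h2
    obtain ⟨w, hw1, hw2, hw3⟩ := Rot.wt hrot (B.nd t.1 t.2) h2.le h2.le (by linarith)
    exact (B.pf.int1 t _ w ⟨hw1, hw2 E2 pos⟩ (hw3 h2 h2 (by linarith))).1
  have hq' : Tendsto (fun ρ : ℝ => pos v + (ρ • (pos b - pos v) + ρ • (pos c - pos v))) (𝓝[>] 0)
      (𝓝[interior (Piece F bd pos (some t))] (pos v)) := tendsto_nhdsWithin_iff.2 ⟨hq, hint⟩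
  refine hq'.frequently (Eventually.frequently ?_)
  filter_upwards [hev, hpos, hz.eventually (hb.vert k hk u (Rot.mem hrot')),
    hsm.eventually (eventually_lt_nhds (zero_lt_one : (0 : ℝ) < 1))] with ρ h1 h2 h4 h5
  obtain ⟨w, hw1, hw2, hw3⟩ := Rot.wt hrot (B.nd t.1 t.2) h2.le h2.le (by linarith)
  obtain ⟨w', hw1', hw2', hw3'⟩ := Rot.wt hrot' (B.nd k hk)
    (s := ρ * γ1 / D) (r := ρ * γ2 / D) (by positivity) (by positivity) (by
      have : ρ * γ1 / D + ρ * γ2 / D = ρ * (γ1 + γ2) / D := by ring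
      rw [this]
      exact h5.le)
  have v1 : fE F pos Y0 (pos v + (ρ • (pos b - pos v) + ρ • (pos c - pos v))) =
      Y0 v + (ρ • (Y0 b - Y0 v) + ρ • (Y0 c - Y0 v)) := by
    rw [B.val t.1 t.2 _ w ⟨hw1, hw2 E2 pos⟩, hw2 E3 Y0]
  have v2 : fE F pos Y0 (pos u + ((ρ * γ1 / D) • (pos b' - pos u) +
      (ρ * γ2 / D) • (pos c' - pos u))) =
      Y0 u + ((ρ * γ1 / D) • (Y0 b' - Y0 u) + (ρ * γ2 / D) • (Y0 c' - Y0 u)) := by
    rw [B.val k hk _ w' ⟨hw1', hw2' E2 pos⟩, hw2' E3 Y0]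
  have v3 : fE F pos Y0 (pos v + (ρ • (pos b - pos v) + ρ • (pos c - pos v))) =
      fE F pos Y0 (pos u + ((ρ * γ1 / D) • (pos b' - pos u) +
      (ρ * γ2 / D) • (pos c' - pos u))) + (ρ * τ / D) • N u := by
    rw [v1, v2, y1]
    have e1 : ρ • (Y0 b - Y0 v) + ρ • (Y0 c - Y0 v) =
        (ρ / D) • (D • ((Y0 b - Y0 v) + (Y0 c - Y0 v))) := by
      rw [smul_smul, div_mul_cancel₀ _ hD.ne', smul_add]
    rw [e1, heq, y1, smul_add, smul_add, smul_smul, smul_smul, smul_smul]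
    have e2 : ρ / D * γ1 = ρ * γ1 / D := by ring
    have e3 : ρ / D * γ2 = ρ * γ2 / D := by ring
    have e4 : ρ / D * τ = ρ * τ / D := by ring
    rw [e2, e3, e4, add_assoc (Y0 v)]
  rw [v3, h4, ← hsg]
  constructor
  · intro h
    by_contra hc
    have : 0 ≤ ρ * τ / D := by
      have := not_lt.1 hc
      positivity
    linarith
  · intro h
    have : 0 < ρ * (-τ) / D := by
      have : 0 < -τ := by linarith
      positivity
    have e : ρ * (-τ) / D = -(ρ * τ / D) := by ring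
    linarith

/-! ### second part -/

theorem part2 (B : Base F bd pos Y0) (htw : TwinCert F Y0 g up twin)
    (hsc : SideCert F Y0 N up sg) (hb : Sides0 F bd pos Y0 N b0) (t : {t : Tri // t ∈ F})
    {a b : ℕ} (ha : a ∈ t.1.vs) (hb' : b ∈ t.1.vs) (hab : a ≠ b) {a' b' : ℕ}
    (h : twin a b = some (a', b')) {r : ℝ} (h0 : 0 ≤ r) (h1 : r < 1) :
    ∀ᶠ q in 𝓝[interior (Piece F bd pos (some t))] ((1 - r) • pos a + r • pos b),
        (b0 ((1 - r) • pos a' + r • pos b') (fE F pos Y0 q) ↔ sg a t.1 a' = true) := by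
  have hT := B.twinEdge htw t.2 ha hb' hab h
  set T := interior (Piece F bd pos (some t)) with hTdef
  set f0 := fE F pos Y0 with hf0
  let x : ℝ → E2 := fun r => (1 - r) • pos a + r • pos b
  let u : ℝ → E2 := fun r => (1 - r) • pos a' + r • pos b'
  have hx : Continuous x := by fun_prop
  have hu : Continuous u := by fun_prop
  have hux : ∀ r, 0 ≤ r → r < 1 → f0 (u r) = f0 (x r) := fun r k0 k1 =>
    B.edge_val t.2 ha hb' hab hT k0 k1.le
  have hune : ∀ r, 0 ≤ r → r < 1 → u r ≠ x r := fun r k0 k1 =>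
    B.edge_ne t.2 ha hb' hab hT k0 k1
  have hxP : ∀ r, 0 ≤ r → r < 1 → x r ∈ Piece F bd pos (some t) := fun r k0 k1 =>
    ⟨_, B.ewt t.2 ha hb' hab k0 k1.le⟩
  have hnb : ∀ r, 0 ≤ r → r < 1 → (𝓝[T] (x r)).NeBot := fun r k0 k1 =>
    mem_closure_iff_nhdsWithin_neBot.1 (B.pf.reg _ (hxP r k0 k1))
  -- the side is eventually constant
  have hdich : ∀ r, 0 ≤ r → r < 1 → ∃ β : Prop, ∀ᶠ q in 𝓝[T] (x r), (b0 (u r) (f0 q) ↔ β) := by
    intro r k0 k1
    by_cases hf : ∃ᶠ q in 𝓝[T] (x r), b0 (u r) (f0 q)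
    · refine ⟨True, B.sector hb.sides t (hux r k0 k1) (hune r k0 k1) ?_⟩
      exact hf.mono fun q hq => by simpa using hq
    · refine ⟨False, ?_⟩
      rw [not_frequently] at hf
      filter_upwards [hf] with q hq
      simpa using hq
  -- it is locally constant
  have hloc : ∀ r ∈ Ico (0 : ℝ) 1, ∀ β : Prop, (∀ᶠ q in 𝓝[T] (x r), (b0 (u r) (f0 q) ↔ β)) →
      ∀ᶠ r' in 𝓝[Ico (0 : ℝ) 1] r, ∀ᶠ q in 𝓝[T] (x r'), (b0 (u r') (f0 q) ↔ β) := by
    intro r hr β hβ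
    have e1 : ∀ᶠ r' in 𝓝[Ico (0 : ℝ) 1] r, ∀ᶠ z in 𝓝 (f0 (u r')), (b0 (u r) z ↔ b0 (u r') z) :=
      (hu.continuousAt.eventually (hb.sides.same (u r))).filter_mono nhdsWithin_le_nhds
    have e2 : ∀ᶠ r' in 𝓝[Ico (0 : ℝ) 1] r, ∀ᶠ q in 𝓝 (x r'), q ∈ T → (b0 (u r) (f0 q) ↔ β) :=
      (hx.continuousAt.eventually (eventually_eventually_nhds.2
        (eventually_nhdsWithin_iff.1 hβ))).filter_mono nhdsWithin_le_nhds
    filter_upwards [e1, e2, self_mem_nhdsWithin] with r' k1 k2 k3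
    rw [eventually_nhdsWithin_iff]
    rw [hux r' k3.1 k3.2] at k1
    filter_upwards [B.cont.continuousAt.eventually k1, k2] with q k4 k5 k6
    exact k4.symm.trans (k5 k6)
  have hpre : IsPreconnected (Ico (0 : ℝ) 1) := isPreconnected_Ico
  have key := hpre.induction₂ (fun r r' => ∀ β : Prop,
    (∀ᶠ q in 𝓝[T] (x r), (b0 (u r) (f0 q) ↔ β)) ↔
      (∀ᶠ q in 𝓝[T] (x r'), (b0 (u r') (f0 q) ↔ β))) (by
        intro r hr
        obtain ⟨β0, hβ0⟩ := hdich r hr.1 hr.2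
        filter_upwards [hloc r hr β0 hβ0, self_mem_nhdsWithin] with r' k1 k2 β
        have n1 := hnb r hr.1 hr.2
        have n2 := hnb r' k2.1 k2.2
        constructor
        · intro k3
          obtain ⟨q, q1, q2⟩ := (hβ0.and k3).exists
          have : β0 ↔ β := q1.symm.trans q2
          filter_upwards [k1] with q hq
          exact hq.trans this
        · intro k3
          obtain ⟨q, q1, q2⟩ := (k1.and k3).exists
          have : β0 ↔ β := q1.symm.trans q2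
          filter_upwards [hβ0] with q hq
          exact hq.trans this) (by
        intro r1 r2 r3 _ _ _ k1 k2 β
        exact (k1 β).trans (k2 β)) (by
        intro r1 r2 _ _ k1 β
        exact (k1 β).symm) (x := 0) (y := r) ⟨le_rfl, zero_lt_one⟩ ⟨h0, h1⟩
  refine (key _).1 ?_
  have hx0 : x 0 = pos a := by simp [x]
  have hu0 : u 0 = pos a' := by simp [u]
  rw [hx0, hu0]
  exact part1 B htw hsc hb t ha hT.ua

end ItemZ9

open ItemZ9 in
/-- [48319b Z9] -/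
theorem sideVE (h3 : ExtThm) (h4 : PieceThm) (hz7 : Double0Thm) : SideVE := by
  intro F bd pos Y0 N g Q up twin sg b0 hcx hbd hm ho htw hsc hb
  have B := mkBase h3 h4 hz7 hcx hbd hm ho htw
  exact ⟨fun t v hv u hu => part1 B htw hsc hb t hv hu,
    fun t a ha b hb' hab a' b' h r h0 h1 => part2 B htw hsc hb t ha hb' hab h h0 h1⟩

end Pool.Agent.Work.MP_48319b_gt
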