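import Pool.Agent.Work.MP_48319b_gt.Stmts2

/-!
# MP_48319b_gt : [48319b Z6] the sign data from the chain certificate
-/

open Metric Set Topology

namespace Pool.Agent.Work.MP_48319b_gt

namespace ItemZ6

variable {V : Type*} [AddCommGroup V] [Module ℝ V]

/-- nondegenerate triangle -/
def Nd (t : Tri) : Prop := t.a ≠ t.b ∧ t.a ≠ t.c ∧ t.b ≠ t.c

theorem comb_eq_sum (φ : ℕ → V) (t : Tri) (ht : Nd t) (w : ℕ → ℝ) :
    comb φ t w = ∑ v ∈ ({t.a, t.b, t.c} : Finset ℕ), w v • φ v := by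
  obtain ⟨h1, h2, h3⟩ := ht
  rw [Finset.sum_insert (by simp [h1, h2]), Finset.sum_insert (by simp [h3]),
    Finset.sum_singleton, comb]
  abel

theorem mem_vs_iff (t : Tri) (v : ℕ) : v ∈ t.vs ↔ v ∈ ({t.a, t.b, t.c} : Finset ℕ) := by
  simp [Tri.vs]

/-- the combination only depends on the weights -/
theorem comb_eq_of_isW (φ : ℕ → V) {t t' : Tri} (ht : Nd t) (ht' : Nd t') {w : ℕ → ℝ}
    (h : IsW t w) (h' : IsW t' w) : comb φ t w = comb φ t' w := by
  rw [comb_eq_sum φ t ht, comb_eq_sum φ t' ht']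
  have e1 : ∑ v ∈ ({t.a, t.b, t.c} : Finset ℕ), w v • φ v =
      ∑ v ∈ ({t.a, t.b, t.c} : Finset ℕ) ∪ {t'.a, t'.b, t'.c}, w v • φ v := by
    apply Finset.sum_subset Finset.subset_union_left
    intro v _ hv
    rw [← mem_vs_iff] at hv
    rw [h.supp v hv, zero_smul]
  have e2 : ∑ v ∈ ({t'.a, t'.b, t'.c} : Finset ℕ), w v • φ v =
      ∑ v ∈ ({t.a, t.b, t.c} : Finset ℕ) ∪ {t'.a, t'.b, t'.c}, w v • φ v := by
    apply Finset.sum_subset Finset.subset_union_right
    intro v _ hv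
    rw [← mem_vs_iff] at hv
    rw [h'.supp v hv, zero_smul]
  rw [e1, e2]

theorem comb_lin (φ : ℕ → V) (t : Tri) (w w' : ℕ → ℝ) (a b : ℝ) :
    comb φ t (a • w + b • w') = a • comb φ t w + b • comb φ t w' := by
  simp only [comb, Pi.add_apply, Pi.smul_apply, smul_eq_mul, add_smul, mul_smul, smul_add]
  abel

theorem isW_convex {t : Tri} {w w' : ℕ → ℝ} (h : IsW t w) (h' : IsW t w') {a b : ℝ} (ha : 0 ≤ a)
    (hb : 0 ≤ b) (hab : a + b = 1) : IsW t (a • w + b • w') := by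
  refine ⟨fun v => ?_, fun v hv => ?_, ?_⟩
  · have := mul_nonneg ha (h.nonneg v)
    have := mul_nonneg hb (h'.nonneg v)
    simp only [Pi.add_apply, Pi.smul_apply, smul_eq_mul]
    linarith
  · simp [h.supp v hv, h'.supp v hv]
  · have e1 := h.sum
    have e2 := h'.sum
    simp only [Pi.add_apply, Pi.smul_apply, smul_eq_mul]
    linear_combination a * e1 + b * e2 + hab

theorem isW_le_one {t : Tri} {w : ℕ → ℝ} (h : IsW t w) (v : ℕ) : w v ≤ 1 := by
  have e := h.sum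
  have ha := h.nonneg t.a
  have hb := h.nonneg t.b
  have hc := h.nonneg t.c
  by_cases hv : v ∈ t.vs
  · simp only [Tri.vs, List.mem_cons, List.not_mem_nil, or_false] at hv
    rcases hv with rfl | rfl | rfl <;> linarith
  · rw [h.supp v hv]
    norm_num

theorem isClosed_isW (t : Tri) : IsClosed {w : ℕ → ℝ | IsW t w} := by
  have e : {w : ℕ → ℝ | IsW t w} = {w | ∀ v, 0 ≤ w v} ∩ {w | ∀ v, v ∉ t.vs → w v = 0} ∩
      {w | w t.a + w t.b + w t.c = 1} := by
    ext w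
    constructor
    · intro h
      exact ⟨⟨h.nonneg, h.supp⟩, h.sum⟩
    · rintro ⟨⟨h1, h2⟩, h3⟩
      exact ⟨h1, h2, h3⟩
  rw [e]
  refine (IsClosed.inter ?_ ?_).inter ?_
  · rw [ofPred_forall]
    exact isClosed_iInter fun v => isClosed_le continuous_const (continuous_apply v)
  · simp only [ofPred_forall]
    exact isClosed_iInter fun v => isClosed_iInter fun _ =>
      isClosed_eq (continuous_apply v) continuous_const
  · exact isClosed_eq (by fun_prop) continuous_const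

theorem isCompact_isW (t : Tri) : IsCompact {w : ℕ → ℝ | IsW t w} := by
  refine (isCompact_univ_pi (fun _ : ℕ => isCompact_Icc (a := (0 : ℝ)) (b := 1))).of_isClosed_subset
    (isClosed_isW t) ?_
  intro w hw
  rw [mem_univ_pi]
  exact fun v => ⟨IsW.nonneg hw v, isW_le_one hw v⟩

theorem continuous_comb {E : Type*} [NormedAddCommGroup E] [NormedSpace ℝ E] (φ : ℕ → E)
    (t : Tri) : Continuous fun w : ℕ → ℝ => comb φ t w := by
  unfold comb
  fun_prop

/-- the double segment of a pair of triangles -/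
def S (pos : ℕ → E2) (Y : ℕ → E3) (p : Tri × Tri) : Set (E2 × E2) :=
  {z | ∃ w w', IsWt pos p.1 z.1 w ∧ IsWt pos p.2 z.2 w' ∧ comb Y p.1 w = comb Y p.2 w'}

theorem isCompact_S (pos : ℕ → E2) (Y : ℕ → E3) (p : Tri × Tri) : IsCompact (S pos Y p) := by
  have h1 : IsCompact (({w : ℕ → ℝ | IsW p.1 w} ×ˢ {w : ℕ → ℝ | IsW p.2 w}) ∩
      {u : (ℕ → ℝ) × (ℕ → ℝ) | comb Y p.1 u.1 = comb Y p.2 u.2}) :=
    ((isCompact_isW p.1).prod (isCompact_isW p.2)).inter_right
      (isClosed_eq ((continuous_comb Y p.1).comp continuous_fst)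
        ((continuous_comb Y p.2).comp continuous_snd))
  have h2 : Continuous fun u : (ℕ → ℝ) × (ℕ → ℝ) => (comb pos p.1 u.1, comb pos p.2 u.2) :=
    ((continuous_comb pos p.1).comp continuous_fst).prodMk
      ((continuous_comb pos p.2).comp continuous_snd)
  have h3 := h1.image h2
  convert h3 using 1
  ext z
  constructor
  · rintro ⟨w, w', hw, hw', e⟩
    exact ⟨(w, w'), ⟨⟨hw.1, hw'.1⟩, e⟩, Prod.ext hw.2 hw'.2⟩
  · rintro ⟨⟨w, w'⟩, ⟨⟨hw, hw'⟩, e⟩, rfl⟩
    exact ⟨w, w', ⟨hw, rfl⟩, ⟨hw', rfl⟩, e⟩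

theorem convex_S (pos : ℕ → E2) (Y : ℕ → E3) (p : Tri × Tri) : Convex ℝ (S pos Y p) := by
  rintro z ⟨w, w', hw, hw', e⟩ z' ⟨v, v', hv, hv', e'⟩ a b ha hb hab
  refine ⟨a • w + b • v, a • w' + b • v', ⟨isW_convex hw.1 hv.1 ha hb hab, ?_⟩,
    ⟨isW_convex hw'.1 hv'.1 ha hb hab, ?_⟩, ?_⟩
  · rw [comb_lin, hw.2, hv.2]
    rfl
  · rw [comb_lin, hw'.2, hv'.2]
    rfl
  · rw [comb_lin, comb_lin, e, e']

/-- union over a list -/
def U (pos : ℕ → E2) (Y : ℕ → E3) (l : List (Tri × Tri)) : Set (E2 × E2) :=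
  {z | ∃ p ∈ l, z ∈ S pos Y p}

theorem isCompact_U (pos : ℕ → E2) (Y : ℕ → E3) (l : List (Tri × Tri)) :
    IsCompact (U pos Y l) := by
  induction l with
  | nil =>
    have : U pos Y [] = ∅ := by
      ext z
      simp [U]
    rw [this]
    exact isCompact_empty
  | cons p l ih =>
    have : U pos Y (p :: l) = S pos Y p ∪ U pos Y l := by
      ext z
      simp [U]
    rw [this]
    exact (isCompact_S pos Y p).union ih

theorem link_inter {pos : ℕ → E2} {Y : ℕ → E3} {p q : Tri × Tri} (h : Link Y p q)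
    (hp1 : Nd p.1) (hp2 : Nd p.2) (hq1 : Nd q.1) (hq2 : Nd q.2) :
    ∃ z, z ∈ S pos Y p ∧ z ∈ S pos Y q := by
  obtain ⟨w, w', h1, h2, h3, h4, e⟩ := h
  refine ⟨(comb pos p.1 w, comb pos p.2 w'), ⟨w, w', ⟨h1, rfl⟩, ⟨h3, rfl⟩, e⟩,
    ⟨w, w', ⟨h2, ?_⟩, ⟨h4, ?_⟩, ?_⟩⟩
  · exact comb_eq_of_isW pos hq1 hp1 h2 h1
  · exact comb_eq_of_isW pos hq2 hp2 h4 h3
  · rw [comb_eq_of_isW Y hq1 hp1 h2 h1, comb_eq_of_isW Y hq2 hp2 h4 h3, e]

theorem preconn_chain {pos : ℕ → E2} {Y : ℕ → E3} (rest : List (Tri × Tri)) :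
    ∀ dn : List (Tri × Tri), (∀ p ∈ dn, Nd p.1 ∧ Nd p.2) → (∀ p ∈ rest, Nd p.1 ∧ Nd p.2) →
      IsPreconnected (U pos Y dn) → Chained Y dn rest →
      IsPreconnected (U pos Y dn ∪ U pos Y rest) := by
  induction rest with
  | nil =>
    intro dn _ _ h _
    have : U pos Y [] = ∅ := by
      ext z
      simp [U]
    rw [this, union_empty]
    exact h
  | cons p rest ih =>
    intro dn hd hr h hc
    obtain ⟨⟨q, hq, hl⟩, hc'⟩ := hc
    have hp := hr p (by simp)
    obtain ⟨z, hz1, hz2⟩ := link_inter (pos := pos) hl (hd q hq).1 (hd q hq).2 hp.1 hp.2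
    have e1 : U pos Y (p :: dn) = U pos Y dn ∪ S pos Y p := by
      ext z
      simp [U, or_comm]
    have hpre : IsPreconnected (U pos Y (p :: dn)) := by
      rw [e1]
      exact IsPreconnected.union z ⟨q, hq, hz1⟩ hz2 h (convex_S pos Y p).isPreconnected
    have key := ih (p :: dn) (by
      intro r hr'
      rcases List.mem_cons.1 hr' with rfl | hr'
      · exact hp
      · exact hd r hr') (fun r hr' => hr r (List.mem_cons_of_mem _ hr')) hpre hc'
    have e2 : U pos Y dn ∪ U pos Y (p :: rest) = U pos Y (p :: dn) ∪ U pos Y rest := by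
      ext z
      simp only [U, mem_union, mem_ofPred_eq, List.mem_cons, exists_eq_or_imp]
      rw [or_left_comm, ← or_assoc]
    rw [e2]
    exact key

theorem preconn_U {pos : ℕ → E2} {Y : ℕ → E3} (l : List (Tri × Tri))
    (hnd : ∀ p ∈ l, Nd p.1 ∧ Nd p.2) (hc : ∀ p l', l = p :: l' → Chained Y [p] l') :
    IsPreconnected (U pos Y l) := by
  cases l with
  | nil =>
    have : U pos Y [] = ∅ := by
      ext z
      simp [U]
    rw [this]
    exact isPreconnected_empty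
  | cons p l =>
    have h1 : U pos Y [p] = S pos Y p := by
      ext z
      simp [U]
    have h2 : IsPreconnected (U pos Y [p]) := by
      rw [h1]
      exact (convex_S pos Y p).isPreconnected
    have h3 := preconn_chain (pos := pos) l [p] (by
      intro q hq
      rw [List.mem_singleton] at hq
      subst hq
      exact hnd q (by simp)) (fun q hq => hnd q (List.mem_cons_of_mem _ hq)) h2 (hc p l rfl)
    have h4 : U pos Y (p :: l) = U pos Y [p] ∪ U pos Y l := by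
      ext z
      simp [U]
    rw [h4]
    exact h3

/-- weighted strict inequality -/
theorem weighted_lt {t t' : Tri} {w w' : ℕ → ℝ} (h : IsW t w) (h' : IsW t' w') (a b : ℕ → ℝ)
    (hab : ∀ v ∈ t.vs, ∀ v' ∈ t'.vs, b v' < a v) : comb b t' w' < comb a t w := by
  -- the maximum of `b` on `t'`
  obtain ⟨M, hM1, hM2⟩ : ∃ M, (∀ v' ∈ t'.vs, b v' ≤ M) ∧ ∀ v ∈ t.vs, M < a v := by
    refine ⟨max (b t'.a) (max (b t'.b) (b t'.c)), ?_, ?_⟩
    · intro v' hv'
      simp only [Tri.vs, List.mem_cons, List.not_mem_nil, or_false] at hv'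
      rcases hv' with rfl | rfl | rfl
      · exact le_max_left _ _
      · exact (le_max_left _ _).trans (le_max_right _ _)
      · exact (le_max_right _ _).trans (le_max_right _ _)
    · intro v hv
      refine max_lt ?_ (max_lt ?_ ?_)
      · exact hab v hv _ (by simp [Tri.vs])
      · exact hab v hv _ (by simp [Tri.vs])
      · exact hab v hv _ (by simp [Tri.vs])
  have hb1 := hM1 t'.a (by simp [Tri.vs])
  have hb2 := hM1 t'.b (by simp [Tri.vs])
  have hb3 := hM1 t'.c (by simp [Tri.vs])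
  have ha1 := hM2 t.a (by simp [Tri.vs])
  have ha2 := hM2 t.b (by simp [Tri.vs])
  have ha3 := hM2 t.c (by simp [Tri.vs])
  have e := h.sum
  have e' := h'.sum
  have n1 := h.nonneg t.a
  have n2 := h.nonneg t.b
  have n3 := h.nonneg t.c
  have m1 := h'.nonneg t'.a
  have m2 := h'.nonneg t'.b
  have m3 := h'.nonneg t'.c
  have hle : comb b t' w' ≤ M := by
    unfold comb
    simp only [smul_eq_mul]
    have : M = w' t'.a * M + w' t'.b * M + w' t'.c * M := by
      linear_combination (-M) * e'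
    rw [this]
    gcongr
  refine hle.trans_lt ?_
  unfold comb
  simp only [smul_eq_mul]
  have hM : M = w t.a * M + w t.b * M + w t.c * M := by
    linear_combination (-M) * e
  have g1 := mul_le_mul_of_nonneg_left ha1.le n1
  have g2 := mul_le_mul_of_nonneg_left ha2.le n2
  have g3 := mul_le_mul_of_nonneg_left ha3.le n3
  by_cases c1 : 0 < w t.a
  · have := mul_lt_mul_of_pos_left ha1 c1
    linarith
  by_cases c2 : 0 < w t.b
  · have := mul_lt_mul_of_pos_left ha2 c2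
    linarith
  have c3 : 0 < w t.c := by linarith
  have := mul_lt_mul_of_pos_left ha3 c3
  linarith

theorem comb_inner_add {t : Tri} {w : ℕ → ℝ} (Y : ℕ → E3) (g : ℕ → ℝ) (α : E3)
    (κ : ℝ) : comb (fun v => inner ℝ α (Y v) + κ * g v) t w =
      inner ℝ α (comb Y t w) + κ * comb g t w := by
  unfold comb
  simp only [smul_eq_mul, inner_add_right, inner_smul_right]
  ring

end ItemZ6

open ItemZ6 in
/-- [48319b Z6] -/
theorem signDataThm (_h2 : UniqThm) (h3 : ExtThm) (h4 : PieceThm) (hz2 : NoDoubleThm)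
    (hz4 : DoubleThm) : SignDataThm := by
  intro F bd pos Y g Q X X1 X2 Tl hcx hY hg hmono hout hgen hsign
  have hpf := h4 F bd pos hcx
  have hnd : ∀ p ∈ X, Nd p.1 ∧ Nd p.2 := fun p hp =>
    ⟨hpf.nondeg _ (hgen.sub p hp).1, hpf.nondeg _ (hgen.sub p hp).2⟩
  have hX1 : ∀ p ∈ X1, p ∈ X := fun p hp => (hsign.split p).2 (Or.inl hp)
  have hX2 : ∀ p ∈ X2, p ∈ X := fun p hp => (hsign.split p).2 (Or.inr hp)
  have hfv : ∀ t ∈ F, ∀ x w, IsWt pos t x w → fE F pos Y x = comb Y t w :=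
    (h3 F bd pos hcx E3 Y embL hY).1
  have hgv : ∀ t ∈ F, ∀ x w, IsWt pos t x w → gE F pos g x = comb g t w :=
    (h3 F bd pos hcx ℝ g (0 : E2 →L[ℝ] ℝ) hg).1
  -- heights
  have habove : ∀ p ∈ X, ∀ z ∈ S pos Y p, gE F pos g z.2 < gE F pos g z.1 := by
    rintro p hp z ⟨w, w', hw, hw', e⟩
    obtain ⟨α, κ, hκ, hv⟩ := hgen.above p hp
    have h1 := weighted_lt hw.1 hw'.1 (fun v => inner ℝ α (Y v) + κ * g v)
      (fun v => inner ℝ α (Y v) + κ * g v) hv
    rw [comb_inner_add, comb_inner_add, e] at h1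
    rw [hgv _ (hgen.sub p hp).1 _ _ hw, hgv _ (hgen.sub p hp).2 _ _ hw']
    have h2 : κ * comb g p.2 w' < κ * comb g p.1 w := by linarith
    exact lt_of_mul_lt_mul_left h2 hκ.le
  have hDD : ∀ p ∈ X, ∀ z ∈ S pos Y p, z ∈ DD (fE F pos Y) := by
    intro p hp z hz
    have h1 := habove p hp z hz
    refine ⟨fun h => ?_, ?_⟩
    · rw [h] at h1
      exact lt_irrefl _ h1
    · obtain ⟨w, w', hw, hw', e⟩ := hz
      rw [hfv _ (hgen.sub p hp).1 _ _ hw, hfv _ (hgen.sub p hp).2 _ _ hw', e]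
  refine ⟨U pos Y X1, U pos Y X2, ⟨isCompact_U pos Y X1, isCompact_U pos Y X2,
    preconn_U X1 (fun p hp => hnd p (hX1 p hp)) hsign.chain1,
    preconn_U X2 (fun p hp => hnd p (hX2 p hp)) hsign.chain2, ?_, ?_, ?_, ?_, ?_⟩⟩
  · rintro z ⟨p, hp, hz⟩
    exact hDD p (hX1 p hp) z hz
  · rintro z ⟨p, hp, hz⟩
    exact hDD p (hX2 p hp) z hz
  · rintro p q ⟨hne, hpq⟩
    simp only at hne hpq
    obtain ⟨⟨t, ht, w, hw⟩, ⟨t', ht', w', hw'⟩, -⟩ := hz2 F bd pos Y Y Q hcx hY hY hmono hmono hout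
      hout 0 ⟨le_refl _, zero_le_one⟩ p q (by simp [hpq]) hne
    have hX := ((hz4 F bd pos Y g Q X Tl hcx hY hmono hout hgen p q hne hpq).1 t ht t' ht' w w' hw
      hw').1
    have e : comb Y t w = comb Y t' w' := by
      rw [← hfv t ht _ _ hw, ← hfv t' ht' _ _ hw', hpq]
    rcases hX with hX | hX
    · left
      rcases (hsign.split _).1 hX with h | h
      · exact Or.inl ⟨_, h, w, w', hw, hw', e⟩
      · exact Or.inr ⟨_, h, w, w', hw, hw', e⟩
    · right
      rcases (hsign.split _).1 hX with h | h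
      · exact Or.inl ⟨_, h, w', w, hw', hw, e.symm⟩
      · exact Or.inr ⟨_, h, w', w, hw', hw, e.symm⟩
  · rintro p q (⟨r, hr, hz⟩ | ⟨r, hr, hz⟩)
    · exact habove r (hX1 r hr) _ hz
    · exact habove r (hX2 r hr) _ hz
  · obtain ⟨t1, t2, t3, w1, w2, w3, h12, h23, h13, hw1, hw2, hw3, e12, e23⟩ := hsign.tie
    exact ⟨comb pos t1 w1, comb pos t2 w2, comb pos t3 w3,
      ⟨_, h12, w1, w2, ⟨hw1, rfl⟩, ⟨hw2, rfl⟩, e12⟩, ⟨_, h23, w2, w3, ⟨hw2, rfl⟩, ⟨hw3, rfl⟩, e23⟩,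
      ⟨_, h13, w1, w3, ⟨hw1, rfl⟩, ⟨hw3, rfl⟩, e12.trans e23⟩⟩

end Pool.Agent.Work.MP_48319b_gt
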