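import Pool.Agent.Work.MP_48319b_gt.Stmts2
import Pool.Agent.Work.MP_48319b_gt.Bd.B01

/-!
# [48319b Z5] triple and quadruple points of the generic map
-/

open Metric Set Topology

namespace Pool.Agent.Work.MP_48319b_gt

namespace ItemZ5

/-! ### weighted sums -/

lemma wsum_lt {t : Tri} {w : ℕ → ℝ} (hw : IsW t w) {a : ℕ → ℝ} {c : ℝ}
    (h : ∀ v ∈ t.vs, a v < c) : w t.a * a t.a + w t.b * a t.b + w t.c * a t.c < c := by
  have h1 := h t.a (by simp [Tri.vs])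
  have h2 := h t.b (by simp [Tri.vs])
  have h3 := h t.c (by simp [Tri.vs])
  have n1 := hw.nonneg t.a
  have n2 := hw.nonneg t.b
  have n3 := hw.nonneg t.c
  have hs := hw.sum
  have e1 := mul_le_mul_of_nonneg_left h1.le n1
  have e2 := mul_le_mul_of_nonneg_left h2.le n2
  have e3 := mul_le_mul_of_nonneg_left h3.le n3
  have e4 : w t.a * c + w t.b * c + w t.c * c = c := by
    rw [← add_mul, ← add_mul, hs, one_mul]
  by_contra hcon
  push Not at hcon
  have f1 : w t.a * (c - a t.a) = 0 := by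
    have := mul_nonneg n1 (sub_nonneg.mpr h1.le)
    nlinarith [mul_nonneg n2 (sub_nonneg.mpr h2.le), mul_nonneg n3 (sub_nonneg.mpr h3.le)]
  have f2 : w t.b * (c - a t.b) = 0 := by
    have := mul_nonneg n2 (sub_nonneg.mpr h2.le)
    nlinarith [mul_nonneg n1 (sub_nonneg.mpr h1.le), mul_nonneg n3 (sub_nonneg.mpr h3.le)]
  have f3 : w t.c * (c - a t.c) = 0 := by
    have := mul_nonneg n3 (sub_nonneg.mpr h3.le)
    nlinarith [mul_nonneg n1 (sub_nonneg.mpr h1.le), mul_nonneg n2 (sub_nonneg.mpr h2.le)]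
  have g1 : w t.a = 0 := by
    rcases mul_eq_zero.mp f1 with h | h
    · exact h
    · linarith
  have g2 : w t.b = 0 := by
    rcases mul_eq_zero.mp f2 with h | h
    · exact h
    · linarith
  have g3 : w t.c = 0 := by
    rcases mul_eq_zero.mp f3 with h | h
    · exact h
    · linarith
  rw [g1, g2, g3] at hs
  norm_num at hs

/-- the weighted sum of a real function -/
def ws (t : Tri) (w : ℕ → ℝ) (a : ℕ → ℝ) : ℝ := w t.a * a t.a + w t.b * a t.b + w t.c * a t.c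

lemma ws_lt_ws {t t' : Tri} {w w' : ℕ → ℝ} (hw : IsW t w) (hw' : IsW t' w') {a b : ℕ → ℝ}
    (h : ∀ v ∈ t.vs, ∀ v' ∈ t'.vs, b v' < a v) : ws t' w' b < ws t w a := by
  have h1 : ∀ v ∈ t.vs, ws t' w' b < a v := fun v hv => wsum_lt hw' (fun v' hv' => h v hv v' hv')
  have h2 : ∀ v ∈ t.vs, (fun v => -a v) v < -ws t' w' b := fun v hv => neg_lt_neg (h1 v hv)
  have h3 := wsum_lt hw h2
  have h4 : w t.a * -a t.a + w t.b * -a t.b + w t.c * -a t.c = -ws t w a := by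
    rw [ws]
    ring
  rw [h4] at h3
  linarith

lemma ws_three {t1 t2 t3 : Tri} {w1 w2 w3 : ℕ → ℝ} (h1 : IsW t1 w1) (h2 : IsW t2 w2)
    (h3 : IsW t3 w3) {a b c : ℕ → ℝ}
    (h : ∀ v1 ∈ t1.vs, ∀ v2 ∈ t2.vs, ∀ v3 ∈ t3.vs, a v1 + b v2 + c v3 < 0) :
    ws t1 w1 a + ws t2 w2 b + ws t3 w3 c < 0 := by
  have g1 : ∀ v1 ∈ t1.vs, ∀ v2 ∈ t2.vs, ws t3 w3 c < -a v1 - b v2 := fun v1 hv1 v2 hv2 =>
    wsum_lt h3 (fun v3 hv3 => by linarith [h v1 hv1 v2 hv2 v3 hv3])
  have g2 : ∀ v1 ∈ t1.vs, ws t2 w2 b < -a v1 - ws t3 w3 c := fun v1 hv1 =>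
    wsum_lt h2 (fun v2 hv2 => by linarith [g1 v1 hv1 v2 hv2])
  have g3 : ws t1 w1 a < -ws t2 w2 b - ws t3 w3 c :=
    wsum_lt h1 (fun v1 hv1 => by linarith [g2 v1 hv1])
  linarith

lemma inner_comb (α : E3) (Y : ℕ → E3) (t : Tri) (w : ℕ → ℝ) :
    inner ℝ α (comb Y t w) = ws t w (fun v => inner ℝ α (Y v)) := by
  rw [comb, ws, inner_add_right, inner_add_right, inner_smul_right, inner_smul_right,
    inner_smul_right]

lemma comb_real (g : ℕ → ℝ) (t : Tri) (w : ℕ → ℝ) : comb g t w = ws t w g := rfl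

/-! ### linear algebra -/

lemma inner_E3 (u v : E3) : inner ℝ u v = u 0 * v 0 + u 1 * v 1 + u 2 * v 2 := by
  rw [PiLp.inner_apply, Fin.sum_univ_three]
  simp only [RCLike.inner_apply, conj_trivial]
  ring

lemma crs0 (u v : E3) : crs u v 0 = u 1 * v 2 - u 2 * v 1 := rfl
lemma crs1 (u v : E3) : crs u v 1 = u 2 * v 0 - u 0 * v 2 := rfl
lemma crs2 (u v : E3) : crs u v 2 = u 0 * v 1 - u 1 * v 0 := rfl

lemma inner_crs_left (u v : E3) : inner ℝ (crs u v) u = 0 := by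
  rw [inner_E3, crs0, crs1, crs2]
  ring

lemma inner_crs_right (u v : E3) : inner ℝ (crs u v) v = 0 := by
  rw [inner_E3, crs0, crs1, crs2]
  ring

lemma eq_zero_of_det {a b c z : E3} (h : det3 a b c ≠ 0) (ha : inner ℝ a z = 0)
    (hb : inner ℝ b z = 0) (hc : inner ℝ c z = 0) : z = 0 := by
  rw [inner_E3] at ha hb hc
  have e0 : det3 a b c * z 0 = 0 := by
    rw [det3]
    linear_combination (b 1 * c 2 - b 2 * c 1) * ha + (c 1 * a 2 - c 2 * a 1) * hb +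
      (a 1 * b 2 - a 2 * b 1) * hc
  have e1 : det3 a b c * z 1 = 0 := by
    rw [det3]
    linear_combination (b 2 * c 0 - b 0 * c 2) * ha + (c 2 * a 0 - c 0 * a 2) * hb +
      (a 2 * b 0 - a 0 * b 2) * hc
  have e2 : det3 a b c * z 2 = 0 := by
    rw [det3]
    linear_combination (b 0 * c 1 - b 1 * c 0) * ha + (c 0 * a 1 - c 1 * a 0) * hb +
      (a 0 * b 1 - a 1 * b 0) * hc
  have f0 := (mul_eq_zero.mp e0).resolve_left h
  have f1 := (mul_eq_zero.mp e1).resolve_left h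
  have f2 := (mul_eq_zero.mp e2).resolve_left h
  ext i
  fin_cases i
  · exact f0
  · exact f1
  · exact f2

lemma exists_coords {u v : E2} (h : det2 u v ≠ 0) (x : E2) : ∃ s r : ℝ, x = s • u + r • v := by
  refine ⟨det2 x v / det2 u v, det2 u x / det2 u v, ?_⟩
  ext i
  fin_cases i
  · show x 0 = det2 x v / det2 u v * u 0 + det2 u x / det2 u v * v 0
    field_simp
    rw [det2, det2, det2]
    ring
  · show x 1 = det2 x v / det2 u v * u 1 + det2 u x / det2 u v * v 1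
    field_simp
    rw [det2, det2, det2]
    ring

/-- four different elements of a list of length three -/
lemma no_four {l : List Tri} (hl : l.length = 3) {a b c d : Tri} (ha : a ∈ l) (hb : b ∈ l)
    (hc : c ∈ l) (hd : d ∈ l) (hab : a ≠ b) (hac : a ≠ c) (had : a ≠ d) (hbc : b ≠ c)
    (hbd : b ≠ d) (hcd : c ≠ d) : False := by
  have h1 : ({a, b, c, d} : Finset Tri) ⊆ l.toFinset := by
    intro x hx
    simp only [Finset.mem_insert, Finset.mem_singleton] at hx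
    rw [List.mem_toFinset]
    rcases hx with rfl | rfl | rfl | rfl
    · exact ha
    · exact hb
    · exact hc
    · exact hd
  have h2 : ({a, b, c, d} : Finset Tri).card = 4 := by
    rw [Finset.card_insert_of_notMem, Finset.card_insert_of_notMem, Finset.card_insert_of_notMem,
      Finset.card_singleton]
    · simpa using hcd
    · simp only [Finset.mem_insert, Finset.mem_singleton, not_or]
      exact ⟨hbc, hbd⟩
    · simp only [Finset.mem_insert, Finset.mem_singleton, not_or]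
      exact ⟨hab, hac, had⟩
  have h3 := Finset.card_le_card h1
  have h4 := l.toFinset_card_le
  omega

lemma tf_swap12 {f : E2 → E3} {p q r : E2} (h : TripleFlat f p q r) : TripleFlat f q p r := by
  obtain ⟨A, B, C, ρ, h0, h1, h2, h3, h4⟩ := h
  exact ⟨B, A, C, ρ, h0, h2, h1, h3, by rw [inf_comm (LinearMap.range (B : E2 →ₗ[ℝ] E3)), h4]⟩

/-! ### the data -/

/-- the hypotheses and the conclusions of the earlier items -/
structure Dat (F : List Tri) (bd : List (ℕ × ℕ)) (pos : ℕ → E2) (Y : ℕ → E3) (g : ℕ → ℝ)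
    (X : List (Tri × Tri)) (Tl : List (List Tri)) (A : Idx F → E2 →L[ℝ] E3) : Prop where
  cx : PlaneCx F bd pos
  gen : GenCert F Y g X Tl
  pf : PieceFacts F bd pos
  eY : ∀ t ∈ F, ∀ x w, IsWt pos t x w → fE F pos Y x = comb Y t w
  eg : ∀ t ∈ F, ∀ x w, IsWt pos t x w → gE F pos g x = comb g t w
  lin : LinParts F pos Y embL A
  pa : PA (Piece F bd pos) (fE F pos Y) A
  nd : ∀ x y, x ≠ y → fE F pos Y x = fE F pos Y y →
    (∃ t ∈ F, ∃ w, IsWt pos t x w) ∧ x ∉ Piece F bd pos none ∧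
    ∀ t ∈ F, ∀ t' ∈ F, ∀ w w', IsWt pos t x w → IsWt pos t' y w' → ¬ Share t t'
  dd : ∀ x y, x ≠ y → fE F pos Y x = fE F pos Y y →
    ∀ t ∈ F, ∀ t' ∈ F, ∀ w w', IsWt pos t x w → IsWt pos t' y w' → (t, t') ∈ X ∨ (t', t) ∈ X

variable {F : List Tri} {bd : List (ℕ × ℕ)} {pos : ℕ → E2} {Y : ℕ → E3} {g : ℕ → ℝ}
  {X : List (Tri × Tri)} {Tl : List (List Tri)} {A : Idx F → E2 →L[ℝ] E3}

lemma Dat.ne (D : Dat F bd pos Y g X Tl A) {x y : E2} (hxy : x ≠ y)
    (he : fE F pos Y x = fE F pos Y y) {t t' : Tri} (ht : t ∈ F) (ht' : t' ∈ F) {w w' : ℕ → ℝ}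
    (hw : IsWt pos t x w) (hw' : IsWt pos t' y w') : t ≠ t' := by
  rintro rfl
  exact (D.nd x y hxy he).2.2 t ht t ht' w w' hw hw' ⟨t.a, by simp [Tri.vs], by simp [Tri.vs]⟩

lemma Dat.height (D : Dat F bd pos Y g X Tl A) {x y : E2}
    (he : fE F pos Y x = fE F pos Y y) {t t' : Tri} {w w' : ℕ → ℝ}
    (hw : IsWt pos t x w) (hw' : IsWt pos t' y w') (hX : (t, t') ∈ X) :
    gE F pos g y < gE F pos g x := by
  obtain ⟨ht, ht'⟩ := D.gen.sub _ hX
  obtain ⟨α, κ, hκ, h⟩ := D.gen.above _ hX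
  have h1 := ws_lt_ws hw.1 hw'.1 (a := fun v => inner ℝ α (Y v) + κ * g v)
    (b := fun v => inner ℝ α (Y v) + κ * g v) h
  have h2 : ∀ (t : Tri) (w : ℕ → ℝ), ws t w (fun v => inner ℝ α (Y v) + κ * g v) =
      inner ℝ α (comb Y t w) + κ * comb g t w := by
    intro t w
    rw [inner_comb, comb_real, ws, ws, ws]
    ring
  rw [h2, h2, ← D.eY t ht x w hw, ← D.eY t' ht' y w' hw', ← D.eg t ht x w hw,
    ← D.eg t' ht' y w' hw', he] at h1
  have h3 : κ * gE F pos g y < κ * gE F pos g x := by linarith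
  exact lt_of_mul_lt_mul_left h3 hκ.le

lemma Dat.sorted (D : Dat F bd pos Y g X Tl A) {x y z : E2}
    (hxy : fE F pos Y x = fE F pos Y y) (hyz : fE F pos Y y = fE F pos Y z)
    {t1 t2 t3 : Tri} {w1 w2 w3 : ℕ → ℝ} (h1 : IsWt pos t1 x w1) (h2 : IsWt pos t2 y w2)
    (h3 : IsWt pos t3 z w3) (h12 : (t1, t2) ∈ X) (h23 : (t2, t3) ∈ X) (h13 : (t1, t3) ∈ X) :
    ∃ l ∈ Tl, t1 ∈ l ∧ t2 ∈ l ∧ t3 ∈ l := by
  rcases D.gen.trip _ h12 _ h23 rfl h13 with h | h
  · exfalso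
    obtain ⟨m1, m2, m3, hm, h⟩ := h
    have h4 := ws_three h1.1 h2.1 h3.1 h
    rw [← inner_comb, ← inner_comb, ← inner_comb] at h4
    have e1 := D.eY t1 (D.gen.sub _ h12).1 x w1 h1
    have e2 := D.eY t2 (D.gen.sub _ h12).2 y w2 h2
    have e3 := D.eY t3 (D.gen.sub _ h13).2 z w3 h3
    change inner ℝ m1 (comb Y t1 w1) + inner ℝ m2 (comb Y t2 w2) + inner ℝ m3 (comb Y t3 w3) < 0
      at h4
    rw [← e1, ← e2, ← e3, hxy, hyz, ← inner_add_left, ← inner_add_left, hm, inner_zero_left] at h4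
    exact lt_irrefl _ h4
  · exact h

lemma Dat.list (D : Dat F bd pos Y g X Tl A) {x y z : E2} (nxy : x ≠ y) (nyz : y ≠ z)
    (nxz : x ≠ z) (hxy : fE F pos Y x = fE F pos Y y) (hyz : fE F pos Y y = fE F pos Y z)
    {t1 t2 t3 : Tri} (m1 : t1 ∈ F) (m2 : t2 ∈ F) (m3 : t3 ∈ F) {w1 w2 w3 : ℕ → ℝ}
    (h1 : IsWt pos t1 x w1) (h2 : IsWt pos t2 y w2) (h3 : IsWt pos t3 z w3) :
    ∃ l ∈ Tl, t1 ∈ l ∧ t2 ∈ l ∧ t3 ∈ l := by
  have hxz := hxy.trans hyz
  rcases D.dd x y nxy hxy t1 m1 t2 m2 w1 w2 h1 h2 with a | a <;>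
  rcases D.dd y z nyz hyz t2 m2 t3 m3 w2 w3 h2 h3 with b | b <;>
  rcases D.dd x z nxz hxz t1 m1 t3 m3 w1 w3 h1 h3 with c | c
  · exact D.sorted hxy hyz h1 h2 h3 a b c
  · exfalso
    have := D.height hxy h1 h2 a
    have := D.height hyz h2 h3 b
    have := D.height hxz.symm h3 h1 c
    linarith
  · obtain ⟨l, hl, g1, g2, g3⟩ := D.sorted hxz hyz.symm h1 h3 h2 c b a
    exact ⟨l, hl, g1, g3, g2⟩
  · obtain ⟨l, hl, g1, g2, g3⟩ := D.sorted hxz.symm hxy h3 h1 h2 c a b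
    exact ⟨l, hl, g2, g3, g1⟩
  · obtain ⟨l, hl, g1, g2, g3⟩ := D.sorted hxy.symm hxz h2 h1 h3 a c b
    exact ⟨l, hl, g2, g1, g3⟩
  · obtain ⟨l, hl, g1, g2, g3⟩ := D.sorted hyz hxz.symm h2 h3 h1 b c a
    exact ⟨l, hl, g3, g1, g2⟩
  · exfalso
    have := D.height hxy.symm h2 h1 a
    have := D.height hyz.symm h3 h2 b
    have := D.height hxz h1 h3 c
    linarith
  · obtain ⟨l, hl, g1, g2, g3⟩ := D.sorted hyz.symm hxy.symm h3 h2 h1 b a c
    exact ⟨l, hl, g3, g2, g1⟩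

/-- a point on an edge of `t`, not on the boundary, is in a neighbour of `t` -/
lemma Dat.neighbour (D : Dat F bd pos Y g X Tl A) {x : E2} (hx : x ∉ Piece F bd pos none)
    {t : Tri} (ht : t ∈ F) {w : ℕ → ℝ} (hw : IsWt pos t x w) {e : ℕ × ℕ} (he : e ∈ t.es)
    (h0 : ∀ v, v ≠ e.1 → v ≠ e.2 → w v = 0) : ∃ t' ∈ F, t' ≠ t ∧ IsWt pos t' x w := by
  obtain ⟨n1, n2, n3⟩ := D.pf.nondeg t ht
  have hsum : w e.1 + w e.2 = 1 ∧ w e.1 • pos e.1 + w e.2 • pos e.2 = x ∧ e.1 ≠ e.2 := by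
    have hs := hw.1.sum
    have hc := hw.2
    rw [comb] at hc
    simp only [Tri.es, List.mem_cons, List.not_mem_nil, or_false] at he
    rcases he with rfl | rfl | rfl
    · have := h0 t.c n2.symm n3.symm
      rw [this] at hs hc
      refine ⟨by linarith, ?_, n1⟩
      rw [← hc, zero_smul, add_zero]
    · have := h0 t.a n1 n2
      rw [this] at hs hc
      refine ⟨by linarith, ?_, n3⟩
      rw [← hc, zero_smul, zero_add]
    · have := h0 t.b n3 n1.symm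
      rw [this] at hs hc
      refine ⟨by linarith, ?_, n2.symm⟩
      rw [← hc, zero_smul, add_zero, add_comm]
  obtain ⟨hs, hc, hne⟩ := hsum
  rcases D.cx.edge t ht e he with hb | ⟨t', ht', he'⟩
  · exfalso
    apply hx
    refine ⟨e, hb, le_of_eq ?_⟩
    have e1 : x 0 = w e.1 * pos e.1 0 + w e.2 * pos e.2 0 := by rw [← hc]; rfl
    have e2 : x 1 = w e.1 * pos e.1 1 + w e.2 * pos e.2 1 := by rw [← hc]; rfl
    have e3 : w e.1 = 1 - w e.2 := by linarith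
    show (pos e.2 - pos e.1) 0 * (x - pos e.1) 1 - (pos e.2 - pos e.1) 1 * (x - pos e.1) 0 = 0
    simp only [PiLp.sub_apply]
    rw [e1, e2, e3]
    ring
  · obtain ⟨k1, k2, k3⟩ := D.pf.nondeg t' ht'
    refine ⟨t', ht', ?_, ⟨hw.1.nonneg, ?_, ?_⟩, ?_⟩
    · rintro rfl
      simp only [Tri.es, List.mem_cons, List.not_mem_nil, or_false] at he he'
      rcases he with rfl | rfl | rfl <;> simp only [Prod.mk.injEq] at he' <;>
        rcases he' with h | h | h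
      · exact n1 h.2
      · exact n2 h.2
      · exact n3 h.1
      · exact n2 h.1.symm
      · exact n3 h.2
      · exact n1 h.2.symm
      · exact n3 h.2.symm
      · exact n1 h.1
      · exact n2 h.2.symm
    · intro v hv
      apply h0
      · rintro rfl
        apply hv
        simp only [Tri.es, List.mem_cons, List.not_mem_nil, or_false, Prod.mk.injEq] at he'
        rcases he' with h | h | h
        · rw [h.2]; simp [Tri.vs]
        · rw [h.2]; simp [Tri.vs]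
        · rw [h.2]; simp [Tri.vs]
      · rintro rfl
        apply hv
        simp only [Tri.es, List.mem_cons, List.not_mem_nil, or_false, Prod.mk.injEq] at he'
        rcases he' with h | h | h
        · rw [h.1]; simp [Tri.vs]
        · rw [h.1]; simp [Tri.vs]
        · rw [h.1]; simp [Tri.vs]
    · simp only [Tri.es, List.mem_cons, List.not_mem_nil, or_false, Prod.mk.injEq] at he'
      rcases he' with h | h | h
      · have := h0 t'.c (by rw [h.2]; exact k3.symm) (by rw [h.1]; exact k2.symm)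
        rw [this, ← h.1, ← h.2]
        linarith
      · have := h0 t'.a (by rw [h.2]; exact k2) (by rw [h.1]; exact k1)
        rw [this, ← h.1, ← h.2]
        linarith
      · have := h0 t'.b (by rw [h.2]; exact k1.symm) (by rw [h.1]; exact k3)
        rw [this, ← h.1, ← h.2]
        linarith
    · rw [comb]
      simp only [Tri.es, List.mem_cons, List.not_mem_nil, or_false, Prod.mk.injEq] at he'
      rcases he' with h | h | h
      · have := h0 t'.c (by rw [h.2]; exact k3.symm) (by rw [h.1]; exact k2.symm)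
        rw [this, ← h.1, ← h.2, zero_smul, add_zero, add_comm]
        exact hc
      · have := h0 t'.a (by rw [h.2]; exact k2) (by rw [h.1]; exact k1)
        rw [this, ← h.1, ← h.2, zero_smul, zero_add, add_comm]
        exact hc
      · have := h0 t'.b (by rw [h.2]; exact k1.symm) (by rw [h.1]; exact k3)
        rw [this, ← h.1, ← h.2, zero_smul, add_zero]
        exact hc

lemma Dat.interior (D : Dat F bd pos Y g X Tl A) {x y z : E2} (nxy : x ≠ y) (nyz : y ≠ z)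
    (nxz : x ≠ z) (hxy : fE F pos Y x = fE F pos Y y) (hyz : fE F pos Y y = fE F pos Y z)
    {t : Tri} (ht : t ∈ F) {w : ℕ → ℝ} (hw : IsWt pos t x w) : ∀ v ∈ t.vs, 0 < w v := by
  intro v hv
  by_contra hcon
  have hv0 : w v = 0 := le_antisymm (not_lt.mp hcon) (hw.1.nonneg v)
  have hxp := (D.nd x y nxy hxy).2.1
  obtain ⟨n1, n2, n3⟩ := D.pf.nondeg t ht
  have hsupp : ∃ e ∈ t.es, ∀ u, u ≠ e.1 → u ≠ e.2 → w u = 0 := by
    simp only [Tri.vs, List.mem_cons, List.not_mem_nil, or_false] at hv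
    rcases hv with rfl | rfl | rfl
    · refine ⟨(t.b, t.c), by simp [Tri.es], ?_⟩
      intro u h1 h2
      by_cases hu : u = t.a
      · rw [hu]; exact hv0
      · exact hw.1.supp u (by simp [Tri.vs]; exact ⟨hu, h1, h2⟩)
    · refine ⟨(t.c, t.a), by simp [Tri.es], ?_⟩
      intro u h1 h2
      by_cases hu : u = t.b
      · rw [hu]; exact hv0
      · exact hw.1.supp u (by simp [Tri.vs]; exact ⟨h2, hu, h1⟩)
    · refine ⟨(t.a, t.b), by simp [Tri.es], ?_⟩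
      intro u h1 h2
      by_cases hu : u = t.c
      · rw [hu]; exact hv0
      · exact hw.1.supp u (by simp [Tri.vs]; exact ⟨h1, h2, hu⟩)
  obtain ⟨e, he, h0⟩ := hsupp
  obtain ⟨t', ht', hne, hw'⟩ := D.neighbour hxp ht hw he h0
  obtain ⟨t2, m2, w2, h2⟩ := (D.nd y z nyz hyz).1
  obtain ⟨t3, m3, w3, h3⟩ := (D.nd z y nyz.symm hyz.symm).1
  obtain ⟨l, hl, a1, a2, a3⟩ := D.list nxy nyz nxz hxy hyz ht m2 m3 hw h2 h3
  obtain ⟨l', hl', b1, b2, b3⟩ := D.list nxy nyz nxz hxy hyz ht' m2 m3 hw' h2 h3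
  have h23 := D.ne nyz hyz m2 m3 h2 h3
  have hll : l = l' := by
    by_contra hll
    exact h23 (D.gen.tshare l hl l' hl' hll t2 a2 t3 a3 b2 b3)
  subst hll
  exact no_four (D.gen.tlen l hl) a1 b1 a2 a3 hne.symm (D.ne nxy hxy ht m2 hw h2)
    (D.ne nxz (hxy.trans hyz) ht m3 hw h3) (D.ne nxy hxy ht' m2 hw' h2)
    (D.ne nxz (hxy.trans hyz) ht' m3 hw' h3) h23

lemma Dat.flat (D : Dat F bd pos Y g X Tl A) {x : E2} {t : Tri} (ht : t ∈ F) {w : ℕ → ℝ}
    (hw : IsWt pos t x w) (hpos : ∀ v ∈ t.vs, 0 < w v) :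
    ∃ r > 0, AffAt (fE F pos Y) x (A (some ⟨t, ht⟩)) r := by
  apply pAAff D.pa
  intro i hi
  rw [(D.pf.int1 ⟨t, ht⟩ x w hw hpos).2 i hi]

lemma Dat.range (D : Dat F bd pos Y g X Tl A) {t : Tri} (ht : t ∈ F) {z : E3}
    (hz : z ∈ LinearMap.range (A (some ⟨t, ht⟩) : E2 →ₗ[ℝ] E3)) : inner ℝ (nrm Y t) z = 0 := by
  obtain ⟨u, rfl⟩ := hz
  obtain ⟨s, r, rfl⟩ := exists_coords (D.cx.orient t ht).ne' u
  obtain ⟨h1, h2⟩ := D.lin.tri ⟨t, ht⟩
  show inner ℝ (nrm Y t) (A (some ⟨t, ht⟩) (s • (pos t.b - pos t.a) + r • (pos t.c - pos t.a))) = 0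
  rw [map_add, map_smul, map_smul, h1, h2, inner_add_right, inner_smul_right, inner_smul_right,
    nrm, inner_crs_left, inner_crs_right]
  ring

lemma affAt_mono {f : E2 → E3} {x : E2} {B : E2 →L[ℝ] E3} {r r' : ℝ} (h : AffAt f x B r)
    (hr : r' ≤ r) : AffAt f x B r' := fun p hp => h p (ball_subset_ball hr hp)

lemma Dat.triple (D : Dat F bd pos Y g X Tl A) {x y z : E2} (nxy : x ≠ y) (nyz : y ≠ z)
    (nxz : x ≠ z) (hxy : fE F pos Y x = fE F pos Y y) (hyz : fE F pos Y y = fE F pos Y z) :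
    TripleFlat (fE F pos Y) x y z := by
  have hxz := hxy.trans hyz
  obtain ⟨t1, m1, w1, h1⟩ := (D.nd x y nxy hxy).1
  obtain ⟨t2, m2, w2, h2⟩ := (D.nd y z nyz hyz).1
  obtain ⟨t3, m3, w3, h3⟩ := (D.nd z y nyz.symm hyz.symm).1
  obtain ⟨l, hl, a1, a2, a3⟩ := D.list nxy nyz nxz hxy hyz m1 m2 m3 h1 h2 h3
  obtain ⟨r1, p1, f1⟩ := D.flat m1 h1 (D.interior nxy nyz nxz hxy hyz m1 h1)
  obtain ⟨r2, p2, f2⟩ := D.flat m2 h2 (D.interior nxy.symm nxz nyz hxy.symm hxz m2 h2)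
  obtain ⟨r3, p3, f3⟩ := D.flat m3 h3 (D.interior nyz.symm nxy.symm nxz.symm hyz.symm hxy.symm
    m3 h3)
  refine ⟨_, _, _, min r1 (min r2 r3), lt_min p1 (lt_min p2 p3),
    affAt_mono f1 (min_le_left _ _), affAt_mono f2 ((min_le_right _ _).trans (min_le_left _ _)),
    affAt_mono f3 ((min_le_right _ _).trans (min_le_right _ _)), ?_⟩
  rw [eq_bot_iff]
  rintro v ⟨⟨hv1, hv2⟩, hv3⟩
  have hdet := D.gen.tdet l hl t1 a1 t2 a2 t3 a3 (D.ne nxy hxy m1 m2 h1 h2)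
    (D.ne nxz hxz m1 m3 h1 h3) (D.ne nyz hyz m2 m3 h2 h3)
  rw [Submodule.mem_bot]
  exact eq_zero_of_det hdet (D.range m1 hv1) (D.range m2 hv2) (D.range m3 hv3)

lemma Dat.quad (D : Dat F bd pos Y g X Tl A) {p q r s : E2} (npq : p ≠ q) (npr : p ≠ r)
    (nps : p ≠ s) (nqr : q ≠ r) (nqs : q ≠ s) (nrs : r ≠ s) (hpq : fE F pos Y p = fE F pos Y q)
    (hqr : fE F pos Y q = fE F pos Y r) (hrs : fE F pos Y r = fE F pos Y s) : False := by
  have hqs := hqr.trans hrs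
  obtain ⟨t1, m1, w1, h1⟩ := (D.nd p q npq hpq).1
  obtain ⟨t2, m2, w2, h2⟩ := (D.nd q r nqr hqr).1
  obtain ⟨t3, m3, w3, h3⟩ := (D.nd r s nrs hrs).1
  obtain ⟨t4, m4, w4, h4⟩ := (D.nd s r nrs.symm hrs.symm).1
  obtain ⟨l, hl, a1, a2, a3⟩ := D.list npq nqr npr hpq hqr m1 m2 m3 h1 h2 h3
  obtain ⟨l', hl', b1, b2, b3⟩ := D.list npq nqs nps hpq hqs m1 m2 m4 h1 h2 h4
  have h12 := D.ne npq hpq m1 m2 h1 h2
  have hll : l = l' := by
    by_contra hll
    exact h12 (D.gen.tshare l hl l' hl' hll t1 a1 t2 a2 b1 b2)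
  subst hll
  exact no_four (D.gen.tlen l hl) a1 a2 a3 b3 h12 (D.ne npr (hpq.trans hqr) m1 m3 h1 h3)
    (D.ne nps (hpq.trans hqs) m1 m4 h1 h4) (D.ne nqr hqr m2 m3 h2 h3) (D.ne nqs hqs m2 m4 h2 h4)
    (D.ne nrs hrs m3 m4 h3 h4)

end ItemZ5

/-- [48319b Z5] -/
theorem tripleThm (h3 : ExtThm) (h4 : PieceThm) (hz2 : NoDoubleThm) (hz4 : DoubleThm) :
    TripleThm := by
  intro F bd pos Y g Q X Tl cx bdY bdg mono out gen
  obtain ⟨eY, -, A, lin, pa⟩ := h3 F bd pos cx E3 Y embL bdY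
  obtain ⟨eg, -, -⟩ := h3 F bd pos cx ℝ g 0 bdg
  have D : ItemZ5.Dat F bd pos Y g X Tl A := by
    refine ⟨cx, gen, h4 F bd pos cx, eY, eg, lin, pa, ?_, ?_⟩
    · intro x y hxy he
      have h := hz2 F bd pos Y Y Q cx bdY bdY mono mono out out 0 ⟨le_rfl, zero_le_one⟩ x y (by
        rw [sub_zero, one_smul, one_smul, zero_smul, zero_smul, add_zero, add_zero]
        exact he) hxy
      exact ⟨h.1, h.2.2.1, h.2.2.2.2⟩
    · intro x y hxy he t ht t' ht' w w' hw hw'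
      exact ((hz4 F bd pos Y g Q X Tl cx bdY mono out gen x y hxy he).1 t ht t' ht' w w' hw
        hw').1
  refine ⟨?_, ?_⟩
  · intro p q r npq nqr npr hpq hqr
    exact D.triple npq nqr npr hpq hqr
  · intro p q r s npq npr nps nqr nqs nrs hpq hqr hrs
    exact D.quad npq npr nps nqr nqs nrs hpq hqr hrs

end Pool.Agent.Work.MP_48319b_gt
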