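import Pool.Agent.Work.MP_48319b_gt.Stmts

/-!
# [48319b L2] uniform monotone charts
-/

open Metric Set Topology

namespace Pool.Agent.Work.MP_48319b_gt

namespace ItemL2

lemma mono_of {G : E2 → E3} {x y : E2} {Q : E3 →L[ℝ] E2} {m r m' r' : ℝ}
    (h : MonoAt G y Q m r) (hm : m' ≤ m) (hr : dist x y + r' ≤ r) : MonoAt G x Q m' r' := by
  intro p hp q hq
  have hp' : p ∈ ball y r := by
    rw [mem_ball] at hp ⊢
    linarith [dist_triangle p x y]
  have hq' : q ∈ ball y r := by
    rw [mem_ball] at hq ⊢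
    linarith [dist_triangle q x y]
  refine le_trans ?_ (h p hp' q hq')
  exact mul_le_mul_of_nonneg_right hm (by positivity)

/-- The first two coordinates. -/
noncomputable def Q0 : E3 →L[ℝ] E2 :=
  LinearMap.toContinuousLinearMap
    { toFun := fun y => !₂[y 0, y 1]
      map_add' := by
        intro y z
        ext i
        fin_cases i <;> simp
      map_smul' := by
        intro c y
        ext i
        fin_cases i <;> simp }

lemma Q0_apply (y : E3) : Q0 y = !₂[y 0, y 1] := rfl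

lemma Q0_emb (x : E2) : Q0 (emb x) = x := by
  rw [Q0_apply]
  ext i
  fin_cases i <;> simp [emb]

lemma far_mono {G : E2 → E3} (hG : ∀ x, 2 / 5 ≤ ‖x‖ → G x = emb x) {x : E2} (hx : 1 / 2 < ‖x‖) :
    MonoAt G x Q0 1 (1 / 10) := by
  intro p hp q hq
  have h1 : ∀ y ∈ ball x (1 / 10), G y = emb y := by
    intro y hy
    apply hG
    rw [mem_ball, dist_eq_norm] at hy
    have : ‖x‖ ≤ ‖y‖ + ‖y - x‖ := by
      have := norm_sub_le y (y - x)
      rwa [sub_sub_cancel] at this
    linarith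
  rw [h1 p hp, h1 q hq, map_sub, Q0_emb, Q0_emb, real_inner_self_eq_norm_sq, one_mul]

lemma finset_pos {α : Type*} (t : Finset α) (φ : α → ℝ) (h : ∀ y ∈ t, 0 < φ y) :
    ∃ μ > 0, ∀ y ∈ t, μ ≤ φ y := by
  classical
  induction t using Finset.induction_on with
  | empty => exact ⟨1, one_pos, fun y hy => by simp at hy⟩
  | insert a t ha ih =>
    obtain ⟨μ, hμ, h1⟩ := ih fun y hy => h y (Finset.mem_insert_of_mem hy)
    refine ⟨min μ (φ a), lt_min hμ (h a (Finset.mem_insert_self _ _)), fun y hy => ?_⟩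
    rcases Finset.mem_insert.mp hy with rfl | hy
    · exact min_le_right _ _
    · exact (min_le_left _ _).trans (h1 y hy)

end ItemL2

open ItemL2 in
theorem unifMonoThm : UnifMonoThm := by
  intro f f0 hf hf0 hch
  choose Q m r hm hr h1 h2 using hch
  obtain ⟨t, -, ht⟩ := (isCompact_closedBall (0 : E2) (1 / 2)).elim_nhds_subcover
    (fun y => ball y (r y / 2)) (fun y _ => ball_mem_nhds y (half_pos (hr y)))
  obtain ⟨μ, hμ, hμt⟩ := finset_pos t m fun y _ => hm y
  obtain ⟨ρ, hρ, hρt⟩ := finset_pos t r fun y _ => hr y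
  refine ⟨min μ 1, min (ρ / 2) (1 / 10), ∑ y ∈ t, ‖Q y‖ + ‖Q0‖, lt_min hμ one_pos,
    lt_min (half_pos hρ) (by norm_num), fun x => ?_⟩
  by_cases hx : ‖x‖ ≤ 1 / 2
  · have hxt := ht (show x ∈ closedBall (0 : E2) (1 / 2) by rwa [mem_closedBall_zero_iff])
    simp only [mem_iUnion] at hxt
    obtain ⟨y, hy, hxy⟩ := hxt
    rw [mem_ball] at hxy
    have e1 : min μ 1 ≤ m y := (min_le_left _ _).trans (hμt y hy)
    have e2 : dist x y + min (ρ / 2) (1 / 10) ≤ r y := by
      have := hρt y hy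
      have := min_le_left (ρ / 2) (1 / 10 : ℝ)
      linarith
    refine ⟨Q y, ?_, mono_of (h1 y) e1 e2, mono_of (h2 y) e1 e2⟩
    have := Finset.single_le_sum (f := fun y => ‖Q y‖) (fun y _ => norm_nonneg _) hy
    linarith [norm_nonneg Q0]
  · have hx' : 1 / 2 < ‖x‖ := not_le.mp hx
    have e1 : min μ 1 ≤ 1 := min_le_right _ _
    have e2 : dist x x + min (ρ / 2) (1 / 10) ≤ 1 / 10 := by
      rw [dist_self, zero_add]
      exact min_le_right _ _
    refine ⟨Q0, ?_, mono_of (far_mono hf hx') e1 e2, mono_of (far_mono hf0 hx') e1 e2⟩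
    have : 0 ≤ ∑ y ∈ t, ‖Q y‖ := Finset.sum_nonneg fun y _ => norm_nonneg _
    linarith

end Pool.Agent.Work.MP_48319b_gt
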