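import Pool.Agent.Work.MP_48319b_gt.Data

/-!
# MP_48319b_gt : the triple point which ties the two double curves

Generated by a Python script of helper96.
-/

namespace Pool.Agent.Work.MP_48319b_gt.Dat

set_option maxRecDepth 100000

/-- `(t1, t2)` and `(t2, t3)` are in `X1`, `(t1, t3)` is in `X2` -/
def tie1 : Tri := ⟨68, 108, 145⟩
def tie2 : Tri := ⟨82, 48, 92⟩
def tie3 : Tri := ⟨86, 33, 100⟩

/-- integer weights (on `a`, `b`, `c`) of the triple point, with sum `tieD` -/
def tieD : ℤ := 184080246386359030416507713542255
def tieW1 : P3 := ⟨183845888210201895196812593220690, 153016908327002962099748479080, 81341267830132257595371842485⟩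
def tieW2 : P3 := ⟨36139451701694388746485299355, 183934864390224196842856422597345, 109242544433139184904805645555⟩
def tieW3 : P3 := ⟨62260690307630060223826752988, 183622721245161112173878851146961, 395264450890288182405035642306⟩

end Pool.Agent.Work.MP_48319b_gt.Dat
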