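import Pool.Agent.Work.MP_48319b_gt.Chk
import Pool.Agent.Work.MP_48319b_gt.CertL
import Pool.Agent.Work.MP_48319b_gt.CertT

/-!
# MP_48319b_gt : Boolean check of the chains (item D9)
-/

namespace Pool.Agent.Work.MP_48319b_gt.Dat.SG

/-- distinct vertices -/
def nd (t : Tri) : Bool := (!Nat.beq t.a t.b) && (!Nat.beq t.a t.c) && (!Nat.beq t.b t.c)

/-- `wu * u + wv * v = wa * a + wb * b + wc * c`, weights non negative, equal positive sums -/
def meets (u v a b c : P3) (wu wv wa wb wc : ℤ) : Bool :=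
  leb 0 wu && leb 0 wv && leb 0 wa && leb 0 wb && leb 0 wc && ltb 0 (wu + wv) &&
  eqb (wu + wv) (wa + wb + wc) &&
  eqb (wu * u.x + wv * v.x) (wa * a.x + wb * b.x + wc * c.x) &&
  eqb (wu * u.y + wv * v.y) (wa * a.y + wb * b.y + wc * c.y) &&
  eqb (wu * u.z + wv * v.z) (wa * a.z + wb * b.z + wc * c.z)

/-- the edge `(u, v)` belongs to `s` and `s'` and meets `t` -/
def stab (s s' t : Tri) (q : LinkC) : Bool :=
  nd s && nd s' && nd t && (!Nat.beq q.u q.v) && isV s q.u && isV s q.v && isV s' q.u &&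
  isV s' q.v && meets (yI q.u) (yI q.v) (yI t.a) (yI t.b) (yI t.c) q.wu q.wv q.wa q.wb q.wc

def okLink (p : Tri × Tri) (q : LinkC) : Bool :=
  triEq q.p p.1 && triEq q.q p.2 &&
  match q.kind with
  | 0 => triEq q.q q.q' && stab q.p q.p' q.q q
  | _ => triEq q.p q.p' && stab q.q q.q' q.p q

def memb (a b : Tri) (l : List (Tri × Tri)) : Bool := l.any fun x => triEq x.1 a && triEq x.2 b

def chainb (done : List (Tri × Tri)) : List (Tri × Tri) → List LinkC → Bool
  | [], _ => true
  | p :: rest, q :: qs => okLink p q && memb q.p' q.q' done && chainb (p :: done) rest qs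
  | _ :: _, [] => false

def chainB (l : List (Tri × Tri)) (c : List LinkC) : Bool :=
  match l with
  | [] => true
  | p :: l => chainb [p] l c

end Pool.Agent.Work.MP_48319b_gt.Dat.SG
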