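import Pool.Agent.Work.MP_48319b_gt.Recs

/-!
# MP_48319b_gt : Boolean checks on pairs of triangles
-/

namespace Pool.Agent.Work.MP_48319b_gt.Dat

/-- `a < b` -/
def ltb (a b : ℤ) : Bool := match b - a with
  | Int.ofNat n => Nat.ble 1 n
  | Int.negSucc _ => false

/-- `a ≤ b` -/
def leb (a b : ℤ) : Bool := match b - a with
  | Int.ofNat _ => true
  | Int.negSucc _ => false

/-- `a = b` -/
def eqb (a b : ℤ) : Bool := match b - a with
  | Int.ofNat n => Nat.beq n 0
  | Int.negSucc _ => false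

theorem ltb_iff (a b : ℤ) : ltb a b = true ↔ a < b := by
  unfold ltb
  split
  · rename_i n h; rw [Nat.ble_eq]; constructor
    · intro h1; have : (Int.ofNat n : ℤ) = (n : ℤ) := rfl
      omega
    · intro h1; have : (Int.ofNat n : ℤ) = (n : ℤ) := rfl
      omega
  · rename_i n h; constructor
    · intro h1; cases h1
    · intro h1; exfalso; have := Int.negSucc_lt_zero n; omega

theorem leb_iff (a b : ℤ) : leb a b = true ↔ a ≤ b := by
  unfold leb
  split
  · rename_i n h; simp only [true_iff]; have : (Int.ofNat n : ℤ) = (n : ℤ) := rfl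
    omega
  · rename_i n h; constructor
    · intro h1; cases h1
    · intro h1; exfalso; have := Int.negSucc_lt_zero n; omega

theorem eqb_iff (a b : ℤ) : eqb a b = true ↔ a = b := by
  unfold eqb
  split
  · rename_i n h; rw [Nat.beq_eq]; have : (Int.ofNat n : ℤ) = (n : ℤ) := rfl
    constructor
    · intro h1; omega
    · intro h1; omega
  · rename_i n h; constructor
    · intro h1; cases h1
    · intro h1; exfalso; have := Int.negSucc_lt_zero n; omega

def isV (t : Tri) (v : ℕ) : Bool := Nat.beq t.a v || Nat.beq t.b v || Nat.beq t.c v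

/-- common vertex -/
def shareb (t s : Tri) : Bool := isV t s.a || isV t s.b || isV t s.c

/-- equality of triangles -/
def triEq (t s : Tri) : Bool := Nat.beq t.a s.a && Nat.beq t.b s.b && Nat.beq t.c s.c

/-- the pairs `(r, s)`, `s` in the list, with octal codes `n` and certificates `cs` -/
def row (c6 c7 : ℕ → Rec → Rec → Bool) (r : Rec) : List Rec → ℕ → List ℕ → Bool
  | [], _, _ => true
  | s :: ss, n, cs => match n % 8 with
    | 0 => Nat.blt r.x1 s.x0
    | 1 => Nat.blt r.y1 s.y0 && row c6 c7 r ss (n / 8) cs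
    | 2 => Nat.blt s.y1 r.y0 && row c6 c7 r ss (n / 8) cs
    | 3 => Nat.blt r.z1 s.z0 && row c6 c7 r ss (n / 8) cs
    | 4 => Nat.blt s.z1 r.z0 && row c6 c7 r ss (n / 8) cs
    | 5 => shareb r.t s.t && row c6 c7 r ss (n / 8) cs
    | 6 => match cs with
      | [] => false
      | q :: qs => c6 q r s && row c6 c7 r ss (n / 8) qs
    | _ => match cs with
      | [] => false
      | q :: qs => c7 q r s && row c6 c7 r ss (n / 8) qs

/-- all pairs -/
def loop (c6 c7 : ℕ → Rec → Rec → Bool) : List Rec → List ℕ → List (List ℕ) → Bool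
  | [], _, _ => true
  | r :: rs, n :: ns, q :: qs => row c6 c7 r rs n q && loop c6 c7 rs ns qs
  | _ :: _, _, _ => false

/-- scalar product -/
def dot3 (a y : P3) : ℤ := a.x * y.x + a.y * y.y + a.z * y.z

/-- signed part of the number -/
def dg (n b h : ℕ) : ℤ := Int.subNatNat (n % b) h

/-! ### dimension 4 -/

def c4 (al : P3) (k c : ℤ) (r s : Rec) : Bool :=
  ltb (dot3 al r.a + k * r.ga) c && ltb (dot3 al r.b + k * r.gb) c &&
  ltb (dot3 al r.c + k * r.gc) c && ltb (dot3 al r.a' + k * r.ga) c &&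
  ltb (dot3 al r.b' + k * r.gb) c && ltb (dot3 al r.c' + k * r.gc) c &&
  leb c (dot3 al s.a + k * s.ga) && leb c (dot3 al s.b + k * s.gb) &&
  leb c (dot3 al s.c + k * s.gc) && leb c (dot3 al s.a' + k * s.ga) &&
  leb c (dot3 al s.b' + k * s.gb) && leb c (dot3 al s.c' + k * s.gc)

def chk4 (q : ℕ) (r s : Rec) : Bool :=
  c4 ⟨dg q 256 128, dg (q / 2 ^ 8) 256 128, dg (q / 2 ^ 16) 256 128⟩ (dg (q / 2 ^ 24) 256 128)
    (Int.subNatNat (q / 2 ^ 32) (2 ^ 40)) r s

/-! ### dimension 3, map `Y` -/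

def c3 (al : P3) (c : ℤ) (r s : Rec) : Bool :=
  ltb (dot3 al r.a) c && ltb (dot3 al r.b) c && ltb (dot3 al r.c) c &&
  leb c (dot3 al s.a) && leb c (dot3 al s.b) && leb c (dot3 al s.c)

def chk3 (q : ℕ) (r s : Rec) : Bool :=
  c3 ⟨dg q (2 ^ 21) (2 ^ 20), dg (q / 2 ^ 21) (2 ^ 21) (2 ^ 20), dg (q / 2 ^ 42) (2 ^ 21) (2 ^ 20)⟩
    (Int.subNatNat (q / 2 ^ 63) (2 ^ 60)) r s

/-- the pair is in `X` in one of the two orders -/
def chkX (_ : ℕ) (r s : Rec) : Bool :=
  X.any fun p => (triEq p.1 r.t && triEq p.2 s.t) || (triEq p.1 s.t && triEq p.2 r.t)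

/-! ### dimension 3, map `Y0` -/

def cw6 (al : P3) (c : ℤ) (r s : Rec) : Bool :=
  ltb (dot3 al r.a') c && ltb (dot3 al r.b') c && ltb (dot3 al r.c') c &&
  leb c (dot3 al s.a') && leb c (dot3 al s.b') && leb c (dot3 al s.c')

def p3Eq (p q : P3) : Bool := eqb p.x q.x && eqb p.y q.y && eqb p.z q.z

def hasP (s : Rec) (p : P3) : Bool := p3Eq p s.a' || p3Eq p s.b' || p3Eq p s.c'

def cw7 (al : P3) (c : ℤ) (r s : Rec) : Bool :=
  let lr (p : P3) : Bool := ltb (dot3 al p) c || (eqb (dot3 al p) c && hasP s p)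
  let ls (p : P3) : Bool := ltb c (dot3 al p) || (eqb (dot3 al p) c && hasP r p)
  lr r.a' && lr r.b' && lr r.c' && ls s.a' && ls s.b' && ls s.c' &&
  (ltb (dot3 al r.a') c || ltb (dot3 al r.b') c || ltb (dot3 al r.c') c) &&
  (ltb c (dot3 al s.a') || ltb c (dot3 al s.b') || ltb c (dot3 al s.c'))

def decW (f : P3 → ℤ → Rec → Rec → Bool) (q : ℕ) (r s : Rec) : Bool :=
  f ⟨dg q (2 ^ 24) (2 ^ 23), dg (q / 2 ^ 24) (2 ^ 24) (2 ^ 23), dg (q / 2 ^ 48) (2 ^ 24) (2 ^ 23)⟩
    (Int.subNatNat (q / 2 ^ 72) (2 ^ 60)) r s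

end Pool.Agent.Work.MP_48319b_gt.Dat
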