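import Pool.Agent.Work.MP_48319b_gt.Stmts3
import Pool.Agent.Work.MP_48319b_gt.Chk

/-!
# MP_48319b_gt : item D10, Boolean checks and soundness
-/

namespace Pool.Agent.Work.MP_48319b_gt.Dat

namespace Twn

/-- membership -/
def memb (l : List ℕ) (v : ℕ) : Bool := l.any fun w => Nat.beq w v

theorem memb_iff (l : List ℕ) (v : ℕ) : memb l v = true ↔ v ∈ l := by
  unfold memb
  rw [List.any_eq_true]
  constructor
  · rintro ⟨w, hw, h⟩
    rw [Nat.beq_eq] at h
    exact h ▸ hw
  · intro h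
    exact ⟨v, h, by rw [Nat.beq_eq]⟩

theorem p3Eq_iff (p q : P3) : p3Eq p q = true ↔ p = q := by
  unfold p3Eq
  rw [Bool.and_eq_true, Bool.and_eq_true, eqb_iff, eqb_iff, eqb_iff]
  constructor
  · rintro ⟨⟨h1, h2⟩, h3⟩
    cases p; cases q
    simp_all
  · rintro rfl
    exact ⟨⟨rfl, rfl⟩, rfl⟩

/-- equality of pairs -/
def prEq (p q : ℕ × ℕ) : Bool := Nat.beq p.1 q.1 && Nat.beq p.2 q.2

theorem prEq_iff (p q : ℕ × ℕ) : prEq p q = true ↔ p = q := by
  unfold prEq
  rw [Bool.and_eq_true, Nat.beq_eq, Nat.beq_eq]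
  constructor
  · rintro ⟨h1, h2⟩
    exact Prod.ext h1 h2
  · rintro rfl
    exact ⟨rfl, rfl⟩

/-- `twin p = some q` -/
def tw (p q : ℕ × ℕ) : List ((ℕ × ℕ) × (ℕ × ℕ)) → Bool
  | [] => false
  | r :: l => if prEq r.1 p then prEq r.2 q else tw p q l

theorem tw_sound (p q : ℕ × ℕ) (l : List ((ℕ × ℕ) × (ℕ × ℕ))) (h : tw p q l = true) :
    (l.find? fun q => q.1 == p).map (fun q => q.2) = some q := by
  induction l with
  | nil => exact absurd h (by simp [tw])
  | cons r l ih =>
    unfold tw at h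
    by_cases h1 : prEq r.1 p = true
    · rw [if_pos h1, prEq_iff] at h
      rw [prEq_iff] at h1
      rw [List.find?_cons_of_pos (by simp [h1])]
      simp [h]
    · rw [if_neg h1] at h
      have h2 : ¬ (r.1 == p) = true := by
        intro h3
        apply h1
        rw [prEq_iff]
        exact by simpa using h3
      have h3 : (r.1 == p) = false := by
        rw [Bool.not_eq_true] at h2
        exact h2
      rw [List.find?_cons]
      simp only [h3]
      exact ih h

/-- all vertices are small -/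
def chkV : Bool := F.all fun t => Nat.blt t.a 188 && Nat.blt t.b 188 && Nat.blt t.c 188

/-- the images of the vertices of a triangle are different -/
def chkE : Bool := F.all fun t => !(p3Eq (y0I t.a) (y0I t.b)) && !(p3Eq (y0I t.b) (y0I t.c)) &&
  !(p3Eq (y0I t.c) (y0I t.a))

/-- up1 -/
def chkU1 : Bool := (List.range 188).all fun v => (List.range v).all fun v' =>
  !(p3Eq (y0I v) (y0I v')) || memb (up v') v || memb (up v) v'

/-- decreasing heights -/
def decr : List ℕ → Bool
  | [] => true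
  | u :: l => (l.all fun w => ltb (gI w) (gI u)) && decr l

/-- up2 and up3 -/
def chkU2 : Bool := (List.range 192).all fun v => decr (up v) && (up v).all fun u =>
  p3Eq (y0I u) (y0I v) && ltb (gI v) (gI u) && F.any fun t => isV t u

/-- tw1 for one pair of vertices -/
def tw1 (a a' : ℕ) (T T' : List Tri) : Bool :=
  T.all fun t => t.vs.all fun b => Nat.beq a b || T'.all fun t' => t'.vs.all fun b' =>
    !(p3Eq (y0I b) (y0I b')) || tw (a, b) (a', b') twL || tw (a', b') (a, b) twL

/-- tw1 -/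
def chkT1 : Bool := (List.range 192).all fun a => (up a).all fun a' =>
  tw1 a a' (F.filter fun t => isV t a) (F.filter fun t => isV t a')

/-- tw2 and tw3 -/
def chkT2 : Bool := twL.all fun q => memb (up q.1.1) q.2.1 && memb (up q.1.2) q.2.2 &&
  (F.any fun t => isV t q.2.1 && isV t q.2.2) && twL.all fun r => !(prEq r.1 q.2)

theorem isV_iff (t : Tri) (v : ℕ) : isV t v = true ↔ v ∈ t.vs := by
  unfold isV Tri.vs
  rw [Bool.or_eq_true, Bool.or_eq_true, Nat.beq_eq, Nat.beq_eq, Nat.beq_eq]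
  simp only [List.mem_cons, List.not_mem_nil, or_false]
  constructor
  · rintro ((h | h) | h)
    · exact Or.inl h.symm
    · exact Or.inr (Or.inl h.symm)
    · exact Or.inr (Or.inr h.symm)
  · rintro (h | h | h)
    · exact Or.inl (Or.inl h.symm)
    · exact Or.inl (Or.inr h.symm)
    · exact Or.inr h.symm

theorem up_big (v : ℕ) (h : 192 ≤ v) : up v = [] := by
  unfold up lk
  have h1 : tabUp.length ≤ v / 16 := by
    have h2 : tabUp.length = 12 := by rfl
    omega
  rw [List.getD_eq_default _ _ h1]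
  rfl

theorem r3_inj {p q : P3} (h : r3 p = r3 q) : p = q := by
  have h0 : (p.x : ℝ) / 10 ^ 7 = (q.x : ℝ) / 10 ^ 7 := congrArg (fun z : E3 => z 0) h
  have h1 : (p.y : ℝ) / 10 ^ 7 = (q.y : ℝ) / 10 ^ 7 := congrArg (fun z : E3 => z 1) h
  have h2 : (p.z : ℝ) / 10 ^ 7 = (q.z : ℝ) / 10 ^ 7 := congrArg (fun z : E3 => z 2) h
  have h10 : (10 : ℝ) ^ 7 ≠ 0 := by positivity
  rw [div_left_inj' h10] at h0 h1 h2
  cases p; cases q
  simp only [P3.mk.injEq]
  exact ⟨by exact_mod_cast h0, by exact_mod_cast h1, by exact_mod_cast h2⟩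

theorem Y0_iff (u v : ℕ) : Y0 u = Y0 v ↔ y0I u = y0I v := by
  constructor
  · exact fun h => r3_inj h
  · intro h
    unfold Y0
    rw [h]

theorem g_lt (u v : ℕ) (h : ltb (gI u) (gI v) = true) : g u < g v := by
  rw [ltb_iff] at h
  unfold g
  have h1 : ((gI u : ℤ) : ℝ) < (gI v : ℤ) := by exact_mod_cast h
  exact div_lt_div_of_pos_right h1 (by positivity)

theorem decr_sound (l : List ℕ) (h : decr l = true) : l.Pairwise (fun p q => g q < g p) := by
  induction l with
  | nil => exact List.Pairwise.nil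
  | cons u l ih =>
    unfold decr at h
    rw [Bool.and_eq_true, List.all_eq_true] at h
    exact List.Pairwise.cons (fun w hw => g_lt _ _ (h.1 w hw)) (ih h.2)

theorem vs_lt (hV : chkV = true) {t : Tri} (ht : t ∈ F) {v : ℕ} (hv : v ∈ t.vs) : v < 188 := by
  unfold chkV at hV
  rw [List.all_eq_true] at hV
  have h := hV t ht
  rw [Bool.and_eq_true, Bool.and_eq_true] at h
  obtain ⟨⟨h1, h2⟩, h3⟩ := h
  have k1 : t.a < 188 := Nat.le_of_ble_eq_true h1
  have k2 : t.b < 188 := Nat.le_of_ble_eq_true h2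
  have k3 : t.c < 188 := Nat.le_of_ble_eq_true h3
  unfold Tri.vs at hv
  simp only [List.mem_cons, List.not_mem_nil, or_false] at hv
  rcases hv with rfl | rfl | rfl
  · exact k1
  · exact k2
  · exact k3

theorem p3Eq_not {p q : P3} (h : (!(p3Eq p q)) = true) : p ≠ q := by
  rintro rfl
  rw [Bool.not_eq_true'] at h
  have := (p3Eq_iff p p).2 rfl
  rw [h] at this
  exact absurd this (by simp)

theorem tri_inj (hE : chkE = true) {t : Tri} (ht : t ∈ F) {a b : ℕ} (ha : a ∈ t.vs)
    (hb : b ∈ t.vs) (h : y0I a = y0I b) : a = b := by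
  unfold chkE at hE
  rw [List.all_eq_true] at hE
  have k := hE t ht
  rw [Bool.and_eq_true, Bool.and_eq_true] at k
  obtain ⟨⟨k1, k2⟩, k3⟩ := k
  have l1 := p3Eq_not k1
  have l2 := p3Eq_not k2
  have l3 := p3Eq_not k3
  unfold Tri.vs at ha hb
  simp only [List.mem_cons, List.not_mem_nil, or_false] at ha hb
  rcases ha with rfl | rfl | rfl <;> rcases hb with rfl | rfl | rfl
  · rfl
  · exact absurd h l1
  · exact absurd h.symm l3
  · exact absurd h.symm l1
  · rfl
  · exact absurd h l2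
  · exact absurd h l3
  · exact absurd h.symm l2
  · rfl

theorem up1_sound (hU : chkU1 = true) {v v' : ℕ} (hv : v < 188) (hv' : v' < 188)
    (h : y0I v = y0I v') : v = v' ∨ v ∈ up v' ∨ v' ∈ up v := by
  unfold chkU1 at hU
  rw [List.all_eq_true] at hU
  have key : ∀ a b, a < 188 → b < a → y0I a = y0I b → a ∈ up b ∨ b ∈ up a := by
    intro a b ha hb hab
    have h1 := hU a (List.mem_range.2 ha)
    rw [List.all_eq_true] at h1
    have h2 := h1 b (List.mem_range.2 hb)
    rw [Bool.or_eq_true, Bool.or_eq_true] at h2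
    rcases h2 with (h2 | h2) | h2
    · rw [Bool.not_eq_true'] at h2
      have := (p3Eq_iff _ _).2 hab
      rw [h2] at this
      exact absurd this (by simp)
    · exact Or.inl ((memb_iff _ _).1 h2)
    · exact Or.inr ((memb_iff _ _).1 h2)
  rcases lt_trichotomy v v' with h3 | h3 | h3
  · exact Or.inr (key v' v hv' h3 h.symm).symm
  · exact Or.inl h3
  · exact Or.inr (key v v' hv h3 h)

theorem u2_sound (hU : chkU2 = true) (v : ℕ) : (up v).Pairwise (fun p q => g q < g p) ∧
    ∀ u ∈ up v, Y0 u = Y0 v ∧ g v < g u ∧ ∃ t ∈ F, u ∈ t.vs := by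
  by_cases hv : v < 192
  · unfold chkU2 at hU
    rw [List.all_eq_true] at hU
    have h1 := hU v (List.mem_range.2 hv)
    rw [Bool.and_eq_true, List.all_eq_true] at h1
    refine ⟨decr_sound _ h1.1, fun u hu => ?_⟩
    have h2 := h1.2 u hu
    rw [Bool.and_eq_true, Bool.and_eq_true, List.any_eq_true] at h2
    obtain ⟨⟨h3, h4⟩, t, ht, h5⟩ := h2
    exact ⟨(Y0_iff _ _).2 ((p3Eq_iff _ _).1 h3), g_lt _ _ h4, t, ht, (isV_iff _ _).1 h5⟩
  · rw [up_big v (not_lt.1 hv)]
    exact ⟨List.Pairwise.nil, fun u hu => absurd hu (by simp)⟩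

theorem t1_sound (hT : chkT1 = true) {a a' b b' : ℕ} (ha : a' ∈ up a) {t t' : Tri} (ht : t ∈ F)
    (ht' : t' ∈ F) (h1 : a ∈ t.vs) (h2 : b ∈ t.vs) (h1' : a' ∈ t'.vs) (h2' : b' ∈ t'.vs)
    (hab : a ≠ b) (hb : y0I b = y0I b') :
    twin a b = some (a', b') ∨ twin a' b' = some (a, b) := by
  have hlt : a < 192 := by
    by_contra hcon
    rw [up_big a (not_lt.1 hcon)] at ha
    exact absurd ha (by simp)
  unfold chkT1 at hT
  rw [List.all_eq_true] at hT
  have k1 := hT a (List.mem_range.2 hlt)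
  rw [List.all_eq_true] at k1
  have k2 := k1 a' ha
  unfold tw1 at k2
  rw [List.all_eq_true] at k2
  have k3 := k2 t (List.mem_filter.2 ⟨ht, (isV_iff _ _).2 h1⟩)
  rw [List.all_eq_true] at k3
  have k4 := k3 b h2
  rw [Bool.or_eq_true] at k4
  rcases k4 with k4 | k4
  · rw [Nat.beq_eq] at k4
    exact absurd k4 hab
  rw [List.all_eq_true] at k4
  have k5 := k4 t' (List.mem_filter.2 ⟨ht', (isV_iff _ _).2 h1'⟩)
  rw [List.all_eq_true] at k5
  have k6 := k5 b' h2'
  rw [Bool.or_eq_true, Bool.or_eq_true] at k6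
  rcases k6 with (k6 | k6) | k6
  · rw [Bool.not_eq_true'] at k6
    have := (p3Eq_iff _ _).2 hb
    rw [k6] at this
    exact absurd this (by simp)
  · exact Or.inl (tw_sound _ _ _ k6)
  · exact Or.inr (tw_sound _ _ _ k6)

theorem twin_mem {a b : ℕ} {q : ℕ × ℕ} (h : twin a b = some q) : ((a, b), q) ∈ twL := by
  unfold twin at h
  rw [Option.map_eq_some_iff] at h
  obtain ⟨r, hr, hq⟩ := h
  have h1 := List.mem_of_find?_eq_some hr
  have h2 := List.find?_some hr
  have h3 : r.1 = (a, b) := by simpa using h2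
  have h4 : r = ((a, b), q) := Prod.ext h3 hq
  rw [← h4]
  exact h1

theorem sound (hV : chkV = true) (hE : chkE = true) (hU1 : chkU1 = true) (hU2 : chkU2 = true) (hT1 : chkT1 = true)
    (hT2 : chkT2 = true) : StTwin where
  up1 := by
    intro t ht t' ht' v hv v' hv' h
    exact up1_sound hU1 (vs_lt hV ht hv) (vs_lt hV ht' hv') ((Y0_iff _ _).1 h)
  up2 := fun v u hu => (u2_sound hU2 v).2 u hu
  up3 := fun v => (u2_sound hU2 v).1
  tw1 := by
    intro t ht t' ht' a ha b hb a' ha' b' hb' hab haa' h1 h2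
    have k := up1_sound hU1 (vs_lt hV ht ha) (vs_lt hV ht' ha') ((Y0_iff _ _).1 h1)
    rcases k with k | k | k
    · exact absurd k haa'
    · by_cases hab' : a' = b'
      · exact absurd (tri_inj hE ht ha hb
          (by rw [(Y0_iff _ _).1 h1, hab', (Y0_iff _ _).1 h2])) hab
      · exact (t1_sound hT1 k ht' ht ha' hb' ha hb hab' ((Y0_iff _ _).1 h2).symm).symm
    · exact t1_sound hT1 k ht ht' ha hb ha' hb' hab ((Y0_iff _ _).1 h2)
  tw2 := by
    intro a b a' b' h
    have hm := twin_mem h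
    unfold chkT2 at hT2
    rw [List.all_eq_true] at hT2
    have h1 := hT2 _ hm
    rw [Bool.and_eq_true, Bool.and_eq_true, Bool.and_eq_true, List.any_eq_true] at h1
    obtain ⟨⟨⟨k1, k2⟩, t, ht, k3⟩, _⟩ := h1
    rw [Bool.and_eq_true] at k3
    exact ⟨(memb_iff _ _).1 k1, (memb_iff _ _).1 k2, t, ht, (isV_iff _ _).1 k3.1,
      (isV_iff _ _).1 k3.2⟩
  tw3 := by
    intro a b a' b' h
    have hm := twin_mem h
    unfold chkT2 at hT2
    rw [List.all_eq_true] at hT2
    have h1 := hT2 _ hm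
    rw [Bool.and_eq_true, List.all_eq_true] at h1
    unfold twin
    rw [Option.map_eq_none_iff, List.find?_eq_none]
    intro r hr h3
    have h4 := h1.2 r hr
    have h5 : r.1 = (a', b') := by simpa using h3
    rw [Bool.not_eq_true'] at h4
    have h6 := (prEq_iff r.1 (a', b')).2 h5
    rw [h4] at h6
    exact absurd h6 (by simp)

end Twn

end Pool.Agent.Work.MP_48319b_gt.Dat
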