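import Pool.Agent.Work.MP_48319b_gt.Data

/-!
# MP_48319b_gt : certificates for the triples of crossing triangles

Generated by a Python script of helper96.
-/

namespace Pool.Agent.Work.MP_48319b_gt.Dat

set_option maxRecDepth 100000

/-- for the oriented triples `(t1, t2), (t2, t3), (t1, t3)` of pairs of `X` which are not triple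
points: `(t1, t2, t3, m1, m2, m3)` with `m1 + m2 + m3 = 0` and
`m1 · Y v1 + m2 · Y v2 + m3 · Y v3 < 0` for all vertices `vi` of `ti` -/
def tripL : List ((Tri × Tri × Tri) × (P3 × P3 × P3)) := [
((⟨0, 12, 16⟩, ⟨3, 5, 4⟩, ⟨18, 23, 26⟩), (⟨-99, 3, -104⟩, ⟨-47, -128, 82⟩, ⟨146, 125, 22⟩)),
((⟨0, 12, 16⟩, ⟨3, 9, 5⟩, ⟨18, 23, 26⟩), (⟨-2, -4, -2⟩, ⟨-2, 0, 1⟩, ⟨4, 4, 1⟩)),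
((⟨5, 31, 34⟩, ⟨102, 61, 103⟩, ⟨111, 114, 112⟩), (⟨4, 3, 2⟩, ⟨-1, 0, 0⟩, ⟨-3, -3, -2⟩)),
((⟨5, 31, 34⟩, ⟨102, 177, 61⟩, ⟨111, 114, 112⟩), (⟨4, 3, 2⟩, ⟨-1, 0, 1⟩, ⟨-3, -3, -3⟩)),
((⟨15, 46, 31⟩, ⟨21, 61, 69⟩, ⟨111, 116, 115⟩), (⟨9, 10, 16⟩, ⟨-6, 15, 6⟩, ⟨-3, -25, -22⟩)),
((⟨16, 31, 46⟩, ⟨21, 61, 69⟩, ⟨111, 116, 115⟩), (⟨62, -24, 25⟩, ⟨-25, 64, 32⟩, ⟨-37, -40, -57⟩)),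
((⟨16, 31, 46⟩, ⟨177, 69, 61⟩, ⟨111, 116, 115⟩), (⟨128, -51, 47⟩, ⟨-5, 6, -48⟩, ⟨-123, 45, 1⟩)),
((⟨16, 31, 46⟩, ⟨177, 69, 61⟩, ⟨111, 113, 114⟩), (⟨-256, 104, -86⟩, ⟨17, -22, 157⟩, ⟨239, -82, -71⟩)),
((⟨20, 64, 65⟩, ⟨16, 45, 52⟩, ⟨113, 115, 120⟩), (⟨23, 64, 33⟩, ⟨-18, 7, 9⟩, ⟨-5, -71, -42⟩)),
((⟨20, 64, 65⟩, ⟨16, 45, 52⟩, ⟨115, 116, 120⟩), (⟨11, 32, 16⟩, ⟨7, -4, 14⟩, ⟨-18, -28, -30⟩)),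
((⟨20, 64, 65⟩, ⟨16, 45, 52⟩, ⟨113, 120, 114⟩), (⟨3, 8, 4⟩, ⟨-1, 0, 0⟩, ⟨-2, -8, -4⟩)),
((⟨20, 64, 65⟩, ⟨81, 89, 45⟩, ⟨113, 120, 114⟩), (⟨3, 8, 4⟩, ⟨2, 1, 3⟩, ⟨-5, -9, -7⟩)),
((⟨20, 64, 65⟩, ⟨45, 159, 52⟩, ⟨113, 120, 114⟩), (⟨3, 8, 4⟩, ⟨1, 0, 2⟩, ⟨-4, -8, -6⟩)),
((⟨20, 64, 65⟩, ⟨45, 89, 159⟩, ⟨113, 120, 114⟩), (⟨3, 8, 4⟩, ⟨2, 1, 3⟩, ⟨-5, -9, -7⟩)),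
((⟨25, 73, 72⟩, ⟨148, 153, 97⟩, ⟨57, 60, 165⟩), (⟨0, 3, 2⟩, ⟨-3, 2, 4⟩, ⟨3, -5, -6⟩)),
((⟨25, 73, 72⟩, ⟨97, 153, 164⟩, ⟨57, 60, 165⟩), (⟨1, 16, 9⟩, ⟨7, 10, 11⟩, ⟨-8, -26, -20⟩)),
((⟨25, 73, 72⟩, ⟨97, 153, 164⟩, ⟨57, 165, 166⟩), (⟨-128, -76, -45⟩, ⟨63, 106, 107⟩, ⟨65, -30, -62⟩)),
((⟨27, 47, 82⟩, ⟨26, 23, 66⟩, ⟨4, 28, 7⟩), (⟨1, -2, 0⟩, ⟨-4, 0, 1⟩, ⟨3, 2, -1⟩)),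
((⟨27, 47, 82⟩, ⟨26, 66, 79⟩, ⟨7, 28, 40⟩), (⟨-1, 5, 1⟩, ⟨11, 11, -32⟩, ⟨-10, -16, 31⟩)),
((⟨27, 47, 82⟩, ⟨66, 83, 79⟩, ⟨7, 28, 40⟩), (⟨-1, 6, 2⟩, ⟨35, 34, -64⟩, ⟨-34, -40, 62⟩)),
((⟨81, 68, 87⟩, ⟨82, 48, 92⟩, ⟨86, 33, 100⟩), (⟨-35, 64, 49⟩, ⟨33, -55, -37⟩, ⟨2, -9, -12⟩)),
((⟨81, 87, 88⟩, ⟨82, 92, 93⟩, ⟨148, 101, 37⟩), (⟨-32, 21, 8⟩, ⟨30, -16, 1⟩, ⟨2, -5, -9⟩)),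
((⟨81, 90, 89⟩, ⟨5, 34, 35⟩, ⟨114, 117, 112⟩), (⟨-13, -8, 2⟩, ⟨-16, -5, -6⟩, ⟨29, 13, 4⟩)),
((⟨81, 90, 89⟩, ⟨5, 34, 35⟩, ⟨121, 163, 117⟩), (⟨64, 31, 28⟩, ⟨10, 4, 4⟩, ⟨-74, -35, -32⟩)),
((⟨81, 91, 90⟩, ⟨5, 34, 35⟩, ⟨114, 117, 112⟩), (⟨3, -5, 8⟩, ⟨-16, -3, -7⟩, ⟨13, 8, -1⟩)),
((⟨81, 91, 90⟩, ⟨5, 34, 35⟩, ⟨114, 121, 117⟩), (⟨3, -3, 6⟩, ⟨-8, -2, -3⟩, ⟨5, 5, -3⟩)),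
((⟨81, 91, 90⟩, ⟨5, 34, 35⟩, ⟨121, 163, 117⟩), (⟨512, 14, 463⟩, ⟨-46, 147, -157⟩, ⟨-466, -161, -306⟩)),
((⟨81, 91, 90⟩, ⟨5, 35, 38⟩, ⟨117, 163, 162⟩), (⟨32, 1, 29⟩, ⟨-8, 3, -8⟩, ⟨-24, -4, -21⟩)),
((⟨81, 91, 90⟩, ⟨5, 35, 38⟩, ⟨121, 163, 117⟩), (⟨32, 1, 29⟩, ⟨-8, 3, -8⟩, ⟨-24, -4, -21⟩)),
((⟨81, 88, 91⟩, ⟨82, 92, 93⟩, ⟨148, 37, 38⟩), (⟨11, -4, -61⟩, ⟨-64, 35, -3⟩, ⟨53, -31, 64⟩)),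
((⟨81, 88, 91⟩, ⟨82, 93, 96⟩, ⟨148, 101, 37⟩), (⟨0, 0, 1⟩, ⟨0, -2, -4⟩, ⟨0, 2, 3⟩)),
((⟨81, 88, 91⟩, ⟨125, 96, 93⟩, ⟨148, 101, 37⟩), (⟨0, 0, 1⟩, ⟨0, -2, -4⟩, ⟨0, 2, 3⟩)),
((⟨82, 49, 29⟩, ⟨62, 104, 102⟩, ⟨80, 81, 43⟩), (⟨-26, 31, 32⟩, ⟨-9, 2, -12⟩, ⟨35, -33, -20⟩)),
((⟨82, 49, 29⟩, ⟨62, 104, 102⟩, ⟨81, 44, 43⟩), (⟨-84, 107, 103⟩, ⟨111, -84, -128⟩, ⟨-27, -23, 25⟩)),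
((⟨82, 49, 29⟩, ⟨62, 103, 63⟩, ⟨81, 44, 43⟩), (⟨2, -1, -2⟩, ⟨-16, -14, 15⟩, ⟨14, 15, -13⟩)),
((⟨122, 124, 127⟩, ⟨7, 39, 11⟩, ⟨71, 133, 76⟩), (⟨16, 4, 0⟩, ⟨-3, 4, 3⟩, ⟨-13, -8, -3⟩)),
((⟨122, 124, 127⟩, ⟨7, 39, 11⟩, ⟨71, 74, 133⟩), (⟨128, 32, 2⟩, ⟨-29, 34, 32⟩, ⟨-99, -66, -34⟩)),
((⟨122, 124, 127⟩, ⟨17, 11, 39⟩, ⟨71, 133, 76⟩), (⟨8, 2, 0⟩, ⟨-4, -1, 1⟩, ⟨-4, -1, -1⟩)),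
((⟨122, 130, 129⟩, ⟨7, 42, 39⟩, ⟨25, 71, 75⟩), (⟨-2, 4, 1⟩, ⟨1, -1, -2⟩, ⟨1, -3, 1⟩)),
((⟨122, 130, 129⟩, ⟨39, 42, 132⟩, ⟨25, 71, 75⟩), (⟨-2, 4, 1⟩, ⟨1, -1, -2⟩, ⟨1, -3, 1⟩)),
((⟨122, 127, 130⟩, ⟨7, 42, 39⟩, ⟨25, 71, 75⟩), (⟨-3, 4, 0⟩, ⟨1, -1, -1⟩, ⟨2, -3, 1⟩)),
((⟨129, 130, 94⟩, ⟨77, 147, 78⟩, ⟨41, 148, 142⟩), (⟨-16, 9, -1⟩, ⟨64, 53, 2⟩, ⟨-48, -62, -1⟩)),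
((⟨129, 94, 131⟩, ⟨25, 75, 77⟩, ⟨41, 101, 148⟩), (⟨6, -6, -4⟩, ⟨-16, -5, 4⟩, ⟨10, 11, 0⟩)),
((⟨129, 94, 131⟩, ⟨25, 77, 78⟩, ⟨41, 148, 142⟩), (⟨4446, -8105, 4662⟩, ⟨-8192, 3876, -4362⟩, ⟨3746, 4229, -300⟩)),
((⟨129, 94, 131⟩, ⟨25, 77, 78⟩, ⟨41, 101, 148⟩), (⟨64, -57, 9⟩, ⟨-64, 30, -35⟩, ⟨0, 27, 26⟩)),
((⟨131, 94, 128⟩, ⟨25, 75, 77⟩, ⟨41, 101, 148⟩), (⟨4, -4, -1⟩, ⟨-8, -1, 0⟩, ⟨4, 5, 1⟩)),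
((⟨68, 145, 87⟩, ⟨82, 48, 92⟩, ⟨86, 33, 100⟩), (⟨-110, 256, 116⟩, ⟨125, -227, -39⟩, ⟨-15, -29, -77⟩)),
((⟨87, 145, 88⟩, ⟨82, 92, 93⟩, ⟨148, 101, 37⟩), (⟨-16, 9, 2⟩, ⟨16, -8, 1⟩, ⟨0, -1, -3⟩)),
((⟨78, 149, 73⟩, ⟨97, 164, 98⟩, ⟨57, 165, 166⟩), (⟨6, -3, -1⟩, ⟨2, -1, -8⟩, ⟨-8, 4, 9⟩)),
((⟨78, 149, 73⟩, ⟨97, 153, 164⟩, ⟨57, 165, 166⟩), (⟨32, 13, 0⟩, ⟨-13, -22, -20⟩, ⟨-19, 9, 20⟩)),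
((⟨159, 73, 151⟩, ⟨97, 164, 98⟩, ⟨57, 166, 150⟩), (⟨8, -4, -3⟩, ⟨-1, -4, -4⟩, ⟨-7, 8, 7⟩)),
((⟨73, 149, 151⟩, ⟨97, 164, 98⟩, ⟨57, 165, 166⟩), (⟨4, -1, -1⟩, ⟨0, -1, -4⟩, ⟨-4, 2, 5⟩)),
((⟨73, 149, 151⟩, ⟨97, 164, 98⟩, ⟨57, 166, 150⟩), (⟨4, -4, -1⟩, ⟨-1, -3, -3⟩, ⟨-3, 7, 4⟩)),
((⟨153, 154, 156⟩, ⟨124, 135, 137⟩, ⟨17, 58, 59⟩), (⟨-15, -14, 5⟩, ⟨123, 256, 236⟩, ⟨-108, -242, -241⟩)),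
((⟨153, 154, 156⟩, ⟨124, 135, 137⟩, ⟨59, 139, 138⟩), (⟨-4, -3, 1⟩, ⟨-7, 13, -16⟩, ⟨11, -10, 15⟩)),
((⟨153, 154, 156⟩, ⟨124, 135, 137⟩, ⟨59, 136, 139⟩), (⟨-4, -3, 1⟩, ⟨-7, 13, -16⟩, ⟨11, -10, 15⟩)),
((⟨153, 154, 156⟩, ⟨124, 135, 137⟩, ⟨58, 136, 59⟩), (⟨-8, -7, 2⟩, ⟨-14, 26, -32⟩, ⟨22, -19, 30⟩)),
((⟨156, 154, 158⟩, ⟨124, 135, 137⟩, ⟨59, 139, 138⟩), (⟨1, -4, 7⟩, ⟨-7, 15, -16⟩, ⟨6, -11, 9⟩))]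

end Pool.Agent.Work.MP_48319b_gt.Dat
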