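import Pool.Agent.Work.MP_48319b_gt.Bd.B03
import Pool.Agent.Work.MP_48319b_gt.Stmts3

/-!
# MP_48319b_gt : item D12, the colours
-/

open Metric Set Topology

namespace Pool.Agent.Work.MP_48319b_gt.Dat.CC

theorem triEq_iff (t s : Tri) : triEq t s = true ↔ t = s := by
  unfold triEq
  simp only [Bool.and_eq_true, Nat.beq_eq]
  constructor
  · rintro ⟨⟨h1, h2⟩, h3⟩
    cases t; cases s; simp_all
  · rintro rfl; simp

theorem isV_iff (t : Tri) (v : ℕ) : isV t v = true ↔ v ∈ t.vs := by
  unfold isV Tri.vs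
  simp only [Bool.or_eq_true, Nat.beq_eq, List.mem_cons, List.not_mem_nil, or_false]
  constructor
  · rintro ((h | h) | h) <;> simp [h]
  · rintro (h | h | h) <;> simp [h]

/-- the group -/
abbrev G := DihedralGroup 3

/-- the colour `c` -/
def s (c : ℕ) : G := DihedralGroup.sr (c : ZMod 3)

theorem s_mod (c : ℕ) : s (c % 3) = s c := by
  unfold s
  rw [ZMod.natCast_mod]

theorem s_rf (a b : ℕ) : s (rf a b) = s a * s b * (s a)⁻¹ := by
  unfold rf
  rw [s_mod]
  unfold s
  rw [DihedralGroup.inv_sr, DihedralGroup.sr_mul_sr, DihedralGroup.r_mul_sr]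
  congr 1
  push_cast
  have h : (2 : ZMod 3) = -1 := by decide
  have h2 : (a : ZMod 3) * 2 = - (a : ZMod 3) := by rw [h]; ring
  rw [h]
  ring_nf
  rw [h2]

theorem col_mem (t : Tri) (ht : t ∈ F) : (t, colN t) ∈ colL := by
  rw [← runF, List.mem_map] at ht
  obtain ⟨q, hq, rfl⟩ := ht
  unfold colN
  split
  · rename_i p hp
    have h1 := List.mem_of_find?_eq_some hp
    have h2 := List.find?_some hp
    rw [triEq_iff] at h2
    rw [← h2]
    exact h1
  · rename_i hp
    rw [List.find?_eq_none] at hp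
    have := hp q hq
    rw [triEq_iff] at this
    exact absurd rfl this

theorem conj_prod (v : ℕ) (t : Tri) (l : List ℕ) (c : ℕ) :
    s (conjN v t l c) = (l.map fun u => if sg v t u then s (cvN u) else 1).prod * s c *
      ((l.map fun u => if sg v t u then s (cvN u) else 1).prod)⁻¹ := by
  induction l with
  | nil => simp [conjN]
  | cons u l ih =>
    have h : conjN v t (u :: l) c = (match sg v t u with
      | true => rf (cvN u) (conjN v t l c)
      | false => conjN v t l c) := rfl
    rw [h, List.map_cons, List.prod_cons]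
    cases hs : sg v t u with
    | true =>
      simp only [if_true]
      rw [s_rf, ih, mul_inv_rev]
      group
    | false =>
      simp only [Bool.false_eq_true, if_false, one_mul]
      exact ih

/-- the colour of a triangle -/
def col (t : Tri) : G := s (colN t)
def cv (v : ℕ) : G := s (cvN v)
def ce (a b : ℕ) : G := s (ceN a b)

theorem tchk_all (t : Tri) (ht : t ∈ F) : tchk (t, colN t) = true :=
  (List.all_eq_true.1 runT) _ (col_mem t ht)

theorem vert (t : Tri) (ht : t ∈ F) (v : ℕ) (hv : v ∈ t.vs) :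
    col t = ((up v).map fun u => if sg v t u then cv u else 1).prod * cv v *
      (((up v).map fun u => if sg v t u then cv u else 1).prod)⁻¹ := by
  have h := tchk_all t ht
  unfold tchk at h
  simp only [Bool.and_eq_true] at h
  obtain ⟨⟨⟨⟨⟨h1, h2⟩, h3⟩, -⟩, -⟩, -⟩ := h
  have key : vchk t (colN t) v = true := by
    simp only [Tri.vs, List.mem_cons, List.not_mem_nil, or_false] at hv
    rcases hv with rfl | rfl | rfl <;> assumption
  unfold vchk at key
  rw [Nat.beq_eq] at key
  unfold col cv
  rw [key, s_mod]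
  exact conj_prod v t (up v) (cvN v)

theorem ceN_symm (a b : ℕ) : ceN a b = ceN b a := by
  unfold ceN
  rcases lt_trichotomy a b with h | h | h
  · have h1 : Nat.ble a b = true := by rw [Nat.ble_eq]; exact h.le
    have h2 : Nat.ble b a = false := by
      rw [← Bool.not_eq_true, Nat.ble_eq]; omega
    rw [h1, h2]
  · subst h; rfl
  · have h1 : Nat.ble b a = true := by rw [Nat.ble_eq]; exact h.le
    have h2 : Nat.ble a b = false := by
      rw [← Bool.not_eq_true, Nat.ble_eq]; omega
    rw [h1, h2]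

theorem edge0 (t : Tri) (ht : t ∈ F) (a : ℕ) (ha : a ∈ t.vs) (b : ℕ) (hb : b ∈ t.vs)
    (hab : a ≠ b) (h1 : twin a b = none) (h2 : twin b a = none) : ce a b = col t := by
  have h := tchk_all t ht
  unfold tchk at h
  simp only [Bool.and_eq_true] at h
  obtain ⟨⟨⟨-, e1⟩, e2⟩, e3⟩ := h
  have aux : ∀ x y : ℕ, e0chk (colN t) x y = true → twin x y = none → twin y x = none →
      ceN x y = colN t := by
    intro x y h h1 h2
    unfold e0chk at h
    rw [h1, h2] at h
    simp only [Option.isSome_none, Bool.or_false, Nat.beq_eq] at h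
    exact h.symm
  unfold ce col
  congr 1
  simp only [Tri.vs, List.mem_cons, List.not_mem_nil, or_false] at ha hb
  rcases ha with rfl | rfl | rfl <;> rcases hb with rfl | rfl | rfl <;>
    first
    | exact absurd rfl hab
    | (apply aux; assumption; assumption; assumption)
    | (rw [ceN_symm]; apply aux; assumption; assumption; assumption)

theorem twin_mem (a b a' b' : ℕ) (h : twin a b = some (a', b')) : ((a, b), (a', b')) ∈ twL := by
  unfold twin at h
  rw [Option.map_eq_some_iff] at h
  obtain ⟨q, hq, hq2⟩ := h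
  have h1 := List.mem_of_find?_eq_some hq
  have h2 := List.find?_some hq
  rw [beq_iff_eq] at h2
  rw [← h2, ← hq2]
  exact h1

theorem edge1 (t : Tri) (ht : t ∈ F) (a : ℕ) (ha : a ∈ t.vs) (b : ℕ) (hb : b ∈ t.vs)
    (a' b' : ℕ) (h : twin a b = some (a', b')) :
    col t = (if sg a t a' then ce a' b' else 1) * ce a b *
      (if sg a t a' then ce a' b' else 1)⁻¹ := by
  have h1 := (List.all_eq_true.1 runE1) _ (twin_mem _ _ _ _ h)
  have h2 := (List.all_eq_true.1 h1) _ (col_mem t ht)
  unfold e1chk at h2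
  simp only at h2
  have h3 : (isV t a && isV t b) = true := by
    rw [Bool.and_eq_true, isV_iff, isV_iff]; exact ⟨ha, hb⟩
  rw [h3] at h2
  simp only at h2
  unfold col ce
  cases hs : sg a t a' with
  | true =>
    rw [hs] at h2
    simp only [Nat.beq_eq] at h2
    rw [h2, s_rf]
    simp
  | false =>
    rw [hs] at h2
    simp only [Nat.beq_eq] at h2
    rw [h2]
    simp

theorem twsymm (a b a' b' : ℕ) (h : twin a b = some (a', b')) : twin b a = some (b', a') := by
  have h1 := (List.all_eq_true.1 runTw) _ (twin_mem _ _ _ _ h)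
  simp only at h1
  split at h1
  · rename_i p hp
    simp only [Bool.and_eq_true, Nat.beq_eq] at h1
    rw [hp]
    congr 1
    exact Prod.ext h1.1 h1.2
  · cases h1

theorem bdv (e : ℕ × ℕ) (he : e ∈ bd) : cv e.1 = s 2 ∧ cv e.2 = s 2 ∧ ce e.1 e.2 = s 2 := by
  have h := (List.all_eq_true.1 runBd) _ he
  simp only [Bool.and_eq_true, Nat.beq_eq] at h
  unfold cv ce
  rw [h.1.1, h.1.2, h.2]
  exact ⟨rfl, rfl, rfl⟩

end CC

/-- [48319b D12] -/
theorem stCol : StCol := by
  refine ⟨CC.G, inferInstance, CC.col, CC.cv, CC.ce, CC.s 2, ?_⟩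
  refine ⟨CC.vert, fun a b => ?_, CC.edge0, fun t ht a ha b hb _ a' b' h =>
    CC.edge1 t ht a ha b hb a' b' h, CC.twsymm, CC.bdv, ?_⟩
  · unfold CC.ce; rw [CC.ceN_symm]
  · refine ⟨⟨81, 90, 89⟩, by decide +kernel, ⟨5, 34, 35⟩, by decide +kernel, ?_⟩
    have h0 : CC.colN ⟨81, 90, 89⟩ = 0 := by decide +kernel
    have h1 : CC.colN ⟨5, 34, 35⟩ = 1 := by decide +kernel
    unfold CC.col
    rw [h0, h1]
    decide

end Pool.Agent.Work.MP_48319b_gt.Dat
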