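import Pool.Agent.Work.MP_48319b_gt.Stmts3
import Pool.Agent.Work.MP_48319b_gt.Bd.B04

/-!
# MP_48319b_gt, item D1: the explicit triangulation is a triangulated convex polygon
-/

open Metric Set Topology

namespace Pool.Agent.Work.MP_48319b_gt.Dat.CxA

theorem and3 {a b : Bool} (h : (a && b) = true) : a = true ∧ b = true := by
  rwa [Bool.and_eq_true] at h

theorem triEq_iff {t s : Tri} (h : triEq t s = true) : t = s := by
  unfold triEq at h
  rw [Bool.and_eq_true, Bool.and_eq_true] at h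
  obtain ⟨⟨h1, h2⟩, h3⟩ := h
  cases t; cases s
  simp only [Tri.mk.injEq]
  exact ⟨Nat.eq_of_beq_eq_true h1, Nat.eq_of_beq_eq_true h2, Nat.eq_of_beq_eq_true h3⟩

theorem isV_iff {t : Tri} {v : ℕ} (h : isV t v = true) : v ∈ t.vs := by
  unfold isV at h
  rw [Bool.or_eq_true, Bool.or_eq_true] at h
  simp only [Tri.vs, List.mem_cons, List.not_mem_nil, or_false]
  rcases h with (h | h) | h
  · exact Or.inl (Nat.eq_of_beq_eq_true h).symm
  · exact Or.inr (Or.inl (Nat.eq_of_beq_eq_true h).symm)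
  · exact Or.inr (Or.inr (Nat.eq_of_beq_eq_true h).symm)

theorem p2Eq_iff {p q : P2} (h : p2Eq p q = true) : p = q := by
  obtain ⟨h1, h2⟩ := and3 h
  cases p; cases q
  simp only [P2.mk.injEq]
  exact ⟨(eqb_iff _ _).1 h1, (eqb_iff _ _).1 h2⟩

theorem hasE_iff {p q : ℕ} {t : Tri} (h : hasE p q t = true) : (p, q) ∈ t.es := by
  unfold hasE at h
  rw [Bool.or_eq_true, Bool.or_eq_true] at h
  simp only [Tri.es, List.mem_cons, List.not_mem_nil, or_false, Prod.mk.injEq]
  rcases h with h | h | h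
  · obtain ⟨h1, h2⟩ := and3 h
    exact Or.inl ⟨(Nat.eq_of_beq_eq_true h1).symm, (Nat.eq_of_beq_eq_true h2).symm⟩
  · obtain ⟨h1, h2⟩ := and3 h
    exact Or.inr (Or.inl ⟨(Nat.eq_of_beq_eq_true h1).symm, (Nat.eq_of_beq_eq_true h2).symm⟩)
  · obtain ⟨h1, h2⟩ := and3 h
    exact Or.inr (Or.inr ⟨(Nat.eq_of_beq_eq_true h1).symm, (Nat.eq_of_beq_eq_true h2).symm⟩)

theorem anyE_iff {p q : ℕ} {l : List Tri} (h : anyE p q l = true) : ∃ t ∈ l, (p, q) ∈ t.es := by
  induction l with
  | nil => cases h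
  | cons s l ih =>
    rw [anyE, Bool.or_eq_true] at h
    rcases h with h | h
    · exact ⟨s, List.mem_cons_self, hasE_iff h⟩
    · obtain ⟨t, ht, h2⟩ := ih h
      exact ⟨t, List.mem_cons_of_mem _ ht, h2⟩

theorem memE_iff {p q : ℕ} {l : List (ℕ × ℕ)} (h : memE p q l = true) : (p, q) ∈ l := by
  induction l with
  | nil => cases h
  | cons s l ih =>
    rw [memE, Bool.or_eq_true] at h
    rcases h with h | h
    · obtain ⟨h1, h2⟩ := and3 h
      have : s = (p, q) := Prod.ext (Nat.eq_of_beq_eq_true h1) (Nat.eq_of_beq_eq_true h2)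
      rw [this]; exact List.mem_cons_self
    · exact List.mem_cons_of_mem _ (ih h)

theorem edgeL_iff {l : List Tri} (h : edgeL l = true) : ∀ t ∈ l, ∀ e ∈ t.es,
    e ∈ bd ∨ ∃ t' ∈ F, (e.2, e.1) ∈ t'.es := by
  induction l with
  | nil => intro t ht; cases ht
  | cons s l ih =>
    rw [edgeL] at h
    obtain ⟨h1, h2⟩ := and3 h
    intro t ht e he
    rcases List.mem_cons.1 ht with rfl | ht
    · obtain ⟨ha, h1⟩ := and3 h1
      obtain ⟨hb, hc⟩ := and3 h1
      rw [Bool.or_eq_true] at ha hb hc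
      simp only [Tri.es, List.mem_cons, List.not_mem_nil, or_false] at he
      rcases he with rfl | rfl | rfl
      · rcases ha with ha | ha
        · exact Or.inr (anyE_iff ha)
        · exact Or.inl (memE_iff ha)
      · rcases hb with ha | ha
        · exact Or.inr (anyE_iff ha)
        · exact Or.inl (memE_iff ha)
      · rcases hc with ha | ha
        · exact Or.inr (anyE_iff ha)
        · exact Or.inl (memE_iff ha)
    · exact ih h2 t ht e he

theorem bdL_iff {l : List (ℕ × ℕ)} (h : bdL l = true) : ∀ e ∈ l, ∃ t ∈ F, e ∈ t.es := by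
  induction l with
  | nil => intro t ht; cases ht
  | cons s l ih =>
    rw [bdL] at h
    obtain ⟨h1, h2⟩ := and3 h
    intro e he
    rcases List.mem_cons.1 he with rfl | he
    · exact anyE_iff h1
    · exact ih h2 e he

/-! ### real level -/

theorem det2_r2 (a b p : P2) : det2 (r2 b - r2 a) (r2 p - r2 a) = (area a b p : ℝ) / 10 ^ 14 := by
  simp only [det2, area, r2, PiLp.sub_apply]
  simp
  ring

theorem det2_pos_iff (a b p : P2) : 0 < det2 (r2 b - r2 a) (r2 p - r2 a) ↔ 0 < area a b p := by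
  rw [det2_r2, div_pos_iff_of_pos_right (by positivity)]
  exact_mod_cast Iff.rfl

theorem det2_nonneg_iff (a b p : P2) : 0 ≤ det2 (r2 b - r2 a) (r2 p - r2 a) ↔ 0 ≤ area a b p := by
  rw [det2_r2]
  constructor
  · intro h
    by_contra h1
    have h2 : ((area a b p : ℤ) : ℝ) < 0 := by exact_mod_cast not_le.1 h1
    have h3 : ((area a b p : ℤ) : ℝ) / 10 ^ 14 < 0 := div_neg_of_neg_of_pos h2 (by positivity)
    linarith
  · intro h
    exact div_nonneg (by exact_mod_cast h) (by positivity)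

theorem det2_eq_iff (a b p : P2) : det2 (r2 b - r2 a) (r2 p - r2 a) = 0 ↔ area a b p = 0 := by
  rw [det2_r2, div_eq_zero_iff]
  constructor
  · rintro (h | h)
    · exact_mod_cast h
    · norm_num at h
  · intro h; left; exact_mod_cast h

theorem small2_iff {p : P2} (h : small2 p = true) : ‖r2 p‖ < 2 / 5 := by
  have h1 := (ltb_iff _ _).1 h
  have h2 : ((p.x * p.x + p.y * p.y : ℤ) : ℝ) < ((16000000000000 : ℤ) : ℝ) := by exact_mod_cast h1
  push_cast at h2
  rw [EuclideanSpace.norm_eq, Fin.sum_univ_two]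
  rw [Real.sqrt_lt' (by norm_num)]
  simp only [r2, Real.norm_eq_abs, sq_abs]
  simp
  nlinarith [h2]

theorem inner_r2 (u v : ℝ) (p : P2) : inner ℝ (!₂[u, v] : E2) (r2 p) =
    (u * p.x + v * p.y) / 10 ^ 7 := by
  simp [PiLp.inner_apply, Fin.sum_univ_two, r2]
  ring

/-- the data of a valid record -/
structure Ok (r : Rec2) : Prop where
  a : r.a = dI r.t.a
  b : r.b = dI r.t.b
  c : r.c = dI r.t.c
  x : ∀ v ∈ r.t.vs, (r.x0 : ℤ) ≤ (dI v).x + 4000000 ∧ (dI v).x + 4000000 ≤ r.x1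
  y : ∀ v ∈ r.t.vs, (r.y0 : ℤ) ≤ (dI v).y + 4000000 ∧ (dI v).y + 4000000 ≤ r.y1
  pos : 0 < area r.a r.b r.c
  small : ∀ v ∈ r.t.vs, small2 (dI v) = true

theorem inb_iff {l u : ℕ} {x : ℤ} (h : inb l u x = true) :
    (l : ℤ) ≤ x + 4000000 ∧ x + 4000000 ≤ (u : ℤ) := by
  obtain ⟨h1, h2⟩ := and3 h
  exact ⟨(leb_iff _ _).1 h1, (leb_iff _ _).1 h2⟩

theorem okRec_iff {r : Rec2} (h : okRec r = true) : Ok r := by
  obtain ⟨h1, h⟩ := and3 h
  obtain ⟨ha, h1⟩ := and3 h1
  obtain ⟨hb, hc⟩ := and3 h1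
  obtain ⟨h1, h⟩ := and3 h
  obtain ⟨hax, h1⟩ := and3 h1
  obtain ⟨hbx, hcx⟩ := and3 h1
  obtain ⟨h1, h⟩ := and3 h
  obtain ⟨hay, h1⟩ := and3 h1
  obtain ⟨hby, hcy⟩ := and3 h1
  obtain ⟨hp, h⟩ := and3 h
  obtain ⟨hsa, h1⟩ := and3 h
  obtain ⟨hsb, hsc⟩ := and3 h1
  have ha := p2Eq_iff ha
  have hb := p2Eq_iff hb
  have hc := p2Eq_iff hc
  refine ⟨ha, hb, hc, ?_, ?_, (ltb_iff _ _).1 hp, ?_⟩
  · intro v hv
    simp only [Tri.vs, List.mem_cons, List.not_mem_nil, or_false] at hv
    rcases hv with rfl | rfl | rfl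
    · rw [← ha]; exact inb_iff hax
    · rw [← hb]; exact inb_iff hbx
    · rw [← hc]; exact inb_iff hcx
  · intro v hv
    simp only [Tri.vs, List.mem_cons, List.not_mem_nil, or_false] at hv
    rcases hv with rfl | rfl | rfl
    · rw [← ha]; exact inb_iff hay
    · rw [← hb]; exact inb_iff hby
    · rw [← hc]; exact inb_iff hcy
  · intro v hv
    simp only [Tri.vs, List.mem_cons, List.not_mem_nil, or_false] at hv
    rcases hv with rfl | rfl | rfl
    · rw [← ha]; exact hsa
    · rw [← hb]; exact hsb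
    · rw [← hc]; exact hsc

theorem allOk_iff {l : List Rec2} (h : allOk l = true) : ∀ r ∈ l, Ok r := by
  induction l with
  | nil => intro t ht; cases ht
  | cons s l ih =>
    rw [allOk] at h
    obtain ⟨h1, h2⟩ := and3 h
    intro e he
    rcases List.mem_cons.1 he with rfl | he
    · exact okRec_iff h1
    · exact ih h2 e he

theorem srt_iff {l : List Rec2} : ∀ {n : ℕ}, srt n l = true → (∀ r ∈ l, n ≤ r.x0) ∧
    l.Pairwise fun r s => r.x0 ≤ s.x0 := by
  induction l with
  | nil => intro n _; exact ⟨fun r hr => absurd hr List.not_mem_nil, List.Pairwise.nil⟩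
  | cons s l ih =>
    intro n h
    rw [srt] at h
    obtain ⟨h1, h2⟩ := and3 h
    have h1 := Nat.le_of_ble_eq_true h1
    obtain ⟨h3, h4⟩ := ih h2
    refine ⟨fun r hr => ?_, List.pairwise_cons.2 ⟨h3, h4⟩⟩
    rcases List.mem_cons.1 hr with rfl | hr
    · exact h1
    · exact h1.trans (h3 r hr)

/-- the conclusion for a pair of records -/
structure Good (r s : Rec2) : Prop where
  sep : HalfSep pos r.t s.t ∨ HalfSep pos s.t r.t
  l : ¬ ∀ v ∈ r.t.vs, v ∈ s.t.vs
  r : ¬ ∀ v ∈ s.t.vs, v ∈ r.t.vs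

theorem Good.symm {r s : Rec2} (h : Good r s) : Good s r := ⟨h.sep.symm, h.r, h.l⟩

/-- strict separation by a line -/
theorem good_strict {r s : Rec2} (u v : ℝ) (c : ℝ)
    (h1 : ∀ w ∈ r.t.vs, u * (dI w).x + v * (dI w).y < c)
    (h2 : ∀ w ∈ s.t.vs, c ≤ u * (dI w).x + v * (dI w).y) : Good r s := by
  have key : ∀ w, w ∈ r.t.vs → w ∈ s.t.vs → False := fun w hw hw' =>
    absurd (h1 w hw) (not_lt.2 (h2 w hw'))
  have ha : ∀ t : Tri, t.a ∈ t.vs := fun t => by simp [Tri.vs]
  refine ⟨Or.inl ⟨!₂[u, v], c / 10 ^ 7, fun w hw => ?_, fun w hw => ?_⟩,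
    fun h => key _ (ha _) (h _ (ha _)), fun h => key _ (h _ (ha _)) (ha _)⟩
  · have h := h1 w hw
    have h' : inner ℝ (!₂[u, v] : E2) (pos w) < c / 10 ^ 7 := by
      unfold pos
      rw [inner_r2]
      exact div_lt_div_of_pos_right h (by positivity)
    exact ⟨h'.le, fun h3 => absurd h3 (ne_of_lt h')⟩
  · unfold pos
    rw [inner_r2]
    exact div_le_div_of_nonneg_right (h2 w hw) (by positivity)

theorem good_x {r s : Rec2} (hr : Ok r) (hs : Ok s) (h : r.x1 < s.x0) : Good r s := by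
  refine good_strict 1 0 ((s.x0 : ℝ) - 4000000) (fun w hw => ?_) (fun w hw => ?_)
  · have h1 := (hr.x w hw).2
    have h2 : (dI w).x + 4000000 < (s.x0 : ℤ) := lt_of_le_of_lt h1 (by exact_mod_cast h)
    have h3 : (((dI w).x + 4000000 : ℤ) : ℝ) < ((s.x0 : ℤ) : ℝ) := by exact_mod_cast h2
    push_cast at h3
    linarith
  · have h1 := (hs.x w hw).1
    have h3 : ((s.x0 : ℤ) : ℝ) ≤ (((dI w).x + 4000000 : ℤ) : ℝ) := by exact_mod_cast h1
    push_cast at h3
    linarith

theorem good_y {r s : Rec2} (hr : Ok r) (hs : Ok s) (h : r.y1 < s.y0) : Good r s := by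
  refine good_strict 0 1 ((s.y0 : ℝ) - 4000000) (fun w hw => ?_) (fun w hw => ?_)
  · have h1 := (hr.y w hw).2
    have h2 : (dI w).y + 4000000 < (s.y0 : ℤ) := lt_of_le_of_lt h1 (by exact_mod_cast h)
    have h3 : (((dI w).y + 4000000 : ℤ) : ℝ) < ((s.y0 : ℤ) : ℝ) := by exact_mod_cast h2
    push_cast at h3
    linarith
  · have h1 := (hs.y w hw).1
    have h3 : ((s.y0 : ℤ) : ℝ) ≤ (((dI w).y + 4000000 : ℤ) : ℝ) := by exact_mod_cast h1
    push_cast at h3
    linarith

/-- separation by an edge `ab` of the triangle `t = (a, b, c)` (up to rotation) -/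
theorem good_edge {r s : Rec2} (hs : Ok s) (a b c : ℕ)
    (ht : ∀ v, v ∈ r.t.vs ↔ v = a ∨ v = b ∨ v = c)
    (hp : 0 < area (dI a) (dI b) (dI c)) (h : sepE (dI a) (dI b) r.t s = true) : Good r s := by
  obtain ⟨h1, h⟩ := and3 h
  obtain ⟨h2, h3⟩ := and3 h
  rw [hs.a] at h1
  rw [hs.b] at h2
  rw [hs.c] at h3
  have key : ∀ w ∈ s.t.vs, area (dI a) (dI b) (dI w) ≤ 0 ∧
      (area (dI a) (dI b) (dI w) < 0 ∨ w ∈ r.t.vs) := by
    have aux : ∀ w, ptR (dI a) (dI b) r.t (dI w) w = true → area (dI a) (dI b) (dI w) ≤ 0 ∧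
      (area (dI a) (dI b) (dI w) < 0 ∨ w ∈ r.t.vs) := by
      intro w hw
      obtain ⟨h4, h5⟩ := and3 hw
      rw [Bool.or_eq_true] at h5
      refine ⟨(leb_iff _ _).1 h4, ?_⟩
      rcases h5 with h5 | h5
      · exact Or.inl ((ltb_iff _ _).1 h5)
      · exact Or.inr (isV_iff h5)
    intro w hw
    simp only [Tri.vs, List.mem_cons, List.not_mem_nil, or_false] at hw
    rcases hw with rfl | rfl | rfl
    · exact aux _ h1
    · exact aux _ h2
    · exact aux _ h3
  have haa : area (dI a) (dI b) (dI a) = 0 := by unfold area; ring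
  have hbb : area (dI a) (dI b) (dI b) = 0 := by unfold area; ring
  have hown : ∀ w ∈ r.t.vs, 0 ≤ area (dI a) (dI b) (dI w) := by
    intro w hw
    rcases (ht w).1 hw with rfl | rfl | rfl
    · exact haa.ge
    · exact hbb.ge
    · exact hp.le
  have hsne : 0 < area (dI s.t.a) (dI s.t.b) (dI s.t.c) := by
    have := hs.pos
    rwa [hs.a, hs.b, hs.c] at this
  have hin : ∀ w, inner ℝ (!₂[-(((dI b).y - (dI a).y : ℤ) : ℝ), (((dI b).x - (dI a).x : ℤ) : ℝ)] : E2)
      (pos w) = ((area (dI a) (dI b) (dI w) : ℤ) : ℝ) / 10 ^ 7 +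
      ((((dI b).x - (dI a).x) * (dI a).y - ((dI b).y - (dI a).y) * (dI a).x : ℤ) : ℝ) / 10 ^ 7 := by
    intro w
    unfold pos
    rw [inner_r2]
    unfold area
    push_cast
    ring
  refine ⟨Or.inr ⟨!₂[-(((dI b).y - (dI a).y : ℤ) : ℝ), (((dI b).x - (dI a).x : ℤ) : ℝ)],
    ((((dI b).x - (dI a).x) * (dI a).y - ((dI b).y - (dI a).y) * (dI a).x : ℤ) : ℝ) / 10 ^ 7,
    fun w hw => ?_, fun w hw => ?_⟩, fun h => ?_, fun h => ?_⟩
  · obtain ⟨h4, h5⟩ := key w hw
    rw [hin]
    have h6 : ((area (dI a) (dI b) (dI w) : ℤ) : ℝ) / 10 ^ 7 ≤ 0 :=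
      div_nonpos_of_nonpos_of_nonneg (by exact_mod_cast h4) (by positivity)
    refine ⟨by linarith, fun h7 => ?_⟩
    rcases h5 with h5 | h5
    · exfalso
      have h8 : ((area (dI a) (dI b) (dI w) : ℤ) : ℝ) / 10 ^ 7 < 0 :=
        div_neg_of_neg_of_pos (by exact_mod_cast h5) (by positivity)
      linarith
    · exact h5
  · rw [hin]
    have h6 : 0 ≤ ((area (dI a) (dI b) (dI w) : ℤ) : ℝ) / 10 ^ 7 :=
      div_nonneg (by exact_mod_cast hown w hw) (by positivity)
    linarith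
  · -- the vertex `c` of the owner is not a vertex of the other one
    have := (key c (h c ((ht c).2 (Or.inr (Or.inr rfl))))).1
    omega
  · -- all the vertices of the other one are `a` or `b`
    have h7 : ∀ w ∈ s.t.vs, w = a ∨ w = b := by
      intro w hw
      rcases (ht w).1 (h w hw) with rfl | rfl | rfl
      · exact Or.inl rfl
      · exact Or.inr rfl
      · exfalso
        have := (key _ hw).1
        omega
    have ka := h7 s.t.a (by simp [Tri.vs])
    have kb := h7 s.t.b (by simp [Tri.vs])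
    have kc := h7 s.t.c (by simp [Tri.vs])
    have z1 : ∀ p q : P2, area p p q = 0 := fun p q => by unfold area; ring
    have z2 : ∀ p q : P2, area p q p = 0 := fun p q => by unfold area; ring
    have z3 : ∀ p q : P2, area p q q = 0 := fun p q => by unfold area; ring
    rcases ka with ka | ka <;> rcases kb with kb | kb <;> rcases kc with kc | kc <;>
      rw [ka, kb, kc] at hsne <;> simp only [z1, z2, z3, lt_irrefl] at hsne

theorem area_rot (a b c : P2) : area b c a = area a b c := by unfold area; ring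

theorem good_ab {r s : Rec2} (hr : Ok r) (hs : Ok s) (h : sepE r.a r.b r.t s = true) : Good r s := by
  have hp := hr.pos
  rw [hr.a, hr.b] at h
  rw [hr.a, hr.b, hr.c] at hp
  exact good_edge hs _ _ r.t.c (fun v => by simp [Tri.vs]) hp h

theorem good_bc {r s : Rec2} (hr : Ok r) (hs : Ok s) (h : sepE r.b r.c r.t s = true) : Good r s := by
  have hp := hr.pos
  rw [hr.b, hr.c] at h
  rw [hr.a, hr.b, hr.c, ← area_rot] at hp
  exact good_edge hs _ _ r.t.a (fun v => by simp [Tri.vs]; tauto) hp h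

theorem good_ca {r s : Rec2} (hr : Ok r) (hs : Ok s) (h : sepE r.c r.a r.t s = true) : Good r s := by
  have hp := hr.pos
  rw [hr.c, hr.a] at h
  rw [hr.a, hr.b, hr.c, ← area_rot, ← area_rot] at hp
  exact good_edge hs _ _ r.t.b (fun v => by simp [Tri.vs]; tauto) hp h

theorem row2_sound {r : Rec2} (hr : Ok r) {l : List Rec2} : ∀ {n : ℕ}, row2 r l n = true →
    (∀ s ∈ l, Ok s) → (l.Pairwise fun r s => r.x0 ≤ s.x0) → ∀ s ∈ l, Good r s := by
  induction l with
  | nil => intro n _ _ _ s hs; cases hs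
  | cons s l ih =>
    intro n h hok hsrt q hq
    have hs := hok s List.mem_cons_self
    have hok' : ∀ s ∈ l, Ok s := fun q hq => hok q (List.mem_cons_of_mem _ hq)
    obtain ⟨hs1, hs2⟩ := List.pairwise_cons.1 hsrt
    have fin : ∀ {b : Bool}, (b && row2 r l (n / 16)) = true → (b = true → Good r s) → Good r q := by
      intro b hb hg
      obtain ⟨h1, h2⟩ := and3 hb
      rcases List.mem_cons.1 hq with rfl | hq
      · exact hg h1
      · exact ih h2 hok' hs2 q hq
    rw [row2] at h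
    split at h
    · have h1 : r.x1 < s.x0 := by
        unfold Nat.blt at h
        exact Nat.le_of_ble_eq_true h
      rcases List.mem_cons.1 hq with rfl | hq
      · exact good_x hr hs h1
      · exact good_x hr (hok' q hq) (lt_of_lt_of_le h1 (hs1 q hq))
    · refine fin h fun h1 => good_y hr hs ?_
      unfold Nat.blt at h1
      exact Nat.le_of_ble_eq_true h1
    · refine fin h fun h1 => (good_y hs hr ?_).symm
      unfold Nat.blt at h1
      exact Nat.le_of_ble_eq_true h1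
    · exact fin h fun h1 => good_ab hr hs h1
    · exact fin h fun h1 => good_bc hr hs h1
    · exact fin h fun h1 => good_ca hr hs h1
    · exact fin h fun h1 => (good_ab hs hr h1).symm
    · exact fin h fun h1 => (good_bc hs hr h1).symm
    · exact fin h fun h1 => (good_ca hs hr h1).symm
    · cases h

theorem loop2_sound {l : List Rec2} : ∀ {ns : List ℕ}, loop2 l ns = true →
    (∀ s ∈ l, Ok s) → (l.Pairwise fun r s => r.x0 ≤ s.x0) → l.Pairwise Good := by
  induction l with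
  | nil => intro _ _ _ _; exact List.Pairwise.nil
  | cons s l ih =>
    intro ns h hok hsrt
    cases ns with
    | nil => cases h
    | cons n ns =>
      rw [loop2] at h
      obtain ⟨h1, h2⟩ := and3 h
      have hok' : ∀ s ∈ l, Ok s := fun q hq => hok q (List.mem_cons_of_mem _ hq)
      obtain ⟨hs1, hs2⟩ := List.pairwise_cons.1 hsrt
      exact List.pairwise_cons.2 ⟨row2_sound (hok s List.mem_cons_self) h1 hok' hs2,
        ih h2 hok' hs2⟩

theorem memR_iff {t : Tri} {l : List Rec2} (h : memR t l = true) : ∃ r ∈ l, r.t = t := by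
  induction l with
  | nil => cases h
  | cons s l ih =>
    rw [memR, Bool.or_eq_true] at h
    rcases h with h | h
    · exact ⟨s, List.mem_cons_self, (triEq_iff h).symm⟩
    · obtain ⟨r, hr, h2⟩ := ih h
      exact ⟨r, List.mem_cons_of_mem _ hr, h2⟩

theorem subR_iff {rs : List Rec2} {l : List Tri} (h : subR rs l = true) :
    ∀ t ∈ l, ∃ r ∈ rs, r.t = t := by
  induction l with
  | nil => intro t ht; cases ht
  | cons s l ih =>
    rw [subR] at h
    obtain ⟨h1, h2⟩ := and3 h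
    intro t ht
    rcases List.mem_cons.1 ht with rfl | ht
    · exact memR_iff h1
    · exact ih h2 t ht

theorem recs_ok : ∀ r ∈ recs2, Ok r := allOk_iff run_ok

theorem recs_good : recs2.Pairwise Good := loop2_sound run_loop recs_ok (srt_iff run_srt).2

theorem mem_rec {t : Tri} (ht : t ∈ F) : ∃ r ∈ recs2, r.t = t := subR_iff run_sub t ht

theorem pair_good {t t' : Tri} (ht : t ∈ F) (ht' : t' ∈ F) (hne : t ≠ t') :
    (HalfSep pos t t' ∨ HalfSep pos t' t) ∧ ¬ ∀ v ∈ t.vs, v ∈ t'.vs := by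
  obtain ⟨r, hr, rfl⟩ := mem_rec ht
  obtain ⟨s, hs, rfl⟩ := mem_rec ht'
  have hrs : r ≠ s := fun h => hne (by rw [h])
  have : Std.Symm Good := ⟨fun _ _ h => h.symm⟩
  have h := recs_good.forall hr hs hrs
  exact ⟨h.sep, h.l⟩

/-- a point on the left of a boundary edge -/
theorem ptL_iff {e : ℕ × ℕ} {v : ℕ} (h : ptL (dI e.1) (dI e.2) e.1 e.2 (dI v) v = true) :
    0 ≤ det2 (pos e.2 - pos e.1) (pos v - pos e.1) ∧
    (det2 (pos e.2 - pos e.1) (pos v - pos e.1) = 0 → v = e.1 ∨ v = e.2) := by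
  obtain ⟨h1, h2⟩ := and3 h
  rw [Bool.or_eq_true, Bool.or_eq_true] at h2
  unfold pos
  rw [det2_nonneg_iff, det2_eq_iff]
  refine ⟨(leb_iff _ _).1 h1, fun h3 => ?_⟩
  rcases h2 with h2 | h2 | h2
  · have := (ltb_iff _ _).1 h2
    omega
  · exact Or.inl (Nat.eq_of_beq_eq_true h2)
  · exact Or.inr (Nat.eq_of_beq_eq_true h2)

theorem sideR_iff {e : ℕ × ℕ} {l : List Rec2} (hok : ∀ r ∈ l, Ok r)
    (h : sideR (dI e.1) (dI e.2) e.1 e.2 l = true) : ∀ r ∈ l, ∀ v ∈ r.t.vs,
    0 ≤ det2 (pos e.2 - pos e.1) (pos v - pos e.1) ∧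
    (det2 (pos e.2 - pos e.1) (pos v - pos e.1) = 0 → v = e.1 ∨ v = e.2) := by
  induction l with
  | nil => intro r hr; cases hr
  | cons s l ih =>
    rw [sideR] at h
    obtain ⟨h1, h2⟩ := and3 h
    intro r hr v hv
    rcases List.mem_cons.1 hr with rfl | hr
    · obtain ⟨ha, h1⟩ := and3 h1
      obtain ⟨hb, hc⟩ := and3 h1
      have hr' := hok r List.mem_cons_self
      rw [hr'.a] at ha
      rw [hr'.b] at hb
      rw [hr'.c] at hc
      simp only [Tri.vs, List.mem_cons, List.not_mem_nil, or_false] at hv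
      rcases hv with rfl | rfl | rfl
      · exact ptL_iff ha
      · exact ptL_iff hb
      · exact ptL_iff hc
    · exact ih (fun q hq => hok q (List.mem_cons_of_mem _ hq)) h2 r hr v hv

theorem sideL_iff {l : List (ℕ × ℕ)} (h : sideL l = true) : ∀ e ∈ l, ∀ t ∈ F, ∀ v ∈ t.vs,
    0 ≤ det2 (pos e.2 - pos e.1) (pos v - pos e.1) ∧
    (det2 (pos e.2 - pos e.1) (pos v - pos e.1) = 0 → v = e.1 ∨ v = e.2) := by
  induction l with
  | nil => intro r hr; cases hr
  | cons s l ih =>
    rw [sideL] at h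
    obtain ⟨h1, h2⟩ := and3 h
    intro e he t ht v hv
    rcases List.mem_cons.1 he with rfl | he
    · obtain ⟨r, hr, rfl⟩ := mem_rec ht
      exact sideR_iff recs_ok h1 r hr v hv
    · exact ih h2 e he t ht v hv

end Pool.Agent.Work.MP_48319b_gt.Dat.CxA

namespace Pool.Agent.Work.MP_48319b_gt.Dat

open CxA

/-- [48319b D1] -/
theorem stCx : StCx where
  ne := by unfold F; exact List.cons_ne_nil _ _
  orient := by
    intro t ht
    obtain ⟨r, hr, rfl⟩ := mem_rec ht
    have h := recs_ok r hr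
    have hp := h.pos
    rw [h.a, h.b, h.c] at hp
    unfold pos
    exact (det2_pos_iff _ _ _).2 hp
  sep := fun t ht t' ht' hne => (pair_good ht ht' hne).1
  edge := edgeL_iff run_edge
  bdmem := bdL_iff run_bd
  bdside := sideL_iff run_side
  small := by
    intro t ht v hv
    obtain ⟨r, hr, rfl⟩ := mem_rec ht
    exact small2_iff ((recs_ok r hr).small v hv)
  uniq := by
    intro t ht t' ht' h
    by_contra hne
    exact (pair_good ht ht' hne).2 h

end Pool.Agent.Work.MP_48319b_gt.Dat
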