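import Pool.Agent.Work.MP_48319b_gt.Chk
import Pool.Agent.Work.MP_48319b_gt.Cert2

/-!
# MP_48319b_gt, item D1: Boolean checks for the plane triangulation
-/

namespace Pool.Agent.Work.MP_48319b_gt.Dat.CxA

/-- twice the signed area -/
def area (a b p : P2) : ℤ := (b.x - a.x) * (p.y - a.y) - (b.y - a.y) * (p.x - a.x)

/-- equality of points -/
def p2Eq (p q : P2) : Bool := eqb p.x q.x && eqb p.y q.y

/-- `n = x + 4000000` lies between the bounds -/
def inb (l u : ℕ) (x : ℤ) : Bool := leb (Int.ofNat l) (x + 4000000) && leb (x + 4000000) (Int.ofNat u)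

def small2 (p : P2) : Bool := ltb (p.x * p.x + p.y * p.y) 16000000000000

/-- validity of a record -/
def okRec (r : Rec2) : Bool :=
  (p2Eq r.a (dI r.t.a) && (p2Eq r.b (dI r.t.b) && p2Eq r.c (dI r.t.c))) &&
  ((inb r.x0 r.x1 r.a.x && (inb r.x0 r.x1 r.b.x && inb r.x0 r.x1 r.c.x)) &&
  ((inb r.y0 r.y1 r.a.y && (inb r.y0 r.y1 r.b.y && inb r.y0 r.y1 r.c.y)) &&
  (ltb 0 (area r.a r.b r.c) && (small2 r.a && (small2 r.b && small2 r.c)))))

def allOk : List Rec2 → Bool
  | [] => true
  | r :: rs => okRec r && allOk rs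

/-- adjacent records are sorted by `x0` -/
def srt : ℕ → List Rec2 → Bool
  | _, [] => true
  | n, r :: rs => Nat.ble n r.x0 && srt r.x0 rs

/-- the point `p = pos v` is on the right of `ab`, or on the line and a vertex of `t` -/
def ptR (a b : P2) (t : Tri) (p : P2) (v : ℕ) : Bool :=
  leb (area a b p) 0 && (ltb (area a b p) 0 || isV t v)

/-- the edge `ab` of `t` separates `t` from `s` -/
def sepE (a b : P2) (t : Tri) (s : Rec2) : Bool :=
  ptR a b t s.a s.t.a && (ptR a b t s.b s.t.b && ptR a b t s.c s.t.c)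

/-- the pairs `(r, s)`, `s` in the list -/
def row2 (r : Rec2) : List Rec2 → ℕ → Bool
  | [], _ => true
  | s :: ss, n => match n % 16 with
    | 0 => Nat.blt r.x1 s.x0
    | 1 => Nat.blt r.y1 s.y0 && row2 r ss (n / 16)
    | 2 => Nat.blt s.y1 r.y0 && row2 r ss (n / 16)
    | 3 => sepE r.a r.b r.t s && row2 r ss (n / 16)
    | 4 => sepE r.b r.c r.t s && row2 r ss (n / 16)
    | 5 => sepE r.c r.a r.t s && row2 r ss (n / 16)
    | 6 => sepE s.a s.b s.t r && row2 r ss (n / 16)
    | 7 => sepE s.b s.c s.t r && row2 r ss (n / 16)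
    | 8 => sepE s.c s.a s.t r && row2 r ss (n / 16)
    | _ => false

/-- all pairs -/
def loop2 : List Rec2 → List ℕ → Bool
  | [], _ => true
  | r :: rs, n :: ns => row2 r rs n && loop2 rs ns
  | _ :: _, [] => false

/-- membership of a triangle in the list of records -/
def memR (t : Tri) : List Rec2 → Bool
  | [] => false
  | s :: l => triEq t s.t || memR t l

/-- all the triangles of the list are in the list of records -/
def subR (rs : List Rec2) : List Tri → Bool
  | [] => true
  | t :: l => memR t rs && subR rs l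

/-- `(p, q)` is an oriented edge of `t` -/
def hasE (p q : ℕ) (t : Tri) : Bool :=
  (Nat.beq t.a p && Nat.beq t.b q) || ((Nat.beq t.b p && Nat.beq t.c q) ||
    (Nat.beq t.c p && Nat.beq t.a q))

/-- `(p, q)` is an oriented edge of a triangle of the list -/
def anyE (p q : ℕ) : List Tri → Bool
  | [] => false
  | t :: l => hasE p q t || anyE p q l

/-- `(p, q)` is in the list -/
def memE (p q : ℕ) : List (ℕ × ℕ) → Bool
  | [] => false
  | e :: l => (Nat.beq e.1 p && Nat.beq e.2 q) || memE p q l

/-- the edge condition for the list of triangles -/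
def edgeL : List Tri → Bool
  | [] => true
  | t :: l => ((anyE t.b t.a F || memE t.a t.b bd) && ((anyE t.c t.b F || memE t.b t.c bd) &&
      (anyE t.a t.c F || memE t.c t.a bd))) && edgeL l

/-- the boundary edges are edges of triangles -/
def bdL : List (ℕ × ℕ) → Bool
  | [] => true
  | e :: l => anyE e.1 e.2 F && bdL l

/-- the point `p = pos v` is on the left of the edge `(e1, e2)`, or on the line and an end -/
def ptL (a b : P2) (e1 e2 : ℕ) (p : P2) (v : ℕ) : Bool :=
  leb 0 (area a b p) && (ltb 0 (area a b p) || (Nat.beq v e1 || Nat.beq v e2))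

/-- all the triangles of the list are on the left -/
def sideR (a b : P2) (e1 e2 : ℕ) : List Rec2 → Bool
  | [] => true
  | r :: rs => (ptL a b e1 e2 r.a r.t.a && (ptL a b e1 e2 r.b r.t.b && ptL a b e1 e2 r.c r.t.c)) &&
      sideR a b e1 e2 rs

/-- the boundary condition -/
def sideL : List (ℕ × ℕ) → Bool
  | [] => true
  | e :: l => sideR (dI e.1) (dI e.2) e.1 e.2 recs2 && sideL l

end Pool.Agent.Work.MP_48319b_gt.Dat.CxA
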