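import Pool.Agent.Work.MP_48319b_gt.Base

/-!
# MP_48319b_gt : definitions used in the proof

Captain: helper96.  There is a transverse immersion of the 2-sphere in 3-space which is the
projection of a 2-knot but not the projection of a trivial 2-knot.
-/

open Metric Set Topology
open scoped Manifold ContDiff

namespace Pool.Agent.Work.MP_48319b_gt

abbrev E2 := EuclideanSpace ℝ (Fin 2)

/-! ### Complements and the fundamental group -/

/-- Complement in `ℝ³ × ℝ` of the graph `{(P p, h p)}`. -/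
def Compl {S : Type*} (P : S → E3) (h : S → ℝ) : Set (E3 × ℝ) := (range fun p => (P p, h p))ᶜ

/-- Two loops of `X` do not commute. -/
def NonAb (X : Set (E3 × ℝ)) : Prop :=
  ∃ (x0 : X) (a b : FundamentalGroup X x0), a * b ≠ b * a

/-! ### From long planes to spheres -/

noncomputable def emb (x : E2) : E3 := !₂[x 0, x 1, 0]

noncomputable def north : E3 := !₂[0, 0, 1]

/-- inversion of `ℝ³` centred at `north`, of radius `√2`; it exchanges the plane `z = 0` and the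
unit sphere minus `north`. -/
noncomputable def inv (y : E3) : E3 := north + (2 / ‖y - north‖ ^ 2) • (y - north)

/-- stereographic projection from `north` -/
noncomputable def st (p : S2) : E2 := !₂[p.1 0 / (1 - p.1 2), p.1 1 / (1 - p.1 2)]

open Classical in
/-- the sphere obtained from a long plane -/
noncomputable def sph (F : E2 → E3) (p : S2) : E3 := if p.1 = north then north else inv (F (st p))

open Classical in
/-- the height function on the sphere obtained from a height function on the plane -/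
noncomputable def hsph (H : E2 → ℝ) (p : S2) : ℝ := if p.1 = north then 0 else H (st p)

/-- A long immersed plane in general position, standard outside the disc of radius 1/2. -/
structure LongGP (F : E2 → E3) : Prop where
  smooth : ContDiff ℝ ∞ F
  immersion : ∀ x, Function.Injective (fderiv ℝ F x)
  far : ∀ x, 1 / 2 ≤ ‖x‖ → F x = emb x
  near : ∀ x, ‖x‖ ≤ 1 / 2 → ‖F x‖ < 1
  double : ∀ p q, p ≠ q → F p = F q →
    LinearMap.range (fderiv ℝ F p : E2 →ₗ[ℝ] E3) ⊔ LinearMap.range (fderiv ℝ F q : E2 →ₗ[ℝ] E3) = ⊤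
  triple : ∀ p q r, p ≠ q → q ≠ r → p ≠ r → F p = F q → F q = F r →
    LinearMap.range (fderiv ℝ F p : E2 →ₗ[ℝ] E3) ⊓ LinearMap.range (fderiv ℝ F q : E2 →ₗ[ℝ] E3) ⊓
      LinearMap.range (fderiv ℝ F r : E2 →ₗ[ℝ] E3) = ⊥
  quadruple : ∀ p q r s, p ≠ q → p ≠ r → p ≠ s → q ≠ r → q ≠ s → r ≠ s →
    F p = F q → F q = F r → F r = F s → False

/-- The ordered double set. -/
def DD {V : Type*} (f : E2 → V) : Set (E2 × E2) := {z | z.1 ≠ z.2 ∧ f z.1 = f z.2}

/-! ### Monotone charts -/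

/-- `Q ∘ G` is strongly monotone near `x`. -/
def MonoAt (G : E2 → E3) (x : E2) (Q : E3 →L[ℝ] E2) (m r : ℝ) : Prop :=
  ∀ p ∈ ball x r, ∀ q ∈ ball x r, m * ‖p - q‖ ^ 2 ≤ inner ℝ (p - q) (Q (G p - G q))

/-- near `p`, `f` is translation covariant in the direction `τ` with speed `w` -/
def TransAt (f : E2 → E3) (p τ : E2) (w : E3) (r : ℝ) : Prop :=
  ∀ p' ∈ ball p r, ∀ t : ℝ, p' + t • τ ∈ ball p r → f (p' + t • τ) = f p' + t • w

/-- near `p`, `f` is affine with linear part `A` -/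
def AffAt {V : Type*} [NormedAddCommGroup V] [NormedSpace ℝ V] (f : E2 → V) (p : E2)
    (A : E2 →L[ℝ] V) (r : ℝ) : Prop :=
  ∀ p' ∈ ball p r, f p' = f p + A (p' - p)

/-- a double point where the sheet at `q` is flat and the sheet at `p` is translation covariant
in a direction transverse to the sheet at `q` -/
def TransFlat (f : E2 → E3) (p q : E2) : Prop :=
  ∃ (τ : E2) (w : E3) (A : E2 →L[ℝ] E3) (r : ℝ), 0 < r ∧ TransAt f p τ w r ∧ AffAt f q A r ∧
    Function.Injective A ∧ w ∉ LinearMap.range (A : E2 →ₗ[ℝ] E3)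

/-- three flat sheets crossing transversely -/
def TripleFlat (f : E2 → E3) (p q r : E2) : Prop :=
  ∃ (A B C : E2 →L[ℝ] E3) (ρ : ℝ), 0 < ρ ∧ AffAt f p A ρ ∧ AffAt f q B ρ ∧ AffAt f r C ρ ∧
    LinearMap.range (A : E2 →ₗ[ℝ] E3) ⊓ LinearMap.range (B : E2 →ₗ[ℝ] E3) ⊓
      LinearMap.range (C : E2 →ₗ[ℝ] E3) = ⊥

/-- A Lipschitz plane, standard outside a small disc, with generic double points
(the piecewise affine map to be smoothed). -/
structure GenericPL (f : E2 → E3) : Prop where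
  lip : ∃ K, LipschitzWith K f
  far : ∀ x, 2 / 5 ≤ ‖x‖ → f x = emb x
  near : ∀ x, ‖x‖ ≤ 2 / 5 → ‖f x‖ ≤ 2 / 5
  mono : ∀ x, ∃ Q m r, 0 < m ∧ 0 < r ∧ MonoAt f x Q m r
  double : ∀ p q, p ≠ q → f p = f q → TransFlat f p q ∨ TransFlat f q p
  triple : ∀ p q r, p ≠ q → q ≠ r → p ≠ r → f p = f q → f q = f r → TripleFlat f p q r
  quadruple : ∀ p q r s, p ≠ q → p ≠ r → p ≠ s → q ≠ r → q ≠ s → r ≠ s →
    f p = f q → f q = f r → f r = f s → False

/-- The approximating family (mollifications). -/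
structure Approx (f : E2 → E3) (F : ℝ → E2 → E3) : Prop where
  smooth : ∀ ε, 0 < ε → ContDiff ℝ ∞ (F ε)
  close : ∃ K : ℝ, ∀ ε, 0 < ε → ∀ x, ‖F ε x - f x‖ ≤ K * ε
  lip : ∃ K, ∀ ε, 0 < ε → LipschitzWith K (F ε)
  mono : ∀ x Q m r, MonoAt f x Q m r → ∀ ε, 0 < ε → ε < r / 2 → MonoAt (F ε) x Q m (r / 2)
  trans : ∀ p τ w r, TransAt f p τ w r → ∀ ε, 0 < ε → ε < r / 2 → TransAt (F ε) p τ w (r / 2)
  aff : ∀ p A r, AffAt f p A r → ∀ ε, 0 < ε → ε < r / 2 → ∀ p' ∈ ball p (r / 2), F ε p' = f p'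

/-- The same for height functions. -/
structure ApproxH (g : E2 → ℝ) (H : ℝ → E2 → ℝ) : Prop where
  smooth : ∀ ε, 0 < ε → ContDiff ℝ ∞ (H ε)
  close : ∃ K : ℝ, ∀ ε, 0 < ε → ∀ x, ‖H ε x - g x‖ ≤ K * ε
  lip : ∃ K, ∀ ε, 0 < ε → LipschitzWith K (H ε)
  aff : ∀ p A r, AffAt g p A r → ∀ ε, 0 < ε → ε < r / 2 → ∀ p' ∈ ball p (r / 2), H ε p' = g p'

/-- The connectivity information on the double set which forces the sign pattern of a lift:
`C1` and `C2` are compact connected pieces on which the first point is above the second one for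
`g`; up to exchanging the two points they exhaust the double set; one triple point ties them. -/
structure SignData (f : E2 → E3) (g : E2 → ℝ) (C1 C2 : Set (E2 × E2)) : Prop where
  cpt1 : IsCompact C1
  cpt2 : IsCompact C2
  conn1 : IsPreconnected C1
  conn2 : IsPreconnected C2
  sub1 : C1 ⊆ DD f
  sub2 : C2 ⊆ DD f
  cover : ∀ p q, (p, q) ∈ DD f → (p, q) ∈ C1 ∪ C2 ∨ (q, p) ∈ C1 ∪ C2
  above : ∀ p q, (p, q) ∈ C1 ∪ C2 → g q < g p
  tie : ∃ p q r, (p, q) ∈ C1 ∧ (q, r) ∈ C1 ∧ (p, r) ∈ C2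

/-! ### Sides and colours -/

/-- Side functions for the sheets of `P`: `b p y` says that `y` (near `P p`) lies on the negative
side of the sheet of `P` at `p`. -/
structure Sides {S : Type*} [TopologicalSpace S] (P : S → E3) (b : S → E3 → Prop) : Prop where
  self : ∀ p, ¬ b p (P p)
  inj : ∀ p, ∃ O ∈ 𝓝 p, InjOn P O
  const : ∀ p, ∀ O ∈ 𝓝 p, ∀ᶠ y in 𝓝 (P p), y ∉ P '' O → ∀ᶠ z in 𝓝 y, (b p z ↔ b p y)
  same : ∀ p, ∀ᶠ q in 𝓝 p, ∀ᶠ z in 𝓝 (P q), (b p z ↔ b q z)
  neg : ∀ p, ∃ O ∈ 𝓝 p, ∃ᶠ y in 𝓝 (P p), y ∉ P '' O ∧ b p y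
  pos : ∀ p, ∃ O ∈ 𝓝 p, ∃ᶠ y in 𝓝 (P p), y ∉ P '' O ∧ ¬ b p y

/-- `l` is the list of sheets over `y` which are higher than `s`, from top to bottom. -/
def IsStack {S : Type*} (P : S → E3) (h : S → ℝ) (y : E3) (s : ℝ) (l : List S) : Prop :=
  l.Pairwise (fun p q => h q < h p) ∧ ∀ p, p ∈ l ↔ P p = y ∧ s < h p

open Classical in
/-- product of the colours of the sheets of `l` of which `z` is on the negative side -/
noncomputable def wprod {S G : Type*} [Group G] (b : S → E3 → Prop) (c : S → G) (l : List S)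
    (z : E3) : G := (l.map fun p => if b p z then c p else 1).prod

/-- the colour rule: crossing higher sheets conjugates the colour -/
def ColourRule {S G : Type*} [TopologicalSpace S] [Group G] (P : S → E3) (h : S → ℝ)
    (b : S → E3 → Prop) (c : S → G) : Prop :=
  ∀ q l, IsStack P h (P q) (h q) l →
    ∀ᶠ q' in 𝓝 q, c q' = wprod b c l (P q') * c q * (wprod b c l (P q'))⁻¹

/-! ### What the explicit example has to provide -/

/-- A side and colour structure on the long plane with two top sheets whose colours do not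
commute. -/
def HasCovering (f0 : E2 → E3) (g : E2 → ℝ) : Prop :=
  ∃ (G : Type) (_ : Group G) (b0 : E2 → E3 → Prop) (c0 : E2 → G) (cinf : G),
    Sides f0 b0 ∧ ColourRule f0 g b0 c0 ∧
    (∀ x, 1 / 2 ≤ ‖x‖ → c0 x = cinf ∧ ∀ᶠ y in 𝓝 (emb x), (b0 x y ↔ y 2 < 0)) ∧
    ∃ x1 x2, (∀ q, f0 q = f0 x1 → g q ≤ g x1) ∧ (∀ q, f0 q = f0 x2 → g q ≤ g x2) ∧
      c0 x1 * c0 x2 ≠ c0 x2 * c0 x1

/-- The piecewise linear package: a generic map `f`, a simplicial map `f0` close to it, heights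
`g`. -/
structure PLPackage (f f0 : E2 → E3) (g : E2 → ℝ) (C1 C2 : Set (E2 × E2)) : Prop where
  gen : GenericPL f
  lip0 : ∃ K, LipschitzWith K f0
  lipg : ∃ K, LipschitzWith K g
  far0 : ∀ x, 2 / 5 ≤ ‖x‖ → f0 x = emb x
  near0 : ∀ x, ‖x‖ ≤ 2 / 5 → ‖f0 x‖ ≤ 2 / 5
  farg : ∀ x, 2 / 5 ≤ ‖x‖ → g x = 0
  bimono : ∀ x, ∃ Q m r, 0 < m ∧ 0 < r ∧ MonoAt f x Q m r ∧ MonoAt f0 x Q m r
  inj : ∀ s ∈ Icc (0 : ℝ) 1, Function.Injective fun p => ((1 - s) • f p + s • f0 p, g p)
  sign : SignData f g C1 C2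
  cov : HasCovering f0 g

end Pool.Agent.Work.MP_48319b_gt
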