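import Pool.Agent.Work.MP_48319b_gt.Stmts

/-!
# MP_48319b_gt : M6, the mollified map is a long immersion in general position
-/

open Metric Set Topology
open scoped Manifold ContDiff

namespace Pool.Agent.Work.MP_48319b_gt

namespace GPAux

/-! ### General compactness lemmas -/

theorem compactEps {X : Type} [TopologicalSpace X] {K : Set X} (hK : IsCompact K)
    (P : ℝ → X → Prop)
    (h : ∀ x ∈ K, ∃ N, IsOpen N ∧ x ∈ N ∧ ∃ ε0 > 0, ∀ ε, 0 < ε → ε < ε0 → ∀ w ∈ N, P ε w) :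
    ∃ U, IsOpen U ∧ K ⊆ U ∧ ∃ ε0 > 0, ∀ ε, 0 < ε → ε < ε0 → ∀ w ∈ U, P ε w := by
  refine hK.induction_on (p := fun S => ∃ U, IsOpen U ∧ S ⊆ U ∧ ∃ ε0 > 0,
    ∀ ε, 0 < ε → ε < ε0 → ∀ w ∈ U, P ε w) ?_ ?_ ?_ ?_
  · exact ⟨∅, isOpen_empty, subset_rfl, 1, one_pos, fun _ _ _ _ hw => hw.elim⟩
  · rintro s t hst ⟨U, h1, h2, h3⟩
    exact ⟨U, h1, hst.trans h2, h3⟩
  · rintro s t ⟨U, h1, h2, e1, he1, h3⟩ ⟨U', h1', h2', e2, he2, h3'⟩
    refine ⟨U ∪ U', h1.union h1', union_subset_union h2 h2', min e1 e2, lt_min he1 he2, ?_⟩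
    rintro ε hε hε' w (hw | hw)
    · exact h3 ε hε (hε'.trans_le (min_le_left _ _)) w hw
    · exact h3' ε hε (hε'.trans_le (min_le_right _ _)) w hw
  · intro x hx
    obtain ⟨N, h1, h2, h3⟩ := h x hx
    exact ⟨N, mem_nhdsWithin_of_mem_nhds (h1.mem_nhds h2), N, h1, subset_rfl, h3⟩

theorem posMin {X : Type} [TopologicalSpace X] {K : Set X} (hK : IsCompact K) (φ : X → ℝ)
    (hφ : Continuous φ) (hpos : ∀ x ∈ K, 0 < φ x) : ∃ c > 0, ∀ x ∈ K, c ≤ φ x := by
  rcases K.eq_empty_or_nonempty with rfl | hne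
  · exact ⟨1, one_pos, fun _ h => h.elim⟩
  · obtain ⟨x, hx, hmin⟩ := hK.exists_isMinOn hne hφ.continuousOn
    exact ⟨φ x, hpos x hx, fun y hy => hmin hy⟩

/-! ### The standard plane -/

theorem norm_emb (x : E2) : ‖emb x‖ = ‖x‖ := by
  rw [EuclideanSpace.norm_eq, EuclideanSpace.norm_eq, Fin.sum_univ_three, Fin.sum_univ_two]
  simp [emb]

/-- `emb` as a continuous linear map -/
noncomputable def embL : E2 →L[ℝ] E3 :=
  LinearMap.toContinuousLinearMap
    { toFun := emb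
      map_add' := by
        intro x y
        ext i
        fin_cases i <;> simp [emb]
      map_smul' := by
        intro c x
        ext i
        fin_cases i <;> simp [emb] }

theorem embL_apply (x : E2) : embL x = emb x := rfl

theorem emb_inj {x y : E2} (h : emb x = emb y) : x = y := by
  have h1 : embL (x - y) = 0 := by rw [map_sub, embL_apply, embL_apply, h, sub_self]
  have h2 : ‖x - y‖ = 0 := by rw [← norm_emb, ← embL_apply, h1, norm_zero]
  exact sub_eq_zero.1 (norm_eq_zero.1 h2)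

/-- the first two coordinates -/
noncomputable def Q0 : E3 →L[ℝ] E2 :=
  LinearMap.toContinuousLinearMap
    { toFun := fun x => !₂[x 0, x 1]
      map_add' := by
        intro x y
        ext i
        fin_cases i <;> simp
      map_smul' := by
        intro c x
        ext i
        fin_cases i <;> simp }

theorem Q0_emb (x : E2) : Q0 (emb x) = x := by
  change !₂[(emb x) 0, (emb x) 1] = x
  ext i
  fin_cases i <;> simp [emb]

theorem far_ball {x : E2} (hx : 1 / 2 ≤ ‖x‖) {p : E2} (hp : p ∈ ball x (1 / 10)) :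
    2 / 5 ≤ ‖p‖ := by
  rw [mem_ball, dist_eq_norm] at hp
  have h1 : ‖x‖ ≤ ‖p‖ + ‖p - x‖ := by
    have h2 : x = p - (p - x) := by abel
    calc ‖x‖ = ‖p - (p - x)‖ := by rw [← h2]
      _ ≤ ‖p‖ + ‖p - x‖ := norm_sub_le _ _
  linarith

theorem aff_far {f : E2 → E3} (hf : ∀ x, 2 / 5 ≤ ‖x‖ → f x = emb x) {x : E2}
    (hx : 1 / 2 ≤ ‖x‖) : AffAt f x embL (1 / 10) := by
  intro p hp
  rw [hf p (far_ball hx hp), hf x (by linarith), ← embL_apply, ← embL_apply, map_sub]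
  abel

theorem mono_far {f : E2 → E3} (hf : ∀ x, 2 / 5 ≤ ‖x‖ → f x = emb x) {x : E2}
    (hx : 1 / 2 ≤ ‖x‖) : MonoAt f x Q0 1 (1 / 10) := by
  intro p hp q hq
  rw [hf p (far_ball hx hp), hf q (far_ball hx hq), map_sub, Q0_emb, Q0_emb,
    real_inner_self_eq_norm_sq, one_mul]

theorem locInj {f : E2 → E3} {x : E2} {Q : E3 →L[ℝ] E2} {m r : ℝ} (hm : 0 < m)
    (h : MonoAt f x Q m r) {p q : E2} (hp : p ∈ ball x r) (hq : q ∈ ball x r)
    (hpq : f p = f q) : p = q := by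
  have h1 := h p hp q hq
  rw [hpq, sub_self, map_zero, inner_zero_right] at h1
  have h2 : ‖p - q‖ ^ 2 ≤ 0 := by
    by_contra hcon
    push Not at hcon
    have := mul_pos hm hcon
    linarith
  have h3 : ‖p - q‖ = 0 := by
    have := sq_nonneg ‖p - q‖
    exact pow_eq_zero_iff (two_ne_zero) |>.1 (le_antisymm h2 this)
  exact sub_eq_zero.1 (norm_eq_zero.1 h3)

/-! ### The double set of a generic map -/

section Generic

variable {f : E2 → E3} (hf : GenericPL f)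

include hf

theorem cont : Continuous f := by
  obtain ⟨K, hK⟩ := hf.lip
  exact hK.continuous

theorem dd_bdd {p q : E2} (hne : p ≠ q) (h : f p = f q) : ‖p‖ ≤ 2 / 5 := by
  by_contra hp
  push Not at hp
  have h1 := hf.far p hp.le
  by_cases hq : ‖q‖ ≤ 2 / 5
  · have h2 := hf.near q hq
    rw [← h, h1, norm_emb] at h2
    linarith
  · push Not at hq
    have h2 := hf.far q hq.le
    exact hne (emb_inj (by rw [← h1, ← h2, h]))

theorem sep : ∃ δ > 0, ∀ p q, p ≠ q → f p = f q → δ ≤ ‖p - q‖ := by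
  choose Q m r hm hr hmono using hf.mono
  obtain ⟨δ, hδ, hL⟩ := lebesgue_number_lemma_of_metric (isCompact_closedBall (0 : E2) (2 / 5))
    (c := fun x => ball x (r x)) (fun _ => isOpen_ball)
    (fun x _ => mem_iUnion.2 ⟨x, mem_ball_self (hr x)⟩)
  refine ⟨δ, hδ, ?_⟩
  intro p q hne h
  by_contra hcon
  push Not at hcon
  have hp : p ∈ closedBall (0 : E2) (2 / 5) := by
    rw [mem_closedBall_zero_iff]; exact dd_bdd hf hne h
  obtain ⟨x, hx⟩ := hL p hp
  exact hne (locInj (hm x) (hmono x) (hx (mem_ball_self hδ))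
    (hx (by rw [mem_ball, dist_eq_norm, norm_sub_rev]; exact hcon)) h)

theorem dd_compact : IsCompact (DD f) := by
  obtain ⟨δ, hδ, hsep⟩ := sep hf
  have hc := cont hf
  have h1 : DD f = {z : E2 × E2 | δ ≤ ‖z.1 - z.2‖ ∧ ‖z.1‖ ≤ 2 / 5 ∧ ‖z.2‖ ≤ 2 / 5 ∧
      f z.1 = f z.2} := by
    ext z
    constructor
    · rintro ⟨h1, h2⟩
      exact ⟨hsep _ _ h1 h2, dd_bdd hf h1 h2, dd_bdd hf h1.symm h2.symm, h2⟩
    · rintro ⟨h1, -, -, h2⟩
      refine ⟨?_, h2⟩
      intro h3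
      rw [h3, sub_self, norm_zero] at h1
      linarith
  have hcl : IsClosed (DD f) := by
    rw [h1]
    refine (isClosed_le continuous_const (continuous_fst.sub continuous_snd).norm).inter
      ((isClosed_le continuous_fst.norm continuous_const).inter
      ((isClosed_le continuous_snd.norm continuous_const).inter
      (isClosed_eq (hc.comp continuous_fst) (hc.comp continuous_snd))))
  refine IsCompact.of_isClosed_subset
    ((isCompact_closedBall (0 : E2) (2 / 5)).prod (isCompact_closedBall (0 : E2) (2 / 5))) hcl ?_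
  rintro z ⟨h1, h2⟩
  exact ⟨mem_closedBall_zero_iff.2 (dd_bdd hf h1 h2),
    mem_closedBall_zero_iff.2 (dd_bdd hf h1.symm h2.symm)⟩

end Generic

/-! ### The pieces of general position -/

section Pieces

variable {f : E2 → E3} {F : ℝ → E2 → E3}

theorem immersion (h2 : ImmThm) (hf : GenericPL f) (hF : Approx f F) :
    ∃ ε0 > 0, ∀ ε, 0 < ε → ε < ε0 → ∀ x, Function.Injective (fderiv ℝ (F ε) x) := by
  obtain ⟨U, -, hKU, e0, he0, hU⟩ := compactEps (isCompact_closedBall (0 : E2) (1 / 2))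
    (fun ε x => Function.Injective (fderiv ℝ (F ε) x)) (by
      intro x _
      obtain ⟨Q, m, r, hm, hr, hmono⟩ := hf.mono x
      refine ⟨ball x (r / 4), isOpen_ball, mem_ball_self (by linarith), r / 2, by linarith, ?_⟩
      intro ε hε hε' w hw
      have h1 := hF.mono x Q m r hmono ε hε hε'
      refine h2 (F ε) w Q m (r / 4) (hF.smooth ε hε) hm (by linarith) ?_
      intro p hp q hq
      rw [mem_ball] at hw
      refine h1 p ?_ q ?_
      · rw [mem_ball] at hp ⊢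
        have := dist_triangle p w x
        linarith
      · rw [mem_ball] at hq ⊢
        have := dist_triangle q w x
        linarith)
  refine ⟨min e0 (1 / 20), lt_min he0 (by norm_num), ?_⟩
  intro ε hε hε' x
  by_cases hx : ‖x‖ ≤ 1 / 2
  · exact hU ε hε (hε'.trans_le (min_le_left _ _)) x (hKU (mem_closedBall_zero_iff.2 hx))
  · push Not at hx
    have h1 := hF.mono x Q0 1 (1 / 10) (mono_far hf.far hx.le) ε hε
      ((hε'.trans_le (min_le_right _ _)).trans_le (by norm_num))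
    exact h2 (F ε) x Q0 1 (1 / 10 / 2) (hF.smooth ε hε) one_pos (by norm_num) h1

theorem far (hf : GenericPL f) (hF : Approx f F) {ε : ℝ} (hε : 0 < ε) (hε' : ε < 1 / 20)
    (x : E2) (hx : 1 / 2 ≤ ‖x‖) : F ε x = emb x := by
  rw [hF.aff x embL (1 / 10) (aff_far hf.far hx) ε hε (hε'.trans_le (by norm_num)) x
    (mem_ball_self (by norm_num))]
  exact hf.far x (by linarith)

theorem near (hf : GenericPL f) (hF : Approx f F) :
    ∃ ε0 > 0, ∀ ε, 0 < ε → ε < ε0 → ∀ x, ‖x‖ ≤ 1 / 2 → ‖F ε x‖ < 1 := by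
  obtain ⟨K, hK⟩ := hF.close
  refine ⟨1 / (2 * (|K| + 1)), by positivity, ?_⟩
  intro ε hε hε' x hx
  have h1 : ‖f x‖ ≤ 1 / 2 := by
    by_cases h : ‖x‖ ≤ 2 / 5
    · exact (hf.near x h).trans (by norm_num)
    · push Not at h
      rw [hf.far x h.le, norm_emb]
      exact hx
  have h2 := hK ε hε x
  have h3 : K * ε < 1 / 2 := by
    have h4 : ε * (2 * (|K| + 1)) < 1 := by
      rwa [lt_div_iff₀ (by positivity)] at hε'
    have h5 : K * ε ≤ |K| * ε := mul_le_mul_of_nonneg_right (le_abs_self K) hε.le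
    nlinarith
  have h6 : ‖F ε x‖ ≤ ‖F ε x - f x‖ + ‖f x‖ := by
    calc ‖F ε x‖ = ‖(F ε x - f x) + f x‖ := by rw [sub_add_cancel]
      _ ≤ _ := norm_add_le _ _
  linarith

theorem double (h3 : DDNear) (h4 : LocalThm) (hf : GenericPL f) (hF : Approx f F) :
    ∃ ε0 > 0, ∀ ε, 0 < ε → ε < ε0 → ∀ p q, p ≠ q → F ε p = F ε q →
      LinearMap.range (fderiv ℝ (F ε) p : E2 →ₗ[ℝ] E3) ⊔
        LinearMap.range (fderiv ℝ (F ε) q : E2 →ₗ[ℝ] E3) = ⊤ := by
  obtain ⟨U, hUo, hKU, e0, he0, hU⟩ := compactEps (dd_compact hf)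
    (fun ε w => w ∈ DD (F ε) → LinearMap.range (fderiv ℝ (F ε) w.1 : E2 →ₗ[ℝ] E3) ⊔
        LinearMap.range (fderiv ℝ (F ε) w.2 : E2 →ₗ[ℝ] E3) = ⊤) (by
      rintro ⟨p, q⟩ ⟨hne, hpq⟩
      rcases hf.double p q hne hpq with h | h
      · obtain ⟨N, -, hNo, hN, e0, he0, hall⟩ := h4 f F hf hF p q ⟨hne, hpq⟩ h univ
          Filter.univ_mem
        exact ⟨N, hNo, hN, e0, he0, fun ε h1 h2 w hw hw' => (hall ε h1 h2).2.2 w ⟨hw', hw⟩⟩
      · obtain ⟨N, -, hNo, hN, e0, he0, hall⟩ := h4 f F hf hF q p ⟨hne.symm, hpq.symm⟩ h univ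
          Filter.univ_mem
        refine ⟨Prod.swap ⁻¹' N, hNo.preimage continuous_swap, hN, e0, he0, ?_⟩
        intro ε h1 h2 w hw hw'
        have := (hall ε h1 h2).2.2 w.swap ⟨⟨hw'.1.symm, hw'.2.symm⟩, hw⟩
        rw [sup_comm]
        exact this)
  obtain ⟨e1, he1, hD⟩ := h3 f F hf hF U hUo hKU
  refine ⟨min e0 e1, lt_min he0 he1, ?_⟩
  intro ε hε hε' p q hne hpq
  have hmem : (p, q) ∈ DD (F ε) := ⟨hne, hpq⟩
  exact hU ε hε (hε'.trans_le (min_le_left _ _)) (p, q)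
    (hD ε hε (hε'.trans_le (min_le_right _ _)) hmem) hmem

/-- uniform separation and boundedness of the double points of the approximations -/
theorem sepF (h3 : DDNear) (hf : GenericPL f) (hF : Approx f F) :
    ∃ δ > 0, ∃ ε0 > 0, ∀ ε, 0 < ε → ε < ε0 → ∀ p q, p ≠ q → F ε p = F ε q →
      δ ≤ ‖p - q‖ ∧ ‖p‖ ≤ 1 / 2 := by
  obtain ⟨δ, hδ, hsep⟩ := sep hf
  obtain ⟨e0, he0, hD⟩ := h3 f F hf hF {z | δ / 2 < ‖z.1 - z.2‖ ∧ ‖z.1‖ < 1 / 2}
    ((isOpen_lt continuous_const (continuous_fst.sub continuous_snd).norm).inter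
      (isOpen_lt continuous_fst.norm continuous_const)) (by
      rintro z ⟨h1, h2⟩
      refine ⟨?_, ?_⟩
      · have := hsep _ _ h1 h2
        linarith
      · have := dd_bdd hf h1 h2
        linarith)
  refine ⟨δ / 2, by linarith, e0, he0, ?_⟩
  intro ε hε hε' p q hne hpq
  have h : (p, q) ∈ DD (F ε) := ⟨hne, hpq⟩
  have := hD ε hε hε' h
  exact ⟨this.1.le, this.2.le⟩

/-- closeness -/
theorem diffF (hF : Approx f F) : ∃ K > 0, ∀ ε, 0 < ε → ∀ p q, F ε p = F ε q →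
    ‖f p - f q‖ ≤ K * ε := by
  obtain ⟨K, hK⟩ := hF.close
  refine ⟨2 * |K| + 1, by positivity, ?_⟩
  intro ε hε p q hpq
  have h1 := hK ε hε p
  have h2 := hK ε hε q
  have h3 : f p - f q = (F ε q - f q) - (F ε p - f p) := by rw [hpq]; abel
  have h4 : ‖f p - f q‖ ≤ ‖F ε q - f q‖ + ‖F ε p - f p‖ := by rw [h3]; exact norm_sub_le _ _
  have h5 : K * ε ≤ |K| * ε := mul_le_mul_of_nonneg_right (le_abs_self K) hε.le
  nlinarith

theorem fderiv_aff (hF : Approx f F) {p : E2} {A : E2 →L[ℝ] E3} {ρ : ℝ} (hA : AffAt f p A ρ)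
    (_hρ : 0 < ρ) {ε : ℝ} (hε : 0 < ε) (hε' : ε < ρ / 2) {p' : E2} (hp' : p' ∈ ball p (ρ / 2)) :
    fderiv ℝ (F ε) p' = A := by
  have hev : F ε =ᶠ[𝓝 p'] fun x => f p + A (x - p) := by
    filter_upwards [isOpen_ball.mem_nhds hp'] with x hx
    rw [hF.aff p A ρ hA ε hε hε' x hx]
    exact hA x (ball_subset_ball (by linarith) hx)
  rw [hev.fderiv_eq]
  have h1 : HasFDerivAt (fun x => f p + A (x - p)) A p' := by
    have h2 : HasFDerivAt (fun x : E2 => x - p) (ContinuousLinearMap.id ℝ E2) p' :=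
      (hasFDerivAt_id p').sub_const p
    have h3 := (A.hasFDerivAt (x := p' - p)).comp p' h2
    exact h3.const_add (f p)
  exact h1.fderiv

theorem triple (h3 : DDNear) (hf : GenericPL f) (hF : Approx f F) :
    ∃ ε0 > 0, ∀ ε, 0 < ε → ε < ε0 → ∀ p q r, p ≠ q → q ≠ r → p ≠ r → F ε p = F ε q →
      F ε q = F ε r →
      LinearMap.range (fderiv ℝ (F ε) p : E2 →ₗ[ℝ] E3) ⊓
        LinearMap.range (fderiv ℝ (F ε) q : E2 →ₗ[ℝ] E3) ⊓
        LinearMap.range (fderiv ℝ (F ε) r : E2 →ₗ[ℝ] E3) = ⊥ := by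
  obtain ⟨δ, hδ, e1, he1, hsep⟩ := sepF h3 hf hF
  obtain ⟨K, hKpos, hK⟩ := diffF hF
  have hc := cont hf
  -- the compact set
  set B : Set (E2 × E2 × E2) := {z | δ ≤ ‖z.1 - z.2.1‖ ∧ δ ≤ ‖z.2.1 - z.2.2‖ ∧
    δ ≤ ‖z.1 - z.2.2‖} ∩ (closedBall (0 : E2) (1 / 2)) ×ˢ (closedBall (0 : E2) (1 / 2)) ×ˢ
      (closedBall (0 : E2) (1 / 2)) with hB
  have c1 : Continuous fun z : E2 × E2 × E2 => z.1 := continuous_fst
  have c2 : Continuous fun z : E2 × E2 × E2 => z.2.1 := continuous_fst.comp continuous_snd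
  have c3 : Continuous fun z : E2 × E2 × E2 => z.2.2 := continuous_snd.comp continuous_snd
  have hBc : IsCompact B := by
    refine IsCompact.inter_left ((isCompact_closedBall _ _).prod
      ((isCompact_closedBall _ _).prod (isCompact_closedBall _ _))) ?_
    exact (isClosed_le continuous_const (c1.sub c2).norm).inter
      ((isClosed_le continuous_const (c2.sub c3).norm).inter
      (isClosed_le continuous_const (c1.sub c3).norm))
  have hne : ∀ {x y : E2}, δ ≤ ‖x - y‖ → x ≠ y := by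
    intro x y h e
    rw [e, sub_self, norm_zero] at h
    linarith
  have hTc : IsCompact (B ∩ {z | f z.1 = f z.2.1 ∧ f z.2.1 = f z.2.2}) :=
    hBc.inter_right ((isClosed_eq (hc.comp c1) (hc.comp c2)).inter
      (isClosed_eq (hc.comp c2) (hc.comp c3)))
  obtain ⟨U, hUo, hTU, e2, he2, hU⟩ := compactEps hTc
    (fun ε w => LinearMap.range (fderiv ℝ (F ε) w.1 : E2 →ₗ[ℝ] E3) ⊓
        LinearMap.range (fderiv ℝ (F ε) w.2.1 : E2 →ₗ[ℝ] E3) ⊓
        LinearMap.range (fderiv ℝ (F ε) w.2.2 : E2 →ₗ[ℝ] E3) = ⊥) (by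
      rintro ⟨p, q, r⟩ ⟨⟨⟨h1, h2, h3⟩, -⟩, h4, h5⟩
      obtain ⟨A, B', C, ρ, hρ, hA, hB', hC, hr⟩ := hf.triple p q r (hne h1) (hne h2) (hne h3) h4 h5
      refine ⟨ball p (ρ / 2) ×ˢ ball q (ρ / 2) ×ˢ ball r (ρ / 2),
        isOpen_ball.prod (isOpen_ball.prod isOpen_ball),
        ⟨mem_ball_self (by linarith), mem_ball_self (by linarith), mem_ball_self (by linarith)⟩,
        ρ / 2, by linarith, ?_⟩
      rintro ε hε hε' ⟨p', q', r'⟩ ⟨hp', hq', hr'⟩
      simp only at hp' hq' hr' ⊢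
      rw [fderiv_aff hF hA hρ hε hε' hp', fderiv_aff hF hB' hρ hε hε' hq',
        fderiv_aff hF hC hρ hε hε' hr']
      exact hr)
  have hBU : IsCompact (B ∩ Uᶜ) := hBc.inter_right hUo.isClosed_compl
  obtain ⟨c, hcpos, hcmin⟩ := posMin hBU
    (fun z => ‖f z.1 - f z.2.1‖ + ‖f z.2.1 - f z.2.2‖)
    (((hc.comp c1).sub (hc.comp c2)).norm.add ((hc.comp c2).sub (hc.comp c3)).norm) (by
      rintro z ⟨hz, hzU⟩
      by_contra hcon
      push Not at hcon
      have n1 := norm_nonneg (f z.1 - f z.2.1)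
      have n2 := norm_nonneg (f z.2.1 - f z.2.2)
      have e1 : ‖f z.1 - f z.2.1‖ = 0 := by linarith
      have e2 : ‖f z.2.1 - f z.2.2‖ = 0 := by linarith
      exact hzU (hTU ⟨hz, sub_eq_zero.1 (norm_eq_zero.1 e1), sub_eq_zero.1 (norm_eq_zero.1 e2)⟩))
  refine ⟨min e1 (min e2 (c / (2 * K))), lt_min he1 (lt_min he2 (by positivity)), ?_⟩
  intro ε hε hε' p q r hpq hqr hpr h1 h2
  have l1 : ε < e1 := hε'.trans_le (min_le_left _ _)
  have l2 : ε < e2 := hε'.trans_le ((min_le_right _ _).trans (min_le_left _ _))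
  have l3 : ε < c / (2 * K) := hε'.trans_le ((min_le_right _ _).trans (min_le_right _ _))
  rw [lt_div_iff₀ (by positivity)] at l3
  have s1 := hsep ε hε l1 p q hpq h1
  have s2 := hsep ε hε l1 q r hqr h2
  have s3 := hsep ε hε l1 p r hpr (h1.trans h2)
  have s4 := hsep ε hε l1 r p hpr.symm (h1.trans h2).symm
  have hmem : ((p, q, r) : E2 × E2 × E2) ∈ B :=
    ⟨⟨s1.1, s2.1, s3.1⟩, mem_closedBall_zero_iff.2 s1.2, mem_closedBall_zero_iff.2 s2.2,
      mem_closedBall_zero_iff.2 s4.2⟩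
  have hmemU : ((p, q, r) : E2 × E2 × E2) ∈ U := by
    by_contra hcon
    have := hcmin (p, q, r) ⟨hmem, hcon⟩
    have d1 := hK ε hε p q h1
    have d2 := hK ε hε q r h2
    simp only at this
    linarith
  exact hU ε hε l2 (p, q, r) hmemU

theorem quadruple (h3 : DDNear) (hf : GenericPL f) (hF : Approx f F) :
    ∃ ε0 > 0, ∀ ε, 0 < ε → ε < ε0 → ∀ p q r s, p ≠ q → p ≠ r → p ≠ s → q ≠ r → q ≠ s → r ≠ s →
      F ε p = F ε q → F ε q = F ε r → F ε r = F ε s → False := by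
  obtain ⟨δ, hδ, e1, he1, hsep⟩ := sepF h3 hf hF
  obtain ⟨K, hKpos, hK⟩ := diffF hF
  have hc := cont hf
  set B : Set (E2 × E2 × E2 × E2) := {z | δ ≤ ‖z.1 - z.2.1‖ ∧ δ ≤ ‖z.1 - z.2.2.1‖ ∧
    δ ≤ ‖z.1 - z.2.2.2‖ ∧ δ ≤ ‖z.2.1 - z.2.2.1‖ ∧ δ ≤ ‖z.2.1 - z.2.2.2‖ ∧
    δ ≤ ‖z.2.2.1 - z.2.2.2‖} ∩ (closedBall (0 : E2) (1 / 2)) ×ˢ (closedBall (0 : E2) (1 / 2)) ×ˢ
      (closedBall (0 : E2) (1 / 2)) ×ˢ (closedBall (0 : E2) (1 / 2)) with hB
  have c1 : Continuous fun z : E2 × E2 × E2 × E2 => z.1 := continuous_fst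
  have c2 : Continuous fun z : E2 × E2 × E2 × E2 => z.2.1 := continuous_fst.comp continuous_snd
  have c3 : Continuous fun z : E2 × E2 × E2 × E2 => z.2.2.1 :=
    continuous_fst.comp (continuous_snd.comp continuous_snd)
  have c4 : Continuous fun z : E2 × E2 × E2 × E2 => z.2.2.2 :=
    continuous_snd.comp (continuous_snd.comp continuous_snd)
  have hBc : IsCompact B := by
    refine IsCompact.inter_left ((isCompact_closedBall _ _).prod
      ((isCompact_closedBall _ _).prod ((isCompact_closedBall _ _).prod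
        (isCompact_closedBall _ _)))) ?_
    exact (isClosed_le continuous_const (c1.sub c2).norm).inter
      ((isClosed_le continuous_const (c1.sub c3).norm).inter
      ((isClosed_le continuous_const (c1.sub c4).norm).inter
      ((isClosed_le continuous_const (c2.sub c3).norm).inter
      ((isClosed_le continuous_const (c2.sub c4).norm).inter
      (isClosed_le continuous_const (c3.sub c4).norm)))))
  have hne : ∀ {x y : E2}, δ ≤ ‖x - y‖ → x ≠ y := by
    intro x y h e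
    rw [e, sub_self, norm_zero] at h
    linarith
  obtain ⟨c, hcpos, hcmin⟩ := posMin hBc
    (fun z => ‖f z.1 - f z.2.1‖ + ‖f z.2.1 - f z.2.2.1‖ + ‖f z.2.2.1 - f z.2.2.2‖)
    ((((hc.comp c1).sub (hc.comp c2)).norm.add ((hc.comp c2).sub (hc.comp c3)).norm).add
      ((hc.comp c3).sub (hc.comp c4)).norm) (by
      rintro z ⟨⟨h1, h2, h3, h4, h5, h6⟩, -⟩
      by_contra hcon
      push Not at hcon
      have n1 := norm_nonneg (f z.1 - f z.2.1)
      have n2 := norm_nonneg (f z.2.1 - f z.2.2.1)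
      have n3 := norm_nonneg (f z.2.2.1 - f z.2.2.2)
      have e1 : ‖f z.1 - f z.2.1‖ = 0 := by linarith
      have e2 : ‖f z.2.1 - f z.2.2.1‖ = 0 := by linarith
      have e3 : ‖f z.2.2.1 - f z.2.2.2‖ = 0 := by linarith
      exact hf.quadruple _ _ _ _ (hne h1) (hne h2) (hne h3) (hne h4) (hne h5) (hne h6)
        (sub_eq_zero.1 (norm_eq_zero.1 e1)) (sub_eq_zero.1 (norm_eq_zero.1 e2))
        (sub_eq_zero.1 (norm_eq_zero.1 e3)))
  refine ⟨min e1 (c / (3 * K)), lt_min he1 (by positivity), ?_⟩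
  intro ε hε hε' p q r s hpq hpr hps hqr hqs hrs h1 h2 h3
  have l1 : ε < e1 := hε'.trans_le (min_le_left _ _)
  have l3 : ε < c / (3 * K) := hε'.trans_le (min_le_right _ _)
  rw [lt_div_iff₀ (by positivity)] at l3
  have s1 := hsep ε hε l1 p q hpq h1
  have s2 := hsep ε hε l1 p r hpr (h1.trans h2)
  have s3 := hsep ε hε l1 p s hps ((h1.trans h2).trans h3)
  have s4 := hsep ε hε l1 q r hqr h2
  have s5 := hsep ε hε l1 q s hqs (h2.trans h3)
  have s6 := hsep ε hε l1 r s hrs h3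
  have s7 := hsep ε hε l1 s r hrs.symm h3.symm
  have hmem : ((p, q, r, s) : E2 × E2 × E2 × E2) ∈ B :=
    ⟨⟨s1.1, s2.1, s3.1, s4.1, s5.1, s6.1⟩, mem_closedBall_zero_iff.2 s1.2,
      mem_closedBall_zero_iff.2 s4.2, mem_closedBall_zero_iff.2 s6.2,
      mem_closedBall_zero_iff.2 s7.2⟩
  have := hcmin (p, q, r, s) hmem
  have d1 := hK ε hε p q h1
  have d2 := hK ε hε q r h2
  have d3 := hK ε hε r s h3
  simp only at this
  linarith

end Pieces

end GPAux

open GPAux in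
theorem gPThm (h2 : ImmThm) (h3 : DDNear) (h4 : LocalThm) : GPThm := by
  intro f F hf hF
  obtain ⟨e1, he1, H1⟩ := immersion h2 hf hF
  obtain ⟨e2, he2, H2⟩ := near hf hF
  obtain ⟨e3, he3, H3⟩ := double h3 h4 hf hF
  obtain ⟨e4, he4, H4⟩ := triple h3 hf hF
  obtain ⟨e5, he5, H5⟩ := quadruple h3 hf hF
  refine ⟨min (1 / 20) (min e1 (min e2 (min e3 (min e4 e5)))),
    lt_min (by norm_num) (lt_min he1 (lt_min he2 (lt_min he3 (lt_min he4 he5)))), ?_⟩
  intro ε hε hε'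
  simp only [lt_min_iff] at hε'
  obtain ⟨l0, l1, l2, l3, l4, l5⟩ := hε'
  exact ⟨hF.smooth ε hε, H1 ε hε l1, far hf hF hε l0, H2 ε hε l2, H3 ε hε l3, H4 ε hε l4,
    H5 ε hε l5⟩

end Pool.Agent.Work.MP_48319b_gt
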