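import Pool.Agent.Work.MP_48319b_gt.Bd.B01

/-!
# MP_48319b_gt, item D7: Boolean checks for the crossing pairs
-/

namespace Pool.Agent.Work.MP_48319b_gt.Dat.GenA

/-- a positive integer -/
def posb (a : ℤ) : Bool := match a with
  | Int.ofNat n => Nat.ble 1 n
  | Int.negSucc _ => false

/-- a nonzero integer -/
def nzb (a : ℤ) : Bool := match a with
  | Int.ofNat n => Nat.ble 1 n
  | Int.negSucc _ => true

/-- difference -/
def sb (p q : P3) : P3 := ⟨p.x - q.x, p.y - q.y, p.z - q.z⟩

/-- determinant -/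
def dt (u v w : P3) : ℤ :=
  u.x * (v.y * w.z - v.z * w.y) - u.y * (v.x * w.z - v.z * w.x) + u.z * (v.x * w.y - v.y * w.x)

/-- scalar product -/
def dp (a y : P3) : ℤ := a.x * y.x + a.y * y.y + a.z * y.z

/-- equality of triangles -/
def teq (t s : Tri) : Bool := Nat.beq t.a s.a && (Nat.beq t.b s.b && Nat.beq t.c s.c)

/-- membership in a list -/
def memb (t : Tri) : List Tri → Bool
  | [] => false
  | s :: l => teq t s || memb t l

/-- three points are on no plane with the point `w` -/
def vp1 (a b c w : P3) : Bool := nzb (dt (sb b a) (sb c a) (sb w a))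

/-- the check for one pair; the points of the two triangles -/
def pairb (a b c a' b' c' : P3) : Bool :=
  (vp1 a b c a' && (vp1 a b c b' && vp1 a b c c')) &&
  ((vp1 a' b' c' a && (vp1 a' b' c' b && vp1 a' b' c' c)) &&
  ((vp1 a b a' b' && (vp1 a b b' c' && vp1 a b c' a')) &&
  ((vp1 b c a' b' && (vp1 b c b' c' && vp1 b c c' a')) &&
  (vp1 c a a' b' && (vp1 c a b' c' && vp1 c a c' a')))))

/-- height -/
def ht (al : P3) (k : ℤ) (v : ℕ) : ℤ := dp al (yI v) + k * gI v

/-- `al · y + k g` is greater on `t` -/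
def abv (t t' : Tri) (al : P3) (k : ℤ) : Bool :=
  posb k &&
  (posb (ht al k t.a - ht al k t'.a) && (posb (ht al k t.a - ht al k t'.b) &&
  (posb (ht al k t.a - ht al k t'.c) && (posb (ht al k t.b - ht al k t'.a) &&
  (posb (ht al k t.b - ht al k t'.b) && (posb (ht al k t.b - ht al k t'.c) &&
  (posb (ht al k t.c - ht al k t'.a) && (posb (ht al k t.c - ht al k t'.b) &&
  posb (ht al k t.c - ht al k t'.c)))))))))

/-- the check for one pair -/
def one (p : Tri × Tri) (q : Tri × Tri × P3 × ℤ) : Bool :=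
  (teq p.1 q.1 && teq p.2 q.2.1) &&
  (abv p.1 p.2 q.2.2.1 q.2.2.2 &&
  pairb (yI p.1.a) (yI p.1.b) (yI p.1.c) (yI p.2.a) (yI p.2.b) (yI p.2.c))

/-- the check for the list -/
def lp : List (Tri × Tri) → List (Tri × Tri × P3 × ℤ) → Bool
  | [], _ => true
  | _ :: _, [] => false
  | p :: ps, q :: qs => one p q && lp ps qs

/-- membership of the triangles in `F` -/
def lm : List (Tri × Tri) → Bool
  | [] => true
  | p :: ps => (memb p.1 F && memb p.2 F) && lm ps

end Pool.Agent.Work.MP_48319b_gt.Dat.GenA
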