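import Pool.Agent.Work.MP_48319b_gt.Bd.B02
import Pool.Agent.Work.MP_48319b_gt.CertTr

/-!
# MP_48319b_gt : Boolean checks for the triples of crossing triangles
-/

namespace Pool.Agent.Work.MP_48319b_gt.Dat.GenB

/-- the 27 inequalities of a certificate -/
def negs (m1 m2 m3 : P3) (t1 t2 t3 : Tri) : Bool :=
  t1.vs.all fun v1 => t2.vs.all fun v2 => t3.vs.all fun v3 =>
    ltb (dot3 m1 (yI v1) + dot3 m2 (yI v2) + dot3 m3 (yI v3)) 0

/-- the three covectors have sum zero -/
def sumz (m1 m2 m3 : P3) : Bool :=
  eqb (m1.x + m2.x + m3.x) 0 && eqb (m1.y + m2.y + m3.y) 0 && eqb (m1.z + m2.z + m3.z) 0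

/-- an entry of `tripL` is correct -/
def certOK (e : (Tri × Tri × Tri) × (P3 × P3 × P3)) : Bool :=
  sumz e.2.1 e.2.2.1 e.2.2.2 && negs e.2.1 e.2.2.1 e.2.2.2 e.1.1 e.1.2.1 e.1.2.2

/-- the pair is in `X` -/
def memX (a b : Tri) : Bool := X.any fun p => triEq p.1 a && triEq p.2 b

/-- the triple has a certificate -/
def inL (a b c : Tri) : Bool :=
  tripL.any fun e => triEq e.1.1 a && triEq e.1.2.1 b && triEq e.1.2.2 c

/-- the triangle is in the list -/
def memT (a : Tri) (l : List Tri) : Bool := l.any fun t => triEq t a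

/-- the triple is a triple point -/
def inT (a b c : Tri) : Bool := Tl.any fun l => memT a l && memT b l && memT c l

/-- the check of a pair of elements of `X` -/
def pairOK (p q : Tri × Tri) : Bool :=
  !triEq p.2 q.1 || (!memX p.1 q.2 || (inL p.1 p.2 q.2 || inT p.1 p.2 q.2))

theorem runA_0 : ((tripL.drop 0).take 15).all certOK = true := by decide +kernel

theorem runA_15 : ((tripL.drop 15).take 15).all certOK = true := by decide +kernel

theorem runA_30 : ((tripL.drop 30).take 15).all certOK = true := by decide +kernel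

theorem runA_45 : ((tripL.drop 45).take 15).all certOK = true := by decide +kernel

theorem runA_end : (tripL.drop 60).all certOK = true := by decide +kernel

theorem runA : tripL.all certOK = true :=
  all_step 0 15 15 rfl runA_0 <|
  all_step 15 15 30 rfl runA_15 <|
  all_step 30 15 45 rfl runA_30 <|
  all_step 45 15 60 rfl runA_45 <|
  runA_end

theorem runB_0 : ((X.drop 0).take 40).all (fun p => X.all fun q => pairOK p q) = true := by decide +kernel

theorem runB_40 : ((X.drop 40).take 40).all (fun p => X.all fun q => pairOK p q) = true := by decide +kernel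

theorem runB_80 : ((X.drop 80).take 40).all (fun p => X.all fun q => pairOK p q) = true := by decide +kernel

theorem runB_120 : ((X.drop 120).take 40).all (fun p => X.all fun q => pairOK p q) = true := by decide +kernel

theorem runB_160 : ((X.drop 160).take 40).all (fun p => X.all fun q => pairOK p q) = true := by decide +kernel

theorem runB_200 : ((X.drop 200).take 40).all (fun p => X.all fun q => pairOK p q) = true := by decide +kernel

theorem runB_240 : ((X.drop 240).take 40).all (fun p => X.all fun q => pairOK p q) = true := by decide +kernel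

theorem runB_280 : ((X.drop 280).take 40).all (fun p => X.all fun q => pairOK p q) = true := by decide +kernel

theorem runB_320 : ((X.drop 320).take 40).all (fun p => X.all fun q => pairOK p q) = true := by decide +kernel

theorem runB_360 : ((X.drop 360).take 40).all (fun p => X.all fun q => pairOK p q) = true := by decide +kernel

theorem runB_400 : ((X.drop 400).take 40).all (fun p => X.all fun q => pairOK p q) = true := by decide +kernel

theorem runB_440 : ((X.drop 440).take 40).all (fun p => X.all fun q => pairOK p q) = true := by decide +kernel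

theorem runB_end : (X.drop 480).all (fun p => X.all fun q => pairOK p q) = true := by decide +kernel

theorem runB : (X.all fun p => X.all fun q => pairOK p q) = true :=
  all_step 0 40 40 rfl runB_0 <|
  all_step 40 40 80 rfl runB_40 <|
  all_step 80 40 120 rfl runB_80 <|
  all_step 120 40 160 rfl runB_120 <|
  all_step 160 40 200 rfl runB_160 <|
  all_step 200 40 240 rfl runB_200 <|
  all_step 240 40 280 rfl runB_240 <|
  all_step 280 40 320 rfl runB_280 <|
  all_step 320 40 360 rfl runB_320 <|
  all_step 360 40 400 rfl runB_360 <|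
  all_step 400 40 440 rfl runB_400 <|
  all_step 440 40 480 rfl runB_440 <|
  runB_end

/-- difference -/
def subI (p q : P3) : P3 := ⟨p.x - q.x, p.y - q.y, p.z - q.z⟩

/-- cross product -/
def crsI (u v : P3) : P3 :=
  ⟨u.y * v.z - u.z * v.y, u.z * v.x - u.x * v.z, u.x * v.y - u.y * v.x⟩

/-- normal vector -/
def nrmI (t : Tri) : P3 := crsI (subI (yI t.b) (yI t.a)) (subI (yI t.c) (yI t.a))

/-- determinant -/
def detI (u v w : P3) : ℤ :=
  u.x * (v.y * w.z - v.z * w.y) - u.y * (v.x * w.z - v.z * w.x) + u.z * (v.x * w.y - v.y * w.x)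

theorem runLen : ∀ l ∈ Tl, l.length = 3 := by decide +kernel

theorem runDet : ∀ l ∈ Tl, ∀ t1 ∈ l, ∀ t2 ∈ l, ∀ t3 ∈ l, t1 ≠ t2 → t1 ≠ t3 → t2 ≠ t3 →
    detI (nrmI t1) (nrmI t2) (nrmI t3) ≠ 0 := by decide +kernel

theorem runShare : ∀ l ∈ Tl, ∀ l' ∈ Tl, l ≠ l' → ∀ t1 ∈ l, ∀ t2 ∈ l, t1 ∈ l' → t2 ∈ l' →
    t1 = t2 := by decide +kernel

end Pool.Agent.Work.MP_48319b_gt.Dat.GenB
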