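import Pool.Agent.Work.MP_48319b_gt.Stmts3
import Pool.Agent.Work.MP_48319b_gt.RunGenB

/-!
# MP_48319b_gt : [48319b D8] triples of crossing triangles and triple points
-/

open Metric Set Topology

namespace Pool.Agent.Work.MP_48319b_gt.Dat

namespace GenB

theorem triEq_iff (t s : Tri) : triEq t s = true ↔ t = s := by
  unfold triEq
  rw [Bool.and_eq_true, Bool.and_eq_true, Nat.beq_eq, Nat.beq_eq, Nat.beq_eq]
  constructor
  · rintro ⟨⟨h1, h2⟩, h3⟩
    cases t; cases s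
    simp only at h1 h2 h3
    subst h1; subst h2; subst h3
    rfl
  · rintro rfl
    exact ⟨⟨rfl, rfl⟩, rfl⟩

/-- integer covector -/
noncomputable def v3 (m : P3) : E3 := !₂[(m.x : ℝ), (m.y : ℝ), (m.z : ℝ)]

theorem inner_v3 (m p : P3) : inner ℝ (v3 m) (r3 p) = ((dot3 m p : ℤ) : ℝ) / 10 ^ 7 := by
  rw [PiLp.inner_apply, Fin.sum_univ_three]
  simp only [v3, r3, dot3, RCLike.inner_apply, conj_trivial, PiLp.toLp_apply, Matrix.cons_val_zero,
    Matrix.cons_val_one, Matrix.cons_val]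
  push_cast
  ring

theorem v3_sum {m1 m2 m3 : P3} (h : sumz m1 m2 m3 = true) : v3 m1 + v3 m2 + v3 m3 = 0 := by
  unfold sumz at h
  rw [Bool.and_eq_true, Bool.and_eq_true, eqb_iff, eqb_iff, eqb_iff] at h
  obtain ⟨⟨h1, h2⟩, h3⟩ := h
  have h1' : (m1.x : ℝ) + m2.x + m3.x = 0 := by exact_mod_cast h1
  have h2' : (m1.y : ℝ) + m2.y + m3.y = 0 := by exact_mod_cast h2
  have h3' : (m1.z : ℝ) + m2.z + m3.z = 0 := by exact_mod_cast h3
  ext i
  fin_cases i
  · simpa [v3] using h1'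
  · simpa [v3] using h2'
  · simpa [v3] using h3'

theorem sep33 {a b c : Tri} (h : inL a b c = true) : Sep33 Y a b c := by
  unfold inL at h
  rw [List.any_eq_true] at h
  obtain ⟨e, he, h⟩ := h
  rw [Bool.and_eq_true, Bool.and_eq_true, triEq_iff, triEq_iff, triEq_iff] at h
  obtain ⟨⟨rfl, rfl⟩, rfl⟩ := h
  have hc := (List.all_eq_true.1 runA) e he
  unfold certOK at hc
  rw [Bool.and_eq_true] at hc
  obtain ⟨h1, h2⟩ := hc
  refine ⟨v3 e.2.1, v3 e.2.2.1, v3 e.2.2.2, v3_sum h1, ?_⟩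
  intro v1 hv1 v2 hv2 v3 hv3
  unfold negs at h2
  have h3 := (List.all_eq_true.1 h2) v1 hv1
  have h4 := (List.all_eq_true.1 h3) v2 hv2
  have h5 := (List.all_eq_true.1 h4) v3 hv3
  rw [ltb_iff] at h5
  unfold Y
  rw [inner_v3, inner_v3, inner_v3, ← add_div, ← add_div]
  apply div_neg_of_neg_of_pos
  · exact_mod_cast h5
  · norm_num

theorem memT_iff {a : Tri} {l : List Tri} (h : memT a l = true) : a ∈ l := by
  unfold memT at h
  rw [List.any_eq_true] at h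
  obtain ⟨t, ht, h⟩ := h
  rw [triEq_iff] at h
  exact h ▸ ht

theorem trip {p q : Tri × Tri} (hp : p ∈ X) (hq : q ∈ X) (h : p.2 = q.1) (hx : (p.1, q.2) ∈ X) :
    Sep33 Y p.1 p.2 q.2 ∨ ∃ l ∈ Tl, p.1 ∈ l ∧ p.2 ∈ l ∧ q.2 ∈ l := by
  have h1 := (List.all_eq_true.1 ((List.all_eq_true.1 runB) p hp)) q hq
  have h2 : triEq p.2 q.1 = true := (triEq_iff _ _).2 h
  have h3 : memX p.1 q.2 = true := by
    unfold memX
    rw [List.any_eq_true]
    exact ⟨(p.1, q.2), hx, by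
      rw [Bool.and_eq_true, triEq_iff, triEq_iff]
      exact ⟨rfl, rfl⟩⟩
  unfold pairOK at h1
  rw [h2, h3, Bool.not_true, Bool.false_or, Bool.false_or, Bool.or_eq_true] at h1
  rcases h1 with h1 | h1
  · exact Or.inl (sep33 h1)
  · right
    unfold inT at h1
    rw [List.any_eq_true] at h1
    obtain ⟨l, hl, h1⟩ := h1
    rw [Bool.and_eq_true, Bool.and_eq_true] at h1
    exact ⟨l, hl, memT_iff h1.1.1, memT_iff h1.1.2, memT_iff h1.2⟩

theorem nrm_eq (t : Tri) : nrm Y t = !₂[((nrmI t).x : ℝ) / 10 ^ 14, ((nrmI t).y : ℝ) / 10 ^ 14,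
    ((nrmI t).z : ℝ) / 10 ^ 14] := by
  unfold nrm crs nrmI crsI subI Y r3
  ext i
  fin_cases i
  · simp
    ring
  · simp
    ring
  · simp
    ring

theorem det_eq (t1 t2 t3 : Tri) : det3 (nrm Y t1) (nrm Y t2) (nrm Y t3) =
    ((detI (nrmI t1) (nrmI t2) (nrmI t3) : ℤ) : ℝ) / 10 ^ 42 := by
  rw [nrm_eq, nrm_eq, nrm_eq]
  generalize nrmI t1 = u
  generalize nrmI t2 = v
  generalize nrmI t3 = w
  unfold det3 detI
  simp only [PiLp.toLp_apply, Matrix.cons_val_zero, Matrix.cons_val_one, Matrix.cons_val]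
  push_cast
  ring

end GenB

theorem stGenB : StGenB where
  trip := fun _ hp _ hq h hx => GenB.trip hp hq h hx
  tlen := GenB.runLen
  tdet := by
    intro l hl t1 h1 t2 h2 t3 h3 h12 h13 h23
    rw [GenB.det_eq]
    have h := GenB.runDet l hl t1 h1 t2 h2 t3 h3 h12 h13 h23
    exact div_ne_zero (by exact_mod_cast h) (by norm_num)
  tshare := GenB.runShare

end Pool.Agent.Work.MP_48319b_gt.Dat
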