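import Pool.Agent.Work.MP_48319b_gt.Stmts

/-!
# MP_48319b_gt : triangulated planes, real level

Definitions for the piecewise linear layer.  Everything here is about a finite list `F` of
positively oriented triangles in the plane which triangulates a convex polygon, vertices are
natural numbers, `pos v` is the position of the vertex `v` in the plane.
-/

open Metric Set Topology

namespace Pool.Agent.Work.MP_48319b_gt

structure Tri where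
  a : ℕ
  b : ℕ
  c : ℕ
deriving DecidableEq

/-- the vertices of a triangle -/
def Tri.vs (t : Tri) : List ℕ := [t.a, t.b, t.c]

/-- the oriented edges of a triangle -/
def Tri.es (t : Tri) : List (ℕ × ℕ) := [(t.a, t.b), (t.b, t.c), (t.c, t.a)]

/-- determinant of two plane vectors -/
noncomputable def det2 (u v : E2) : ℝ := u 0 * v 1 - u 1 * v 0

/-- barycentric combination of the values of `φ` at the vertices of `t` -/
def comb {V : Type*} [AddCommGroup V] [Module ℝ V] (φ : ℕ → V) (t : Tri) (w : ℕ → ℝ) : V :=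
  w t.a • φ t.a + w t.b • φ t.b + w t.c • φ t.c

/-- `w` is a system of barycentric weights supported on the vertices of `t` -/
structure IsW (t : Tri) (w : ℕ → ℝ) : Prop where
  nonneg : ∀ v, 0 ≤ w v
  supp : ∀ v, v ∉ t.vs → w v = 0
  sum : w t.a + w t.b + w t.c = 1

/-- `w` is the system of barycentric coordinates of `x` in the triangle `t` -/
def IsWt (pos : ℕ → E2) (t : Tri) (x : E2) (w : ℕ → ℝ) : Prop := IsW t w ∧ comb pos t w = x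

/-- `s` and `s'` are separated by a line which meets `s` at most in common vertices. -/
def HalfSep (pos : ℕ → E2) (s s' : Tri) : Prop :=
  ∃ (u : E2) (c : ℝ), (∀ v ∈ s.vs, inner ℝ u (pos v) ≤ c ∧ (inner ℝ u (pos v) = c → v ∈ s'.vs)) ∧
    ∀ v ∈ s'.vs, c ≤ inner ℝ u (pos v)

/-- A triangulated convex polygon: `F` triangles, `bd` oriented boundary edges. -/
structure PlaneCx (F : List Tri) (bd : List (ℕ × ℕ)) (pos : ℕ → E2) : Prop where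
  ne : F ≠ []
  orient : ∀ t ∈ F, 0 < det2 (pos t.b - pos t.a) (pos t.c - pos t.a)
  sep : ∀ t ∈ F, ∀ t' ∈ F, t ≠ t' → HalfSep pos t t' ∨ HalfSep pos t' t
  edge : ∀ t ∈ F, ∀ e ∈ t.es, e ∈ bd ∨ ∃ t' ∈ F, (e.2, e.1) ∈ t'.es
  bdmem : ∀ e ∈ bd, ∃ t ∈ F, e ∈ t.es
  bdside : ∀ e ∈ bd, ∀ t ∈ F, ∀ v ∈ t.vs, 0 ≤ det2 (pos e.2 - pos e.1) (pos v - pos e.1) ∧
    (det2 (pos e.2 - pos e.1) (pos v - pos e.1) = 0 → v = e.1 ∨ v = e.2)
  small : ∀ t ∈ F, ∀ v ∈ t.vs, ‖pos v‖ < 2 / 5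
  uniq : ∀ t ∈ F, ∀ t' ∈ F, (∀ v ∈ t.vs, v ∈ t'.vs) → t = t'

open Classical in
/-- the piecewise affine extension of `φ`, equal to `L` outside the polygon -/
noncomputable def ext (F : List Tri) (pos : ℕ → E2) {V : Type*} [AddCommGroup V] [Module ℝ V]
    (φ : ℕ → V) (L : E2 → V) (x : E2) : V :=
  if h : ∃ p : Tri × (ℕ → ℝ), p.1 ∈ F ∧ IsWt pos p.1 x p.2 then comb φ h.choose.1 h.choose.2
  else L x

/-- index type of the pieces -/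
abbrev Idx (F : List Tri) := Option {t : Tri // t ∈ F}

/-- the pieces: the closed triangles and the closed exterior of the polygon -/
def Piece (F : List Tri) (bd : List (ℕ × ℕ)) (pos : ℕ → E2) : Idx F → Set E2
  | none => {x | ∃ e ∈ bd, det2 (pos e.2 - pos e.1) (x - pos e.1) ≤ 0}
  | some t => {x | ∃ w, IsWt pos t.1 x w}

/-- the vertex `v` belongs to the piece `i` -/
def VIn {F : List Tri} (bd : List (ℕ × ℕ)) (v : ℕ) : Idx F → Prop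
  | none => ∃ e ∈ bd, v = e.1 ∨ v = e.2
  | some t => v ∈ t.1.vs

/-- `A` is the family of linear parts of the piecewise affine extension of `φ`. -/
structure LinParts (F : List Tri) (pos : ℕ → E2) {V : Type*} [NormedAddCommGroup V]
    [NormedSpace ℝ V] (φ : ℕ → V) (L : E2 →L[ℝ] V) (A : Idx F → E2 →L[ℝ] V) : Prop where
  out : A none = L
  tri : ∀ t : {t : Tri // t ∈ F}, A (some t) (pos t.1.b - pos t.1.a) = φ t.1.b - φ t.1.a ∧
    A (some t) (pos t.1.c - pos t.1.a) = φ t.1.c - φ t.1.a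

/-- `φ` agrees with the linear map `L` on the boundary vertices -/
def BdStd (bd : List (ℕ × ℕ)) (pos : ℕ → E2) {V : Type*} (φ : ℕ → V) (L : E2 → V) : Prop :=
  ∀ e ∈ bd, φ e.1 = L (pos e.1) ∧ φ e.2 = L (pos e.2)

/-- `emb` as a continuous linear map -/
noncomputable def embL : E2 →L[ℝ] E3 :=
  LinearMap.toContinuousLinearMap
    { toFun := emb
      map_add' := by intro x y; ext i; fin_cases i <;> simp [emb]
      map_smul' := by intro c x; ext i; fin_cases i <;> simp [emb] }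

/-- the first two coordinates -/
noncomputable def pr2 (y : E3) : E2 := !₂[y 0, y 1]

/-- the first two coordinates, as a continuous linear map -/
noncomputable def pr2L : E3 →L[ℝ] E2 :=
  LinearMap.toContinuousLinearMap
    { toFun := pr2
      map_add' := by intro x y; ext i; fin_cases i <;> simp [pr2]
      map_smul' := by intro c x; ext i; fin_cases i <;> simp [pr2] }

/-! ### hypotheses on the vertex maps -/

/-- Positivity of `Q ∘ (linear part on t)` -/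
def PosT (pos : ℕ → E2) (Y : ℕ → E3) (t : Tri) (Q : E3 →L[ℝ] E2) : Prop :=
  ∀ s r : ℝ, (s ≠ 0 ∨ r ≠ 0) →
    0 < inner ℝ (s • (pos t.b - pos t.a) + r • (pos t.c - pos t.a))
      (Q (s • (Y t.b - Y t.a) + r • (Y t.c - Y t.a)))

/-- The monotone certificate: `Q v` is good on all the pieces containing `v`. -/
structure MonoCert (F : List Tri) (bd : List (ℕ × ℕ)) (pos : ℕ → E2) (Y : ℕ → E3)
    (Q : ℕ → E3 →L[ℝ] E2) : Prop where
  tri : ∀ t ∈ F, ∀ v ∈ t.vs, PosT pos Y t (Q v)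
  out : ∀ e ∈ bd, ∀ v ∈ [e.1, e.2], ∀ u : E2, u ≠ 0 → 0 < inner ℝ u (Q v (emb u))

/-- Orientation certificate for the normals. -/
structure NormCert (F : List Tri) (bd : List (ℕ × ℕ)) (Y : ℕ → E3) (Q : ℕ → E3 →L[ℝ] E2)
    (N : ℕ → E3) : Prop where
  ker : ∀ v, Q v (N v) = 0
  tri : ∀ t ∈ F, ∀ v ∈ t.vs, 0 < det3 (Y t.b - Y t.a) (Y t.c - Y t.a) (N v)
  out : ∀ e ∈ bd, ∀ v ∈ [e.1, e.2], 0 < (N v) 2

/-- The image of the polygon lies over the polygon. -/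
def OutCert (F : List Tri) (bd : List (ℕ × ℕ)) (pos : ℕ → E2) (Y : ℕ → E3) : Prop :=
  ∀ e ∈ bd, ∀ t ∈ F, ∀ v ∈ t.vs, 0 ≤ det2 (pos e.2 - pos e.1) (pr2 (Y v) - pos e.1) ∧
    (det2 (pos e.2 - pos e.1) (pr2 (Y v) - pos e.1) = 0 → v = e.1 ∨ v = e.2)

def Share (t t' : Tri) : Prop := ∃ v, v ∈ t.vs ∧ v ∈ t'.vs

/-- strict separation in `ℝ⁴`, valid for both `Y` and `Y0` -/
def Sep4 (Y Y0 : ℕ → E3) (g : ℕ → ℝ) (t t' : Tri) : Prop :=
  ∃ (α : E3) (κ : ℝ), ∀ v ∈ t.vs, ∀ v' ∈ t'.vs,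
    inner ℝ α (Y v) + κ * g v < inner ℝ α (Y v') + κ * g v' ∧
    inner ℝ α (Y0 v) + κ * g v < inner ℝ α (Y0 v') + κ * g v'

/-- strict separation in `ℝ³` -/
def Sep3 (Y : ℕ → E3) (t t' : Tri) : Prop :=
  ∃ α : E3, ∀ v ∈ t.vs, ∀ v' ∈ t'.vs, inner ℝ α (Y v) < inner ℝ α (Y v')

/-- three triangles of `ℝ³` without common point -/
def Sep33 (Y : ℕ → E3) (t1 t2 t3 : Tri) : Prop :=
  ∃ m1 m2 m3 : E3, m1 + m2 + m3 = 0 ∧ ∀ v1 ∈ t1.vs, ∀ v2 ∈ t2.vs, ∀ v3 ∈ t3.vs,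
    inner ℝ m1 (Y v1) + inner ℝ m2 (Y v2) + inner ℝ m3 (Y v3) < 0

/-- cross product, as a vector of `E3` -/
noncomputable def crs (u v : E3) : E3 :=
  !₂[u 1 * v 2 - u 2 * v 1, u 2 * v 0 - u 0 * v 2, u 0 * v 1 - u 1 * v 0]

/-- normal vector of the image triangle -/
noncomputable def nrm (Y : ℕ → E3) (t : Tri) : E3 := crs (Y t.b - Y t.a) (Y t.c - Y t.a)

/-- Certificate for the generic map `Y`. `X` is the list of the pairs of crossing triangles, the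
upper one first; `Tl` is the list of the triple points, each given by the list of its three
triangles. -/
structure GenCert (F : List Tri) (Y : ℕ → E3) (g : ℕ → ℝ) (X : List (Tri × Tri))
    (Tl : List (List Tri)) : Prop where
  sub : ∀ p ∈ X, p.1 ∈ F ∧ p.2 ∈ F
  sep : ∀ t ∈ F, ∀ t' ∈ F, Share t t' ∨ Sep3 Y t t' ∨ (t, t') ∈ X ∨ (t', t) ∈ X
  vp : ∀ p ∈ X, (∀ v ∈ p.2.vs,
      det3 (Y p.1.b - Y p.1.a) (Y p.1.c - Y p.1.a) (Y v - Y p.1.a) ≠ 0) ∧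
    (∀ v ∈ p.1.vs, det3 (Y p.2.b - Y p.2.a) (Y p.2.c - Y p.2.a) (Y v - Y p.2.a) ≠ 0)
  ee : ∀ p ∈ X, ∀ e ∈ p.1.es, ∀ e' ∈ p.2.es,
    det3 (Y e.2 - Y e.1) (Y e'.1 - Y e.1) (Y e'.2 - Y e.1) ≠ 0
  above : ∀ p ∈ X, ∃ (α : E3) (κ : ℝ), 0 < κ ∧ ∀ v ∈ p.1.vs, ∀ v' ∈ p.2.vs,
    inner ℝ α (Y v') + κ * g v' < inner ℝ α (Y v) + κ * g v
  trip : ∀ p ∈ X, ∀ q ∈ X, p.2 = q.1 → (p.1, q.2) ∈ X → Sep33 Y p.1 p.2 q.2 ∨
    ∃ l ∈ Tl, p.1 ∈ l ∧ p.2 ∈ l ∧ q.2 ∈ l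
  tlen : ∀ l ∈ Tl, l.length = 3
  tdet : ∀ l ∈ Tl, ∀ t1 ∈ l, ∀ t2 ∈ l, ∀ t3 ∈ l, t1 ≠ t2 → t1 ≠ t3 → t2 ≠ t3 →
    det3 (nrm Y t1) (nrm Y t2) (nrm Y t3) ≠ 0
  tshare : ∀ l ∈ Tl, ∀ l' ∈ Tl, l ≠ l' → ∀ t1 ∈ l, ∀ t2 ∈ l, t1 ∈ l' → t2 ∈ l' → t1 = t2

/-- two pairs of crossing triangles whose double segments have a common point -/
def Link (Y : ℕ → E3) (p q : Tri × Tri) : Prop :=
  ∃ w w' : ℕ → ℝ, IsW p.1 w ∧ IsW q.1 w ∧ IsW p.2 w' ∧ IsW q.2 w' ∧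
    comb Y p.1 w = comb Y p.2 w'

/-- every pair of the list is linked to an earlier one (or to one of `done`) -/
def Chained (Y : ℕ → E3) : List (Tri × Tri) → List (Tri × Tri) → Prop
  | _, [] => True
  | done, p :: rest => (∃ q ∈ done, Link Y q p) ∧ Chained Y (p :: done) rest

/-- Certificate for the sign data. -/
structure SignCert (Y : ℕ → E3) (X X1 X2 : List (Tri × Tri)) : Prop where
  split : ∀ p, p ∈ X ↔ p ∈ X1 ∨ p ∈ X2
  chain1 : ∀ p l, X1 = p :: l → Chained Y [p] l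
  chain2 : ∀ p l, X2 = p :: l → Chained Y [p] l
  tie : ∃ t1 t2 t3 w1 w2 w3, (t1, t2) ∈ X1 ∧ (t2, t3) ∈ X1 ∧ (t1, t3) ∈ X2 ∧ IsW t1 w1 ∧
    IsW t2 w2 ∧ IsW t3 w3 ∧ comb Y t1 w1 = comb Y t2 w2 ∧ comb Y t2 w2 = comb Y t3 w3

/-! ### the simplicial map -/

/-- The two image triangles (for the simplicial map `Y0`) meet exactly in their common vertices or
common edge. -/
def WSep (Y0 : ℕ → E3) (t t' : Tri) : Prop :=
  ∃ (α : E3) (c : ℝ),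
    (∀ v ∈ t.vs, inner ℝ α (Y0 v) ≤ c ∧ (inner ℝ α (Y0 v) = c → ∃ v' ∈ t'.vs, Y0 v' = Y0 v)) ∧
    (∀ v' ∈ t'.vs, c ≤ inner ℝ α (Y0 v') ∧ (inner ℝ α (Y0 v') = c → ∃ v ∈ t.vs, Y0 v' = Y0 v)) ∧
    (∃ v ∈ t.vs, inner ℝ α (Y0 v) < c) ∧ ∃ v' ∈ t'.vs, c < inner ℝ α (Y0 v')

/-- Certificate for the double points of the simplicial map: `up v` is the list of the vertices
above `v` (top first), `twin a b = some (a', b')` if `(a', b')` is the edge above the edge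
`(a, b)`. -/
structure TwinCert (F : List Tri) (Y0 : ℕ → E3) (g : ℕ → ℝ) (up : ℕ → List ℕ)
    (twin : ℕ → ℕ → Option (ℕ × ℕ)) : Prop where
  sep : ∀ t ∈ F, ∀ t' ∈ F, Share t t' ∨ WSep Y0 t t' ∨ WSep Y0 t' t
  up1 : ∀ t ∈ F, ∀ t' ∈ F, ∀ v ∈ t.vs, ∀ v' ∈ t'.vs, Y0 v = Y0 v' → v = v' ∨ v ∈ up v' ∨ v' ∈ up v
  up2 : ∀ v, ∀ u ∈ up v, Y0 u = Y0 v ∧ g v < g u ∧ ∃ t ∈ F, u ∈ t.vs
  up3 : ∀ v, (up v).Pairwise (fun p q => g q < g p)
  tw1 : ∀ t ∈ F, ∀ t' ∈ F, ∀ a ∈ t.vs, ∀ b ∈ t.vs, ∀ a' ∈ t'.vs, ∀ b' ∈ t'.vs, a ≠ b → a ≠ a' →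
    Y0 a = Y0 a' → Y0 b = Y0 b' → twin a b = some (a', b') ∨ twin a' b' = some (a, b)
  tw2 : ∀ a b a' b', twin a b = some (a', b') → a' ∈ up a ∧ b' ∈ up b ∧
    ∃ t ∈ F, a' ∈ t.vs ∧ b' ∈ t.vs
  tw3 : ∀ a b a' b', twin a b = some (a', b') → twin a' b' = none

/-- The side certificate: the triangle `t` at its vertex `v` lies on the negative side of the
sheet at `u` iff `sg v t u`. -/
def SideCert (F : List Tri) (Y0 N : ℕ → E3) (up : ℕ → List ℕ) (sg : ℕ → Tri → ℕ → Bool) : Prop :=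
  ∀ t ∈ F, ∀ v b c, (t = ⟨v, b, c⟩ ∨ t = ⟨c, v, b⟩ ∨ t = ⟨b, c, v⟩) → ∀ u ∈ up v,
    ∃ k ∈ F, ∃ b' c', (k = ⟨u, b', c'⟩ ∨ k = ⟨c', u, b'⟩ ∨ k = ⟨b', c', u⟩) ∧
      ∃ γ1 γ2 τ D : ℝ, 0 ≤ γ1 ∧ 0 ≤ γ2 ∧ 0 < D ∧ τ ≠ 0 ∧ (τ < 0 ↔ sg v t u = true) ∧
        D • ((Y0 b - Y0 v) + (Y0 c - Y0 v)) =
          γ1 • (Y0 b' - Y0 u) + γ2 • (Y0 c' - Y0 u) + τ • N u

/-- Colours: `col t` colour of the triangle, `cv v` of the vertex, `ce a b` of the open edge. -/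
structure ColCert {G : Type} [Group G] (F : List Tri) (bd : List (ℕ × ℕ)) (up : ℕ → List ℕ)
    (twin : ℕ → ℕ → Option (ℕ × ℕ)) (sg : ℕ → Tri → ℕ → Bool) (col : Tri → G) (cv : ℕ → G)
    (ce : ℕ → ℕ → G) (cinf : G) : Prop where
  vert : ∀ t ∈ F, ∀ v ∈ t.vs,
    col t = ((up v).map fun u => if sg v t u then cv u else 1).prod * cv v *
      (((up v).map fun u => if sg v t u then cv u else 1).prod)⁻¹
  symm : ∀ a b, ce a b = ce b a
  edge0 : ∀ t ∈ F, ∀ a ∈ t.vs, ∀ b ∈ t.vs, a ≠ b → twin a b = none → twin b a = none →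
    ce a b = col t
  edge1 : ∀ t ∈ F, ∀ a ∈ t.vs, ∀ b ∈ t.vs, a ≠ b → ∀ a' b', twin a b = some (a', b') →
    col t = (if sg a t a' then ce a' b' else 1) * ce a b * (if sg a t a' then ce a' b' else 1)⁻¹
  twsymm : ∀ a b a' b', twin a b = some (a', b') → twin b a = some (b', a')
  bdv : ∀ e ∈ bd, cv e.1 = cinf ∧ cv e.2 = cinf ∧ ce e.1 e.2 = cinf
  nc : ∃ t1 ∈ F, ∃ t2 ∈ F, col t1 * col t2 ≠ col t2 * col t1

/-- All the hypotheses at the real level. -/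
structure RData (F : List Tri) (bd : List (ℕ × ℕ)) (pos : ℕ → E2) (Y Y0 N : ℕ → E3) (g : ℕ → ℝ)
    (Q : ℕ → E3 →L[ℝ] E2) (X X1 X2 : List (Tri × Tri)) (Tl : List (List Tri)) (up : ℕ → List ℕ)
    (twin : ℕ → ℕ → Option (ℕ × ℕ)) (sg : ℕ → Tri → ℕ → Bool) : Prop where
  cx : PlaneCx F bd pos
  bdY : BdStd bd pos Y emb
  bdY0 : BdStd bd pos Y0 emb
  bdg : BdStd bd pos g (fun _ => 0)
  smallY : ∀ t ∈ F, ∀ v ∈ t.vs, ‖Y v‖ ≤ 2 / 5
  smallY0 : ∀ t ∈ F, ∀ v ∈ t.vs, ‖Y0 v‖ ≤ 2 / 5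
  mono : MonoCert F bd pos Y Q
  mono0 : MonoCert F bd pos Y0 Q
  norm0 : NormCert F bd Y0 Q N
  out : OutCert F bd pos Y
  out0 : OutCert F bd pos Y0
  sep4 : ∀ t ∈ F, ∀ t' ∈ F, Share t t' ∨ Sep4 Y Y0 g t t'
  gen : GenCert F Y g X Tl
  sign : SignCert Y X X1 X2
  twc : TwinCert F Y0 g up twin
  side : SideCert F Y0 N up sg
  col : ∃ (G : Type) (_ : Group G) (col : Tri → G) (cv : ℕ → G) (ce : ℕ → ℕ → G) (cinf : G),
    ColCert F bd up twin sg col cv ce cinf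

end Pool.Agent.Work.MP_48319b_gt
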