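import Pool.Agent.Work.MP_48319b_gt.Bd.B04
import Pool.Agent.Work.MP_48319b_gt.Stmts3

/-!
# MP_48319b_gt : item D9, the sign certificate
-/

open Metric Set Topology

namespace Pool.Agent.Work.MP_48319b_gt.Dat.SG

theorem triEq_iff (t s : Tri) : triEq t s = true ↔ t = s := by
  unfold triEq
  simp only [Bool.and_eq_true, Nat.beq_eq]
  constructor
  · rintro ⟨⟨h1, h2⟩, h3⟩
    cases t; cases s; simp_all
  · rintro rfl; simp

theorem isV_iff (t : Tri) (v : ℕ) : isV t v = true ↔ v ∈ t.vs := by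
  unfold isV Tri.vs
  simp only [Bool.or_eq_true, Nat.beq_eq, List.mem_cons, List.not_mem_nil, or_false]
  constructor
  · rintro ((h | h) | h) <;> simp [h]
  · rintro (h | h | h) <;> simp [h]

theorem not_beq (a b : ℕ) (h : (!Nat.beq a b) = true) : a ≠ b := by
  intro e
  subst e
  simp at h

theorem nd_iff (t : Tri) (h : nd t = true) : t.a ≠ t.b ∧ t.a ≠ t.c ∧ t.b ≠ t.c := by
  unfold nd at h
  simp only [Bool.and_eq_true] at h
  exact ⟨not_beq _ _ h.1.1, not_beq _ _ h.1.2, not_beq _ _ h.2⟩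

/-- weights on two vertices -/
noncomputable def w2 (u v : ℕ) (α β : ℝ) (x : ℕ) : ℝ := if x = u then α else if x = v then β else 0

/-- weights on three vertices -/
noncomputable def w3 (t : Tri) (α β γ : ℝ) (x : ℕ) : ℝ :=
  if x = t.a then α else if x = t.b then β else if x = t.c then γ else 0

theorem comb_w2 {V : Type*} [AddCommGroup V] [Module ℝ V] (φ : ℕ → V) (t : Tri) (u v : ℕ)
    (α β : ℝ) (hn : t.a ≠ t.b ∧ t.a ≠ t.c ∧ t.b ≠ t.c) (huv : u ≠ v) (hu : u ∈ t.vs)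
    (hv : v ∈ t.vs) : comb φ t (w2 u v α β) = α • φ u + β • φ v := by
  obtain ⟨h1, h2, h3⟩ := hn
  simp only [Tri.vs, List.mem_cons, List.not_mem_nil, or_false] at hu hv
  rcases hu with rfl | rfl | rfl <;> rcases hv with rfl | rfl | rfl <;>
    first
    | exact absurd rfl huv
    | (simp [comb, w2, h1, h2, h3, h1.symm, h2.symm, h3.symm]; try abel)

theorem sum_w2 (t : Tri) (u v : ℕ)
    (α β : ℝ) (hn : t.a ≠ t.b ∧ t.a ≠ t.c ∧ t.b ≠ t.c) (huv : u ≠ v) (hu : u ∈ t.vs)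
    (hv : v ∈ t.vs) : w2 u v α β t.a + w2 u v α β t.b + w2 u v α β t.c = α + β := by
  have := comb_w2 (fun _ => (1 : ℝ)) t u v α β hn huv hu hv
  simpa [comb] using this

theorem isW_w2 (t : Tri) (u v : ℕ) (α β : ℝ) (hn : t.a ≠ t.b ∧ t.a ≠ t.c ∧ t.b ≠ t.c)
    (huv : u ≠ v) (hu : u ∈ t.vs) (hv : v ∈ t.vs) (ha : 0 ≤ α) (hb : 0 ≤ β) (hs : α + β = 1) :
    IsW t (w2 u v α β) := by
  refine ⟨?_, ?_, ?_⟩
  · intro x; unfold w2; split_ifs <;> first | assumption | exact le_refl _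
  · intro x hx
    unfold w2
    rw [if_neg, if_neg]
    · rintro rfl; exact hx hv
    · rintro rfl; exact hx hu
  · rw [sum_w2 t u v α β hn huv hu hv, hs]

theorem comb_w3 {V : Type*} [AddCommGroup V] [Module ℝ V] (φ : ℕ → V) (t : Tri)
    (α β γ : ℝ) (hn : t.a ≠ t.b ∧ t.a ≠ t.c ∧ t.b ≠ t.c) :
    comb φ t (w3 t α β γ) = α • φ t.a + β • φ t.b + γ • φ t.c := by
  obtain ⟨h1, h2, h3⟩ := hn
  simp [comb, w3, h1.symm, h2.symm, h3.symm]

theorem isW_w3 (t : Tri) (α β γ : ℝ) (hn : t.a ≠ t.b ∧ t.a ≠ t.c ∧ t.b ≠ t.c)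
    (ha : 0 ≤ α) (hb : 0 ≤ β) (hc : 0 ≤ γ) (hs : α + β + γ = 1) : IsW t (w3 t α β γ) := by
  refine ⟨?_, ?_, ?_⟩
  · intro x; unfold w3; split_ifs <;> first | assumption | exact le_refl _
  · intro x hx
    simp only [Tri.vs, List.mem_cons, List.not_mem_nil, or_false, not_or] at hx
    unfold w3
    rw [if_neg hx.1, if_neg hx.2.1, if_neg hx.2.2]
  · obtain ⟨h1, h2, h3⟩ := hn
    simp [w3, h1.symm, h2.symm, h3.symm, hs]

theorem meets_real (u v a b c : P3) (wu wv wa wb wc : ℤ) (h : meets u v a b c wu wv wa wb wc = true) :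
    0 ≤ wu ∧ 0 ≤ wv ∧ 0 ≤ wa ∧ 0 ≤ wb ∧ 0 ≤ wc ∧ 0 < wu + wv ∧ wu + wv = wa + wb + wc ∧
    ((wu : ℝ) / (wu + wv : ℤ)) • r3 u + ((wv : ℝ) / (wu + wv : ℤ)) • r3 v =
      ((wa : ℝ) / (wu + wv : ℤ)) • r3 a + ((wb : ℝ) / (wu + wv : ℤ)) • r3 b +
        ((wc : ℝ) / (wu + wv : ℤ)) • r3 c := by
  unfold meets at h
  simp only [Bool.and_eq_true, leb_iff, ltb_iff, eqb_iff] at h
  obtain ⟨⟨⟨⟨⟨⟨⟨⟨⟨h1, h2⟩, h3⟩, h4⟩, h5⟩, h6⟩, h7⟩, hx⟩, hy⟩, hz⟩ := h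
  refine ⟨h1, h2, h3, h4, h5, h6, h7, ?_⟩
  have hD : ((wu + wv : ℤ) : ℝ) ≠ 0 := by exact_mod_cast h6.ne'
  have hx' : (wu : ℝ) * u.x + wv * v.x = wa * a.x + wb * b.x + wc * c.x := by exact_mod_cast hx
  have hy' : (wu : ℝ) * u.y + wv * v.y = wa * a.y + wb * b.y + wc * c.y := by exact_mod_cast hy
  have hz' : (wu : ℝ) * u.z + wv * v.z = wa * a.z + wb * b.z + wc * c.z := by exact_mod_cast hz
  ext i
  fin_cases i
  · simp only [r3, PiLp.add_apply, PiLp.smul_apply, smul_eq_mul]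
    simp only [Fin.zero_eta, Matrix.cons_val_zero]
    field_simp
    exact hx'
  · simp only [r3, PiLp.add_apply, PiLp.smul_apply, smul_eq_mul]
    simp only [Fin.mk_one, Matrix.cons_val_one, Matrix.cons_val_zero]
    field_simp
    exact hy'
  · simp only [r3, PiLp.add_apply, PiLp.smul_apply, smul_eq_mul]
    simp only [Fin.reduceFinMk, Matrix.cons_val]
    field_simp
    exact hz'

theorem stab_link (s s' t : Tri) (q : LinkC) (h : stab s s' t q = true) :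
    ∃ w w' : ℕ → ℝ, IsW s w ∧ IsW s' w ∧ IsW t w' ∧ comb Y s w = comb Y t w' ∧
      comb Y s' w = comb Y t w' := by
  unfold stab at h
  simp only [Bool.and_eq_true, isV_iff] at h
  obtain ⟨⟨⟨⟨⟨⟨⟨⟨hs, hs'⟩, ht⟩, huv⟩, h1⟩, h2⟩, h3⟩, h4⟩, hm⟩ := h
  have hs := nd_iff _ hs
  have hs' := nd_iff _ hs'
  have ht := nd_iff _ ht
  have huv := not_beq _ _ huv
  obtain ⟨p1, p2, p3, p4, p5, p6, p7, p8⟩ := meets_real _ _ _ _ _ _ _ _ _ _ hm
  have hDpos : (0 : ℝ) < ((q.wu + q.wv : ℤ) : ℝ) := by exact_mod_cast p6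
  have c1 : (0 : ℝ) ≤ q.wu := by exact_mod_cast p1
  have c2 : (0 : ℝ) ≤ q.wv := by exact_mod_cast p2
  have c3 : (0 : ℝ) ≤ q.wa := by exact_mod_cast p3
  have c4 : (0 : ℝ) ≤ q.wb := by exact_mod_cast p4
  have c5 : (0 : ℝ) ≤ q.wc := by exact_mod_cast p5
  have e1 : (q.wu : ℝ) / (q.wu + q.wv : ℤ) + (q.wv : ℝ) / (q.wu + q.wv : ℤ) = 1 := by
    rw [← add_div, div_eq_one_iff_eq hDpos.ne']; push_cast; ring
  have e2 : (q.wa : ℝ) / (q.wu + q.wv : ℤ) + (q.wb : ℝ) / (q.wu + q.wv : ℤ) +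
      (q.wc : ℝ) / (q.wu + q.wv : ℤ) = 1 := by
    rw [← add_div, ← add_div, div_eq_one_iff_eq hDpos.ne']
    exact_mod_cast p7.symm
  refine ⟨w2 q.u q.v ((q.wu : ℝ) / (q.wu + q.wv : ℤ)) ((q.wv : ℝ) / (q.wu + q.wv : ℤ)),
    w3 t ((q.wa : ℝ) / (q.wu + q.wv : ℤ)) ((q.wb : ℝ) / (q.wu + q.wv : ℤ))
      ((q.wc : ℝ) / (q.wu + q.wv : ℤ)), ?_, ?_, ?_, ?_, ?_⟩
  · exact isW_w2 _ _ _ _ _ hs huv h1 h2 (by positivity) (by positivity) e1
  · exact isW_w2 _ _ _ _ _ hs' huv h3 h4 (by positivity) (by positivity) e1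
  · exact isW_w3 _ _ _ _ ht (by positivity) (by positivity) (by positivity) e2
  · rw [comb_w2 _ _ _ _ _ _ hs huv h1 h2, comb_w3 _ _ _ _ _ ht]
    exact p8
  · rw [comb_w2 _ _ _ _ _ _ hs' huv h3 h4, comb_w3 _ _ _ _ _ ht]
    exact p8

theorem okLink_link (p : Tri × Tri) (q : LinkC) (h : okLink p q = true) :
    Link Y (q.p', q.q') p := by
  unfold okLink at h
  simp only [Bool.and_eq_true, triEq_iff] at h
  obtain ⟨⟨h1, h2⟩, h3⟩ := h
  obtain ⟨p1, p2⟩ := p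
  simp only at h1 h2
  subst h1 h2
  split at h3
  · simp only [Bool.and_eq_true, triEq_iff] at h3
    obtain ⟨h4, h5⟩ := h3
    obtain ⟨w, w', a1, a2, a3, a4, a5⟩ := stab_link _ _ _ _ h5
    exact ⟨w, w', a2, a1, by simpa [← h4] using a3, a3, by simpa [← h4] using a5⟩
  · simp only [Bool.and_eq_true, triEq_iff] at h3
    obtain ⟨h4, h5⟩ := h3
    obtain ⟨w, w', a1, a2, a3, a4, a5⟩ := stab_link _ _ _ _ h5
    exact ⟨w', w, by simpa [← h4] using a3, a3, a2, a1, by simpa [← h4] using a5.symm⟩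

theorem memb_mem (a b : Tri) (l : List (Tri × Tri)) (h : memb a b l = true) : (a, b) ∈ l := by
  unfold memb at h
  simp only [List.any_eq_true, Bool.and_eq_true, triEq_iff] at h
  obtain ⟨x, hx, h1, h2⟩ := h
  rw [← h1, ← h2]
  exact hx

theorem chainb_chained (done l : List (Tri × Tri)) (c : List LinkC)
    (h : chainb done l c = true) : Chained Y done l := by
  induction l generalizing done c with
  | nil => simp [Chained]
  | cons p rest ih =>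
    cases c with
    | nil => simp [chainb] at h
    | cons q qs =>
      simp only [chainb, Bool.and_eq_true] at h
      obtain ⟨⟨h1, h2⟩, h3⟩ := h
      exact ⟨⟨_, memb_mem _ _ _ h2, okLink_link _ _ h1⟩, ih _ _ h3⟩

theorem chainB_chained (X : List (Tri × Tri)) (c : List LinkC) (h : chainB X c = true) :
    ∀ p l, X = p :: l → Chained Y [p] l := by
  rintro p l rfl
  exact chainb_chained _ _ _ h

/-- the tie -/
def tieB : Bool :=
  memb tie1 tie2 X1 && memb tie2 tie3 X1 && memb tie1 tie3 X2 && nd tie1 && nd tie2 && nd tie3 &&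
  leb 0 tieW1.x && leb 0 tieW1.y && leb 0 tieW1.z && leb 0 tieW2.x && leb 0 tieW2.y &&
  leb 0 tieW2.z && leb 0 tieW3.x && leb 0 tieW3.y && leb 0 tieW3.z && ltb 0 tieD &&
  eqb (tieW1.x + tieW1.y + tieW1.z) tieD && eqb (tieW2.x + tieW2.y + tieW2.z) tieD &&
  eqb (tieW3.x + tieW3.y + tieW3.z) tieD

/-- integer combination -/
def cmb (t : Tri) (w : P3) : P3 :=
  ⟨w.x * (yI t.a).x + w.y * (yI t.b).x + w.z * (yI t.c).x,
   w.x * (yI t.a).y + w.y * (yI t.b).y + w.z * (yI t.c).y,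
   w.x * (yI t.a).z + w.y * (yI t.b).z + w.z * (yI t.c).z⟩

theorem runTie : tieB = true := by decide +kernel

theorem runC12 : cmb tie1 tieW1 = cmb tie2 tieW2 := by decide +kernel

theorem runC23 : cmb tie2 tieW2 = cmb tie3 tieW3 := by decide +kernel

theorem comb_cmb (t : Tri) (w : P3) (D : ℤ) (hn : t.a ≠ t.b ∧ t.a ≠ t.c ∧ t.b ≠ t.c) :
    comb Y t (w3 t ((w.x : ℝ) / D) ((w.y : ℝ) / D) ((w.z : ℝ) / D)) =
      ((1 : ℝ) / D) • r3 (cmb t w) := by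
  rw [comb_w3 _ _ _ _ _ hn]
  ext i
  fin_cases i
  · simp only [Y, cmb, r3, PiLp.add_apply, PiLp.smul_apply, smul_eq_mul]
    simp only [Fin.zero_eta, Matrix.cons_val_zero]
    push_cast
    ring
  · simp only [Y, cmb, r3, PiLp.add_apply, PiLp.smul_apply, smul_eq_mul]
    simp only [Fin.mk_one, Matrix.cons_val_one, Matrix.cons_val_zero]
    push_cast
    ring
  · simp only [Y, cmb, r3, PiLp.add_apply, PiLp.smul_apply, smul_eq_mul]
    simp only [Fin.reduceFinMk, Matrix.cons_val]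
    push_cast
    ring

theorem isW_cmb (t : Tri) (w : P3) (D : ℤ) (hn : t.a ≠ t.b ∧ t.a ≠ t.c ∧ t.b ≠ t.c)
    (hx : 0 ≤ w.x) (hy : 0 ≤ w.y) (hz : 0 ≤ w.z) (hD : 0 < D) (hs : w.x + w.y + w.z = D) :
    IsW t (w3 t ((w.x : ℝ) / D) ((w.y : ℝ) / D) ((w.z : ℝ) / D)) := by
  have hD' : (0 : ℝ) < D := by exact_mod_cast hD
  have c1 : (0 : ℝ) ≤ w.x := by exact_mod_cast hx
  have c2 : (0 : ℝ) ≤ w.y := by exact_mod_cast hy
  have c3 : (0 : ℝ) ≤ w.z := by exact_mod_cast hz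
  refine isW_w3 _ _ _ _ hn (by positivity) (by positivity) (by positivity) ?_
  rw [← add_div, ← add_div, div_eq_one_iff_eq hD'.ne']
  exact_mod_cast hs

theorem tie_real : ∃ t1 t2 t3 w1 w2 w3, (t1, t2) ∈ X1 ∧ (t2, t3) ∈ X1 ∧ (t1, t3) ∈ X2 ∧
    IsW t1 w1 ∧ IsW t2 w2 ∧ IsW t3 w3 ∧ comb Y t1 w1 = comb Y t2 w2 ∧
    comb Y t2 w2 = comb Y t3 w3 := by
  have h := runTie
  unfold tieB at h
  simp only [Bool.and_eq_true, leb_iff, ltb_iff, eqb_iff] at h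
  obtain ⟨⟨⟨⟨⟨⟨⟨⟨⟨⟨⟨⟨⟨⟨⟨⟨⟨⟨m1, m2⟩, m3⟩, n1⟩, n2⟩, n3⟩, a1⟩, a2⟩, a3⟩, b1⟩, b2⟩, b3⟩, c1⟩, c2⟩,
    c3⟩, hD⟩, s1⟩, s2⟩, s3⟩ := h
  have n1 := nd_iff _ n1
  have n2 := nd_iff _ n2
  have n3 := nd_iff _ n3
  refine ⟨tie1, tie2, tie3, _, _, _, memb_mem _ _ _ m1, memb_mem _ _ _ m2, memb_mem _ _ _ m3,
    isW_cmb tie1 tieW1 tieD n1 a1 a2 a3 hD s1, isW_cmb tie2 tieW2 tieD n2 b1 b2 b3 hD s2,
    isW_cmb tie3 tieW3 tieD n3 c1 c2 c3 hD s3, ?_, ?_⟩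
  · rw [comb_cmb _ _ _ n1, comb_cmb _ _ _ n2, runC12]
  · rw [comb_cmb _ _ _ n2, comb_cmb _ _ _ n3, runC23]

end SG

/-- [48319b D9] -/
theorem stSign : StSign :=
  ⟨fun p => by simp [X, List.mem_append], SG.chainB_chained _ _ SG.run1,
    SG.chainB_chained _ _ SG.run2, SG.tie_real⟩

end Pool.Agent.Work.MP_48319b_gt.Dat
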