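import Pool.Agent.Work.MP_48319b_gt.Cx
import Pool.Agent.Work.MP_48319b_gt.Bd.B02
import Pool.Agent.Work.MP_48319b_gt.Bd.B05
import Pool.Agent.Work.MP_48319b_gt.Bd.B03
import Pool.Agent.Work.MP_48319b_gt.GenB
import Pool.Agent.Work.MP_48319b_gt.Sign
import Pool.Agent.Work.MP_48319b_gt.Bd.B04
import Pool.Agent.Work.MP_48319b_gt.Col

/-!
# MP_48319b_gt : the explicit example satisfies `RData`
-/

namespace Pool.Agent.Work.MP_48319b_gt.Dat

theorem genCert : GenCert F Y g X Tl where
  sub := stGenA.sub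
  sep := stSep3
  vp := stGenA.vp
  ee := stGenA.ee
  above := stGenA.above
  trip := stGenB.trip
  tlen := stGenB.tlen
  tdet := stGenB.tdet
  tshare := stGenB.tshare

theorem twinCert : TwinCert F Y0 g up twin where
  sep := stSepW
  up1 := stTwin.up1
  up2 := stTwin.up2
  up3 := stTwin.up3
  tw1 := stTwin.tw1
  tw2 := stTwin.tw2
  tw3 := stTwin.tw3

theorem rData : RData F bd pos Y Y0 N g Q X X1 X2 Tl up twin sg where
  cx := stCx
  bdY := stStd.bdY
  bdY0 := stStd.bdY0
  bdg := stStd.bdg
  smallY := stStd.smallY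
  smallY0 := stStd.smallY0
  mono := stMono.mono
  mono0 := stMono.mono0
  norm0 := stMono.norm0
  out := stStd.out
  out0 := stStd.out0
  sep4 := stSep4
  gen := genCert
  sign := stSign
  twc := twinCert
  side := stSide
  col := stCol

end Pool.Agent.Work.MP_48319b_gt.Dat
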