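import Pool.Agent.Work.MP_48319b_gt.Data

/-!
# MP_48319b_gt : Boolean checks for item D2 (boundary, norms, OutCert)
-/

namespace Pool.Agent.Work.MP_48319b_gt.Dat.ItemStd

/-- sign of an integer: positive, or zero and `b` -/
def sgb (D : ℤ) (b : Bool) : Bool := match D with
  | Int.ofNat 0 => b
  | Int.ofNat (_ + 1) => true
  | Int.negSucc _ => false

theorem sgb_pos {D : ℤ} {b : Bool} (h : sgb D b = true) : 0 ≤ D ∧ (D = 0 → b = true) := by
  unfold sgb at h
  split at h
  · exact ⟨le_refl _, fun _ => h⟩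
  · rename_i n
    have h2 : (Int.ofNat (n + 1) : ℤ) = (n : ℤ) + 1 := rfl
    rw [h2]
    constructor
    · omega
    · intro h1; exfalso; omega
  · cases h

/-- the determinant of the edge `p q` and the point `(x, y)` -/
def dt (p q : P2) (x y : ℤ) : ℤ := (q.x - p.x) * (y - p.y) - (q.y - p.y) * (x - p.x)

def outV (y : P3) (v : ℕ) (e : ℕ × ℕ) : Bool :=
  sgb (dt (dI e.1) (dI e.2) y.x y.y) (Nat.beq v e.1 || Nat.beq v e.2)

def smallV (y : P3) : Bool := sgb (16000000000000 - (y.x * y.x + y.y * y.y + y.z * y.z)) true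

def chkV (v : ℕ) : Bool :=
  smallV (yI v) && smallV (y0I v) && bd.all (fun e => outV (yI v) v e) &&
    bd.all (fun e => outV (y0I v) v e)

def chkB (v : ℕ) : Bool :=
  decide (yI v = ⟨(dI v).x, (dI v).y, 0⟩) && decide (y0I v = ⟨(dI v).x, (dI v).y, 0⟩) &&
    decide (gI v = 0)

/-- the vertices of the triangles are among `0, ..., 187` -/
def chkF : Bool := F.all fun t => Nat.blt t.a 188 && Nat.blt t.b 188 && Nat.blt t.c 188

theorem runF : chkF = true := by decide +kernel

theorem runV : (List.range 188).all chkV = true := by decide +kernel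

theorem runB : bd.all (fun e => chkB e.1 && chkB e.2) = true := by decide +kernel

end Pool.Agent.Work.MP_48319b_gt.Dat.ItemStd
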