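import Pool.Agent.Work.MP_48319b_gt.Data

/-!
# MP_48319b_gt, item D11: Boolean checks for the side certificate
-/

namespace Pool.Agent.Work.MP_48319b_gt.Dat.Side

/-- a positive integer -/
def posb (a : ℤ) : Bool := match a with
  | Int.ofNat n => Nat.ble 1 n
  | Int.negSucc _ => false

/-- a nonnegative integer -/
def nnb (a : ℤ) : Bool := match a with
  | Int.ofNat _ => true
  | Int.negSucc _ => false

/-- a negative integer -/
def ngb (a : ℤ) : Bool := match a with
  | Int.ofNat _ => false
  | Int.negSucc _ => true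

/-- difference -/
def sb (p q : P3) : P3 := ⟨p.x - q.x, p.y - q.y, p.z - q.z⟩

/-- determinant -/
def dt (u v w : P3) : ℤ :=
  u.x * (v.y * w.z - v.z * w.y) - u.y * (v.x * w.z - v.z * w.x) + u.z * (v.x * w.y - v.y * w.x)

/-- `b + c - 2 v` -/
def mid (v b c : P3) : P3 :=
  ⟨(b.x - v.x) + (c.x - v.x), (b.y - v.y) + (c.y - v.y), (b.z - v.z) + (c.z - v.z)⟩

/-- the vector `y` in the cone over the triangle, with the sign of the normal coordinate -/
def chkv (y A B n : P3) (neg : Bool) : Bool :=
  (posb (dt A B n) && (nnb (dt y B n) && nnb (dt A y n))) &&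
  (match neg with
    | true => ngb (dt A B y)
    | false => posb (dt A B y))

/-- the corner `(u, b, c)` -/
def chkc (y : P3) (u b c : ℕ) (neg : Bool) : Bool :=
  chkv y (sb (y0I b) (y0I u)) (sb (y0I c) (y0I u)) (nI u) neg

/-- search for the corner -/
def srch (y : P3) (u : ℕ) (neg : Bool) : List Tri → Bool
  | [] => false
  | k :: ks => (Nat.beq k.a u && chkc y u k.b k.c neg) ||
    ((Nat.beq k.b u && chkc y u k.c k.a neg) ||
    ((Nat.beq k.c u && chkc y u k.a k.b neg) || srch y u neg ks))

/-- the sign -/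
def sgr (v : ℕ) (t : Tri) (u : ℕ) : List (ℕ × Tri × ℕ) → Bool
  | [] => false
  | q :: l => (Nat.beq q.1 v && (Nat.beq q.2.2 u && (Nat.beq q.2.1.a t.a &&
    (Nat.beq q.2.1.b t.b && Nat.beq q.2.1.c t.c)))) || sgr v t u l

/-- all the `u` above `v` -/
def ups (t : Tri) (v : ℕ) (y : P3) : List ℕ → Bool
  | [] => true
  | u :: us => srch y u (sgr v t u sgL) F && ups t v y us

/-- one corner -/
def crn (t : Tri) (v b c : ℕ) : Bool := ups t v (mid (y0I v) (y0I b) (y0I c)) (up v)

/-- all corners -/
def lp : List Tri → Bool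
  | [] => true
  | t :: ts => (crn t t.a t.b t.c && (crn t t.b t.c t.a && crn t t.c t.a t.b)) && lp ts

end Pool.Agent.Work.MP_48319b_gt.Dat.Side
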